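import Mathlib

set_option autoImplicit false

open scoped Manifold ContDiff Topology
open Set

namespace Pool.Agent.H20Z.Cartan

/-- The model space `ℂⁿ`. -/
abbrev Cn (n : ℕ) : Type := Fin n → ℂ

section

variable (k m : ℕ) {P : Type} [TopologicalSpace P] [ChartedSpace (Cn k) P]
  {M : Type} [TopologicalSpace M] [ChartedSpace (Cn m) M]

/-- `f` is holomorphic. -/
def Hol (f : P → M) : Prop := ContMDiff 𝓘(ℂ, Cn k) 𝓘(ℂ, Cn m) ω f

/-- `f` is holomorphic on `U`. -/
def HolOn (f : P → M) (U : Set P) : Prop := ContMDiffOn 𝓘(ℂ, Cn k) 𝓘(ℂ, Cn m) ω f U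

/-- `f` is holomorphic on a product of two complex manifolds. -/
def Hol₂ (l : ℕ) {N : Type} [TopologicalSpace N] [ChartedSpace (Cn l) N] (f : P × M → N) : Prop :=
  ContMDiff (𝓘(ℂ, Cn k).prod 𝓘(ℂ, Cn m)) 𝓘(ℂ, Cn l) ω f

/-- The differential of `f` at `p`, between the tangent spaces at `p` and at `f p`. -/
noncomputable def D (f : P → M) (p : P) : Cn k →L[ℂ] Cn m :=
  mfderiv 𝓘(ℂ, Cn k) 𝓘(ℂ, Cn m) f p

/-- The one-form `θ` on `P` with values in `ℂ^a` is holomorphic, as a function on the tangent
bundle. -/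
def HolForm (a : ℕ) [IsManifold 𝓘(ℂ, Cn k) ω P] (θ : P → Cn k →L[ℂ] Cn a) : Prop :=
  ContMDiff 𝓘(ℂ, Cn k).tangent 𝓘(ℂ, Cn a) ω
    (fun v : TangentBundle 𝓘(ℂ, Cn k) P => θ v.1 v.2)

end

section

variable {a b n m k : ℕ}
  {G : Type} [Group G] [TopologicalSpace G] [ChartedSpace (Cn a) G]
  {H : Type} [Group H] [TopologicalSpace H] [ChartedSpace (Cn b) H]
  {X : Type} [TopologicalSpace X] [ChartedSpace (Cn n) X] [MulAction G X]

variable (a b n) in
/-- `X = G/H` is a complex homogeneous space: `ι` embeds the complex Lie group `H` as a closed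
complex Lie subgroup of `G`, and `G` acts holomorphically and transitively on `X`, the stabiliser
of the point `x₀` being the image of `H`. -/
structure IsModel (ι : H →* G) (x₀ : X) : Prop where
  holomorphic : Hol b a ι
  closedEmbedding : Topology.IsClosedEmbedding ι
  immersion : ∀ h : H, Function.Injective (D b a ι h)
  action : Hol₂ a n n (fun z : G × X => z.1 • z.2)
  transitive : ∀ x : X, ∃ g : G, g • x₀ = x
  stabilizer : ι.range = MulAction.stabilizer G x₀

variable (a) in
/-- The adjoint action of `g` on the Lie algebra `T₁G`: the derivative at `1` of the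
conjugation by `g`. -/
noncomputable def Ad (g : G) : Cn a →L[ℂ] Cn a :=
  D a a (fun x : G => g * x * g⁻¹) 1

variable (b m k) in
/-- `proj : P → M` with the right action `act` of `H` is a holomorphic principal `H`-bundle. -/
structure IsPrincipalBundle {M : Type} [TopologicalSpace M] [ChartedSpace (Cn m) M]
    {P : Type} [TopologicalSpace P] [ChartedSpace (Cn k) P] (proj : P → M) (act : P → H → P) :
    Prop where
  proj_hol : Hol k m proj
  act_hol : Hol₂ k b k (fun z : P × H => act z.1 z.2)
  act_one : ∀ p, act p 1 = p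
  act_mul : ∀ p h h', act p (h * h') = act (act p h) h'
  proj_act : ∀ p h, proj (act p h) = proj p
  locally_trivial : ∀ x : M, ∃ (U : Set M) (s : M → P) (τ : P → H), IsOpen U ∧ x ∈ U ∧
    HolOn m k s U ∧ HolOn k b τ (proj ⁻¹' U) ∧
    (∀ y ∈ U, proj (s y) = y) ∧ (∀ p ∈ proj ⁻¹' U, act (s (proj p)) (τ p) = p) ∧
    ∀ y ∈ U, ∀ h, τ (act (s y) h) = h

variable (a b k) in
/-- `θ` is a holomorphic Cartan connection: a holomorphic one-form on `P` with values in the Lie
algebra `T₁G`, an isomorphism at each point, `H`-equivariant, and reproducing the generators of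
the fundamental vector fields. -/
structure IsCartanConnection (ι : H →* G) {P : Type} [TopologicalSpace P] [ChartedSpace (Cn k) P]
    [IsManifold 𝓘(ℂ, Cn k) ω P] (act : P → H → P) (θ : P → Cn k →L[ℂ] Cn a) : Prop where
  holomorphic : HolForm k a θ
  bijective : ∀ p, Function.Bijective (θ p)
  equivariant : ∀ (p : P) (h : H) (v : Cn k),
    θ (act p h) (D k k (fun q => act q h) p v) = Ad a (ι h⁻¹) (θ p v)
  fundamental : ∀ (p : P) (A : Cn b), θ p (D b k (act p) 1 A) = D b a ι 1 A

variable (a b m) in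
/-- `M` carries a holomorphic `G/H`-geometry. -/
def HasCartanGeometry (ι : H →* G) (M : Type) [TopologicalSpace M] [ChartedSpace (Cn m) M] :
    Prop :=
  ∃ (k : ℕ) (P : Type) (_ : TopologicalSpace P) (_ : T2Space P) (_ : SecondCountableTopology P)
    (_ : ChartedSpace (Cn k) P) (_ : IsManifold 𝓘(ℂ, Cn k) ω P)
    (proj : P → M) (act : P → H → P) (θ : P → Cn k →L[ℂ] Cn a),
    IsPrincipalBundle b m k proj act ∧ IsCartanConnection a b k ι act θ

variable (n m G X) in
/-- `M` carries a holomorphic `(G, X)`-structure: an atlas of biholomorphic charts onto open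
subsets of `X` whose transition maps are, on each connected component of each overlap, given by
one element of `G`. -/
def HasGXStructure (M : Type) [TopologicalSpace M] [ChartedSpace (Cn m) M] : Prop :=
  ∃ A : Set (OpenPartialHomeomorph M X),
    (∀ x : M, ∃ e ∈ A, x ∈ e.source) ∧
    (∀ e ∈ A, HolOn m n e e.source ∧ HolOn n m e.symm e.target) ∧
    ∀ e ∈ A, ∀ e' ∈ A, ∀ x ∈ e.source ∩ e'.source, ∃ g : G,
      ∀ y ∈ connectedComponentIn (e.source ∩ e'.source) x, e' y = g • e y

variable (m) in
/-- The field of real bilinear forms `g` on the tangent spaces of `M`, read in the chart at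
`x₀`. -/
noncomputable def inChart {M : Type} [TopologicalSpace M] [ChartedSpace (Cn m) M]
    (g : M → Cn m →L[ℝ] Cn m →L[ℝ] ℝ) (x₀ : M) (y v w : Cn m) : ℝ :=
  g ((chartAt (Cn m) x₀).symm y)
    (D m m (chartAt (Cn m) x₀).symm y v) (D m m (chartAt (Cn m) x₀).symm y w)

variable (m) in
/-- The derivative at `y` in the direction `u` of the coefficient `g(i v, w)` of the fundamental
form, in the chart at `x₀`. -/
noncomputable def dFund {M : Type} [TopologicalSpace M] [ChartedSpace (Cn m) M]
    (g : M → Cn m →L[ℝ] Cn m →L[ℝ] ℝ) (x₀ : M) (y u v w : Cn m) : ℝ :=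
  fderiv ℝ (fun y' => inChart m g x₀ y' (Complex.I • v) w) y u

variable (m) in
/-- `g` is a Kaehler metric on the complex manifold `M`: a smooth Riemannian metric invariant
under multiplication by `i`, whose fundamental form `(v, w) ↦ g(i v, w)` is closed. -/
structure IsKaehlerMetric {M : Type} [TopologicalSpace M] [ChartedSpace (Cn m) M]
    (g : M → Cn m →L[ℝ] Cn m →L[ℝ] ℝ) : Prop where
  symm : ∀ x v w, g x v w = g x w v
  pos : ∀ x v, v ≠ 0 → 0 < g x v v
  hermitian : ∀ x v w, g x (Complex.I • v) (Complex.I • w) = g x v w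
  smooth : ∀ x₀ v w, ContDiffOn ℝ ∞ (fun y => inChart m g x₀ y v w) (chartAt (Cn m) x₀).target
  closed : ∀ x₀, ∀ y ∈ (chartAt (Cn m) x₀).target, ∀ u v w : Cn m,
    dFund m g x₀ y u v w + dFund m g x₀ y v w u + dFund m g x₀ y w u v = 0

variable (m) in
/-- `M` admits a Kaehler metric. -/
def IsKaehler (M : Type) [TopologicalSpace M] [ChartedSpace (Cn m) M] : Prop :=
  ∃ g : M → Cn m →L[ℝ] Cn m →L[ℝ] ℝ, IsKaehlerMetric m g

end

end Pool.Agent.H20Z.Cartan
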