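import Pool.Agent.H20Z.CartanTorus

set_option autoImplicit false

open scoped Manifold ContDiff Topology
open Metric Set Bundle Filter

noncomputable section

namespace Pool.Agent.H20Z.Cartan

/-- The universal cover of the affine group of the complex line. -/
def Aff : Type := Cn 2

instance : TopologicalSpace Aff := inferInstanceAs (TopologicalSpace (Cn 2))
instance : T2Space Aff := inferInstanceAs (T2Space (Cn 2))
instance : ConnectedSpace Aff := inferInstanceAs (ConnectedSpace (Cn 2))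
instance : SecondCountableTopology Aff := inferInstanceAs (SecondCountableTopology (Cn 2))
instance : ChartedSpace (Cn 2) Aff := inferInstanceAs (ChartedSpace (Cn 2) (Cn 2))
instance : IsManifold 𝓘(ℂ, Cn 2) ω Aff := inferInstanceAs (IsManifold 𝓘(ℂ, Cn 2) ω (Cn 2))

def amul (x y : Cn 2) : Cn 2 := ![x 0 + y 0, x 1 + Complex.exp (x 0) * y 1]

def ainv (x : Cn 2) : Cn 2 := ![-x 0, -(Complex.exp (-x 0) * x 1)]

lemma Cn2_ext {v w : Cn 2} (h0 : v 0 = w 0) (h1 : v 1 = w 1) : v = w := by
  funext i; fin_cases i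
  · exact h0
  · exact h1

instance : Group Aff where
  mul x y := amul x y
  one := (0 : Cn 2)
  inv x := ainv x
  mul_assoc x y z := by
    change amul (amul x y) z = amul x (amul y z)
    apply Cn2_ext
    · simp [amul, add_assoc]
    · simp [amul, Complex.exp_add]; ring
  one_mul x := by
    change amul 0 x = x
    apply Cn2_ext <;> simp [amul]
  mul_one x := by
    change amul x 0 = x
    apply Cn2_ext <;> simp [amul]
  inv_mul_cancel x := by
    change amul (ainv x) x = (0 : Cn 2)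
    apply Cn2_ext <;> simp [amul, ainv]

lemma contDiff_amul : ContDiff ℂ ω (fun p : Cn 2 × Cn 2 => amul p.1 p.2) := by
  rw [contDiff_pi]
  intro i
  fin_cases i
  · simp only [amul, Fin.zero_eta, Matrix.cons_val_zero]; fun_prop
  · simp only [amul, Fin.mk_one, Matrix.cons_val_one, Matrix.cons_val_zero]; fun_prop

lemma contDiff_ainv : ContDiff ℂ ω ainv := by
  rw [contDiff_pi]
  intro i
  fin_cases i
  · simp only [ainv, Fin.zero_eta, Matrix.cons_val_zero]; fun_prop
  · simp only [ainv, Fin.mk_one, Matrix.cons_val_one, Matrix.cons_val_zero]; fun_prop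

lemma contMDiff_amul : ContMDiff (𝓘(ℂ, Cn 2).prod 𝓘(ℂ, Cn 2)) 𝓘(ℂ, Cn 2) ω
    (fun p : Cn 2 × Cn 2 => amul p.1 p.2) := by
  rw [← modelWithCornersSelf_prod, chartedSpaceSelf_prod]
  exact contDiff_amul.contMDiff

instance : LieGroup 𝓘(ℂ, Cn 2) ω Aff where
  contMDiff_mul := contMDiff_amul
  contMDiff_inv := (contDiff_ainv.contMDiff : ContMDiff 𝓘(ℂ, Cn 2) 𝓘(ℂ, Cn 2) ω ainv)

/-- The trivial group. -/
def Triv : Type := Cn 0

instance : TopologicalSpace Triv := inferInstanceAs (TopologicalSpace (Cn 0))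
instance : T2Space Triv := inferInstanceAs (T2Space (Cn 0))
instance : SecondCountableTopology Triv := inferInstanceAs (SecondCountableTopology (Cn 0))
instance : ChartedSpace (Cn 0) Triv := inferInstanceAs (ChartedSpace (Cn 0) (Cn 0))
instance : IsManifold 𝓘(ℂ, Cn 0) ω Triv := inferInstanceAs (IsManifold 𝓘(ℂ, Cn 0) ω (Cn 0))
instance : Unique Triv := inferInstanceAs (Unique (Fin 0 → ℂ))

instance : Group Triv where
  mul _ _ := default
  one := default
  inv _ := default
  mul_assoc _ _ _ := Subsingleton.elim _ _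
  one_mul _ := Subsingleton.elim _ _
  mul_one _ := Subsingleton.elim _ _
  inv_mul_cancel _ := Subsingleton.elim _ _

instance : LieGroup 𝓘(ℂ, Cn 0) ω Triv where
  contMDiff_mul := by
    have : (fun p : Triv × Triv => p.1 * p.2) = fun _ => default := by
      funext p; exact Subsingleton.elim _ _
    rw [this]; exact contMDiff_const
  contMDiff_inv := by
    have : (fun p : Triv => p⁻¹) = fun _ => default := by
      funext p; exact Subsingleton.elim _ _
    rw [this]; exact contMDiff_const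

theorem isModel : IsModel 2 0 2 (1 : Triv →* Aff) (1 : Aff) := by
  refine ⟨contMDiff_const, ?_, fun h => ?_, contMDiff_amul, fun x => ⟨x, mul_one x⟩, ?_⟩
  · exact Continuous.isClosedEmbedding continuous_const (fun _ _ _ => Subsingleton.elim _ _)
  · intro v w _
    exact (inferInstance : Subsingleton (Fin 0 → ℂ)).elim v w
  · ext g
    simp only [MonoidHom.mem_range, MonoidHom.one_apply, MulAction.mem_stabilizer_iff, smul_eq_mul,
      mul_one]
    exact ⟨fun ⟨_, h⟩ => h.symm, fun h => ⟨1, h.symm⟩⟩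

theorem Ad_one : Ad 2 (1 : Aff) = ContinuousLinearMap.id ℂ (Cn 2) := by
  unfold Ad D
  have : (fun x : Aff => 1 * x * 1⁻¹) = id := by funext x; simp
  rw [this, mfderiv_id]
  rfl

theorem hasGeometry : HasCartanGeometry 2 0 2 (1 : Triv →* Aff) Tor := by
  refine ⟨2, Tor, inferInstance, inferInstance, inferInstance, inferInstance, inferInstance,
    id, fun p _ => p, fun _ => ContinuousLinearMap.id ℂ (Cn 2), ⟨contMDiff_id, contMDiff_fst,
      fun _ => rfl, fun _ _ _ => rfl, fun _ _ => rfl, fun x => ?_⟩, ⟨contMDiff_snd_Tor,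
      fun _ => Function.bijective_id, fun p h v => ?_, fun p A => ?_⟩⟩
  · exact ⟨univ, id, fun _ => 1, isOpen_univ, mem_univ _, contMDiffOn_id, contMDiffOn_const,
      fun _ _ => rfl, fun _ _ => rfl, fun _ _ _ => Subsingleton.elim _ _⟩
  · rw [MonoidHom.one_apply, Ad_one]
    change (mfderiv 𝓘(ℂ, Cn 2) 𝓘(ℂ, Cn 2) (id : Tor → Tor) p v : Cn 2) = v
    rw [mfderiv_id]
    rfl
  · have hA : A = 0 := (inferInstance : Subsingleton (Fin 0 → ℂ)).elim A 0
    rw [hA, map_zero, map_zero, map_zero]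

/-- A holomorphic map on `ℂ²` that factors through the torus is constant. -/
lemma const_of_periodic {F : Type*} [NormedAddCommGroup F] [NormedSpace ℂ F] (α : Cn 2 → F)
    (hα : Differentiable ℂ α) (hper : ∀ z w, pr z = pr w → α z = α w) (z w : Cn 2) :
    α z = α w := by
  refine hα.apply_eq_apply_of_bounded ?_ z w
  have h1 : range α ⊆ α '' closedBall 0 2 := by
    rintro _ ⟨z, rfl⟩
    refine ⟨lft (pr z), ?_, hper _ _ (pr_lft _)⟩
    rw [mem_closedBall_zero_iff]; exact norm_lft_le _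
  exact (((isCompact_closedBall (0 : Cn 2) 2).image hα.continuous).isBounded).subset h1

theorem not_hasGX : ¬ HasGXStructure 2 2 Aff Aff Tor := by
  rintro ⟨A, hcov, hhol, htr⟩
  choose e heA hex using hcov
  -- local developing maps
  let ψ : Tor → Cn 2 → Cn 2 := fun x z => e x (pr z)
  have hψ : ∀ (x : Tor) (z : Cn 2), pr z ∈ (e x).source → ContDiffAt ℂ ω (ψ x) z := by
    intro x z hz
    have h1 : ContMDiffAt 𝓘(ℂ, Cn 2) 𝓘(ℂ, Cn 2) ω (e x) (pr z) :=
      (hhol _ (heA x)).1.contMDiffAt ((e x).open_source.mem_nhds hz)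
    have h2 : ContMDiffAt 𝓘(ℂ, Cn 2) 𝓘(ℂ, Cn 2) ω (ψ x) z := h1.comp z (contMDiff_pr z)
    exact contMDiffAt_iff_contDiffAt.1 h2
  have hψi : ∀ (x : Tor) (z : Cn 2) (i : Fin 2), pr z ∈ (e x).source →
      ContDiffAt ℂ ω (fun w => ψ x w i) z := fun x z i hz => contDiffAt_pi.1 (hψ x z hz) i
  have hev : ∀ (x : Tor) (z : Cn 2), pr z ∈ (e x).source → ∀ᶠ w in 𝓝 z, pr w ∈ (e x).source :=
    fun x z hz => (contMDiff_pr z).continuousAt.preimage_mem_nhds ((e x).open_source.mem_nhds hz)
  have : LocallyConnectedSpace Tor := ChartedSpace.locallyConnectedSpace (Cn 2) Tor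
  have hloc : ∀ (x y : Tor) (z : Cn 2), pr z ∈ (e x).source → pr z ∈ (e y).source →
      ∃ g : Cn 2, ∀ᶠ w in 𝓝 z, ψ y w = amul g (ψ x w) := by
    intro x y z hx hy
    obtain ⟨g, hg⟩ := htr _ (heA x) _ (heA y) (pr z) ⟨hx, hy⟩
    refine ⟨g, ?_⟩
    have h1 : connectedComponentIn ((e x).source ∩ (e y).source) (pr z) ∈ 𝓝 (pr z) :=
      connectedComponentIn_mem_nhds
        (((e x).open_source.inter (e y).open_source).mem_nhds ⟨hx, hy⟩)
    filter_upwards [(contMDiff_pr z).continuousAt.preimage_mem_nhds h1] with w hw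
    exact hg _ hw
  let a : Tor → Cn 2 → (Cn 2 →L[ℂ] ℂ) := fun x z => fderiv ℂ (fun w => ψ x w 0) z
  let b : Tor → Cn 2 → (Cn 2 →L[ℂ] ℂ) := fun x z =>
    Complex.exp (-ψ x z 0) • fderiv ℂ (fun w => ψ x w 1) z
  have hab : ∀ (x y : Tor) (z : Cn 2), pr z ∈ (e x).source → pr z ∈ (e y).source →
      a y z = a x z ∧ b y z = b x z := by
    intro x y z hx hy
    obtain ⟨g, hg⟩ := hloc x y z hx hy
    have h0 : (fun w => ψ y w 0) =ᶠ[𝓝 z] fun w => g 0 + ψ x w 0 := by
      filter_upwards [hg] with w hw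
      rw [hw]; simp [amul]
    have h1 : (fun w => ψ y w 1) =ᶠ[𝓝 z] fun w => g 1 + Complex.exp (g 0) * ψ x w 1 := by
      filter_upwards [hg] with w hw
      rw [hw]; simp [amul]
    have hd1 : DifferentiableAt ℂ (fun w => ψ x w 1) z := (hψi x z 1 hx).differentiableAt (by simp)
    constructor
    · simp only [a]
      rw [h0.fderiv_eq, fderiv_const_add]
    · simp only [b]
      rw [h1.fderiv_eq, fderiv_const_add, fderiv_const_mul hd1, h0.eq_of_nhds, smul_smul,
        ← Complex.exp_add]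
      congr 2
      ring
  let α : Cn 2 → (Cn 2 →L[ℂ] ℂ) := fun z => a (pr z) z
  let β : Cn 2 → (Cn 2 →L[ℂ] ℂ) := fun z => b (pr z) z
  have hαe : ∀ (x : Tor) (z : Cn 2), pr z ∈ (e x).source → α =ᶠ[𝓝 z] a x := by
    intro x z hz
    filter_upwards [hev x z hz] with w hw
    exact (hab x (pr w) w hw (hex _)).1
  have hβe : ∀ (x : Tor) (z : Cn 2), pr z ∈ (e x).source → β =ᶠ[𝓝 z] b x := by
    intro x z hz
    filter_upwards [hev x z hz] with w hw
    exact (hab x (pr w) w hw (hex _)).2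
  have hfd : ∀ (x : Tor) (z : Cn 2) (i : Fin 2), pr z ∈ (e x).source →
      DifferentiableAt ℂ (fderiv ℂ (fun w => ψ x w i)) z := fun x z i hz =>
    ((hψi x z i hz).fderiv_right (m := 1) le_top).differentiableAt (by simp)
  have hαd : Differentiable ℂ α := fun z =>
    (hfd (pr z) z 0 (hex _)).congr_of_eventuallyEq (hαe _ z (hex _))
  have hβd : Differentiable ℂ β := fun z => by
    refine DifferentiableAt.congr_of_eventuallyEq ?_ (hβe _ z (hex _))
    have h0 : DifferentiableAt ℂ (fun w => ψ (pr z) w 0) z :=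
      (hψi _ z 0 (hex _)).differentiableAt (by simp)
    exact (h0.neg.cexp).smul (hfd (pr z) z 1 (hex _))
  have hshift : ∀ (x : Tor) (i : Fin 2) (z w : Cn 2), pr z = pr w →
      fderiv ℂ (fun u => ψ x u i) z = fderiv ℂ (fun u => ψ x u i) w := by
    intro x i z w hzw
    have h1 : (fun u => ψ x u i) = fun u => (fun u => ψ x u i) (u + (z - w)) := by
      funext u
      simp only [ψ, pr_add hzw u]
    have h2 := fderiv_comp_add_right (𝕜 := ℂ) (f := fun u => ψ x u i) (x := w) (z - w)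
    rw [← h1] at h2
    rw [h2]
    congr 1
    abel
  have hαc := const_of_periodic α hαd (fun z w h => by
    simp only [α, a]; rw [hshift _ 0 z w h, h])
  have hβc := const_of_periodic β hβd (fun z w h => by
    simp only [β, b]; rw [hshift _ 1 z w h, h]
    simp only [ψ, h])
  -- work near `0`
  set x := pr 0 with hx
  have hx0 : pr 0 ∈ (e x).source := hex _
  have hA : ∀ᶠ w in 𝓝 (0 : Cn 2), fderiv ℂ (fun u => ψ x u 0) w = α 0 := by
    filter_upwards [hαe x 0 hx0] with w hw
    rw [← hαc w 0, hw]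
  have hB : (fderiv ℂ (fun u => ψ x u 1)) =ᶠ[𝓝 (0 : Cn 2)]
      fun w => Complex.exp (ψ x w 0) • β 0 := by
    filter_upwards [hβe x 0 hx0] with w hw
    rw [← hβc w 0, hw]
    simp only [b]
    rw [smul_smul, ← Complex.exp_add, add_neg_cancel, Complex.exp_zero, one_smul]
  have hd0 : HasFDerivAt (fun u => ψ x u 0) (α 0) 0 := by
    rw [← hA.self_of_nhds]
    exact ((hψi x 0 0 hx0).differentiableAt (by simp)).hasFDerivAt
  have hd1 : HasFDerivAt (fun u => ψ x u 1) (Complex.exp (ψ x 0 0) • β 0) 0 := by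
    rw [← hB.eq_of_nhds]
    exact ((hψi x 0 1 hx0).differentiableAt (by simp)).hasFDerivAt
  have h2 : fderiv ℂ (fderiv ℂ (fun u => ψ x u 1)) 0
      = (Complex.exp (ψ x 0 0) • α 0).smulRight (β 0) := by
    rw [hB.fderiv_eq]
    exact (hd0.cexp.smul_const (β 0)).fderiv
  have hsym := ((hψi x 0 1 hx0).isSymmSndFDerivAt (by simp)).eq
  have hwedge : ∀ u v : Cn 2, α 0 u * β 0 v = α 0 v * β 0 u := by
    intro u v
    have h := hsym u v
    rw [h2] at h
    simp only [ContinuousLinearMap.smulRight_apply, smul_apply,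
      smul_eq_mul] at h
    have he := Complex.exp_ne_zero (ψ x 0 0)
    apply mul_left_cancel₀ he
    linear_combination h
  -- the derivative of the chart is injective
  have hinj : ∀ v : Cn 2, α 0 v = 0 → β 0 v = 0 → v = 0 := by
    intro v hv1 hv2
    let θ : Cn 2 → Cn 2 := fun y => (cube 0).symm ((e x).symm y)
    have hc0 : pr 0 ∈ (cube 0).target := (cube 0).map_source (self_mem_cube 0)
    have hθ : DifferentiableAt ℂ θ (ψ x 0) := by
      have h1 : ContMDiffAt 𝓘(ℂ, Cn 2) 𝓘(ℂ, Cn 2) ω (e x).symm (e x (pr 0)) :=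
        (hhol _ (heA x)).2.contMDiffAt ((e x).open_target.mem_nhds ((e x).map_source hx0))
      have hmax : (cube 0).symm ∈ IsManifold.maximalAtlas 𝓘(ℂ, Cn 2) ω Tor :=
        IsManifold.subset_maximalAtlas ⟨0, rfl⟩
      have h3 : ContMDiffAt 𝓘(ℂ, Cn 2) 𝓘(ℂ, Cn 2) ω (cube 0).symm ((e x).symm (e x (pr 0))) := by
        rw [(e x).left_inv hx0]
        exact contMDiffAt_of_mem_maximalAtlas hmax hc0
      have h4 : ContMDiffAt 𝓘(ℂ, Cn 2) 𝓘(ℂ, Cn 2) ω θ (ψ x 0) := h3.comp _ h1
      exact (contMDiffAt_iff_contDiffAt.1 h4).differentiableAt (by simp)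
    have hψd : DifferentiableAt ℂ (ψ x) 0 := (hψ x 0 hx0).differentiableAt (by simp)
    obtain ⟨n, hn⟩ := chart_comp_pr 0 0 hc0
    have hcomp : (θ ∘ ψ x) =ᶠ[𝓝 0] fun y => y + n := by
      filter_upwards [hn, hev x 0 hx0] with w hw1 hw2
      simp only [θ, ψ, Function.comp]
      rw [(e x).left_inv hw2, hw1]
    have h5 : (fderiv ℂ θ (ψ x 0)).comp (fderiv ℂ (ψ x) 0) = ContinuousLinearMap.id ℂ (Cn 2) := by
      rw [← fderiv_comp 0 hθ hψd, hcomp.fderiv_eq]
      exact ((hasFDerivAt_id (0 : Cn 2)).add_const n).fderiv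
    have h6 : fderiv ℂ (ψ x) 0 v = 0 := by
      have hp := hasFDerivAt_pi'.1 hψd.hasFDerivAt
      apply Cn2_ext
      · have := (hp 0).unique hd0
        have h7 := congrArg (fun L : Cn 2 →L[ℂ] ℂ => L v) this
        simpa [hv1] using h7
      · have := (hp 1).unique hd1
        have h7 := congrArg (fun L : Cn 2 →L[ℂ] ℂ => L v) this
        simpa [hv2] using h7
    have h8 := congrArg (fun L : Cn 2 →L[ℂ] Cn 2 => L v) h5
    simp only [ContinuousLinearMap.comp_apply, h6, map_zero, ContinuousLinearMap.id_apply] at h8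
    exact h8.symm
  let e0 : Cn 2 := Pi.single 0 1
  let e1 : Cn 2 := Pi.single 1 1
  have hw := hwedge e0 e1
  have k1 := hinj (α 0 e1 • e0 - α 0 e0 • e1) (by simp; ring) (by
    simp only [map_sub, map_smul, smul_eq_mul]; linear_combination -hw)
  have k2 := hinj (β 0 e1 • e0 - β 0 e0 • e1) (by
    simp only [map_sub, map_smul, smul_eq_mul]; linear_combination hw) (by simp; ring)
  have k3 : α 0 e0 = 0 := by simpa [e0, e1] using congrFun k1 1
  have k4 : β 0 e0 = 0 := by simpa [e0, e1] using congrFun k2 1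
  have k5 := congrFun (hinj e0 k3 k4) 0
  simp [e0] at k5

end Pool.Agent.H20Z.Cartan
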