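import Mathlib

set_option autoImplicit false

open MeasureTheory Filter Topology
open scoped ContDiff

namespace Pool.Agent.H20Z.Anosov

section Entropy

variable {X : Type*} [MeasurableSpace X]

/-- Shannon entropy of the finite partition of `X` into the sets `{P = i}`:
the sum over `i` of `- μ(P = i) log μ(P = i)`. -/
noncomputable def shannonEntropy {ι : Type*} [Fintype ι] (μ : Measure X) (P : X → ι) : ℝ :=
  ∑ i, Real.negMulLog (μ.real (P ⁻¹' {i}))

/-- The join of the partitions `P, T⁻¹P, ..., T^{-(n-1)}P`: the point `x` is sent to the word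
`P(x), P(Tx), ..., P(T^{n-1}x)`. -/
def itinerary {ι : Type*} (T : X → X) (P : X → ι) (n : ℕ) (x : X) : Fin n → ι :=
  fun j => P (T^[j] x)

/-- Entropy of `T` relative to the finite partition `P`: the limit of
`H_μ(P ∨ T⁻¹P ∨ ... ∨ T^{-(n-1)}P) / n` (written as an upper limit). -/
noncomputable def partitionEntropy (μ : Measure X) (T : X → X) {k : ℕ} (P : X → Fin k) : EReal :=
  limsup (fun n : ℕ => ((shannonEntropy μ (itinerary T P n) / n : ℝ) : EReal)) atTop

/-- Kolmogorov-Sinai (metric) entropy `h_μ(T)`: the supremum over all finite measurable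
partitions. -/
noncomputable def metricEntropy (μ : Measure X) (T : X → X) : EReal :=
  ⨆ (k : ℕ) (P : X → Fin k) (_ : Measurable P), partitionEntropy μ T P

/-- Pressure of the potential `φ`: the supremum of `h_μ(T) + ∫ φ dμ` over all `T`-invariant
probability measures `μ`. -/
noncomputable def pressure (T : X → X) (φ : X → ℝ) : EReal :=
  ⨆ (μ : Measure X) (_ : IsProbabilityMeasure μ) (_ : MeasurePreserving T μ μ),
    metricEntropy μ T + ((∫ x, φ x ∂μ : ℝ) : EReal)

end Entropy

/-- The torus `ℝ²/ℤ²`. -/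
abbrev T2 : Type := UnitAddCircle × UnitAddCircle

/-- The Euclidean plane. -/
abbrev R2 : Type := EuclideanSpace ℝ (Fin 2)

/-- The covering map `ℝ² → ℝ²/ℤ²`. -/
def proj (x : R2) : T2 := (((x 0 : ℝ) : UnitAddCircle), ((x 1 : ℝ) : UnitAddCircle))

/-- `F` is a lift of `f` to the plane. -/
def IsLift (f : T2 → T2) (F : R2 → R2) : Prop := ∀ x, proj (F x) = f (proj x)

/-- `f` is a map of class `C^n` of the torus: it has a lift of class `C^n` to the plane. -/
def IsCn (n : WithTop ℕ∞) (f : T2 → T2) : Prop := ∃ F : R2 → R2, ContDiff ℝ n F ∧ IsLift f F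

/-- `D p` is the derivative at `p` of the `C^∞` map `f` of the torus, in the standard
trivialisation of the tangent bundle. -/
def IsSmoothWithDeriv (f : T2 → T2) (D : T2 → (R2 →L[ℝ] R2)) : Prop :=
  ∃ F : R2 → R2, ContDiff ℝ ∞ F ∧ IsLift f F ∧ ∀ x, fderiv ℝ F x = D (proj x)

/-- The derivative of `f^n` at `p`: the product `D(f^{n-1} p) ⋯ D(f p) D(p)`. -/
noncomputable def derivIter (f : T2 → T2) (D : T2 → (R2 →L[ℝ] R2)) : ℕ → T2 → (R2 →L[ℝ] R2)
  | 0, _ => ContinuousLinearMap.id ℝ R2
  | n + 1, p => (D (f^[n] p)).comp (derivIter f D n p)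

/-- `E` is a continuous field of lines on the torus: it is spanned by a continuous
nowhere vanishing vector field. -/
def IsLineField (E : T2 → Submodule ℝ R2) : Prop :=
  ∃ e : T2 → R2, Continuous e ∧ ∀ p, e p ≠ 0 ∧ E p = Submodule.span ℝ {e p}

/-- A `C^∞` Anosov diffeomorphism of the torus, with its derivative and its stable and unstable
line fields. -/
structure AnosovDiffeo where
  /-- the underlying bijection -/
  map : T2 ≃ T2
  /-- its derivative -/
  D : T2 → (R2 →L[ℝ] R2)
  /-- the stable line field -/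
  Es : T2 → Submodule ℝ R2
  /-- the unstable line field -/
  Eu : T2 → Submodule ℝ R2
  smooth : IsSmoothWithDeriv map D
  smooth_inv : IsCn ∞ map.symm
  line_s : IsLineField Es
  line_u : IsLineField Eu
  isCompl : ∀ p, IsCompl (Es p) (Eu p)
  inv_s : ∀ p, (Es p).map (D p : R2 →ₗ[ℝ] R2) = Es (map p)
  inv_u : ∀ p, (Eu p).map (D p : R2 →ₗ[ℝ] R2) = Eu (map p)
  rates : ∃ C l : ℝ, 0 < C ∧ 0 < l ∧ l < 1 ∧ ∀ (n : ℕ) (p : T2),
    (∀ v ∈ Es p, ‖derivIter map D n p v‖ ≤ C * l ^ n * ‖v‖) ∧
    (∀ v ∈ Eu p, ‖v‖ ≤ C * l ^ n * ‖derivIter map D n p v‖)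

/-- The geometric potential `φ_t(p) = -t log |Df restricted to E_u(p)|`. -/
noncomputable def AnosovDiffeo.potential (f : AnosovDiffeo) (t : ℝ) (p : T2) : ℝ :=
  -t * Real.log ‖(f.D p).comp (f.Eu p).subtypeL‖

/-- The pressure function `t ↦ P(φ_t)`. -/
noncomputable def AnosovDiffeo.pressureFn (f : AnosovDiffeo) (t : ℝ) : EReal :=
  pressure f.map (f.potential t)

end Pool.Agent.H20Z.Anosov
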