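import Pool.Agent.H20Z.AnosovDefs

set_option autoImplicit false

open MeasureTheory Filter Topology
open scoped ENNReal NNReal

namespace Pool.Agent.H20Z.Anosov

variable {X : Type*} [MeasurableSpace X]

lemma negMulLog_add_le' {x y : ℝ} (hx : 0 ≤ x) (hy : 0 ≤ y) :
    Real.negMulLog (x + y) ≤ Real.negMulLog x + Real.negMulLog y := by
  rcases hx.eq_or_lt with rfl | hx
  · simp
  rcases hy.eq_or_lt with rfl | hy
  · simp
  unfold Real.negMulLog
  have h1 : Real.log x ≤ Real.log (x + y) := Real.log_le_log hx (by linarith)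
  have h2 : Real.log y ≤ Real.log (x + y) := Real.log_le_log hy (by linarith)
  nlinarith

lemma negMulLog_sum_le {κ : Type*} (s : Finset κ) (a : κ → ℝ) (ha : ∀ j, 0 ≤ a j) :
    Real.negMulLog (∑ j ∈ s, a j) ≤ ∑ j ∈ s, Real.negMulLog (a j) := by
  classical
  induction s using Finset.induction_on with
  | empty => simp
  | insert j s hj ih =>
    rw [Finset.sum_insert hj, Finset.sum_insert hj]
    refine (negMulLog_add_le' (ha j) (Finset.sum_nonneg fun i _ => ha i)).trans ?_
    linarith

/-- A coarser partition has smaller entropy. -/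
lemma shannonEntropy_factor {ι κ : Type*} [Fintype ι] [Fintype κ] (μ : Measure X)
    [IsFiniteMeasure μ] (Q : X → κ) (hQ : ∀ j, MeasurableSet (Q ⁻¹' {j})) (ψ : κ → ι) :
    shannonEntropy μ (fun x => ψ (Q x)) ≤ shannonEntropy μ Q := by
  classical
  unfold shannonEntropy
  rw [← Finset.sum_fiberwise (s := Finset.univ) (g := ψ)
    (f := fun j => Real.negMulLog (μ.real (Q ⁻¹' {j})))]
  refine Finset.sum_le_sum fun i _ => ?_
  have h1 : (fun x => ψ (Q x)) ⁻¹' {i}
      = ⋃ j ∈ Finset.univ.filter (fun j => ψ j = i), Q ⁻¹' {j} := by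
    ext x; simp
  rw [h1, measureReal_biUnion_finset]
  · exact negMulLog_sum_le _ _ fun j => measureReal_nonneg
  · intro a _ b _ hab
    refine Set.disjoint_left.2 fun x hx hy => hab ?_
    simp only [Set.mem_preimage, Set.mem_singleton_iff] at hx hy
    rw [← hx, ← hy]
  · intro j _; exact hQ j

/-- Concavity of the Shannon entropy in the measure. -/
lemma shannonEntropy_avg {κ : Type*} [Fintype κ] (μ ν : Measure X) [IsFiniteMeasure μ]
    [IsFiniteMeasure ν] (Q : X → κ) :
    (shannonEntropy μ Q + shannonEntropy ν Q) / 2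
      ≤ shannonEntropy ((2⁻¹ : ℝ≥0) • (μ + ν)) Q := by
  unfold shannonEntropy
  rw [← Finset.sum_add_distrib, Finset.sum_div]
  refine Finset.sum_le_sum fun j _ => ?_
  have h1 : (((2⁻¹ : ℝ≥0) • (μ + ν) : Measure X)).real (Q ⁻¹' {j})
      = (1 / 2 : ℝ) * μ.real (Q ⁻¹' {j}) + (1 / 2 : ℝ) * ν.real (Q ⁻¹' {j}) := by
    rw [measureReal_nnreal_smul_apply, measureReal_add_apply]
    push_cast; ring
  rw [h1]
  have h := Real.concaveOn_negMulLog.2
    (Set.mem_Ici.2 (measureReal_nonneg (μ := μ) (s := Q ⁻¹' {j})))
    (Set.mem_Ici.2 (measureReal_nonneg (μ := ν) (s := Q ⁻¹' {j})))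
    (show (0 : ℝ) ≤ 1 / 2 by norm_num) (show (0 : ℝ) ≤ 1 / 2 by norm_num) (by norm_num)
  simp only [smul_eq_mul] at h
  linarith

lemma shannonEntropy_map {κ : Type*} [Fintype κ] (μ : Measure X) (T : X ≃ᵐ X) (Q : X → κ) :
    shannonEntropy (μ.map T) Q = shannonEntropy μ (fun x => Q (T x)) := by
  unfold shannonEntropy
  refine Finset.sum_congr rfl fun j _ => ?_
  congr 1
  unfold Measure.real
  rw [MeasurableEquiv.map_apply]
  rfl

omit [MeasurableSpace X] in
lemma iterate_twist {f g T : X → X} (hTT : ∀ x, T (T x) = x) (hc : ∀ x, f (T x) = T (f x))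
    (hg : ∀ x, g x = T (f x)) (j : ℕ) :
    (∀ x, f^[j] x = g^[j] x) ∨ (∀ x, f^[j] x = T (g^[j] x)) := by
  induction j with
  | zero => left; intro x; rfl
  | succ j ih =>
    rcases ih with ih | ih
    · right; intro x
      rw [Function.iterate_succ_apply', Function.iterate_succ_apply', hg, hTT, ih]
    · left; intro x
      rw [Function.iterate_succ_apply', Function.iterate_succ_apply', hg, ih, hc]

omit [MeasurableSpace X] in
lemma iterate_comm' {g T : X → X} (hc : ∀ x, g (T x) = T (g x)) (j : ℕ) (x : X) :
    g^[j] (T x) = T (g^[j] x) := by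
  induction j with
  | zero => rfl
  | succ j ih => rw [Function.iterate_succ_apply', Function.iterate_succ_apply', ih, hc]

lemma measurableSet_itinerary {k : ℕ} {g : X → X} (hg : Measurable g) {Q : X → Fin k}
    (hQ : Measurable Q) (n : ℕ) (w : Fin n → Fin k) :
    MeasurableSet (itinerary g Q n ⁻¹' {w}) := by
  have : Measurable (itinerary g Q n) :=
    measurable_pi_lambda _ (fun j => hQ.comp (hg.iterate j))
  exact this (measurableSet_singleton w)

/-- The entropy of `f` for `μ` is at most the entropy of `T ∘ f` for the symmetrised measure. -/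
lemma metricEntropy_twist {f g : X → X} (T : X ≃ᵐ X) (hf : Measurable f)
    (hTT : ∀ x, T (T x) = x) (hc : ∀ x, f (T x) = T (f x)) (hg : ∀ x, g x = T (f x))
    (μ : Measure X) [IsProbabilityMeasure μ] :
    metricEntropy μ f ≤ metricEntropy ((2⁻¹ : ℝ≥0) • (μ + μ.map T)) g := by
  classical
  have hgm : Measurable g := by
    have : g = fun x => T (f x) := funext hg
    rw [this]; exact T.measurable.comp hf
  have hgc : ∀ x, g (T x) = T (g x) := fun x => by rw [hg, hg, hc]
  unfold metricEntropy
  refine iSup_le fun k => iSup_le fun P => iSup_le fun hP => ?_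
  let Q : X → Fin (k * k) := fun x => finProdFinEquiv (P x, P (T x))
  have hQ : Measurable Q := by
    have h1 : Measurable (fun x => (P x, P (T x))) := hP.prodMk (hP.comp T.measurable)
    exact (measurable_of_countable _).comp h1
  refine le_trans ?_ (le_iSup₂_of_le (k * k) Q (le_iSup_of_le hQ le_rfl))
  unfold partitionEntropy
  refine limsup_le_limsup (Eventually.of_forall fun n => ?_)
  simp only [EReal.coe_le_coe_iff]
  refine div_le_div_of_nonneg_right ?_ (Nat.cast_nonneg n)
  refine le_trans ?_ (shannonEntropy_avg μ (μ.map T) (itinerary g Q n))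
  have hA : shannonEntropy μ (itinerary f P n) ≤ shannonEntropy μ (itinerary g Q n) := by
    let ψ : (Fin n → Fin (k * k)) → (Fin n → Fin k) := fun w j =>
      if (∀ x, f^[j] x = g^[j] x) then (finProdFinEquiv.symm (w j)).1
      else (finProdFinEquiv.symm (w j)).2
    have e : itinerary f P n = fun x => ψ (itinerary g Q n x) := by
      funext x j
      simp only [ψ, itinerary, Q, Equiv.symm_apply_apply]
      split_ifs with h
      · rw [h]
      · rcases iterate_twist hTT hc hg j with h' | h'
        · exact absurd h' h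
        · rw [h']
    rw [e]
    exact shannonEntropy_factor μ _ (measurableSet_itinerary hgm hQ n) ψ
  have hB : shannonEntropy μ (itinerary f P n) ≤ shannonEntropy (μ.map T) (itinerary g Q n) := by
    rw [shannonEntropy_map]
    let ψ : (Fin n → Fin (k * k)) → (Fin n → Fin k) := fun w j =>
      if (∀ x, f^[j] x = g^[j] x) then (finProdFinEquiv.symm (w j)).2
      else (finProdFinEquiv.symm (w j)).1
    have e : itinerary f P n = fun x => ψ (itinerary g Q n (T x)) := by
      funext x j
      simp only [ψ, itinerary, Q, Equiv.symm_apply_apply]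
      rw [iterate_comm' hgc, hTT]
      split_ifs with h
      · rw [h]
      · rcases iterate_twist hTT hc hg j with h' | h'
        · exact absurd h' h
        · rw [h']
    rw [e]
    exact shannonEntropy_factor μ (fun x => itinerary g Q n (T x))
      (fun w => T.measurable (measurableSet_itinerary hgm hQ n w)) ψ
  linarith

lemma integral_twist (T : X ≃ᵐ X) (φ : X → ℝ) (hφ : ∀ x, φ (T x) = φ x) (μ : Measure X) :
    ∫ x, φ x ∂((2⁻¹ : ℝ≥0) • (μ + μ.map T)) = ∫ x, φ x ∂μ := by
  have hφ' : φ ∘ T = φ := funext hφ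
  rw [integral_smul_nnreal_measure]
  by_cases h : Integrable φ μ
  · have h2 : Integrable φ (μ.map T) := by
      rw [integrable_map_equiv, hφ']; exact h
    rw [integral_add_measure h h2, integral_map_equiv]
    simp only [hφ]
    rw [NNReal.smul_def]
    push_cast
    rw [smul_eq_mul]; ring
  · have h2 : ¬ Integrable φ (μ + μ.map T) := fun h' => h (h'.mono_measure (Measure.le_add_right le_rfl))
    rw [integral_undef h, integral_undef h2, smul_zero]

lemma pressure_twist_le {f g : X → X} (T : X ≃ᵐ X) (hf : Measurable f)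
    (hTT : ∀ x, T (T x) = x) (hc : ∀ x, f (T x) = T (f x)) (hg : ∀ x, g x = T (f x))
    (φ : X → ℝ) (hφ : ∀ x, φ (T x) = φ x) : pressure f φ ≤ pressure g φ := by
  have hgm : Measurable g := by
    have : g = fun x => T (f x) := funext hg
    rw [this]; exact T.measurable.comp hf
  unfold pressure
  refine iSup_le fun μ => iSup_le fun hμ => iSup_le fun hinv => ?_
  have : IsProbabilityMeasure (μ.map T) := Measure.isProbabilityMeasure_map T.measurable.aemeasurable
  have hprob : IsProbabilityMeasure ((2⁻¹ : ℝ≥0) • (μ + μ.map T)) := by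
    constructor
    rw [Measure.coe_nnreal_smul_apply, Measure.add_apply, measure_univ, measure_univ]
    rw [one_add_one_eq_two, ENNReal.coe_inv two_ne_zero]
    exact ENNReal.inv_mul_cancel (by norm_num) (by norm_num)
  have hinv' : MeasurePreserving g ((2⁻¹ : ℝ≥0) • (μ + μ.map T)) ((2⁻¹ : ℝ≥0) • (μ + μ.map T)) := by
    refine ⟨hgm, ?_⟩
    have e1 : μ.map g = μ.map T := by
      have : g = T ∘ f := funext hg
      rw [this, ← Measure.map_map T.measurable hf, hinv.map_eq]
    have e2 : (μ.map T).map g = μ := by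
      rw [Measure.map_map hgm T.measurable]
      have : g ∘ T = f := by
        funext x; simp only [Function.comp, hg, hc, hTT]
      rw [this, hinv.map_eq]
    rw [Measure.map_smul, Measure.map_add _ _ hgm, e1, e2, add_comm]
  refine le_trans ?_ (le_iSup₂_of_le ((2⁻¹ : ℝ≥0) • (μ + μ.map T)) hprob (le_iSup_of_le hinv' le_rfl))
  rw [integral_twist T φ hφ]
  exact add_le_add (metricEntropy_twist T hf hTT hc hg μ) le_rfl

/-- Composing with a commuting involution that preserves the potential does not change the
pressure. -/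
theorem pressure_twist {f g : X → X} (T : X ≃ᵐ X) (hf : Measurable f)
    (hTT : ∀ x, T (T x) = x) (hc : ∀ x, f (T x) = T (f x)) (hg : ∀ x, g x = T (f x))
    (φ : X → ℝ) (hφ : ∀ x, φ (T x) = φ x) : pressure f φ = pressure g φ := by
  have hgm : Measurable g := by
    have : g = fun x => T (f x) := funext hg
    rw [this]; exact T.measurable.comp hf
  refine le_antisymm (pressure_twist_le T hf hTT hc hg φ hφ) ?_
  refine pressure_twist_le T hgm hTT (fun x => by rw [hg, hg, hc]) (fun x => by rw [hg, hTT]) φ hφ

end Pool.Agent.H20Z.Anosov
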