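import Pool.Agent.H20Z.AnosovSplit

set_option autoImplicit false

open MeasureTheory Filter Topology
open scoped ContDiff

namespace Pool.Agent.H20Z.Anosov

lemma coord_int {a b : ℝ} (h : (a : UnitAddCircle) = (b : UnitAddCircle)) :
    ∃ n : ℤ, a - b = n := by
  have h1 : ((a - b : ℝ) : UnitAddCircle) = 0 := by rw [AddCircle.coe_sub, h, sub_self]
  obtain ⟨n, hn⟩ := (AddCircle.coe_eq_zero_iff (1 : ℝ)).1 h1
  exact ⟨n, by simpa using hn.symm⟩

/-- Two continuous lifts of the same map differ locally by a constant. -/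
lemma lifts_eventually {A B : R2 → R2} (hA : Continuous A) (hB : Continuous B)
    (h : ∀ x, proj (A x) = proj (B x)) (x₀ : R2) :
    A =ᶠ[𝓝 x₀] fun x => B x + (A x₀ - B x₀) := by
  have hi : ∀ (i : Fin 2) (x : R2), ∃ n : ℤ, A x i - B x i = n := by
    intro i x
    fin_cases i
    · exact coord_int (congrArg Prod.fst (h x))
    · exact coord_int (congrArg Prod.snd (h x))
  have hc : ∀ i : Fin 2, ∀ᶠ x in 𝓝 x₀, A x i - B x i = A x₀ i - B x₀ i := by
    intro i
    have hp : Continuous (fun v : R2 => v i) := (EuclideanSpace.proj i : R2 →L[ℝ] ℝ).continuous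
    have hd : Continuous (fun x => A x i - B x i) := (hp.comp hA).sub (hp.comp hB)
    have h1 := (hd.tendsto x₀).eventually (Metric.ball_mem_nhds (A x₀ i - B x₀ i) one_pos)
    filter_upwards [h1] with x hx
    obtain ⟨n, hn⟩ := hi i x
    obtain ⟨m, hm⟩ := hi i x₀
    rw [hn, hm, Real.dist_eq, ← Int.cast_sub, ← Int.cast_abs] at hx
    have h2 : |n - m| < 1 := by exact_mod_cast hx
    have h3 : n = m := by
      have := Int.abs_lt_one_iff.1 h2
      omega
    rw [hn, hm, h3]
  filter_upwards [hc 0, hc 1] with x h0 h1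
  apply R2_ext
  · simp; linarith
  · simp; linarith

lemma lifts_fderiv {A B : R2 → R2} (hA : Continuous A) (hB : Continuous B)
    (h : ∀ x, proj (A x) = proj (B x)) (x₀ : R2) {A' B' : R2 →L[ℝ] R2}
    (hA' : HasFDerivAt A A' x₀) (hB' : HasFDerivAt B B' x₀) : A' = B' := by
  have h1 := (hB'.add_const (A x₀ - B x₀)).congr_of_eventuallyEq (lifts_eventually hA hB h x₀)
  exact hA'.unique h1

lemma Dm_intertwine {s s' : ℝ} (M : R2 →L[ℝ] R2) (hM : M ≠ 0)
    (h : M.comp (Dm s) = (Dm s').comp M) : s = s' := by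
  by_contra hne
  apply hM
  have hss : s - s' ≠ 0 := sub_ne_zero.2 hne
  ext1 v
  have hv : ∀ w, M (Dm s w) = Dm s' (M w) := fun w => congrArg (fun L : R2 →L[ℝ] R2 => L w) h
  have hch : Dm s (Dm s v) = (2 + 2 * s) • Dm s v - v := by
    apply R2_ext
    · simp only [Dm_zero, Dm_one, PiLp.sub_apply, PiLp.smul_apply, smul_eq_mul]; ring
    · simp only [Dm_zero, Dm_one, PiLp.sub_apply, PiLp.smul_apply, smul_eq_mul]; ring
  have h1 := hv (Dm s v)
  rw [hch, map_sub, map_smul, hv v] at h1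
  have e0 := congrArg (fun w : R2 => w 0) h1
  have e1 := congrArg (fun w : R2 => w 1) h1
  simp only [Dm_zero, Dm_one, PiLp.sub_apply, PiLp.smul_apply, smul_eq_mul] at e0 e1
  set a := M v 0
  set b := M v 1
  have f0 : (s - s') * ((1 + 2 * s') * a + 2 * b) = 0 := by linear_combination e0 / 2
  have f1 : (s - s') * (s' * a + b) = 0 := by linear_combination e1 / 2
  have g0 := (mul_eq_zero.1 f0).resolve_left hss
  have g1 := (mul_eq_zero.1 f1).resolve_left hss
  have ha : a = 0 := by linear_combination g0 - 2 * g1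
  have hb : b = 0 := by rw [ha] at g1; linarith
  apply R2_ext
  · exact ha
  · exact hb

theorem not_conj (h : T2 ≃ T2) (h1 : IsCn 1 h) (h2 : IsCn 1 h.symm) :
    ¬ ∀ p, h (fm 0 p) = fm (1 / 2) (h p) := by
  intro hc
  obtain ⟨H, hH, hHl⟩ := h1
  obtain ⟨K, hK, hKl⟩ := h2
  have hHd : ∀ x, HasFDerivAt H (fderiv ℝ H x) x := fun x =>
    (hH.differentiable (by norm_num) x).hasFDerivAt
  have hKd : ∀ x, HasFDerivAt K (fderiv ℝ K x) x := fun x =>
    (hK.differentiable (by norm_num) x).hasFDerivAt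
  have hF0 : Fl 0 0 = 0 := by
    apply R2_ext <;> simp [Fl]
  have hM : fderiv ℝ H 0 ≠ 0 := by
    intro h0
    have e := lifts_fderiv (A := K ∘ H) (B := id) (hK.continuous.comp hH.continuous) continuous_id
      (fun x => by
        change proj (K (H x)) = proj x
        rw [hKl, hHl, Equiv.symm_apply_apply]) 0 ((hKd (H 0)).comp 0 (hHd 0)) (hasFDerivAt_id 0)
    rw [h0, ContinuousLinearMap.comp_zero] at e
    have := congrArg (fun L : R2 →L[ℝ] R2 => L (!₂[1, 0] : R2) 0) e
    simp at this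
  have hpr : ∀ x, proj (H (Fl 0 x)) = proj (Fl (1 / 2) (H x)) := fun x => by
    rw [hHl, isLift_Fl, isLift_Fl, hHl, hc]
  have hA : HasFDerivAt (H ∘ Fl 0)
      ((fderiv ℝ H 0).comp (Dm (1 + Real.cos (2 * Real.pi * (0 : R2) 0) / 2))) 0 := by
    refine HasFDerivAt.comp 0 ?_ (hasFDerivAt_Fl 0 0)
    rw [hF0]; exact hHd 0
  have e := lifts_fderiv (A := H ∘ Fl 0) (B := Fl (1 / 2) ∘ H)
    (hH.continuous.comp (contDiff_Fl 0).continuous)
    ((contDiff_Fl (1 / 2)).continuous.comp hH.continuous) hpr 0 hA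
    ((hasFDerivAt_Fl (1 / 2) (H 0)).comp 0 (hHd 0))
  have hs := Dm_intertwine _ hM e
  have hcos : Real.cos (2 * Real.pi * H 0 0) = 1 := by
    simp at hs; linarith
  obtain ⟨n, hn⟩ := (Real.cos_eq_one_iff _).1 hcos
  have hpi := Real.pi_pos
  have hx : H 0 0 = n := by
    have : (2 * Real.pi) * (H 0 0 - n) = 0 := by linarith
    rcases mul_eq_zero.1 this with h | h
    · linarith
    · linarith
  have hsin : Real.sin (2 * Real.pi * H 0 0) = 0 := by
    have := Real.sin_sq_add_cos_sq (2 * Real.pi * H 0 0)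
    rw [hcos] at this
    exact pow_eq_zero_iff (two_ne_zero) |>.1 (by linarith)
  have hfix := hpr 0
  rw [hF0] at hfix
  obtain ⟨m, hm⟩ := coord_int (congrArg Prod.snd hfix)
  simp only [Fl, Matrix.cons_val_one, Matrix.cons_val_zero] at hm
  rw [hsin, hx, zero_div] at hm
  have h3 : (2 * (m + n) + 1 : ℝ) = 0 := by linarith
  have h4 : 2 * (m + n) + 1 = (0 : ℤ) := by exact_mod_cast h3
  omega

theorem main : ∃ f g : AnosovDiffeo,
    MeasurePreserving f.map volume volume ∧ MeasurePreserving g.map volume volume ∧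
    (∃ (hf : Continuous f.map) (hg : Continuous g.map),
      ContinuousMap.Homotopic (⟨f.map, hf⟩ : C(T2, T2)) ⟨g.map, hg⟩) ∧
    (∀ t : ℝ, f.pressureFn t = g.pressureFn t) ∧
    ¬ ∃ h : T2 ≃ T2, IsCn 1 h ∧ IsCn 1 h.symm ∧ ∀ p, h (f.map p) = g.map (h p) := by
  obtain ⟨f, g, hf, hg, h1, h2⟩ := exists_pair
  refine ⟨f, g, ?_, ?_, ?_, fun t => ?_, ?_⟩
  · rw [hf]; exact measurePreserving_fm 0
  · rw [hg]; exact measurePreserving_fm _
  · rw [hf, hg]
    exact ⟨continuous_fm 0, continuous_fm _, homotopic_fm⟩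
  · unfold AnosovDiffeo.pressureFn
    rw [h1, hf, hg]
    exact pressure_twist trE (continuous_fm 0).measurable tr_tr (fm_tr 0) fm_half _ (h2 t)
  · rintro ⟨h, a, b, c⟩
    rw [hf, hg] at c
    exact not_conj h a b c

end Pool.Agent.H20Z.Anosov
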