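import Pool.Agent.H20Z.AnosovEnt

set_option autoImplicit false

open MeasureTheory Filter Topology
open scoped ContDiff

namespace Pool.Agent.H20Z.Anosov

/-! ### The perturbation -/

noncomputable def sn (x : UnitAddCircle) : ℝ := (fourier 1 x).im / (4 * Real.pi)

noncomputable def sg (x : UnitAddCircle) : ℝ := 1 + (fourier 1 x).re / 2

lemma fourier_one_coe (x : ℝ) :
    fourier 1 (x : UnitAddCircle) = Complex.exp (((2 * Real.pi * x : ℝ) : ℂ) * Complex.I) := by
  rw [fourier_coe_apply]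
  congr 1
  push_cast
  ring

lemma sn_coe (x : ℝ) : sn (x : UnitAddCircle) = Real.sin (2 * Real.pi * x) / (4 * Real.pi) := by
  unfold sn
  rw [fourier_one_coe, Complex.exp_ofReal_mul_I_im]

lemma sg_coe (x : ℝ) : sg (x : UnitAddCircle) = 1 + Real.cos (2 * Real.pi * x) / 2 := by
  unfold sg
  rw [fourier_one_coe, Complex.exp_ofReal_mul_I_re]

@[fun_prop]
lemma continuous_sn : Continuous sn := by
  unfold sn
  exact (Complex.continuous_im.comp (fourier 1).continuous).div_const _

@[fun_prop]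
lemma continuous_sg : Continuous sg := by
  unfold sg
  exact continuous_const.add ((Complex.continuous_re.comp (fourier 1).continuous).div_const _)

lemma sg_ge (x : UnitAddCircle) : 1 / 2 ≤ sg x := by
  obtain ⟨y, rfl⟩ := QuotientAddGroup.mk_surjective x
  have := sg_coe y
  have h2 := Real.neg_one_le_cos (2 * Real.pi * y)
  change 1 / 2 ≤ sg (y : UnitAddCircle)
  linarith

lemma continuous_coe : Continuous (fun x : ℝ => (x : UnitAddCircle)) :=
  continuous_quotient_mk'

/-! ### The maps -/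

/-- `(x, y) ↦ (x + 2 w, w + c)` with `w = y + x + sin(2πx)/(4π)`. -/
noncomputable def fm (c : ℝ) : T2 ≃ T2 where
  toFun p := (p.1 + 2 • (p.2 + p.1 + (sn p.1 : UnitAddCircle)),
    p.2 + p.1 + (sn p.1 : UnitAddCircle) + (c : UnitAddCircle))
  invFun q := (q.1 - 2 • (q.2 - (c : UnitAddCircle)),
    q.2 - (c : UnitAddCircle) - (q.1 - 2 • (q.2 - (c : UnitAddCircle)))
      - (sn (q.1 - 2 • (q.2 - (c : UnitAddCircle))) : UnitAddCircle))
  left_inv p := by
    have h : p.1 + 2 • (p.2 + p.1 + (sn p.1 : UnitAddCircle))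
      - 2 • (p.2 + p.1 + (sn p.1 : UnitAddCircle) + (c : UnitAddCircle) - (c : UnitAddCircle))
        = p.1 := by abel
    ext
    · exact h
    · simp only [h]; abel
  right_inv q := by
    ext
    · simp only; abel
    · simp only; abel

lemma fm_apply (c : ℝ) (p : T2) : fm c p = (p.1 + 2 • (p.2 + p.1 + (sn p.1 : UnitAddCircle)),
    p.2 + p.1 + (sn p.1 : UnitAddCircle) + (c : UnitAddCircle)) := rfl

lemma fm_symm_apply (c : ℝ) (q : T2) : (fm c).symm q = (q.1 - 2 • (q.2 - (c : UnitAddCircle)),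
    q.2 - (c : UnitAddCircle) - (q.1 - 2 • (q.2 - (c : UnitAddCircle)))
      - (sn (q.1 - 2 • (q.2 - (c : UnitAddCircle))) : UnitAddCircle)) := rfl

lemma continuous_snc : Continuous (fun x : UnitAddCircle => (sn x : UnitAddCircle)) :=
  continuous_coe.comp continuous_sn

lemma continuous_fm (c : ℝ) : Continuous (fm c) := by
  have h := continuous_snc
  have : (fm c : T2 → T2) = fun p => (p.1 + 2 • (p.2 + p.1 + (sn p.1 : UnitAddCircle)),
    p.2 + p.1 + (sn p.1 : UnitAddCircle) + (c : UnitAddCircle)) := rfl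
  rw [this]
  fun_prop

lemma continuous_fm_symm (c : ℝ) : Continuous (fm c).symm := by
  have h := continuous_snc
  have : ((fm c).symm : T2 → T2) = fun q => (q.1 - 2 • (q.2 - (c : UnitAddCircle)),
    q.2 - (c : UnitAddCircle) - (q.1 - 2 • (q.2 - (c : UnitAddCircle)))
      - (sn (q.1 - 2 • (q.2 - (c : UnitAddCircle))) : UnitAddCircle)) := rfl
  rw [this]
  fun_prop

/-- The translation by `(0, 1/2)`. -/
noncomputable def tr (p : T2) : T2 := (p.1, p.2 + ((1 / 2 : ℝ) : UnitAddCircle))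

lemma half_add_half : ((1 / 2 : ℝ) : UnitAddCircle) + ((1 / 2 : ℝ) : UnitAddCircle) = 0 := by
  rw [← AddCircle.coe_add]
  norm_num

lemma tr_tr (p : T2) : tr (tr p) = p := by
  unfold tr
  ext
  · rfl
  · simp only; rw [add_assoc, half_add_half, add_zero]

lemma continuous_tr : Continuous tr := by
  unfold tr; fun_prop

lemma fm_tr (c : ℝ) (p : T2) : fm c (tr p) = tr (fm c p) := by
  rw [fm_apply, fm_apply]
  unfold tr
  ext
  · simp only
    have h := half_add_half
    have : 2 • (p.2 + ((1 / 2 : ℝ) : UnitAddCircle) + p.1 + (sn p.1 : UnitAddCircle))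
      = 2 • (p.2 + p.1 + (sn p.1 : UnitAddCircle))
        + (((1 / 2 : ℝ) : UnitAddCircle) + ((1 / 2 : ℝ) : UnitAddCircle)) := by abel
    rw [this, h, add_zero]
  · simp only; abel

lemma fm_half (p : T2) : fm (1 / 2) p = tr (fm 0 p) := by
  rw [fm_apply, fm_apply]
  unfold tr
  ext
  · rfl
  · simp

lemma fm_symm_tr (c : ℝ) (p : T2) : (fm c).symm (tr p) = tr ((fm c).symm p) := by
  apply (fm c).injective
  rw [fm_tr]; simp

noncomputable def trE : T2 ≃ᵐ T2 where
  toFun := tr
  invFun := tr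
  left_inv := tr_tr
  right_inv := tr_tr
  measurable_toFun := continuous_tr.measurable
  measurable_invFun := continuous_tr.measurable

lemma measurePreserving_fm (c : ℝ) : MeasurePreserving (fm c) volume volume := by
  have hs := continuous_snc
  have h1 : MeasurePreserving (fun p : T2 => (p.1, p.2 + (p.1 + (sn p.1 : UnitAddCircle))))
      ((volume : Measure UnitAddCircle).prod volume) (volume.prod volume) := by
    refine MeasurePreserving.skew_product (f := id) (MeasurePreserving.id _)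
      (g := fun x y => y + (x + (sn x : UnitAddCircle))) ?_ ?_
    · apply Continuous.measurable
      change Continuous (fun p : T2 => p.2 + (p.1 + (sn p.1 : UnitAddCircle)))
      fun_prop
    · exact ae_of_all _ fun x => map_add_right_eq_self _ _
  have h2 : MeasurePreserving (fun p : T2 => (p.1 + (c : UnitAddCircle), p.2 + 2 • p.1))
      ((volume : Measure UnitAddCircle).prod volume) (volume.prod volume) := by
    refine MeasurePreserving.skew_product (f := fun x => x + (c : UnitAddCircle))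
      (measurePreserving_add_right _ _)
      (g := fun x y => y + 2 • x) ?_ ?_
    · apply Continuous.measurable
      change Continuous (fun p : T2 => p.2 + 2 • p.1)
      fun_prop
    · exact ae_of_all _ fun x => map_add_right_eq_self _ _
  have h3 : MeasurePreserving (Prod.swap : T2 → T2)
      ((volume : Measure UnitAddCircle).prod volume) (volume.prod volume) :=
    Measure.measurePreserving_swap
  have h := h3.comp (h2.comp (h3.comp h1))
  have e : (fm c : T2 → T2) = Prod.swap ∘ (fun p : T2 => (p.1 + (c : UnitAddCircle), p.2 + 2 • p.1))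
      ∘ Prod.swap ∘ (fun p : T2 => (p.1, p.2 + (p.1 + (sn p.1 : UnitAddCircle)))) := by
    funext p
    rw [fm_apply]
    simp only [Function.comp, Prod.swap]
    ext
    · simp only; abel
    · simp only; abel
  rw [e]
  exact h

lemma homotopic_fm : ContinuousMap.Homotopic (⟨fm 0, continuous_fm 0⟩ : C(T2, T2))
    ⟨fm (1 / 2), continuous_fm (1 / 2)⟩ := by
  refine ⟨⟨⟨fun z => ((fm 0 z.2).1, (fm 0 z.2).2 + (((z.1 : ℝ) / 2 : ℝ) : UnitAddCircle)), ?_⟩,
    ?_, ?_⟩⟩
  · have h1 := continuous_fm 0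
    have h2 : Continuous (fun z : unitInterval × T2 => (((z.1 : ℝ) / 2 : ℝ) : UnitAddCircle)) :=
      continuous_coe.comp (by fun_prop)
    fun_prop
  · intro p; simp
  · intro p
    change _ = fm (1 / 2) p
    rw [fm_half]
    simp [tr]

/-! ### Lifts and derivatives -/

noncomputable def Fl (c : ℝ) (x : R2) : R2 :=
  !₂[x 0 + 2 * (x 1 + x 0 + Real.sin (2 * Real.pi * x 0) / (4 * Real.pi)),
    x 1 + x 0 + Real.sin (2 * Real.pi * x 0) / (4 * Real.pi) + c]

noncomputable def Kl (c : ℝ) (x : R2) : R2 :=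
  !₂[x 0 - 2 * (x 1 - c),
    x 1 - c - (x 0 - 2 * (x 1 - c))
      - Real.sin (2 * Real.pi * (x 0 - 2 * (x 1 - c))) / (4 * Real.pi)]

/-- The matrix `[[1+2s, 2], [s, 1]]`. -/
noncomputable def Dm (s : ℝ) : R2 →L[ℝ] R2 :=
  (EuclideanSpace.proj 0 : R2 →L[ℝ] ℝ).smulRight (!₂[1 + 2 * s, s] : R2)
    + (EuclideanSpace.proj 1 : R2 →L[ℝ] ℝ).smulRight (!₂[2, 1] : R2)

lemma Dm_zero (s : ℝ) (v : R2) : Dm s v 0 = (1 + 2 * s) * v 0 + 2 * v 1 := by
  simp [Dm]; ring

lemma Dm_one (s : ℝ) (v : R2) : Dm s v 1 = s * v 0 + v 1 := by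
  simp [Dm]; ring

lemma R2_ext {v w : R2} (h0 : v 0 = w 0) (h1 : v 1 = w 1) : v = w := by
  ext i; fin_cases i
  · exact h0
  · exact h1

lemma two_smul_coe (x : ℝ) : ((2 * x : ℝ) : UnitAddCircle) = 2 • (x : UnitAddCircle) := by
  rw [two_mul, AddCircle.coe_add, two_nsmul]

lemma isLift_Fl (c : ℝ) : IsLift (fm c) (Fl c) := by
  intro x
  rw [fm_apply]
  unfold proj Fl
  simp only [sn_coe]
  ext
  · simp only [Matrix.cons_val_zero, AddCircle.coe_add, two_smul_coe]
  · simp only [Matrix.cons_val_one, Matrix.cons_val_zero, AddCircle.coe_add]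

lemma isLift_Kl (c : ℝ) : IsLift (fm c).symm (Kl c) := by
  intro x
  rw [fm_symm_apply]
  unfold proj Kl
  have h : ((x 0 : ℝ) : UnitAddCircle) - 2 • (((x 1 : ℝ) : UnitAddCircle) - (c : UnitAddCircle))
      = ((x 0 - 2 * (x 1 - c) : ℝ) : UnitAddCircle) := by
    rw [AddCircle.coe_sub, two_smul_coe, AddCircle.coe_sub]
  simp only [h, sn_coe]
  ext
  · simp only [Matrix.cons_val_zero]
  · simp only [Matrix.cons_val_one, Matrix.cons_val_zero, AddCircle.coe_sub]

lemma contDiff_coord (n : WithTop ℕ∞) (i : Fin 2) : ContDiff ℝ n (fun x : R2 => x i) :=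
  (EuclideanSpace.proj i : R2 →L[ℝ] ℝ).contDiff

lemma contDiff_Fl (c : ℝ) : ContDiff ℝ ∞ (Fl c) := by
  have h0 := contDiff_coord ∞ 0
  have h1 := contDiff_coord ∞ 1
  rw [contDiff_euclidean]
  intro i
  fin_cases i
  · simp only [Fl, Fin.zero_eta, Matrix.cons_val_zero]
    fun_prop
  · simp only [Fl, Fin.mk_one, Matrix.cons_val_one, Matrix.cons_val_zero]
    fun_prop

lemma contDiff_Kl (c : ℝ) : ContDiff ℝ ∞ (Kl c) := by
  have h0 := contDiff_coord ∞ 0
  have h1 := contDiff_coord ∞ 1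
  rw [contDiff_euclidean]
  intro i
  fin_cases i
  · simp only [Kl, Fin.zero_eta, Matrix.cons_val_zero]
    fun_prop
  · simp only [Kl, Fin.mk_one, Matrix.cons_val_one, Matrix.cons_val_zero]
    fun_prop

lemma hasFDerivAt_Fl (c : ℝ) (x : R2) :
    HasFDerivAt (Fl c) (Dm (1 + Real.cos (2 * Real.pi * x 0) / 2)) x := by
  have hp0 : HasFDerivAt (fun y : R2 => y 0) (EuclideanSpace.proj 0 : R2 →L[ℝ] ℝ) x :=
    (EuclideanSpace.proj 0 : R2 →L[ℝ] ℝ).hasFDerivAt
  have hp1 : HasFDerivAt (fun y : R2 => y 1) (EuclideanSpace.proj 1 : R2 →L[ℝ] ℝ) x :=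
    (EuclideanSpace.proj 1 : R2 →L[ℝ] ℝ).hasFDerivAt
  have hs : HasDerivAt (fun t : ℝ => Real.sin (2 * Real.pi * t) / (4 * Real.pi))
      (Real.cos (2 * Real.pi * x 0) / 2) (x 0) := by
    have h1 : HasDerivAt (fun t : ℝ => 2 * Real.pi * t) (2 * Real.pi) (x 0) := by
      simpa using (hasDerivAt_id (x 0)).const_mul (2 * Real.pi)
    have h2 := (h1.sin).div_const (4 * Real.pi)
    have e : Real.cos (2 * Real.pi * x 0) / 2
        = Real.cos (2 * Real.pi * x 0) * (2 * Real.pi) / (4 * Real.pi) := by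
      have := Real.pi_pos
      field_simp
      ring
    rw [e]
    exact h2
  have hs' := hs.comp_hasFDerivAt x hp0
  have hw := (hp1.add hp0).add hs'
  have e : Fl c = fun y : R2 =>
      (y 0) • (!₂[1, 0] : R2) + (y 1 + y 0 + Real.sin (2 * Real.pi * y 0) / (4 * Real.pi))
        • (!₂[2, 1] : R2) + (!₂[0, c] : R2) := by
    funext y
    apply R2_ext
    · simp [Fl]; ring
    · simp [Fl]
  rw [e]
  have h := ((hp0.smul_const (!₂[1, 0] : R2)).add (hw.smul_const (!₂[2, 1] : R2))).add_const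
    (!₂[0, c] : R2)
  refine HasFDerivAt.congr_fderiv h ?_
  ext1 v
  apply R2_ext
  · rw [Dm_zero]; simp; ring
  · rw [Dm_one]; simp; ring

lemma smooth_fm (c : ℝ) : IsSmoothWithDeriv (fm c) (fun p => Dm (sg p.1)) := by
  refine ⟨Fl c, contDiff_Fl c, isLift_Fl c, fun x => ?_⟩
  rw [(hasFDerivAt_Fl c x).fderiv]
  simp only [proj, sg_coe]

end Pool.Agent.H20Z.Anosov
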