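import Pool.Agent.H20Z.AnosovMap

set_option autoImplicit false

open MeasureTheory Filter Topology
open scoped ContDiff

namespace Pool.Agent.H20Z.Anosov

/-- Graph transform fixed point. -/
lemma exists_fix {X : Type*} [TopologicalSpace X] [CompactSpace X] (k : X → X) (hk : Continuous k)
    (Ψ : X → ℝ → ℝ) (hΨ : Continuous (fun z : X × ℝ => Ψ z.1 z.2))
    (hL : ∀ x a b, |Ψ x a - Ψ x b| ≤ (1 / 2) * |a - b|) :
    ∃ u : C(X, ℝ), (∀ x, u x = Ψ x (u (k x))) ∧
      ∀ u' : C(X, ℝ), (∀ x, u' x = Ψ x (u' (k x))) → u' = u := by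
  let Φ : C(X, ℝ) → C(X, ℝ) := fun u =>
    ⟨fun x => Ψ x (u (k x)), hΨ.comp (continuous_id.prodMk (u.continuous.comp hk))⟩
  have hc : ContractingWith (1 / 2) Φ := by
    refine ⟨by norm_num, LipschitzWith.of_dist_le_mul fun u v => ?_⟩
    rw [ContinuousMap.dist_le (by positivity)]
    intro x
    rw [Real.dist_eq]
    refine (hL x _ _).trans ?_
    have := ContinuousMap.dist_apply_le_dist (f := u) (g := v) (k x)
    rw [Real.dist_eq] at this
    push_cast
    linarith
  refine ⟨ContractingWith.fixedPoint Φ hc, fun x => ?_, fun u' hu' => ?_⟩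
  · have h := hc.fixedPoint_isFixedPt
    exact (congrArg (fun w : C(X, ℝ) => w x) h).symm
  · apply hc.fixedPoint_unique
    ext x
    exact (hu' x).symm

lemma mob_lip {s z₁ z₂ : ℝ} (h₁ : 1 ≤ s * z₁) (h₂ : 1 ≤ s * z₂) :
    |z₁ / (1 + s * z₁) - z₂ / (1 + s * z₂)| ≤ (1 / 2) * |z₁ - z₂| := by
  have e : z₁ / (1 + s * z₁) - z₂ / (1 + s * z₂) = (z₁ - z₂) / ((1 + s * z₁) * (1 + s * z₂)) := by
    have h3 : (1 + s * z₁) ≠ 0 := by linarith
    have h4 : (1 + s * z₂) ≠ 0 := by linarith
    rw [div_sub_div _ _ h3 h4]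
    congr 1
    ring
  have hp : 2 ≤ (1 + s * z₁) * (1 + s * z₂) := by nlinarith
  rw [e, abs_div, abs_of_pos (show 0 < (1 + s * z₁) * (1 + s * z₂) by linarith),
    div_le_iff₀ (by linarith)]
  nlinarith [abs_nonneg (z₁ - z₂)]

lemma exists_u : ∃ u : T2 → ℝ, Continuous u ∧ (∀ p, u (tr p) = u p) ∧ (∀ p, 0 < u p) ∧
    (∀ p, u p < 1 / 2) ∧
    ∀ p, u (fm 0 p) = (sg p.1 + u p) / (1 + 2 * (sg p.1 + u p)) := by
  have hk := continuous_fm_symm 0
  have hw : ∀ (q : T2) (a : ℝ), 1 / 2 ≤ sg ((fm 0).symm q).1 + max a 0 := fun q a => by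
    have := sg_ge ((fm 0).symm q).1
    have := le_max_right a 0
    linarith
  obtain ⟨u, hu, huniq⟩ := exists_fix (fm 0).symm hk
    (fun q a => (sg ((fm 0).symm q).1 + max a 0) / (1 + 2 * (sg ((fm 0).symm q).1 + max a 0)))
    (by
      have h1 : Continuous (fun z : T2 × ℝ => sg ((fm 0).symm z.1).1 + max z.2 0) :=
        (continuous_sg.comp (continuous_fst.comp (hk.comp continuous_fst))).add
          (continuous_snd.max continuous_const)
      refine h1.div (continuous_const.add (continuous_const.mul h1)) fun z => ?_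
      have := hw z.1 z.2
      linarith)
    (by
      intro q a b
      refine (mob_lip (by linarith [hw q a]) (by linarith [hw q b])).trans ?_
      have := abs_max_sub_max_le_abs a b 0
      rw [add_sub_add_left_eq_sub]
      linarith)
  have hpos : ∀ p, 0 < u p := fun p => by
    rw [hu p]
    have := hw p (u ((fm 0).symm p))
    positivity
  refine ⟨u, u.continuous, fun p => ?_, hpos, fun p => ?_, fun p => ?_⟩
  · have h := huniq ⟨fun p => u (tr p), u.continuous.comp continuous_tr⟩ (fun q => by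
      change u (tr q) = (sg ((fm 0).symm q).1 + max (u (tr ((fm 0).symm q))) 0)
        / (1 + 2 * (sg ((fm 0).symm q).1 + max (u (tr ((fm 0).symm q))) 0))
      rw [hu (tr q), fm_symm_tr]
      rfl)
    exact congrArg (fun w : C(T2, ℝ) => w p) h
  · rw [hu p]
    have := hw p (u ((fm 0).symm p))
    rw [div_lt_iff₀ (by linarith)]
    linarith
  · rw [hu (fm 0 p), Equiv.symm_apply_apply, max_eq_left (hpos p).le]

lemma exists_r : ∃ r : T2 → ℝ, Continuous r ∧ (∀ p, r (tr p) = r p) ∧ (∀ p, 0 < r p) ∧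
    (∀ p, r p < 2) ∧
    ∀ p, r p = (r (fm 0 p) + 2) / (1 + sg p.1 * (r (fm 0 p) + 2)) := by
  have hk := continuous_fm 0
  have hz : ∀ a : ℝ, 2 ≤ max a 0 + 2 := fun a => by
    have := le_max_right a 0
    linarith
  have hw : ∀ (q : T2) (a : ℝ), 1 ≤ sg q.1 * (max a 0 + 2) := fun q a => by
    have := sg_ge q.1
    have := hz a
    nlinarith
  obtain ⟨u, hu, huniq⟩ := exists_fix (fm 0) hk
    (fun q a => (max a 0 + 2) / (1 + sg q.1 * (max a 0 + 2)))
    (by
      have h1 : Continuous (fun z : T2 × ℝ => max z.2 0 + 2) :=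
        (continuous_snd.max continuous_const).add continuous_const
      have h2 : Continuous (fun z : T2 × ℝ => sg z.1.1) :=
        continuous_sg.comp (continuous_fst.comp continuous_fst)
      refine h1.div (continuous_const.add (h2.mul h1)) fun z => ?_
      have := hw z.1 z.2
      linarith)
    (by
      intro q a b
      refine (mob_lip (hw q a) (hw q b)).trans ?_
      have := abs_max_sub_max_le_abs a b 0
      rw [add_sub_add_right_eq_sub]
      linarith)
  have hpos : ∀ p, 0 < u p := fun p => by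
    rw [hu p]
    have := hw p (u (fm 0 p))
    have := hz (u (fm 0 p))
    positivity
  refine ⟨u, u.continuous, fun p => ?_, hpos, fun p => ?_, fun p => ?_⟩
  · have h := huniq ⟨fun p => u (tr p), u.continuous.comp continuous_tr⟩ (fun q => by
      change u (tr q) = (max (u (tr (fm 0 q))) 0 + 2)
        / (1 + sg q.1 * (max (u (tr (fm 0 q))) 0 + 2))
      rw [hu (tr q), fm_tr]
      rfl)
    exact congrArg (fun w : C(T2, ℝ) => w p) h
  · rw [hu p]
    have h1 := hw p (u (fm 0 p))
    have h2 := hz (u (fm 0 p))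
    have h3 := sg_ge p.1
    rw [div_lt_iff₀ (by linarith)]
    nlinarith
  · conv_lhs => rw [hu p]
    rw [max_eq_left (hpos _).le]

lemma norm_sq_R2 (v : R2) : ‖v‖ ^ 2 = v 0 ^ 2 + v 1 ^ 2 := by
  rw [EuclideanSpace.norm_sq_eq, Fin.sum_univ_two]
  simp

lemma map_span_line (A : R2 →L[ℝ] R2) {e e' : R2} {c : ℝ} (hc : c ≠ 0) (h : A e = c • e') :
    (Submodule.span ℝ {e}).map (A : R2 →ₗ[ℝ] R2) = Submodule.span ℝ {e'} := by
  rw [Submodule.map_span, Set.image_singleton]
  change Submodule.span ℝ {A e} = _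
  rw [h, Submodule.span_singleton_smul_eq (IsUnit.mk0 c hc)]

lemma isCompl_lines {u r : ℝ} (hu : 0 < u) (hr : 0 < r) :
    IsCompl (Submodule.span ℝ {(!₂[-r, 1] : R2)}) (Submodule.span ℝ {(!₂[1, u] : R2)}) := by
  have hd : 0 < 1 + r * u := by positivity
  constructor
  · rw [Submodule.disjoint_def]
    intro v h1 h2
    obtain ⟨a, rfl⟩ := Submodule.mem_span_singleton.1 h1
    obtain ⟨b, hb⟩ := Submodule.mem_span_singleton.1 h2
    have e0 := congrArg (fun v : R2 => v 0) hb
    have e1 := congrArg (fun v : R2 => v 1) hb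
    simp at e0 e1
    have ha : a * (1 + r * u) = 0 := by linear_combination u * e0 - e1
    have : a = 0 := by
      rcases mul_eq_zero.1 ha with h | h
      · exact h
      · linarith
    rw [this, zero_smul]
  · rw [codisjoint_iff, eq_top_iff]
    intro v _
    rw [Submodule.mem_sup]
    refine ⟨((v 1 - u * v 0) / (1 + r * u)) • (!₂[-r, 1] : R2),
      Submodule.smul_mem _ _ (Submodule.mem_span_singleton_self _),
      ((v 0 + r * v 1) / (1 + r * u)) • (!₂[1, u] : R2),
      Submodule.smul_mem _ _ (Submodule.mem_span_singleton_self _), ?_⟩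
    apply R2_ext
    · simp; field_simp; ring
    · simp; field_simp; ring

lemma derivIter_mem {f : T2 → T2} {D : T2 → (R2 →L[ℝ] R2)} {E : T2 → Submodule ℝ R2}
    (hE : ∀ p, (E p).map (D p : R2 →ₗ[ℝ] R2) = E (f p)) (n : ℕ) (p : T2) (v : R2) (hv : v ∈ E p) :
    derivIter f D n p v ∈ E (f^[n] p) := by
  induction n with
  | zero => exact hv
  | succ n ih =>
    rw [Function.iterate_succ_apply', ← hE]
    exact Submodule.mem_map_of_mem ih

/-- The two Anosov diffeomorphisms share derivative and line fields. -/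
theorem exists_pair : ∃ f g : AnosovDiffeo, f.map = fm 0 ∧ g.map = fm (1 / 2) ∧
    (∀ t, g.potential t = f.potential t) ∧ ∀ t p, f.potential t (tr p) = f.potential t p := by
  obtain ⟨u, huc, hut, hu0, hu1, hu⟩ := exists_u
  obtain ⟨r, hrc, hrt, hr0, hr1, hr⟩ := exists_r
  have key : ∀ c : ℝ, (∀ p, u (fm c p) = u (fm 0 p)) → (∀ p, r (fm c p) = r (fm 0 p)) →
      ∃ f : AnosovDiffeo, f.map = fm c ∧ f.D = (fun p => Dm (sg p.1)) ∧
        f.Eu = fun p => Submodule.span ℝ {(!₂[1, u p] : R2)} := by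
    intro c hcu hcr
    have hDu : ∀ p : T2, Dm (sg p.1) (!₂[1, u p] : R2)
        = (1 + 2 * (sg p.1 + u p)) • (!₂[1, u (fm c p)] : R2) := by
      intro p
      have h1 := sg_ge p.1
      have h2 := hu0 p
      apply R2_ext
      · rw [Dm_zero]; simp; ring
      · rw [Dm_one, hcu, hu p]; simp
        have : (1 + 2 * (sg p.1 + u p)) ≠ 0 := by linarith
        field_simp
    have hDs : ∀ p : T2, Dm (sg p.1) (!₂[-r p, 1] : R2)
        = (1 + sg p.1 * (r (fm c p) + 2))⁻¹ • (!₂[-r (fm c p), 1] : R2) := by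
      intro p
      have h1 := sg_ge p.1
      have h2 := hr0 (fm 0 p)
      have h3 : (1 + sg p.1 * (r (fm 0 p) + 2)) ≠ 0 := by positivity
      apply R2_ext
      · rw [Dm_zero, hcr, hr p]; simp
        field_simp
        ring
      · rw [Dm_one, hcr, hr p]; simp
        field_simp
        ring
    have hinvs : ∀ p : T2, (Submodule.span ℝ {(!₂[-r p, 1] : R2)}).map
        (Dm (sg p.1) : R2 →ₗ[ℝ] R2) = Submodule.span ℝ {(!₂[-r (fm c p), 1] : R2)} := by
      intro p
      refine map_span_line _ ?_ (hDs p)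
      have h1 := sg_ge p.1
      have h2 := hr0 (fm c p)
      positivity
    have hinvu : ∀ p : T2, (Submodule.span ℝ {(!₂[1, u p] : R2)}).map
        (Dm (sg p.1) : R2 →ₗ[ℝ] R2) = Submodule.span ℝ {(!₂[1, u (fm c p)] : R2)} := by
      intro p
      refine map_span_line _ ?_ (hDu p)
      have h1 := sg_ge p.1
      have h2 := hu0 p
      positivity
    have hs1 : ∀ (p : T2) (v : R2), v ∈ Submodule.span ℝ {(!₂[-r p, 1] : R2)} →
        ‖Dm (sg p.1) v‖ ≤ 3 / 4 * ‖v‖ := by
      intro p v hv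
      obtain ⟨a, rfl⟩ := Submodule.mem_span_singleton.1 hv
      rw [map_smul, hDs, norm_smul, norm_smul, norm_smul]
      have h1 := sg_ge p.1
      have h2 := hr0 (fm c p)
      have h3 := hr1 (fm c p)
      set s := sg p.1
      set ρ := r (fm c p)
      have hd : 0 < 1 + s * (ρ + 2) := by positivity
      have hA : 1 ≤ ‖(!₂[-r p, 1] : R2)‖ := by
        have := norm_sq_R2 (!₂[-r p, 1] : R2)
        simp at this
        nlinarith [norm_nonneg (!₂[-r p, 1] : R2), sq_nonneg (r p)]
      have hB : ‖(!₂[-ρ, 1] : R2)‖ ≤ 3 / 4 * (1 + s * (ρ + 2)) := by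
        have h := norm_sq_R2 (!₂[-ρ, 1] : R2)
        simp at h
        have h5 : 2 + ρ / 2 ≤ 1 + s * (ρ + 2) := by nlinarith
        have h6 : ‖(!₂[-ρ, 1] : R2)‖ ≤ 3 / 4 * (2 + ρ / 2) := by
          apply abs_le_of_sq_le_sq' _ (by positivity) |>.2
          rw [h]; nlinarith
        linarith
      have hC : ‖(1 + s * (ρ + 2))⁻¹‖ * ‖(!₂[-ρ, 1] : R2)‖ ≤ 3 / 4 := by
        rw [Real.norm_eq_abs, abs_of_pos (inv_pos.2 hd), inv_mul_le_iff₀ hd]
        linarith
      have ha := norm_nonneg a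
      nlinarith [mul_le_mul_of_nonneg_left hC ha, mul_le_mul_of_nonneg_left hA ha]
    have hu1' : ∀ (p : T2) (v : R2), v ∈ Submodule.span ℝ {(!₂[1, u p] : R2)} →
        ‖v‖ ≤ 3 / 4 * ‖Dm (sg p.1) v‖ := by
      intro p v hv
      obtain ⟨a, rfl⟩ := Submodule.mem_span_singleton.1 hv
      rw [map_smul, hDu, norm_smul, norm_smul, norm_smul]
      have h1 := sg_ge p.1
      have h2 := hu0 p
      have h3 := hu1 p
      have hA : 1 ≤ ‖(!₂[1, u (fm c p)] : R2)‖ := by
        have := norm_sq_R2 (!₂[1, u (fm c p)] : R2)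
        simp at this
        nlinarith [norm_nonneg (!₂[1, u (fm c p)] : R2), sq_nonneg (u (fm c p))]
      have hB : ‖(!₂[1, u p] : R2)‖ ≤ 3 / 2 := by
        have h := norm_sq_R2 (!₂[1, u p] : R2)
        simp at h
        apply abs_le_of_sq_le_sq' _ (by positivity) |>.2
        rw [h]; nlinarith
      have hC : 2 ≤ ‖1 + 2 * (sg p.1 + u p)‖ * ‖(!₂[1, u (fm c p)] : R2)‖ := by
        rw [Real.norm_eq_abs, abs_of_pos (by linarith)]
        nlinarith
      have ha := norm_nonneg a
      nlinarith [mul_le_mul_of_nonneg_left hC ha, mul_le_mul_of_nonneg_left hB ha]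
    refine ⟨⟨fm c, fun p => Dm (sg p.1), fun p => Submodule.span ℝ {(!₂[-r p, 1] : R2)},
      fun p => Submodule.span ℝ {(!₂[1, u p] : R2)}, smooth_fm c,
      ⟨Kl c, contDiff_Kl c, isLift_Kl c⟩, ⟨fun p => (!₂[-r p, 1] : R2), ?_, fun p => ⟨?_, rfl⟩⟩,
      ⟨fun p => (!₂[1, u p] : R2), ?_, fun p => ⟨?_, rfl⟩⟩,
      fun p => isCompl_lines (hu0 p) (hr0 p), hinvs, hinvu,
      ⟨1, 3 / 4, one_pos, by norm_num, by norm_num, fun n p => ⟨fun v hv => ?_, fun v hv => ?_⟩⟩⟩,
      rfl, rfl, rfl⟩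
    · refine (PiLp.continuous_toLp 2 _).comp (continuous_pi fun i => ?_)
      fin_cases i
      · exact hrc.neg
      · simpa using continuous_const
    · intro h
      have := congrArg (fun v : R2 => v 1) h
      simp at this
    · refine (PiLp.continuous_toLp 2 _).comp (continuous_pi fun i => ?_)
      fin_cases i
      · simpa using continuous_const
      · simpa using huc
    · intro h
      have := congrArg (fun v : R2 => v 0) h
      simp at this
    · induction n with
      | zero => simp [derivIter]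
      | succ n ih =>
        have hm := derivIter_mem (f := fm c) (D := fun p => Dm (sg p.1))
          (E := fun p => Submodule.span ℝ {(!₂[-r p, 1] : R2)}) hinvs n p v hv
        have h := hs1 _ _ hm
        change ‖Dm (sg ((fm c)^[n] p).1) (derivIter (fm c) (fun p => Dm (sg p.1)) n p v)‖ ≤ _
        rw [pow_succ]
        nlinarith
    · induction n with
      | zero => simp [derivIter]
      | succ n ih =>
        have hm := derivIter_mem (f := fm c) (D := fun p => Dm (sg p.1))
          (E := fun p => Submodule.span ℝ {(!₂[1, u p] : R2)}) hinvu n p v hv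
        have h := hu1' _ _ hm
        change _ ≤ 1 * (3 / 4) ^ (n + 1)
          * ‖Dm (sg ((fm c)^[n] p).1) (derivIter (fm c) (fun p => Dm (sg p.1)) n p v)‖
        rw [pow_succ]
        have hp : (0 : ℝ) ≤ (3 / 4) ^ n := by positivity
        nlinarith [mul_le_mul_of_nonneg_left h hp]
  obtain ⟨f, hf1, hf2, hf3⟩ := key 0 (fun _ => rfl) (fun _ => rfl)
  obtain ⟨g, hg1, hg2, hg3⟩ := key (1 / 2) (fun p => by rw [fm_half, hut])
    (fun p => by rw [fm_half, hrt])
  have hN : ∀ (A B : R2 →L[ℝ] R2) (V W : Submodule ℝ R2), A = B → V = W →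
      ‖A.comp V.subtypeL‖ = ‖B.comp W.subtypeL‖ := by
    rintro A B V W rfl rfl; rfl
  refine ⟨f, g, hf1, hg1, fun t => ?_, fun t p => ?_⟩
  · funext p
    unfold AnosovDiffeo.potential
    rw [hN (g.D p) (f.D p) (g.Eu p) (f.Eu p) (by rw [hf2, hg2]) (by rw [hf3, hg3])]
  · unfold AnosovDiffeo.potential
    rw [hN (f.D (tr p)) (f.D p) (f.Eu (tr p)) (f.Eu p) (by rw [hf2]; rfl)
      (by rw [hf3]; simp only [hut])]

end Pool.Agent.H20Z.Anosov
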