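import Pool.Agent.H20Z.CartanDefs

set_option autoImplicit false

open scoped Manifold ContDiff Topology
open Metric Set Bundle

noncomputable section

namespace Pool.Agent.H20Z.Cartan

/-- The complex torus `ℂ²/ℤ[i]²`. -/
def Tor : Type := Fin 2 → AddCircle (1 : ℝ) × AddCircle (1 : ℝ)

instance : TopologicalSpace Tor :=
  inferInstanceAs (TopologicalSpace (Fin 2 → AddCircle (1 : ℝ) × AddCircle (1 : ℝ)))
instance : CompactSpace Tor :=
  inferInstanceAs (CompactSpace (Fin 2 → AddCircle (1 : ℝ) × AddCircle (1 : ℝ)))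
instance : T2Space Tor := inferInstanceAs (T2Space (Fin 2 → AddCircle (1 : ℝ) × AddCircle (1 : ℝ)))
instance : ConnectedSpace Tor :=
  inferInstanceAs (ConnectedSpace (Fin 2 → AddCircle (1 : ℝ) × AddCircle (1 : ℝ)))
instance : SecondCountableTopology Tor :=
  inferInstanceAs (SecondCountableTopology (Fin 2 → AddCircle (1 : ℝ) × AddCircle (1 : ℝ)))

def pr (x : Cn 2) : Tor := fun i => ((((x i).re : ℝ) : AddCircle (1 : ℝ)), (((x i).im : ℝ) : AddCircle (1 : ℝ)))

def cube (a : Cn 2) : OpenPartialHomeomorph (Cn 2) Tor :=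
  OpenPartialHomeomorph.pi fun i : Fin 2 =>
    Complex.equivRealProdCLM.toHomeomorph.toOpenPartialHomeomorph.trans
      ((AddCircle.openPartialHomeomorphCoe (1 : ℝ) ((a i).re - 1 / 2)).prod
        (AddCircle.openPartialHomeomorphCoe (1 : ℝ) ((a i).im - 1 / 2)))

def lft (p : Tor) : Cn 2 := fun i =>
  ⟨(AddCircle.equivIco (1 : ℝ) 0 (p i).1 : ℝ), (AddCircle.equivIco (1 : ℝ) 0 (p i).2 : ℝ)⟩

theorem pr_lft (p : Tor) : pr (lft p) = p := by
  funext i
  exact Prod.ext ((AddCircle.equivIco (1 : ℝ) 0).symm_apply_apply (p i).1)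
    ((AddCircle.equivIco (1 : ℝ) 0).symm_apply_apply (p i).2)

theorem norm_lft_le (p : Tor) : ‖lft p‖ ≤ 2 := by
  refine (pi_norm_le_iff_of_nonneg (by norm_num)).2 fun i => ?_
  refine (Complex.norm_le_abs_re_add_abs_im _).trans ?_
  have h1 := (AddCircle.equivIco (1 : ℝ) 0 (p i).1).2
  have h2 := (AddCircle.equivIco (1 : ℝ) 0 (p i).2).2
  simp only [mem_Ico, zero_add] at h1 h2
  change |(AddCircle.equivIco (1 : ℝ) 0 (p i).1 : ℝ)| + |(AddCircle.equivIco (1 : ℝ) 0 (p i).2 : ℝ)| ≤ 2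
  rw [abs_of_nonneg h1.1, abs_of_nonneg h2.1]
  linarith [h1.2, h2.2]

theorem cube_apply (a x : Cn 2) : cube a x = pr x := rfl

theorem self_mem_cube (a : Cn 2) : a ∈ (cube a).source := by
  intro i _
  refine ⟨trivial, ?_, ?_⟩
  · change (a i).re ∈ Ioo ((a i).re - 1 / 2) ((a i).re - 1 / 2 + 1)
    constructor <;> linarith
  · change (a i).im ∈ Ioo ((a i).im - 1 / 2) ((a i).im - 1 / 2 + 1)
    constructor <;> linarith

instance : ChartedSpace (Cn 2) Tor where
  atlas := {e | ∃ a : Cn 2, e = (cube a).symm}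
  chartAt p := (cube (lft p)).symm
  mem_chart_source p := by
    have := (cube (lft p)).map_source (self_mem_cube _)
    rw [cube_apply, pr_lft] at this
    exact this
  chart_mem_atlas p := ⟨_, rfl⟩

theorem chartAt_Tor (p : Tor) : chartAt (Cn 2) p = (cube (lft p)).symm := rfl

theorem chartAt_Tor_symm (p : Tor) : ((chartAt (Cn 2) p).symm : Cn 2 → Tor) = pr := rfl

theorem extChartAt_Tor_symm (p : Tor) :
    ((extChartAt 𝓘(ℂ, Cn 2) p).symm : Cn 2 → Tor) = pr := by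
  funext x
  simp [extChartAt, chartAt_Tor, cube_apply]

theorem pr_add {z x : Cn 2} (hzx : pr z = pr x) (y : Cn 2) : pr (y + (z - x)) = pr y := by
  funext i
  have h1 : (((z i).re : ℝ) : AddCircle (1 : ℝ)) = (((x i).re : ℝ) : AddCircle (1 : ℝ)) :=
    congrArg Prod.fst (congrFun hzx i)
  have h2 : (((z i).im : ℝ) : AddCircle (1 : ℝ)) = (((x i).im : ℝ) : AddCircle (1 : ℝ)) :=
    congrArg Prod.snd (congrFun hzx i)
  refine Prod.ext ?_ ?_
  · change ((((y + (z - x)) i).re : ℝ) : AddCircle (1 : ℝ)) = (((y i).re : ℝ) : AddCircle (1 : ℝ))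
    have : ((y + (z - x)) i).re = (y i).re + ((z i).re - (x i).re) := rfl
    rw [this, AddCircle.coe_add, AddCircle.coe_sub, h1, sub_self, add_zero]
  · change ((((y + (z - x)) i).im : ℝ) : AddCircle (1 : ℝ)) = (((y i).im : ℝ) : AddCircle (1 : ℝ))
    have : ((y + (z - x)) i).im = (y i).im + ((z i).im - (x i).im) := rfl
    rw [this, AddCircle.coe_add, AddCircle.coe_sub, h2, sub_self, add_zero]

theorem chart_comp_pr (a x : Cn 2) (hx : pr x ∈ (cube a).target) :
    ∃ n : Cn 2, ∀ᶠ y in 𝓝 x, (cube a).symm (pr y) = y + n := by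
  set z : Cn 2 := (cube a).symm (pr x) with hz
  have hzs : z ∈ (cube a).source := (cube a).map_target hx
  have hzx : pr z = pr x := by
    rw [← cube_apply a z]
    exact (cube a).right_inv hx
  refine ⟨z - x, ?_⟩
  have hcont : Continuous fun y : Cn 2 => y + (z - x) := continuous_id.add continuous_const
  have hmem : (fun y : Cn 2 => y + (z - x)) x ∈ (cube a).source := by
    have : x + (z - x) = z := by abel
    change x + (z - x) ∈ (cube a).source
    rw [this]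
    exact hzs
  have hev : ∀ᶠ y in 𝓝 x, y + (z - x) ∈ (cube a).source :=
    hcont.continuousAt.preimage_mem_nhds ((cube a).open_source.mem_nhds hmem)
  filter_upwards [hev] with y hy
  rw [← pr_add hzx y, ← cube_apply a]
  exact (cube a).left_inv hy

instance : IsManifold 𝓘(ℂ, Cn 2) ω Tor := by
  apply isManifold_of_contDiffOn
  rintro e e' ⟨a, rfl⟩ ⟨b, rfl⟩
  intro x hx
  have hx1 : x ∈ ((cube a).symm.symm ≫ₕ (cube b).symm).source := hx.1
  have hx2 : pr x ∈ (cube b).target := hx1.2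
  obtain ⟨n, hn⟩ := chart_comp_pr b x hx2
  have h2 : ContDiffAt ℂ ω (fun y : Cn 2 => y + n) x := contDiffAt_id.add contDiffAt_const
  have h3 : ContDiffAt ℂ ω (fun y : Cn 2 => (cube b).symm (pr y)) x :=
    h2.congr_of_eventuallyEq hn
  exact h3.contDiffWithinAt

theorem contMDiff_pr : ContMDiff 𝓘(ℂ, Cn 2) 𝓘(ℂ, Cn 2) ω pr := by
  intro x
  have hmem : (cube x).symm ∈ atlas (Cn 2) Tor := ⟨x, rfl⟩
  have hmax : (cube x).symm ∈ IsManifold.maximalAtlas 𝓘(ℂ, Cn 2) ω Tor :=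
    IsManifold.subset_maximalAtlas hmem
  have h1 := contMDiffOn_symm_of_mem_maximalAtlas hmax
  exact h1.contMDiffAt ((cube x).open_source.mem_nhds (self_mem_cube x))

theorem mfderiv_pr (x : Cn 2) :
    mfderiv 𝓘(ℂ, Cn 2) 𝓘(ℂ, Cn 2) pr x = (ContinuousLinearMap.id ℂ (Cn 2) : Cn 2 →L[ℂ] Cn 2) := by
  apply HasMFDerivAt.mfderiv
  refine ⟨(contMDiff_pr x).continuousAt, ?_⟩
  obtain ⟨n, hn⟩ := chart_comp_pr (lft (pr x)) x (mem_chart_source (Cn 2) (pr x))
  have h1 : HasFDerivAt (fun y : Cn 2 => y + n) (ContinuousLinearMap.id ℂ (Cn 2)) x :=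
    (hasFDerivAt_id x).add_const n
  have h2 : HasFDerivAt (fun y : Cn 2 => (cube (lft (pr x))).symm (pr y))
      (ContinuousLinearMap.id ℂ (Cn 2)) x := h1.congr_of_eventuallyEq hn
  exact h2.hasFDerivWithinAt

theorem mfderiv_extChartAt_Tor (p₀ p : Tor) (hp : p ∈ (chartAt (Cn 2) p₀).source) :
    mfderiv 𝓘(ℂ, Cn 2) 𝓘(ℂ, Cn 2) (extChartAt 𝓘(ℂ, Cn 2) p₀) p
      = (ContinuousLinearMap.id ℂ (Cn 2) : Cn 2 →L[ℂ] Cn 2) := by
  apply HasMFDerivAt.mfderiv
  refine ⟨continuousAt_extChartAt' (by rw [extChartAt_source]; exact hp), ?_⟩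
  have hp2 : p ∈ (cube (lft p₀)).target := hp
  set x : Cn 2 := (extChartAt 𝓘(ℂ, Cn 2) p) p with hx
  have hxp : pr x = p := by
    rw [← extChartAt_Tor_symm p]
    exact (extChartAt 𝓘(ℂ, Cn 2) p).left_inv (mem_extChartAt_source p)
  obtain ⟨n, hn⟩ := chart_comp_pr (lft p₀) x (by rw [hxp]; exact hp2)
  have h1 : HasFDerivAt (fun y : Cn 2 => y + n) (ContinuousLinearMap.id ℂ (Cn 2)) x :=
    (hasFDerivAt_id x).add_const n
  have h2 : HasFDerivAt (fun y : Cn 2 => (cube (lft p₀)).symm (pr y))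
      (ContinuousLinearMap.id ℂ (Cn 2)) x := h1.congr_of_eventuallyEq hn
  have h3 : (writtenInExtChartAt 𝓘(ℂ, Cn 2) 𝓘(ℂ, Cn 2) p (extChartAt 𝓘(ℂ, Cn 2) p₀)
      : Cn 2 → Cn 2) = fun y : Cn 2 => (cube (lft p₀)).symm (pr y) := by
    funext y
    simp only [writtenInExtChartAt, Function.comp, extChartAt_Tor_symm]
    rfl
  rw [h3]
  exact h2.hasFDerivWithinAt

/-- the tautological parallelism is holomorphic -/
theorem contMDiff_snd_Tor : ContMDiff 𝓘(ℂ, Cn 2).tangent 𝓘(ℂ, Cn 2) ω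
    (fun v : TangentBundle 𝓘(ℂ, Cn 2) Tor => (v.2 : Cn 2)) := by
  intro v₀
  let e := trivializationAt (Cn 2) (TangentSpace 𝓘(ℂ, Cn 2) (M := Tor)) v₀.1
  have hs : v₀ ∈ e.source := FiberBundle.mem_trivializationAt_proj_source
  have h1 : ContMDiffAt 𝓘(ℂ, Cn 2).tangent (𝓘(ℂ, Cn 2).prod 𝓘(ℂ, Cn 2)) ω e v₀ :=
    (e.contMDiffOn (IB := 𝓘(ℂ, Cn 2)) (n := ω)).contMDiffAt (e.open_source.mem_nhds hs)
  have h2 : ContMDiffAt 𝓘(ℂ, Cn 2).tangent 𝓘(ℂ, Cn 2) ω (fun v => (e v).2) v₀ :=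
    contMDiffAt_snd.comp v₀ h1
  refine h2.congr_of_eventuallyEq ?_
  filter_upwards [e.open_source.mem_nhds hs] with v hv
  have hb : v.1 ∈ e.baseSet := e.mem_source.1 hv
  have hb' : v.1 ∈ (chartAt (Cn 2) v₀.1).source := hb
  have h3 := TangentBundle.continuousLinearMapAt_trivializationAt (I := 𝓘(ℂ, Cn 2)) hb'
  rw [mfderiv_extChartAt_Tor _ _ hb'] at h3
  have h4 : e.continuousLinearMapAt ℂ v.1 v.2 = (e v).2 := by
    rw [Trivialization.continuousLinearMapAt_apply, e.coe_linearMapAt_of_mem hb]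
  rw [← h4, h3]
  rfl

/-- the flat metric -/
def flat : Cn 2 →L[ℝ] Cn 2 →L[ℝ] ℝ :=
  ∑ i : Fin 2, (innerSL ℝ (E := ℂ)).bilinearComp (ContinuousLinearMap.proj i)
    (ContinuousLinearMap.proj i)

theorem flat_apply (v w : Cn 2) : flat v w =
    (v 0).re * (w 0).re + (v 0).im * (w 0).im + ((v 1).re * (w 1).re + (v 1).im * (w 1).im) := by
  simp [flat, Fin.sum_univ_two, Complex.inner]
  ring

theorem inChart_flat (x₀ : Tor) (y v w : Cn 2) :
    inChart 2 (fun _ : Tor => flat) x₀ y v w = flat v w := by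
  unfold inChart D
  rw [chartAt_Tor_symm, mfderiv_pr]
  rfl

theorem kaehler_flat : IsKaehlerMetric 2 (fun _ : Tor => flat) := by
  refine ⟨fun _ v w => ?_, fun _ v hv => ?_, fun _ v w => ?_, fun x₀ v w => ?_,
    fun x₀ y _ u v w => ?_⟩
  · rw [flat_apply, flat_apply]; ring
  · rw [flat_apply]
    by_contra h
    push Not at h
    apply hv
    have h1 := mul_self_nonneg (v 0).re
    have h2 := mul_self_nonneg (v 0).im
    have h3 := mul_self_nonneg (v 1).re
    have h4 := mul_self_nonneg (v 1).im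
    have e1 : (v 0).re = 0 := mul_self_eq_zero.1 (by linarith)
    have e2 : (v 0).im = 0 := mul_self_eq_zero.1 (by linarith)
    have e3 : (v 1).re = 0 := mul_self_eq_zero.1 (by linarith)
    have e4 : (v 1).im = 0 := mul_self_eq_zero.1 (by linarith)
    funext i
    fin_cases i
    · exact Complex.ext e1 e2
    · exact Complex.ext e3 e4
  · rw [flat_apply, flat_apply]
    simp
    ring
  · simp only [inChart_flat]
    exact contDiffOn_const
  · simp only [dFund, inChart_flat]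
    simp

end Pool.Agent.H20Z.Cartan
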