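import Mathlib
import Pool.Agent.H318Z.MA.Defs

set_option autoImplicit false

open Set Filter

namespace Pool.Agent.H20Z.Ext

open H318Z.MA

variable {L : Type} [DecidableEq L]

/-- tightness of a finite set at stage `n` -/
def Tight (g : Finset L → ℕ → L → ℚ) (D : ℚ) (F : Finset L) (n : ℕ) : Prop :=
  ∀ A ⊆ F, ∀ A' ⊆ F, ∑ α ∈ A ∩ A', |g A n α - g A' n α| ≤ D

/-- forcing conditions -/
structure Cond (g : Finset L → ℕ → L → ℚ) (D R : ℚ) where
  /-- length -/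
  N : ℕ
  /-- support -/
  F : Finset L
  /-- values -/
  h : ℕ → L → ℚ
  tight : ∀ n, N ≤ n → Tight g D F n
  bd : ∀ n α, |h n α| ≤ R

variable {g : Finset L → ℕ → L → ℚ} {D R : ℚ}

instance : Preorder (Cond g D R) where
  le q p := p.N ≤ q.N ∧ p.F ⊆ q.F ∧ (∀ n < p.N, ∀ α ∈ p.F, q.h n α = p.h n α) ∧
    ∀ n, p.N ≤ n → n < q.N → ∀ A ⊆ p.F, ∑ α ∈ A, |g A n α - q.h n α| ≤ 2 * D
  le_refl p := ⟨le_rfl, subset_rfl, fun _ _ _ _ => rfl, fun n h1 h2 => by omega⟩
  le_trans r q p h1 h2 := by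
    obtain ⟨a1, a2, a3, a4⟩ := h1
    obtain ⟨b1, b2, b3, b4⟩ := h2
    refine ⟨b1.trans a1, b2.trans a2, fun n hn α hα => by
      rw [a3 n (by omega) α (b2 hα), b3 n hn α hα], fun n h1 h2 A hA => ?_⟩
    by_cases h : n < q.N
    · refine le_trans (le_of_eq (Finset.sum_congr rfl fun α hα => ?_)) (b4 n h1 h A hA)
      rw [a3 n h α (b2 (hA hα))]
    · exact a4 n (not_lt.1 h) h2 A (hA.trans b2)

lemma Tight.split {F : Finset L} {n : ℕ} (h : Tight g D F n) {A G : Finset L} (hA : A ⊆ F)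
    (hG : G ⊆ F) {v : L → ℚ} (h1 : ∀ α ∈ G, v α = g G n α) (h2 : ∀ α ∈ F, α ∉ G → v α = g F n α) :
    ∑ α ∈ A, |g A n α - v α| ≤ 2 * D := by
  rw [← Finset.sum_inter_add_sum_sdiff A G, two_mul]
  refine add_le_add (le_trans (le_of_eq (Finset.sum_congr rfl fun α hα => ?_)) (h A hA G hG)) ?_
  · rw [h1 α (Finset.mem_inter.1 hα).2]
  · refine le_trans (le_of_eq (Finset.sum_congr rfl fun α hα => ?_))
      (le_trans (Finset.sum_le_sum_of_subset_of_nonneg (t := A ∩ F) (fun α hα => ?_)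
        fun _ _ _ => abs_nonneg _) (h A hA F subset_rfl))
    · rw [h2 α (hA (Finset.mem_sdiff.1 hα).1) (Finset.mem_sdiff.1 hα).2]
    · exact Finset.mem_inter.2 ⟨(Finset.mem_sdiff.1 hα).1, hA (Finset.mem_sdiff.1 hα).1⟩

lemma amalg (hR : ∀ A n α, |g A n α| ≤ R)
    (hT : ∀ F : Finset L, ∀ᶠ n in atTop, Tight g D F n) (p q : Cond g D R) (hN : p.N = q.N)
    (hh : ∀ n < p.N, ∀ α ∈ p.F ∩ q.F, p.h n α = q.h n α) : ∃ r, r ≤ p ∧ r ≤ q := by
  obtain ⟨M, hM⟩ := eventually_atTop.1 (hT (p.F ∪ q.F))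
  let r : Cond g D R := ⟨max M p.N, p.F ∪ q.F, fun n α =>
    if n < p.N then (if α ∈ p.F then p.h n α else q.h n α) else
      if α ∈ p.F ∩ q.F then g (p.F ∩ q.F) n α else
        if α ∈ p.F then g p.F n α else g q.F n α,
    fun n hn => hM n ((le_max_left _ _).trans hn), fun n α => by
      split_ifs
      exacts [p.bd n α, q.bd n α, hR _ _ _, hR _ _ _, hR _ _ _]⟩
  refine ⟨r, ⟨le_max_right _ _, Finset.subset_union_left, fun n hn α hα => by simp [r, hn, hα],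
    fun n h1 _ A hA => ?_⟩, ⟨hN ▸ le_max_right _ _, Finset.subset_union_right,
    fun n hn α hα => ?_, fun n h1 _ A hA => ?_⟩⟩
  · refine (p.tight n h1).split hA (G := p.F ∩ q.F) Finset.inter_subset_left
      (fun α hα => ?_) fun α hα hα' => ?_
    · simp only [r, if_neg (not_lt.2 h1), if_pos hα]
    · simp only [r, if_neg (not_lt.2 h1), if_neg hα', if_pos hα]
  · have hn' : n < p.N := hN ▸ hn
    by_cases h : α ∈ p.F
    · simp [r, hn', h, hh n hn' α (Finset.mem_inter.2 ⟨h, hα⟩)]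
    · simp [r, hn', h]
  · have h1' : p.N ≤ n := hN ▸ h1
    refine (q.tight n h1).split hA (G := p.F ∩ q.F) Finset.inter_subset_right
      (fun α hα => ?_) fun α hα hα' => ?_
    · simp only [r, if_neg (not_lt.2 h1'), if_pos hα]
    · have : α ∉ p.F := fun h => hα' (Finset.mem_inter.2 ⟨h, hα⟩)
      simp only [r, if_neg (not_lt.2 h1'), if_neg hα', if_neg this]

omit [DecidableEq L] in
lemma countable_finsets {X : Type} {s : Set X} (hs : s.Countable) :
    {F : Finset X | ↑F ⊆ s}.Countable :=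
  ((countable_ofPred_finite_subset hs).preimage_of_injOn
    (f := fun F : Finset X => (F : Set X)) (Finset.coe_injective.injOn)).mono
    fun F hF => show (F : Set X).Finite ∧ (F : Set X) ⊆ s from ⟨F.finite_toSet, hF⟩

lemma cond_ccc (hR : ∀ A n α, |g A n α| ≤ R)
    (hT : ∀ F : Finset L, ∀ᶠ n in atTop, Tight g D F n) : CCC (Cond g D R) := by
  classical
  intro A hA
  by_contra hc
  let gr : Cond g D R → Finset L → Finset (ℕ × L × ℚ) := fun p S =>
    (Finset.range p.N ×ˢ S).image fun x => (x.1, x.2, p.h x.1 x.2)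
  let Has : Cond g D R → ℕ × Finset L × Finset (ℕ × L × ℚ) → Prop := fun p k =>
    p ∈ A ∧ p.N = k.1 ∧ k.2.1 ⊆ p.F ∧ gr p k.2.1 = k.2.2
  obtain ⟨p0, -⟩ : A.Nonempty := by
    rw [nonempty_iff_ne_empty]; rintro rfl; exact hc countable_empty
  let c : ℕ × Finset L × Finset (ℕ × L × ℚ) → Cond g D R := fun k =>
    if h : ∃ p, Has p k then h.choose else p0
  have hcs : ∀ p k, Has p k → Has (c k) k := by
    intro p k h
    have h' : ∃ p, Has p k := ⟨p, h⟩
    simp only [c, dif_pos h']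
    exact h'.choose_spec
  let keys : Set L → Set (ℕ × Finset L × Finset (ℕ × L × ℚ)) := fun S =>
    univ ×ˢ {F : Finset L | ↑F ⊆ S} ×ˢ {G : Finset (ℕ × L × ℚ) |
      (G : Set (ℕ × L × ℚ)) ⊆ univ ×ˢ S ×ˢ univ}
  have hk : ∀ S : Set L, S.Countable → (keys S).Countable := fun S hS =>
    countable_univ.prod ((countable_finsets hS).prod
      (countable_finsets (countable_univ.prod (hS.prod countable_univ))))
  let T : ℕ → Set L := fun n => Nat.rec ∅ (fun _ S => S ∪ ⋃ k ∈ keys S, ↑(c k).F) n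
  have hTc : ∀ n, (T n).Countable := by
    intro n
    induction n with
    | zero => exact countable_empty
    | succ n ih => exact ih.union ((hk _ ih).biUnion fun k _ => (c k).F.countable_toSet)
  have hTm : Monotone T := monotone_nat_of_le_succ fun n => subset_union_left
  let S := ⋃ n, T n
  have hS : S.Countable := countable_iUnion hTc
  obtain ⟨q, hqA, hq⟩ : ∃ q ∈ A, q ∉ c '' keys S := by
    by_contra h
    push Not at h
    exact hc (((hk S hS).image c).mono h)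
  let Rq := q.F.filter (· ∈ S)
  obtain ⟨m, hm⟩ : ∃ m, (↑Rq : Set L) ⊆ T m := by
    refine hTm.directed_le.exists_mem_subset_of_finset_subset_biUnion fun x hx => ?_
    exact (Finset.mem_filter.1 hx).2
  let k : ℕ × Finset L × Finset (ℕ × L × ℚ) := (q.N, Rq, gr q Rq)
  have hkm : k ∈ keys (T m) := by
    refine ⟨trivial, hm, fun x hx => ?_⟩
    obtain ⟨y, hy, rfl⟩ := Finset.mem_image.1 hx
    exact ⟨trivial, hm (Finset.mem_product.1 hy).2, trivial⟩
  have hkS : k ∈ keys S := by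
    refine ⟨trivial, hm.trans (subset_iUnion T m), fun x hx => ?_⟩
    obtain ⟨a, b, d⟩ := hkm.2.2 hx
    exact ⟨a, subset_iUnion T m b, d⟩
  obtain ⟨a1, a2, a3, a4⟩ := hcs q k ⟨hqA, rfl, Finset.filter_subset _ _, rfl⟩
  refine hA (c k) a1 q hqA (fun h => hq ⟨k, hkS, h⟩) (amalg hR hT _ _ a2 fun n hn α hα => ?_)
  have hαS : α ∈ S := subset_iUnion T (m + 1)
    (Or.inr (mem_iUnion₂.2 ⟨k, hkm, (Finset.mem_inter.1 hα).1⟩))
  have hαR : α ∈ Rq := Finset.mem_filter.2 ⟨(Finset.mem_inter.1 hα).2, hαS⟩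
  have : (n, α, (c k).h n α) ∈ gr q Rq := by
    rw [show gr q Rq = gr (c k) Rq from a4.symm]
    exact Finset.mem_image.2 ⟨(n, α), Finset.mem_product.2 ⟨Finset.mem_range.2 hn, hαR⟩, rfl⟩
  obtain ⟨y, -, hy⟩ := Finset.mem_image.1 this
  simp only [Prod.mk.injEq] at hy
  rw [← hy.2.2, hy.1, hy.2.1]

lemma extend (hR : ∀ A n α, |g A n α| ≤ R)
    (hT : ∀ F : Finset L, ∀ᶠ n in atTop, Tight g D F n) (p : Cond g D R) (α : L) (N : ℕ) :
    ∃ q : Cond g D R, (α ∈ q.F ∧ N ≤ q.N) ∧ q ≤ p := by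
  obtain ⟨M, hM⟩ := eventually_atTop.1 (hT (insert α p.F))
  refine ⟨⟨max M (max N p.N), insert α p.F, fun n β => if n < p.N then p.h n β else g p.F n β,
    fun n hn => hM n ((le_max_left _ _).trans hn), fun n β => by
      split_ifs
      exacts [p.bd n β, hR _ _ _]⟩, ⟨Finset.mem_insert_self _ _, by simp⟩, by simp,
    Finset.subset_insert _ _, fun n hn β _ => by simp [hn], fun n h1 _ A hA => ?_⟩
  exact (p.tight n h1).split hA (G := p.F) subset_rfl (fun β _ => by simp [not_lt.2 h1])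
    fun β h h' => absurd h h'

/-- The combinatorial consequence of Martin's axiom. -/
theorem exists_uniform (hMA : MartinAxiom.{0, 0} (L × ℕ)) (hR : ∀ A n α, |g A n α| ≤ R)
    (hT : ∀ F : Finset L, ∀ᶠ n in atTop, Tight g D F n) :
    ∃ h : ℕ → L → ℚ, (∀ n α, |h n α| ≤ R) ∧
      ∀ A : Finset L, ∀ᶠ n in atTop, ∑ α ∈ A, |g A n α - h n α| ≤ 2 * D := by
  obtain ⟨M, hM⟩ := eventually_atTop.1 (hT ∅)
  obtain ⟨G, ⟨p0, hp0⟩, -, hdir, hgen⟩ := hMA (Cond g D R) ⟨⟨M, ∅, g ∅, hM, hR ∅⟩⟩ (cond_ccc hR hT)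
    (fun k => {q | k.1 ∈ q.F ∧ k.2 ≤ q.N}) fun k p => extend hR hT p k.1 k.2
  choose P hP1 hP2 using hgen
  refine ⟨fun n α => (P (α, n + 1)).h n α, fun n α => (P _).bd n α, fun A => ?_⟩
  have hval : ∀ q ∈ G, ∀ n < q.N, ∀ α ∈ q.F, (P (α, n + 1)).h n α = q.h n α := by
    intro q hq n hn α hα
    obtain ⟨r, -, h1, h2⟩ := hdir q (P (α, n + 1)) ⟨hq, hP1 _⟩
    rw [← h1.2.2.1 n hn α hα, h2.2.2.1 n (hP2 (α, n + 1)).2 α (hP2 (α, n + 1)).1]
  obtain ⟨p, hp, hAp⟩ : ∃ p ∈ G, A ⊆ p.F := by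
    induction A using Finset.induction_on with
    | empty => exact ⟨p0, hp0, Finset.empty_subset _⟩
    | insert a A _ ih =>
      obtain ⟨p, hp, h⟩ := ih
      obtain ⟨r, hr, h1, h2⟩ := hdir p (P (a, 0)) ⟨hp, hP1 _⟩
      exact ⟨r, hr, Finset.insert_subset (h2.2.1 (hP2 (a, 0)).1) (h.trans h1.2.1)⟩
  rcases A.eq_empty_or_nonempty with rfl | ⟨a, -⟩
  · filter_upwards [hT ∅] with n hn
    have := hn ∅ subset_rfl ∅ subset_rfl
    simp only [Finset.inter_self, Finset.sum_empty] at this ⊢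
    linarith
  filter_upwards [eventually_ge_atTop p.N] with n hn
  obtain ⟨r, hr, h1, h2⟩ := hdir p (P (a, n + 1)) ⟨hp, hP1 _⟩
  have h3 : n < r.N := lt_of_lt_of_le (hP2 (a, n + 1)).2 h2.1
  refine le_trans (le_of_eq (Finset.sum_congr rfl fun α hα => ?_)) (h1.2.2.2 n hn h3 A hAp)
  rw [hval r hr n h3 α (h1.2.1 (hAp hα))]

end Pool.Agent.H20Z.Ext
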