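import Mathlib
import Pool.Agent.H20Z.ExtMA

set_option autoImplicit false

open Set Filter Topology

namespace Pool.Agent.H20Z.Ext

open H318Z.MA

variable {B : Type} [NormedAddCommGroup B] [NormedSpace ℝ B]

lemma uniform_on_finite {Z : Submodule ℝ B} {φ : ℕ → B →ₗ[ℝ] ℝ} {K : ℝ}
    (h1 : ∀ z ∈ Z, ∀ ε : ℝ, 0 < ε → ∀ᶠ n in atTop, |φ n z| ≤ K * ‖z‖ + ε)
    (h2 : ∀ z, ∃ C, ∀ n, |φ n z| ≤ C) (W : Submodule ℝ B) [FiniteDimensional ℝ W] (hW : W ≤ Z) :
    ∀ᶠ n in atTop, ∀ w ∈ W, |φ n w| ≤ (K + 1) * ‖w‖ := by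
  have := FiniteDimensional.complete ℝ W
  let ψ : ℕ → W →L[ℝ] ℝ := fun n => LinearMap.toContinuousLinearMap ((φ n).domRestrict W)
  obtain ⟨L, hL⟩ := banach_steinhaus (g := ψ) fun w => h2 w
  have hL0 : 0 ≤ L := (norm_nonneg _).trans (hL 0)
  have key : ∀ᶠ n in atTop, ∀ w ∈ Metric.sphere (0 : W) 1, |φ n w| ≤ K + 1 := by
    refine (isCompact_sphere (0 : W) 1).induction_on
      (p := fun s => ∀ᶠ n in atTop, ∀ w ∈ s, |φ n w| ≤ K + 1) (by simp)
      (fun s t hst h => h.mono fun n hn w hw => hn w (hst hw))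
      (fun s t hs ht => (hs.and ht).mono fun n hn w hw => hw.elim (hn.1 w) (hn.2 w))
      fun x hx => ?_
    refine ⟨Metric.ball x (1 / (2 * (L + 1))),
      mem_nhdsWithin_of_mem_nhds (Metric.ball_mem_nhds _ (by positivity)), ?_⟩
    filter_upwards [h1 x (hW x.2) (1 / 2) (by norm_num)] with n hn w hw
    have e : φ n w = φ n x + ψ n (w - x) := by simp [ψ]
    have hx' : ‖(x : B)‖ = 1 := by simpa using hx
    have a1 : |ψ n (w - x)| ≤ L * (1 / (2 * (L + 1))) :=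
      ((ψ n).le_opNorm _).trans (mul_le_mul (hL n) (mem_ball_iff_norm.1 hw).le (norm_nonneg _) hL0)
    have a2 : L * (1 / (2 * (L + 1))) ≤ 1 / 2 := by
      rw [mul_one_div, div_le_div_iff₀ (by positivity) (by norm_num)]; linarith
    rw [hx'] at hn
    rw [e]
    linarith [abs_add_le (φ n x) (ψ n (w - x))]
  filter_upwards [key] with n hn w hw
  rcases eq_or_ne w 0 with rfl | h0
  · simp
  · have hpos : 0 < ‖w‖ := norm_pos_iff.2 h0
    have := hn ⟨‖w‖⁻¹ • w, W.smul_mem _ hw⟩ (by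
      simp [norm_smul, inv_mul_cancel₀ hpos.ne'])
    simp only [map_smul, smul_eq_mul, abs_mul, abs_inv, abs_norm] at this
    rwa [inv_mul_le_iff₀ hpos, mul_comm] at this

lemma exists_functionals {Z : Submodule ℝ B} {φ : ℕ → B →ₗ[ℝ] ℝ} {K : ℝ} (hK : 0 ≤ K)
    (h1 : ∀ z ∈ Z, ∀ ε : ℝ, 0 < ε → ∀ᶠ n in atTop, |φ n z| ≤ K * ‖z‖ + ε)
    (h2 : ∀ z, ∃ C, ∀ n, |φ n z| ≤ C) (T : Set B) (hT : T.Finite) (hTZ : T ⊆ Z) :
    ∃ ψ : ℕ → B →L[ℝ] ℝ, (∀ n, ‖ψ n‖ ≤ K + 1) ∧ ∀ᶠ n in atTop, ∀ w ∈ T, ψ n w = φ n w := by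
  have := FiniteDimensional.span_of_finite ℝ hT
  have h3 := uniform_on_finite h1 h2 (Submodule.span ℝ T) (Submodule.span_le.2 hTZ)
  have : ∀ n, ∃ ψ : B →L[ℝ] ℝ, ‖ψ‖ ≤ K + 1 ∧
      ((∀ w ∈ Submodule.span ℝ T, |φ n w| ≤ (K + 1) * ‖w‖) → ∀ w ∈ T, ψ w = φ n w) := by
    intro n
    by_cases h : ∀ w ∈ Submodule.span ℝ T, |φ n w| ≤ (K + 1) * ‖w‖
    · obtain ⟨g, hg1, hg2⟩ := exists_extension_norm_eq (Submodule.span ℝ T)
        (((φ n).domRestrict (Submodule.span ℝ T)).mkContinuous (K + 1) fun w => h w w.2)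
      refine ⟨g, hg2 ▸ LinearMap.mkContinuous_norm_le _ (by linarith) _, fun _ w hw => ?_⟩
      exact hg1 ⟨w, Submodule.subset_span hw⟩
    · exact ⟨0, by simp; linarith, fun h' => absurd h' h⟩
  choose ψ hψ1 hψ2 using this
  exact ⟨ψ, hψ1, h3.mono fun n hn => hψ2 n hn⟩

/-- sign vector -/
def sg {Γ : Type} [DecidableEq Γ] (P : Finset Γ) (α : Γ) : ℝ := if α ∈ P then 1 else -1

lemma abs_sg {Γ : Type} [DecidableEq Γ] (P : Finset Γ) (α : Γ) : |sg P α| = 1 := by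
  unfold sg; split_ifs <;> simp

lemma eventually_card (F : ℕ) : ∀ᶠ n : ℕ in atTop, (F : ℝ) * (1 / (n + 1)) ≤ 1 := by
  filter_upwards [eventually_ge_atTop F] with n hn
  have : (F : ℝ) ≤ n := by exact_mod_cast hn
  rw [mul_one_div, div_le_one (by positivity)]; linarith

theorem core {Γ : Type} [DecidableEq Γ] (hMA : MartinAxiom.{0, 0} (Γ × ℕ)) {Z : Submodule ℝ B}
    {φ : ℕ → B →ₗ[ℝ] ℝ} {K M : ℝ} (hK : 0 ≤ K)
    (h1 : ∀ z ∈ Z, ∀ ε : ℝ, 0 < ε → ∀ᶠ n in atTop, |φ n z| ≤ K * ‖z‖ + ε)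
    (h2 : ∀ z, ∃ C, ∀ n, |φ n z| ≤ C) (b : Γ → B) (hb : ∀ α, ‖b α‖ ≤ M)
    (bs : Finset Γ → Finset Γ → B) (hbs : ∀ C P, ‖bs C P‖ ≤ M)
    (hZ : ∀ C P, bs C P - ∑ α ∈ C, sg P α • b α ∈ Z) :
    ∃ (h : ℕ → Γ → ℝ) (R C' : ℝ), (∀ n α, |h n α| ≤ R) ∧ ∀ C P, P ⊆ C → ∀ᶠ n in atTop,
      |φ n (bs C P - ∑ α ∈ C, sg P α • b α) + ∑ α ∈ C, sg P α * h n α| ≤ C' := by
  have hM : 0 ≤ M := (norm_nonneg _).trans (hbs ∅ ∅)
  choose ψ hψ1 hψ2 using fun F : Finset Γ => exists_functionals hK h1 h2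
    ((fun x : Finset Γ × Finset Γ => bs x.1 x.2 - ∑ α ∈ x.1, sg x.2 α • b α) ''
      ↑(F.powerset ×ˢ F.powerset)) ((Finset.finite_toSet _).image _)
    (by rintro _ ⟨x, -, rfl⟩; exact hZ _ _)
  have hbd : ∀ F n x, ‖x‖ ≤ M → |ψ F n x| ≤ (K + 1) * M := fun F n x hx =>
    ((ψ F n).le_opNorm x).trans (mul_le_mul (hψ1 F n) hx (norm_nonneg _) (by linarith))
  have hsol : ∀ F, ∀ᶠ n in atTop, ∀ C ⊆ F, ∀ P ⊆ F,
      |φ n (bs C P - ∑ α ∈ C, sg P α • b α) + ∑ α ∈ C, sg P α * ψ F n (b α)| ≤ (K + 1) * M := by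
    intro F
    filter_upwards [hψ2 F] with n hn C hC P hP
    rw [← hn _ ⟨(C, P), by simp [hC, hP], rfl⟩]
    simpa using hbd F n _ (hbs C P)
  choose g hg using fun (F : Finset Γ) (n : ℕ) (α : Γ) =>
    exists_rat_near (ψ F n (b α)) (show (0 : ℝ) < 1 / (n + 1) by positivity)
  obtain ⟨D, hD⟩ := exists_rat_gt (2 * ((K + 1) * M) + 2)
  obtain ⟨R, hR⟩ := exists_rat_gt ((K + 1) * M + 1)
  have happrox : ∀ (F C : Finset Γ), ∀ᶠ n in atTop, ∑ α ∈ C, |ψ F n (b α) - g F n α| ≤ 1 := by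
    intro F C
    filter_upwards [eventually_card C.card] with n hn
    refine le_trans (Finset.sum_le_card_nsmul _ _ _ fun α _ => (hg F n α).le) (by simpa using hn)
  obtain ⟨h, hh1, hh2⟩ := exists_uniform (g := g) (D := D) (R := R) hMA
    (fun A n α => by
      have a1 := hbd A n _ (hb α)
      have a2 := hg A n α
      have a3 : (1 : ℝ) / (n + 1) ≤ 1 := by
        rw [div_le_one (by positivity)]; linarith [n.cast_nonneg (α := ℝ)]
      have a4 := abs_sub_abs_le_abs_sub (g A n α : ℝ) (ψ A n (b α))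
      rw [abs_sub_comm] at a4
      have : |(g A n α : ℝ)| ≤ R := by linarith
      exact_mod_cast this)
    (fun F => by
      have : ∀ᶠ n in atTop, ∀ A ∈ F.powerset, ∀ A' ∈ F.powerset,
          ∑ α ∈ A ∩ A', |g A n α - g A' n α| ≤ D := by
        refine (eventually_all_finset _).2 fun A _ => (eventually_all_finset _).2 fun A' _ => ?_
        filter_upwards [hsol A, hsol A', happrox A (A ∩ A'), happrox A' (A ∩ A')]
          with n a1 a2 a3 a4
        set P := (A ∩ A').filter fun α => 0 ≤ ψ A n (b α) - ψ A' n (b α)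
        have b1 := a1 (A ∩ A') Finset.inter_subset_left P
          ((Finset.filter_subset _ _).trans Finset.inter_subset_left)
        have b2 := a2 (A ∩ A') Finset.inter_subset_right P
          ((Finset.filter_subset _ _).trans Finset.inter_subset_right)
        have b3 : ∑ α ∈ A ∩ A', |ψ A n (b α) - ψ A' n (b α)|
            = ∑ α ∈ A ∩ A', sg P α * ψ A n (b α) - ∑ α ∈ A ∩ A', sg P α * ψ A' n (b α) := by
          rw [← Finset.sum_sub_distrib]
          refine Finset.sum_congr rfl fun α hα => ?_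
          simp only [sg, P, Finset.mem_filter, hα, true_and]
          split_ifs with h
          · rw [abs_of_nonneg h]; ring
          · rw [abs_of_neg (not_le.1 h)]; ring
        have b4 : ∑ α ∈ A ∩ A', |(g A n α : ℝ) - g A' n α| ≤
            ∑ α ∈ A ∩ A', (|ψ A n (b α) - ψ A' n (b α)| + |ψ A n (b α) - g A n α|
              + |ψ A' n (b α) - g A' n α|) := by
          refine Finset.sum_le_sum fun α _ => ?_
          rw [abs_le]
          constructor <;> linarith [le_abs_self (ψ A n (b α) - ψ A' n (b α)),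
            neg_abs_le (ψ A n (b α) - ψ A' n (b α)), le_abs_self (ψ A n (b α) - g A n α),
            neg_abs_le (ψ A n (b α) - g A n α), le_abs_self (ψ A' n (b α) - g A' n α),
            neg_abs_le (ψ A' n (b α) - g A' n α)]
        rw [Finset.sum_add_distrib, Finset.sum_add_distrib, b3] at b4
        have : ∑ α ∈ A ∩ A', |(g A n α : ℝ) - g A' n α| ≤ D := by
          rw [abs_le] at b1 b2
          linarith [b1.2, b2.1]
        exact_mod_cast this
      filter_upwards [this] with n hn A hA A' hA'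
      exact hn A (Finset.mem_powerset.2 hA) A' (Finset.mem_powerset.2 hA'))
  refine ⟨fun n α => h n α, R, (K + 1) * M + (1 + 2 * D), fun n α => by
    show |(h n α : ℝ)| ≤ R
    exact_mod_cast hh1 n α,
    fun C P hP => ?_⟩
  filter_upwards [hsol C, happrox C C, hh2 C] with n a1 a2 a3
  have b1 := a1 C subset_rfl P hP
  have a3' : ∑ α ∈ C, |(g C n α : ℝ) - h n α| ≤ 2 * D := by exact_mod_cast a3
  have b2 : |∑ α ∈ C, sg P α * (h n α : ℝ) - ∑ α ∈ C, sg P α * ψ C n (b α)| ≤ 1 + 2 * D := by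
    rw [← Finset.sum_sub_distrib]
    refine (Finset.abs_sum_le_sum_abs _ _).trans (le_trans (Finset.sum_le_sum fun α _ => ?_)
      ((Finset.sum_add_distrib).le.trans (add_le_add a2 a3')))
    rw [← mul_sub, abs_mul, abs_sg, one_mul, abs_sub_comm]
    exact abs_sub_le _ _ _
  rw [abs_le] at b1 b2 ⊢
  constructor <;> linarith [b1.1, b1.2, b2.1, b2.2]

end Pool.Agent.H20Z.Ext
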