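import Mathlib

set_option autoImplicit false

open scoped ENNReal

namespace Pool.Agent.H20Z.Ext

/-- The space `ℓ_∞(Γ)` of bounded real families on `Γ` with the sup norm. -/
def Linf (Γ : Type) : Type := lp (fun _ : Γ => ℝ) ∞

noncomputable instance instGroupLinf (Γ : Type) : NormedAddCommGroup (Linf Γ) :=
  lp.normedAddCommGroup (E := fun _ : Γ => ℝ) (p := ∞)

noncomputable instance instSpaceLinf (Γ : Type) : NormedSpace ℝ (Linf Γ) :=
  lp.instNormedSpace (E := fun _ : Γ => ℝ) (p := ∞)

instance instCompleteLinf (Γ : Type) : CompleteSpace (Linf Γ) :=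
  inferInstanceAs (CompleteSpace (lp (fun _ : Γ => ℝ) ∞))

/-- The coordinate `x_a` of `x ∈ ℓ_∞(Γ)`. -/
def Linf.ev {Γ : Type} (x : Linf Γ) (a : Γ) : ℝ := Subtype.val x a

/-- The space `c_0(Γ)`: the real families `x` on `Γ` with `{a : |x a| > ε}` finite for every
`ε > 0`, as a subspace of `ℓ_∞(Γ)` (sup norm). -/
def c0 (Γ : Type) : Submodule ℝ (Linf Γ) where
  carrier := {x | ∀ ε : ℝ, 0 < ε → {a | ε < |x.ev a|}.Finite}
  add_mem' := by
    intro x y hx hy ε hε
    refine ((hx (ε / 2) (by positivity)).union (hy (ε / 2) (by positivity))).subset fun a ha => ?_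
    by_contra h
    simp only [Set.mem_union, Set.mem_ofPred_eq, not_or, not_lt] at h
    have h1 : ε < |x.ev a + y.ev a| := ha
    linarith [abs_add_le (x.ev a) (y.ev a), h.1, h.2]
  zero_mem' := fun ε hε => Set.finite_empty.subset fun a ha => by
    have h1 : ε < |(0 : ℝ)| := ha
    rw [abs_zero] at h1
    exact absurd h1 hε.not_gt
  smul_mem' := by
    intro c x hx ε hε
    refine (hx (ε / (|c| + 1)) (by positivity)).subset fun a ha => ?_
    have h1 : ε < |c * x.ev a| := ha
    rw [abs_mul] at h1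
    show ε / (|c| + 1) < |x.ev a|
    rw [div_lt_iff₀ (by positivity)]
    nlinarith [abs_nonneg (x.ev a)]

instance isClosed_c0 (Γ : Type) : IsClosed (c0 Γ : Set (Linf Γ)) := by
  refine isClosed_of_closure_subset fun x hx ε hε => ?_
  obtain ⟨y, hy, h⟩ := Metric.mem_closure_iff.1 hx (ε / 2) (by positivity)
  refine (hy (ε / 2) (by positivity)).subset fun a ha => ?_
  have h1 : ε < |x.ev a| := ha
  have h2 : |x.ev a - y.ev a| ≤ ‖x - y‖ :=
    lp.norm_apply_le_norm (E := fun _ : Γ => ℝ) ENNReal.top_ne_zero (x - y) a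
  rw [dist_eq_norm] at h
  show ε / 2 < |y.ev a|
  linarith [abs_sub_abs_le_abs_sub (x.ev a) (y.ev a)]

section
variable {A B C D : Type} [NormedAddCommGroup A] [NormedSpace ℝ A] [NormedAddCommGroup B]
  [NormedSpace ℝ B] [NormedAddCommGroup C] [NormedSpace ℝ C] [NormedAddCommGroup D]
  [NormedSpace ℝ D]

/-- The triangle of operators commutes: `g ∘ f = h`. -/
def Tri (f : A →L[ℝ] B) (g : B →L[ℝ] C) (h : A →L[ℝ] C) : Prop := ∀ x, g (f x) = h x

/-- The square of operators commutes: `g ∘ f = g' ∘ f'`. -/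
def Sq (f : A →L[ℝ] B) (g : B →L[ℝ] D) (f' : A →L[ℝ] C) (g' : C →L[ℝ] D) : Prop :=
  g.comp f = g'.comp f'

end

variable (Y X : Type) [NormedAddCommGroup Y] [NormedSpace ℝ Y] [NormedAddCommGroup X]
  [NormedSpace ℝ X]

/-- An exact sequence `0 → X → A → B → Y → 0` of Banach spaces and operators. -/
structure TwoExt where
  /-- first middle space -/
  A : Type
  /-- second middle space -/
  B : Type
  [gA : NormedAddCommGroup A]
  [sA : NormedSpace ℝ A]
  [cA : CompleteSpace A]
  [gB : NormedAddCommGroup B]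
  [sB : NormedSpace ℝ B]
  [cB : CompleteSpace B]
  /-- the operator `X → A` -/
  i : X →L[ℝ] A
  /-- the operator `A → B` -/
  d : A →L[ℝ] B
  /-- the operator `B → Y` -/
  q : B →L[ℝ] Y
  inj : Function.Injective i
  exA : Function.Exact i d
  exB : Function.Exact d q
  surj : Function.Surjective q

attribute [instance] TwoExt.gA TwoExt.sA TwoExt.cA TwoExt.gB TwoExt.sB TwoExt.cB

variable {Y X}

/-- There is a morphism of exact sequences from `E` to `E'` that is the identity on `X` and `Y`. -/
def TwoExt.Hom (E E' : TwoExt Y X) : Prop :=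
  ∃ (a : E.A →L[ℝ] E'.A) (b : E.B →L[ℝ] E'.B),
    Tri E.i a E'.i ∧ Sq E.d b a E'.d ∧ Tri b E'.q E.q

variable (Y X) [CompleteSpace Y] [CompleteSpace X]

/-- The sequence `0 → X = X → Y = Y → 0` with zero middle operator: the zero element of the
Yoneda group. -/
noncomputable def TwoExt.zero : TwoExt Y X where
  A := X
  B := Y
  i := ContinuousLinearMap.id ℝ X
  d := 0
  q := ContinuousLinearMap.id ℝ Y
  inj := Function.injective_id
  exA := fun x => by simp
  exB := fun y => by simp
  surj := Function.surjective_id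

/-- The Yoneda group `Ext^2(Y, X)` vanishes: every exact sequence `0 → X → A → B → Y → 0` is
equivalent to the zero element under the equivalence relation generated by morphisms. -/
def Ext2Vanishes : Prop := ∀ E : TwoExt Y X, Relation.EqvGen TwoExt.Hom E (TwoExt.zero Y X)

end Pool.Agent.H20Z.Ext
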