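import Mathlib
import Pool.Agent.H20Z.ExtCore
import Pool.Agent.H20Z.ExtDefs

set_option autoImplicit false

open Set Filter Topology
open scoped ENNReal

namespace Pool.Agent.H20Z.Ext

open H318Z.MA

/-- `ℓ_∞(Γ)` -/
abbrev linf (Γ : Type) : Type := Linf Γ

instance {Γ : Type} : CoeFun (Linf Γ) fun _ => Γ → ℝ := ⟨Linf.ev⟩

/-- evaluation -/
def evL {Γ : Type} (a : Γ) : Linf Γ →ₗ[ℝ] ℝ where
  toFun x := x a
  map_add' _ _ := rfl
  map_smul' _ _ := rfl

@[ext] lemma Linf.ext {Γ : Type} {x y : Linf Γ} (h : ∀ a, x a = y a) : x = y :=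
  Subtype.ext (funext h)

@[simp] lemma ev_add {Γ : Type} (x y : Linf Γ) (a : Γ) : (x + y) a = x a + y a := rfl
@[simp] lemma ev_sub {Γ : Type} (x y : Linf Γ) (a : Γ) : (x - y) a = x a - y a := rfl
@[simp] lemma ev_smul {Γ : Type} (c : ℝ) (x : Linf Γ) (a : Γ) : (c • x) a = c * x a := rfl

lemma abs_apply_le {Γ : Type} (x : linf Γ) (a : Γ) : |x a| ≤ ‖x‖ :=
  lp.norm_apply_le_norm (E := fun _ : Γ => ℝ) ENNReal.top_ne_zero x a

lemma norm_le_of_abs {Γ : Type} {x : linf Γ} {C : ℝ} (hC : 0 ≤ C) (h : ∀ a, |x a| ≤ C) :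
    ‖x‖ ≤ C := lp.norm_le_of_forall_le (E := fun _ : Γ => ℝ) hC h

lemma sum_smul_apply {Γ ι : Type} (F : Finset ι) (c : ι → ℝ) (v : ι → linf Γ) (a : Γ) :
    (∑ x ∈ F, c x • v x : linf Γ) a = ∑ x ∈ F, c x * v x a :=
  map_sum (evL a) (fun x => c x • v x) F

/-- a bounded function as an element of `ℓ_∞` -/
def mkInf {Γ : Type} (f : Γ → ℝ) (C : ℝ) (h : ∀ a, |f a| ≤ C) : linf Γ :=
  Subtype.mk f (memℓp_infty (E := fun _ : Γ => ℝ) ⟨C, by rintro _ ⟨a, rfl⟩; exact h a⟩)

@[simp] lemma mkInf_apply {Γ : Type} (f : Γ → ℝ) (C : ℝ) (h : ∀ a, |f a| ≤ C) (a : Γ) :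
    mkInf f C h a = f a := rfl

lemma mem_c0_of_finite {Γ : Type} {x : linf Γ} {s : Set Γ} (hs : s.Finite)
    (h : ∀ a ∉ s, x a = 0) : x ∈ c0 Γ := fun ε hε => hs.subset fun a ha => by
  by_contra hh
  have h1 : ε < |x a| := ha
  rw [h a hh, abs_zero] at h1
  exact absurd h1 hε.not_gt

lemma eventually_small (x : c0 ℕ) {ε : ℝ} (hε : 0 < ε) : ∀ᶠ n in atTop, |x.1 n| ≤ ε := by
  rw [← Nat.cofinite_eq_atTop, eventually_cofinite]
  simpa using x.2 ε hε

lemma norm_mk_le_of_eventually (x : linf ℕ) {C : ℝ} (hC : 0 ≤ C)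
    (h : ∀ᶠ n in atTop, |x n| ≤ C) : ‖(c0 ℕ).mkQL x‖ ≤ C := by
  obtain ⟨N, hN⟩ := eventually_atTop.1 h
  let y : linf ℕ := mkInf (fun n => if n < N then 0 else x n) C fun n => by
    split_ifs with h
    · simpa using hC
    · exact hN n (not_lt.1 h)
  have : (c0 ℕ).mkQL x = Submodule.Quotient.mk y := by
    refine (Submodule.Quotient.eq _).2 (mem_c0_of_finite (finite_lt_nat N) fun n hn => ?_)
    have : ¬ n < N := hn
    simp [y, this]
  rw [this]
  refine (Submodule.Quotient.norm_mk_le _ _).trans (norm_le_of_abs hC fun n => ?_)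
  simp only [y, mkInf_apply]
  split_ifs with h
  · simpa using hC
  · exact hN n (not_lt.1 h)

/-- finitely supported vector -/
noncomputable def fin {Γ : Type} [DecidableEq Γ] (F : Finset Γ) (c : Γ → ℝ) : c0 Γ :=
  ⟨mkInf (fun a => if a ∈ F then c a else 0) (∑ a ∈ F, |c a|) (fun a => by
    split_ifs with h
    · exact Finset.single_le_sum (f := fun a => |c a|) (fun _ _ => abs_nonneg _) h
    · simpa using Finset.sum_nonneg fun _ _ => abs_nonneg _),
    mem_c0_of_finite F.finite_toSet fun a ha => if_neg ha⟩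

lemma fin_apply {Γ : Type} [DecidableEq Γ] (F : Finset Γ) (c : Γ → ℝ) (a : Γ) :
    (fin F c).1 a = if a ∈ F then c a else 0 := rfl

lemma fin_eq_sum {Γ : Type} [DecidableEq Γ] (F : Finset Γ) (c : Γ → ℝ) :
    fin F c = ∑ a ∈ F, c a • fin {a} fun _ => 1 := by
  ext x
  rw [Submodule.coe_sum]
  simp only [Submodule.coe_smul]
  rw [sum_smul_apply]
  simp [fin_apply]

lemma norm_fin_le {Γ : Type} [DecidableEq Γ] (F : Finset Γ) (c : Γ → ℝ) {t : ℝ} (ht : 0 ≤ t)
    (h : ∀ a ∈ F, |c a| ≤ t) : ‖fin F c‖ ≤ t := by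
  refine norm_le_of_abs (x := (fin F c).1) ht fun a => ?_
  rw [fin_apply]
  split_ifs with ha
  · exact h a ha
  · simpa using ht

variable {Y : Type} [NormedAddCommGroup Y] [NormedSpace ℝ Y]

lemma exists_alpha (E : TwoExt Y (c0 ℕ)) :
    ∃ a : E.A →L[ℝ] linf ℕ, a.comp E.i = (c0 ℕ).subtypeL := by
  have hcl : IsClosed (range E.i) := by
    have : range E.i = E.d ⁻¹' {0} := by ext x; exact (E.exA x).symm
    rw [this]; exact isClosed_singleton.preimage E.d.continuous
  let e := E.i.equivRange E.inj hcl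
  let s : E.i.range →L[ℝ] linf ℕ := (c0 ℕ).subtypeL.comp e.symm.toContinuousLinearMap
  choose f hf1 hf2 using fun n : ℕ => exists_extension_norm_eq E.i.range
    (((evL n).mkContinuous 1 fun x => (abs_apply_le x n).trans (one_mul _).ge).comp s)
  have hf : ∀ n x, |f n x| ≤ ‖s‖ * ‖x‖ := by
    intro n x
    refine ((f n).le_opNorm x).trans (mul_le_mul_of_nonneg_right ?_ (norm_nonneg _))
    rw [hf2]
    exact ContinuousLinearMap.opNorm_le_bound _ s.opNorm_nonneg fun w =>
      (abs_apply_le (s w) n).trans (s.le_opNorm w)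
  let a : E.A →ₗ[ℝ] linf ℕ :=
    { toFun := fun x => mkInf (fun n => f n x) (‖s‖ * ‖x‖) fun n => hf n x
      map_add' := fun x y => by ext n; simp
      map_smul' := fun c x => by ext n; simp }
  refine ⟨a.mkContinuous ‖s‖ fun x => norm_le_of_abs (by positivity) fun n => hf n x, ?_⟩
  ext x n
  have h1 := hf1 n (e x)
  have h2 : s (e x) = x := by simp [s]
  simp only [ContinuousLinearMap.comp_apply, h2] at h1
  exact h1

theorem exists_Phi {Γ : Type} (hMA : MartinAxiom.{0, 0} (Γ × ℕ)) (E : TwoExt (c0 Γ) (c0 ℕ))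
    (a : E.A →L[ℝ] linf ℕ) (ha : a.comp E.i = (c0 ℕ).subtypeL) :
    ∃ Φ : E.B →L[ℝ] (linf ℕ ⧸ c0 ℕ), Φ.comp E.d = (c0 ℕ).mkQL.comp a := by
  classical
  obtain ⟨M, hM0, hM⟩ := E.q.exists_preimage_norm_le E.surj
  choose lf hlf1 hlf2 using hM
  have hZc : CompleteSpace E.q.ker := E.q.isClosed_ker.completeSpace_coe
  have hdZ : ∀ x, E.d x ∈ E.q.ker := fun x => E.exB.apply_apply_eq_zero x
  have hsur : Function.Surjective (E.d.codRestrict E.q.ker hdZ) := by
    rintro ⟨z, hz⟩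
    obtain ⟨x, hx⟩ := (E.exB z).1 hz
    exact ⟨x, Subtype.ext hx⟩
  obtain ⟨M', hM'0, hM'⟩ := (E.d.codRestrict E.q.ker hdZ).exists_preimage_norm_le hsur
  obtain ⟨σ0, hσ0⟩ := LinearMap.exists_rightInverse_of_surjective
    (E.d.codRestrict E.q.ker hdZ).toLinearMap (LinearMap.range_eq_top.2 hsur)
  obtain ⟨σ, hσ⟩ := σ0.exists_extend
  have hdσ : ∀ z ∈ E.q.ker, E.d (σ z) = z := by
    intro z hz
    have h1 : σ z = σ0 ⟨z, hz⟩ := LinearMap.congr_fun hσ ⟨z, hz⟩
    rw [h1]
    exact congrArg Subtype.val (LinearMap.congr_fun hσ0 ⟨z, hz⟩)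
  let φ : ℕ → E.B →ₗ[ℝ] ℝ := fun n =>
    (evL n).comp (a.toLinearMap.comp σ)
  have hφ : ∀ n z, φ n z = a (σ z) n := fun _ _ => rfl
  have hP1 : ∀ x, ∀ ε : ℝ, 0 < ε → ∀ᶠ n in atTop, |a x n - φ n (E.d x)| ≤ ε := by
    intro x ε hε
    obtain ⟨w, hw⟩ := (E.exA (x - σ (E.d x))).1 (by rw [map_sub, hdσ _ (hdZ x), sub_self])
    filter_upwards [eventually_small w hε] with n hn
    have h1 : a (E.i w) = w := ContinuousLinearMap.ext_iff.1 ha w
    rw [hw, map_sub] at h1
    rw [← h1] at hn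
    exact hn
  set K := ‖a‖ * M' with hK
  have hK0 : 0 ≤ K := by positivity
  have h1 : ∀ z ∈ E.q.ker, ∀ ε : ℝ, 0 < ε → ∀ᶠ n in atTop, |φ n z| ≤ K * ‖z‖ + ε := by
    intro z hz ε hε
    obtain ⟨x, hx1, hx2⟩ := hM' ⟨z, hz⟩
    have hx : E.d x = z := congrArg Subtype.val hx1
    filter_upwards [hP1 x ε hε] with n hn
    rw [hx] at hn
    have b1 : |a x n| ≤ K * ‖z‖ := (abs_apply_le _ n).trans ((a.le_opNorm x).trans (by
      rw [hK, mul_assoc]; gcongr; exact hx2))
    linarith [abs_sub_abs_le_abs_sub (φ n z) (a x n), abs_sub_comm (φ n z) (a x n)]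
  let b : Γ → E.B := fun α => lf (fin {α} fun _ => 1)
  have hqb : ∀ (F : Finset Γ) (c : Γ → ℝ), E.q (∑ α ∈ F, c α • b α) = fin F c := by
    intro F c
    rw [fin_eq_sum F c]
    simp [b, hlf1]
  obtain ⟨h, R, C', hR, hC'⟩ := core hMA hK0 h1 (fun z => ⟨_, fun n => abs_apply_le (a (σ z)) n⟩)
    (M := M) b
    (fun α => (hlf2 _).trans (mul_le_of_le_one_right hM0.le (norm_fin_le _ _ zero_le_one (by simp))))
    (fun C P => lf (fin C (sg P)))
    (fun C P => (hlf2 _).trans (mul_le_of_le_one_right hM0.le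
      (norm_fin_le _ _ zero_le_one fun α _ => (abs_sg P α).le)))
    (fun C P => by rw [LinearMap.mem_ker]; simp [hlf1, hqb])
  have hC'0 : 0 ≤ C' := by
    obtain ⟨n, hn⟩ := (hC' ∅ ∅ subset_rfl).exists
    exact (abs_nonneg _).trans hn
  -- convexity
  have hconv : ∀ (F : Finset Γ) (c : Γ → ℝ), (∀ α ∈ F, |c α| ≤ 1) → ∃ b' : E.B,
      E.q b' = fin F c ∧ ‖b'‖ ≤ M ∧ ∀ᶠ n in atTop,
        |φ n (b' - ∑ α ∈ F, c α • b α) + ∑ α ∈ F, c α * h n α| ≤ C' := by
    intro F c hc
    let Q : Set (F → ℝ) := {c | ∃ b' : E.B, E.q b' = E.q (∑ α : F, c α • b α) ∧ ‖b'‖ ≤ M ∧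
      ∀ᶠ n in atTop, |φ n (b' - ∑ α : F, c α • b α) + ∑ α : F, c α * h n α| ≤ C'}
    have hQ : Convex ℝ Q := by
      rintro c1 ⟨b1, x1, x2, x3⟩ c2 ⟨b2, y1, y2, y3⟩ s t hs ht hst
      refine ⟨s • b1 + t • b2, ?_, ?_, ?_⟩
      · simp only [map_add, map_smul, x1, y1, Pi.add_apply, Pi.smul_apply, smul_eq_mul, add_smul,
          Finset.sum_add_distrib, mul_smul, ← Finset.smul_sum]
      · refine (norm_add_le _ _).trans ?_
        rw [norm_smul, norm_smul, Real.norm_of_nonneg hs, Real.norm_of_nonneg ht]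
        nlinarith
      · filter_upwards [x3, y3] with n a1 a2
        have e : φ n (s • b1 + t • b2 - ∑ α : F, (s • c1 + t • c2) α • b α)
            + ∑ α : F, (s • c1 + t • c2) α * h n α
            = s * (φ n (b1 - ∑ α : F, c1 α • b α) + ∑ α : F, c1 α * h n α)
              + t * (φ n (b2 - ∑ α : F, c2 α • b α) + ∑ α : F, c2 α * h n α) := by
          simp only [map_add, map_sub, map_smul, Pi.add_apply, Pi.smul_apply, smul_eq_mul,
            add_smul, add_mul, Finset.sum_add_distrib, mul_smul, ← Finset.smul_sum, mul_assoc,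
            ← Finset.mul_sum]
          ring
        rw [e]
        refine (abs_add_le _ _).trans ?_
        rw [abs_mul, abs_mul, abs_of_nonneg hs, abs_of_nonneg ht]
        nlinarith
    have hsub : (univ.pi fun _ : F => ({-1, 1} : Set ℝ)) ⊆ Q := by
      intro e he
      let P := F.filter fun α => ∃ h : α ∈ F, e ⟨α, h⟩ = 1
      have hP : ∀ α : F, e α = sg P α := by
        intro α
        simp only [sg, P, Finset.mem_filter, α.2, true_and, exists_true_left]
        split_ifs with h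
        · exact h
        · exact (he α trivial).resolve_right h
      have := hC' F P (Finset.filter_subset _ _)
      refine ⟨lf (fin F (sg P)), ?_, (hlf2 _).trans (mul_le_of_le_one_right hM0.le
        (norm_fin_le _ _ zero_le_one fun α _ => (abs_sg P α).le)), ?_⟩
      · simp only [hP]
        rw [Finset.sum_coe_sort F (fun α => sg P α • b α), hqb, hlf1]
      · simp only [hP]
        rw [Finset.sum_coe_sort F (fun α => sg P α • b α)]
        filter_upwards [this] with n hn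
        rwa [Finset.sum_coe_sort F (fun α => sg P α * h n α)]
    have hmem : (fun α : F => c α) ∈ Q := convexHull_min hsub hQ (mem_convexHull_pi fun α _ => by
      rw [convexHull_pair, segment_eq_Icc (by norm_num)]
      exact abs_le.1 (hc α α.2))
    obtain ⟨b', x1, x2, x3⟩ := hmem
    rw [Finset.sum_coe_sort F (fun α => c α • b α)] at x1 x3
    refine ⟨b', x1.trans (hqb F c), x2, x3.mono fun n hn => ?_⟩
    rwa [Finset.sum_coe_sort F (fun α => c α * h n α)] at hn
  let H : Γ → linf ℕ := fun α => mkInf (fun n => h n α) R fun n => hR n α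
  let u : (E.A × (Γ →₀ ℝ)) →ₗ[ℝ] E.B := E.d.toLinearMap.coprod (Finsupp.linearCombination ℝ b)
  let f : (E.A × (Γ →₀ ℝ)) →ₗ[ℝ] (linf ℕ ⧸ c0 ℕ) :=
    (c0 ℕ).mkQL.toLinearMap.comp (a.toLinearMap.coprod (Finsupp.linearCombination ℝ H))
  have hu : ∀ x c, u (x, c) = E.d x + ∑ α ∈ c.support, c α • b α := fun x c => by
    simp [u, Finsupp.linearCombination_apply, Finsupp.sum]
  have hf : ∀ x c, f (x, c) = (c0 ℕ).mkQL (a x + ∑ α ∈ c.support, c α • H α) := fun x c => by
    simp [f, Finsupp.linearCombination_apply, Finsupp.sum]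
  have hdense : DenseRange u := by
    refine Metric.denseRange_iff.2 fun x r hr => ?_
    have hε : 0 < r / (2 * M) := by positivity
    let F := ((E.q x).2 _ hε).toFinset
    let c : Γ →₀ ℝ := Finsupp.onFinset F (fun α => if α ∈ F then (E.q x).1 α else 0)
      fun α hα => by by_contra hh; exact hα (if_neg hh)
    have hc : ‖E.q x - fin c.support c‖ ≤ r / (2 * M) := by
      refine norm_le_of_abs (x := (E.q x - fin c.support c).1) hε.le fun α => ?_
      have e : (E.q x - fin c.support c).1 α = (E.q x).1 α - c α := by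
        show (E.q x).1 α - (fin c.support c).1 α = _
        rw [fin_apply]
        split_ifs with h
        · rfl
        · rw [Finsupp.notMem_support_iff.1 h]
      rw [e]
      by_cases hα : α ∈ F
      · simp [c, hα, hε.le]
      · simp only [c, Finsupp.onFinset_apply, if_neg hα, sub_zero]
        simpa [F] using hα
    obtain ⟨w, hw⟩ := (E.exB (x - lf (E.q x - fin c.support c) - ∑ α ∈ c.support, c α • b α)).1
      (by rw [map_sub, map_sub, hlf1, hqb]; simp)
    refine ⟨(w, c), ?_⟩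
    rw [hu, hw, dist_eq_norm]
    have : ‖lf (E.q x - fin c.support c)‖ ≤ r / 2 := (hlf2 _).trans (by
      calc _ ≤ M * (r / (2 * M)) := by gcongr
        _ = r / 2 := by field_simp)
    simp only [sub_add_cancel, sub_sub_cancel]
    linarith
  have hbound : ∃ C, ∀ w, ‖f w‖ ≤ C * ‖u w‖ := by
    refine ⟨K + (K * M + C') * ‖E.q‖, fun ⟨x, c⟩ => ?_⟩
    rw [hf, hu]
    set y := E.d x + ∑ α ∈ c.support, c α • b α with hy
    refine le_of_forall_pos_le_add fun δ hδ => ?_
    set ε := δ / (K * M + C' + 2) with hε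
    have hε0 : 0 < ε := by positivity
    set t := ‖E.q‖ * ‖y‖ + ε with ht
    have ht0 : 0 < t := by positivity
    have hqy : E.q y = fin c.support c := by
      rw [hy, map_add, hqb, E.exB.apply_apply_eq_zero, zero_add]
    obtain ⟨b', x1, x2, x3⟩ := hconv c.support (fun α => t⁻¹ * c α) fun α hα => by
      have h2 := (abs_apply_le (E.q y).1 α).trans (E.q.le_opNorm y)
      rw [hqy, fin_apply, if_pos hα] at h2
      rw [abs_mul, abs_of_pos (inv_pos.2 ht0), inv_mul_le_iff₀ ht0]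
      linarith
    have hz : y - t • b' ∈ E.q.ker := by
      rw [LinearMap.mem_ker]
      show E.q _ = 0
      rw [map_sub, map_smul, x1, hqy, ← hqb, ← hqb]
      simp only [mul_smul, ← Finset.smul_sum, map_smul]
      rw [smul_smul, mul_inv_cancel₀ ht0.ne', one_smul, sub_self]
    have hn1 : ‖y - t • b'‖ ≤ ‖y‖ + t * M := (norm_sub_le _ _).trans (by
      rw [norm_smul, Real.norm_of_nonneg ht0.le]; gcongr)
    have e2 : (K + (K * M + C') * ‖E.q‖) * ‖y‖ + δ = K * (‖y‖ + t * M) + ε + t * C' + ε := by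
      have : δ = ε * (K * M + C' + 2) := by rw [hε]; field_simp
      rw [this, ht]; ring
    rw [e2]
    refine norm_mk_le_of_eventually _ (by positivity) ?_
    filter_upwards [x3, h1 _ hz ε hε0, hP1 x ε hε0] with n a1 a2 a3
    have e3 : (a x + ∑ α ∈ c.support, c α • H α) n = (a x n - φ n (E.d x)) + φ n (y - t • b')
        + t * (φ n (b' - ∑ α ∈ c.support, (t⁻¹ * c α) • b α)
          + ∑ α ∈ c.support, t⁻¹ * c α * h n α) := by
      have e4 : (a x + ∑ α ∈ c.support, c α • H α) n = a x n + ∑ α ∈ c.support, c α * h n α := by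
        rw [ev_add, sum_smul_apply]; rfl
      rw [e4, hy]
      simp only [map_add, map_sub, map_smul, mul_smul, ← Finset.smul_sum, smul_eq_mul, mul_assoc,
        ← Finset.mul_sum]
      field_simp
      ring
    rw [e3]
    refine (abs_add_three _ _ _).trans ?_
    rw [abs_mul, abs_of_pos ht0]
    have := mul_le_mul_of_nonneg_left hn1 hK0
    have := mul_le_mul_of_nonneg_left a1 ht0.le
    linarith
  refine ⟨f.extendOfNorm u, ContinuousLinearMap.ext fun x => ?_⟩
  have := LinearMap.extendOfNorm_eq hdense hbound (x, 0)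
  simpa [hu, hf] using this

theorem ext2_vanishes {Γ : Type} (hMA : MartinAxiom.{0, 0} (Γ × ℕ)) : Ext2Vanishes (c0 Γ) (c0 ℕ) := by
  intro E
  obtain ⟨a, ha⟩ := exists_alpha E
  obtain ⟨Φ, hΦ⟩ := exists_Phi hMA E a ha
  let E' : TwoExt (c0 Γ) (c0 ℕ) :=
    { A := linf ℕ
      B := (linf ℕ ⧸ c0 ℕ) × c0 Γ
      i := (c0 ℕ).subtypeL
      d := (c0 ℕ).mkQL.prod 0
      q := ContinuousLinearMap.snd ℝ _ _
      inj := Subtype.val_injective
      exA := fun x => by simp
      exB := fun ⟨x, y⟩ => by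
        obtain ⟨w, rfl⟩ := Submodule.Quotient.mk_surjective _ x
        simp [eq_comm]
      surj := Prod.snd_surjective }
  refine .trans _ E' _ (.rel _ _ ⟨a, Φ.prod E.q, ContinuousLinearMap.ext_iff.1 ha,
    ContinuousLinearMap.ext fun x => ?_,
    fun _ => rfl⟩) (.symm _ _ (.rel _ _ ⟨(c0 ℕ).subtypeL, ContinuousLinearMap.inr ℝ _ _,
      fun _ => rfl, ContinuousLinearMap.ext fun x => ?_, fun _ => rfl⟩))
  · exact Prod.ext (ContinuousLinearMap.ext_iff.1 hΦ x) (E.exB.apply_apply_eq_zero x)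
  · exact Prod.ext ((Submodule.Quotient.mk_eq_zero _).2 x.2).symm rfl

end Pool.Agent.H20Z.Ext
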