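import Mathlib

set_option autoImplicit false

open MeasureTheory Set Metric Filter Topology
open scoped ENNReal NNReal

namespace Pool.Agent.H20Z.Fine

/-- A nonconstant compact rectifiable curve in `X`, parametrised by arc length on `[a, b]`. -/
structure Curve (X : Type*) [MetricSpace X] where
  /-- initial parameter -/
  a : ℝ
  /-- final parameter -/
  b : ℝ
  lt : a < b
  /-- the parametrisation -/
  toFun : ℝ → X
  unit : HasUnitSpeedOn toFun (Icc a b)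

variable {X : Type*} [MetricSpace X]

/-- The line integral of `g` along the curve `γ` with respect to arc length. -/
noncomputable def Curve.lint (γ : Curve X) (g : X → ℝ≥0∞) : ℝ≥0∞ :=
  ∫⁻ t in Icc γ.a γ.b, g (γ.toFun t)

/-- The upper gradient inequality for `u` and `g` along the curve `γ`. -/
def Curve.UGIneq (γ : Curve X) (u : X → ℝ) (g : X → ℝ≥0∞) : Prop :=
  ENNReal.ofReal |u (γ.toFun γ.a) - u (γ.toFun γ.b)| ≤ γ.lint g

variable [MeasurableSpace X]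

/-- The `p`-modulus of the curve family `Γ`. -/
noncomputable def modulus (μ : Measure X) (p : ℝ) (Γ : Set (Curve X)) : ℝ≥0∞ :=
  ⨅ (ρ : X → ℝ≥0∞) (_ : Measurable ρ) (_ : ∀ γ ∈ Γ, 1 ≤ γ.lint ρ), ∫⁻ x, ρ x ^ p ∂μ

/-- `g` is an upper gradient of `u`. -/
def IsUpperGradient (u : X → ℝ) (g : X → ℝ≥0∞) : Prop :=
  Measurable g ∧ ∀ γ : Curve X, γ.UGIneq u g

/-- `g` is a `p`-weak upper gradient of `u`: the upper gradient inequality holds outside a curve
family of zero `p`-modulus. -/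
def IsWeakUpperGradient (μ : Measure X) (p : ℝ) (u : X → ℝ) (g : X → ℝ≥0∞) : Prop :=
  Measurable g ∧ modulus μ p {γ | ¬ γ.UGIneq u g} = 0

/-- `u` lies in the Newtonian space `N^{1,p}(X)` and `g` is a `p`-weak upper gradient of `u` in
`L^p`. -/
def IsNewtonianPair (μ : Measure X) (p : ℝ) (u : X → ℝ) (g : X → ℝ≥0∞) : Prop :=
  AEMeasurable u μ ∧ ∫⁻ x, ‖u x‖ₑ ^ p ∂μ < ∞ ∧ IsWeakUpperGradient μ p u g ∧
    ∫⁻ x, g x ^ p ∂μ < ∞

/-- The Sobolev capacity `C_p(E)`. -/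
noncomputable def sobolevCap (μ : Measure X) (p : ℝ) (E : Set X) : ℝ≥0∞ :=
  ⨅ (u : X → ℝ) (g : X → ℝ≥0∞) (_ : IsNewtonianPair μ p u g) (_ : ∀ x ∈ E, 1 ≤ u x),
    ∫⁻ x, ‖u x‖ₑ ^ p ∂μ + ∫⁻ x, g x ^ p ∂μ

/-- The variational capacity `cap_p(A, B)`. -/
noncomputable def varCap (μ : Measure X) (p : ℝ) (A B : Set X) : ℝ≥0∞ :=
  ⨅ (u : X → ℝ) (g : X → ℝ≥0∞) (_ : IsNewtonianPair μ p u g) (_ : ∀ x ∈ A, 1 ≤ u x)
    (_ : ∀ x ∉ B, u x = 0), ∫⁻ x in B, g x ^ p ∂μ

/-- `E` is `p`-thin at `x`: the Wiener integral converges. -/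
def IsThin (μ : Measure X) (p : ℝ) (E : Set X) (x : X) : Prop :=
  ∫⁻ r in Ioo (0 : ℝ) 1,
    (varCap μ p (E ∩ ball x r) (ball x (2 * r)) / varCap μ p (ball x r) (ball x (2 * r)))
      ^ (1 / (p - 1)) / ENNReal.ofReal r < ∞

/-- `V` is `p`-finely open: its complement is `p`-thin at each of its points. -/
def IsFinelyOpen (μ : Measure X) (p : ℝ) (V : Set X) : Prop := ∀ x ∈ V, IsThin μ p Vᶜ x

/-- The `p`-fine topology. -/
def fineTopology (μ : Measure X) (p : ℝ) : TopologicalSpace X :=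
  TopologicalSpace.generateFrom {V | IsFinelyOpen μ p V}

/-- A `p`-fine domain: a nonempty `p`-finely open set that is connected in the `p`-fine
topology. -/
def IsFineDomain (μ : Measure X) (p : ℝ) (U : Set X) : Prop :=
  IsFinelyOpen μ p U ∧ @IsConnected X (fineTopology μ p) U

/-- `μ` is doubling, and positive and finite on balls. -/
structure IsDoubling (μ : Measure X) : Prop where
  pos : ∀ (x : X) (r : ℝ), 0 < r → 0 < μ (ball x r)
  fin : ∀ (x : X) (r : ℝ), μ (ball x r) < ∞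
  doubling : ∃ C : ℝ≥0, ∀ (x : X) (r : ℝ), 0 < r → μ (ball x (2 * r)) ≤ C * μ (ball x r)

/-- `(X, μ)` supports a `p`-Poincare inequality. -/
def SupportsPoincare (μ : Measure X) (p : ℝ) : Prop :=
  ∃ C lam : ℝ, 0 < C ∧ 1 ≤ lam ∧ ∀ (x : X) (r : ℝ), 0 < r →
    ∀ (f : X → ℝ) (g : X → ℝ≥0∞), Integrable f μ → IsUpperGradient f g →
      ENNReal.ofReal (⨍ y in ball x r, |f y - ⨍ z in ball x r, f z ∂μ| ∂μ)
        ≤ ENNReal.ofReal (C * r) * (⨍⁻ y in ball x (lam * r), g y ^ p ∂μ) ^ (1 / p)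

end Pool.Agent.H20Z.Fine
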