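import Mathlib
import Pool.Agent.H20Z.FineDefs

set_option autoImplicit false

open MeasureTheory Set Metric Filter Topology
open scoped ENNReal NNReal

namespace Pool.Agent.H20Z.Fine

variable {X : Type*} [MetricSpace X]

lemma Curve.lip (γ : Curve X) {s t : ℝ} (hs : s ∈ Icc γ.a γ.b) (ht : t ∈ Icc γ.a γ.b) :
    dist (γ.toFun s) (γ.toFun t) ≤ |s - t| := by
  wlog h : s ≤ t generalizing s t
  · rw [dist_comm, abs_sub_comm]; exact this ht hs (le_of_not_ge h)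
  have h1 := γ.unit hs ht
  have h2 : edist (γ.toFun s) (γ.toFun t) ≤ eVariationOn γ.toFun (Icc γ.a γ.b ∩ Icc s t) :=
    eVariationOn.edist_le _ ⟨hs, le_rfl, h⟩ ⟨ht, h, le_rfl⟩
  rw [h1, edist_dist] at h2
  rw [abs_sub_comm, abs_of_nonneg (by linarith)]
  simpa using (ENNReal.ofReal_le_ofReal_iff (by simpa using h)).1 h2

lemma Curve.cont (γ : Curve X) : ContinuousOn γ.toFun (Icc γ.a γ.b) := by
  have : LipschitzOnWith 1 γ.toFun (Icc γ.a γ.b) :=
    LipschitzOnWith.of_dist_le_mul fun s hs t ht => by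
      simpa [Real.dist_eq] using γ.lip hs ht
  exact this.continuousOn

/-- restriction of a curve to a subinterval -/
def Curve.sub (γ : Curve X) (s t : ℝ) (hs : γ.a ≤ s) (hst : s < t) (ht : t ≤ γ.b) : Curve X where
  a := s
  b := t
  lt := hst
  toFun := γ.toFun
  unit := by
    intro x hx y hy
    have := γ.unit (x := x) ⟨hs.trans hx.1, hx.2.trans ht⟩ (y := y) ⟨hs.trans hy.1, hy.2.trans ht⟩
    rw [← this]
    congr 1
    ext z
    constructor
    · rintro ⟨h1, h2⟩; exact ⟨⟨hs.trans h1.1, h1.2.trans ht⟩, h2⟩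
    · rintro ⟨_, h2⟩; exact ⟨⟨hx.1.trans h2.1, h2.2.trans hy.2⟩, h2⟩

/-- the upper gradient inequality on all subcurves -/
def Curve.UG (γ : Curve X) (u : X → ℝ) (g : X → ℝ≥0∞) : Prop :=
  ∀ s t, γ.a ≤ s → s ≤ t → t ≤ γ.b →
    ENNReal.ofReal |u (γ.toFun s) - u (γ.toFun t)| ≤ ∫⁻ τ in Icc s t, g (γ.toFun τ)

lemma Curve.setInt_le (γ : Curve X) (g : X → ℝ≥0∞) {s t : ℝ} (hs : γ.a ≤ s) (ht : t ≤ γ.b) :
    ∫⁻ τ in Icc s t, g (γ.toFun τ) ≤ γ.lint g :=
  lintegral_mono_set (Icc_subset_Icc hs ht)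

lemma Curve.lint_mono (γ : Curve X) {g g' : X → ℝ≥0∞} (h : ∀ x, g x ≤ g' x) :
    γ.lint g ≤ γ.lint g' := lintegral_mono fun _ => h _

lemma Curve.lint_const_mul (γ : Curve X) {c : ℝ≥0∞} (hc : c ≠ ∞) (g : X → ℝ≥0∞) :
    γ.lint (fun x => c * g x) = c * γ.lint g := lintegral_const_mul' _ _ hc

lemma Curve.UG.ineq {γ : Curve X} {u : X → ℝ} {g : X → ℝ≥0∞} (h : γ.UG u g) : γ.UGIneq u g :=
  h _ _ le_rfl γ.lt.le le_rfl

lemma Curve.UG.le_lint {γ : Curve X} {u : X → ℝ} {g : X → ℝ≥0∞} (h : γ.UG u g) {s t : ℝ}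
    (hs : s ∈ Icc γ.a γ.b) (ht : t ∈ Icc γ.a γ.b) :
    ENNReal.ofReal |u (γ.toFun s) - u (γ.toFun t)| ≤ γ.lint g := by
  rcases le_total s t with hst | hst
  · exact (h s t hs.1 hst ht.2).trans (γ.setInt_le g hs.1 ht.2)
  · rw [abs_sub_comm]; exact (h t s ht.1 hst hs.2).trans (γ.setInt_le g ht.1 hs.2)

lemma Curve.UG.mono {γ : Curve X} {u : X → ℝ} {g g' : X → ℝ≥0∞} (h : γ.UG u g)
    (hg : ∀ x, g x ≤ g' x) : γ.UG u g' :=
  fun s t hs hst ht => (h s t hs hst ht).trans (lintegral_mono fun _ => hg _)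

lemma Curve.UG.max {γ : Curve X} {u v : X → ℝ} {g : X → ℝ≥0∞} (h : γ.UG u g) (h' : γ.UG v g) :
    γ.UG (fun x => max (u x) (v x)) g := by
  intro s t hs hst ht
  refine (ENNReal.ofReal_le_ofReal (abs_max_sub_max_le_max _ _ _ _)).trans ?_
  rw [ENNReal.ofReal_max]
  exact max_le (h s t hs hst ht) (h' s t hs hst ht)

lemma Curve.UG.min {γ : Curve X} {u v : X → ℝ} {g : X → ℝ≥0∞} (h : γ.UG u g) (h' : γ.UG v g) :
    γ.UG (fun x => min (u x) (v x)) g := by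
  intro s t hs hst ht
  refine (ENNReal.ofReal_le_ofReal (abs_min_sub_min_le_max _ _ _ _)).trans ?_
  rw [ENNReal.ofReal_max]
  exact max_le (h s t hs hst ht) (h' s t hs hst ht)

lemma Curve.UG.affine {γ : Curve X} {u : X → ℝ} {g : X → ℝ≥0∞} (h : γ.UG u g) (c d : ℝ) :
    γ.UG (fun x => c * u x + d) (fun x => ENNReal.ofReal |c| * g x) := by
  intro s t hs hst ht
  rw [lintegral_const_mul' _ _ ENNReal.ofReal_ne_top]
  have e : c * u (γ.toFun s) + d - (c * u (γ.toFun t) + d)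
      = c * (u (γ.toFun s) - u (γ.toFun t)) := by ring
  simp only [e, abs_mul, ENNReal.ofReal_mul (abs_nonneg c)]
  gcongr
  exact h s t hs hst ht

lemma Curve.UG_lip (γ : Curve X) {u : X → ℝ} {L : ℝ} (hL : 0 ≤ L)
    (h : ∀ x y, |u x - u y| ≤ L * dist x y) : γ.UG u (fun _ => ENNReal.ofReal L) := by
  intro s t hs hst ht
  simp only [lintegral_const, Measure.restrict_apply MeasurableSet.univ, univ_inter,
    Real.volume_Icc, ← ENNReal.ofReal_mul hL]
  refine ENNReal.ofReal_le_ofReal ((h _ _).trans ?_)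
  have := γ.lip ⟨hs, hst.trans ht⟩ ⟨hs.trans hst, ht⟩
  rw [abs_sub_comm, abs_of_nonneg (by linarith)] at this
  gcongr

lemma Curve.lint_const_ne_top (γ : Curve X) {c : ℝ≥0∞} (hc : c ≠ ∞) :
    γ.lint (fun _ => c) ≠ ∞ := by
  simp only [Curve.lint, lintegral_const, Measure.restrict_apply MeasurableSet.univ, univ_inter,
    Real.volume_Icc]
  finiteness

lemma Curve.UG.cont {γ : Curve X} {u : X → ℝ} {g : X → ℝ≥0∞} (h : γ.UG u g)
    (hf : γ.lint g ≠ ∞) : ContinuousOn (fun t => u (γ.toFun t)) (Icc γ.a γ.b) := by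
  rw [Metric.continuousOn_iff]
  intro t ht ε hε
  obtain ⟨δ, hδ, hδ'⟩ := exists_pos_setLIntegral_lt_of_measure_lt hf
    (ε := ENNReal.ofReal ε) (by simpa using hε)
  obtain ⟨δ', hδ'0, hδ'1⟩ : ∃ d : ℝ, 0 < d ∧ ENNReal.ofReal d ≤ δ := by
    rcases eq_or_ne δ ∞ with h | h
    · exact ⟨1, one_pos, by simp [h]⟩
    · exact ⟨δ.toReal, ENNReal.toReal_pos hδ.ne' h, by rw [ENNReal.ofReal_toReal h]⟩
  have key : ∀ s t, s ∈ Icc γ.a γ.b → t ∈ Icc γ.a γ.b → s ≤ t → t - s < δ' →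
      |u (γ.toFun s) - u (γ.toFun t)| < ε := by
    intro s t hs ht hst hd
    have h1 := hδ' (Icc s t) (by
      rw [Measure.restrict_apply measurableSet_Icc]
      refine (measure_mono inter_subset_left).trans_lt (lt_of_lt_of_le ?_ hδ'1)
      rw [Real.volume_Icc]; exact (ENNReal.ofReal_lt_ofReal_iff hδ'0).2 hd)
    rw [Measure.restrict_restrict measurableSet_Icc,
      inter_eq_left.2 (Icc_subset_Icc hs.1 ht.2)] at h1
    exact (ENNReal.ofReal_lt_ofReal_iff hε).1 ((h s t hs.1 hst ht.2).trans_lt h1)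
  refine ⟨δ', hδ'0, fun s hs hst => ?_⟩
  rw [Real.dist_eq] at hst ⊢
  rcases le_total s t with h1 | h1
  · exact key s t hs ht h1 (by have := neg_abs_le (s - t); linarith)
  · rw [abs_sub_comm]; exact key t s ht hs h1 (by have := le_abs_self (s - t); linarith)

lemma exists_crossing {h : ℝ → ℝ} {s t α β : ℝ} (hst : s ≤ t) (hc : ContinuousOn h (Icc s t))
    (hs : h s ≤ α) (ht : β ≤ h t) :
    ∃ s1 t1, s ≤ s1 ∧ s1 ≤ t1 ∧ t1 ≤ t ∧ h s1 ≤ α ∧ β ≤ h t1 ∧
      ∀ τ ∈ Ioo s1 t1, α < h τ ∧ h τ < β := by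
  have c1 : IsCompact (Icc s t ∩ h ⁻¹' Ici β) :=
    isCompact_Icc.of_isClosed_subset (hc.preimage_isClosed_of_isClosed isClosed_Icc isClosed_Ici)
      inter_subset_left
  obtain ⟨t1, ht1, ht1'⟩ := c1.exists_isLeast ⟨t, ⟨hst, le_rfl⟩, ht⟩
  have hc' : ContinuousOn h (Icc s t1) := hc.mono (Icc_subset_Icc le_rfl ht1.1.2)
  have c2 : IsCompact (Icc s t1 ∩ h ⁻¹' Iic α) :=
    isCompact_Icc.of_isClosed_subset (hc'.preimage_isClosed_of_isClosed isClosed_Icc isClosed_Iic)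
      inter_subset_left
  obtain ⟨s1, hs1, hs1'⟩ := c2.exists_isGreatest ⟨s, ⟨le_rfl, ht1.1.1⟩, hs⟩
  refine ⟨s1, t1, hs1.1.1, hs1.1.2, ht1.1.2, hs1.2, ht1.2, fun τ hτ => ⟨?_, ?_⟩⟩
  · by_contra hh
    have := hs1' ⟨⟨hs1.1.1.trans hτ.1.le, hτ.2.le⟩, not_lt.1 hh⟩
    linarith [hτ.1]
  · by_contra hh
    have := ht1' ⟨⟨hs1.1.1.trans hτ.1.le, hτ.2.le.trans ht1.1.2⟩, not_lt.1 hh⟩
    linarith [hτ.2]

/-- truncation -/
def trunc (α β : ℝ) (x : ℝ) : ℝ := max α (min β x)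

lemma Curve.UG.trunc {γ : Curve X} {u : X → ℝ} {g : X → ℝ≥0∞} (h : γ.UG u g)
    (hf : γ.lint g ≠ ∞) {α β : ℝ} {S : Set X} (hS : ∀ x, α < u x → u x < β → x ∈ S) :
    γ.UG (fun x => trunc α β (u x)) (S.indicator g) := by
  intro s t hs hst ht
  have hc := (h.cont hf).mono (Icc_subset_Icc hs ht)
  have fin : ∀ s1 t1, s ≤ s1 → s1 ≤ t1 → t1 ≤ t → (∀ τ ∈ Ioo s1 t1, γ.toFun τ ∈ S) →
      ENNReal.ofReal |u (γ.toFun s1) - u (γ.toFun t1)|
        ≤ ∫⁻ τ in Icc s t, S.indicator g (γ.toFun τ) := by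
    intro s1 t1 h1 h2 h3 h4
    refine (h s1 t1 (hs.trans h1) h2 (h3.trans ht)).trans ?_
    rw [← restrict_Ioo_eq_restrict_Icc]
    calc ∫⁻ τ in Ioo s1 t1, g (γ.toFun τ) = ∫⁻ τ in Ioo s1 t1, S.indicator g (γ.toFun τ) :=
          setLIntegral_congr_fun measurableSet_Ioo fun τ hτ => by
            simp only [indicator_of_mem (h4 τ hτ)]
      _ ≤ _ := lintegral_mono_set (Ioo_subset_Icc_self.trans (Icc_subset_Icc h1 h3))
  set A := Fine.trunc α β (u (γ.toFun s)) with hA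
  set B := Fine.trunc α β (u (γ.toFun t)) with hB
  rcases lt_trichotomy A B with hAB | hAB | hAB
  · have a1 : u (γ.toFun s) ≤ A := by
      simp only [Fine.trunc] at hA hB; simp only [max_def, min_def] at hA hB
      split_ifs at hA hB <;> linarith
    have a2 : B ≤ u (γ.toFun t) := by
      simp only [Fine.trunc] at hA hB; simp only [max_def, min_def] at hA hB
      split_ifs at hA hB <;> linarith
    have a3 : α ≤ A := le_max_left _ _
    have a4 : B ≤ β := by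
      simp only [Fine.trunc] at hA hB; simp only [max_def, min_def] at hA hB
      split_ifs at hA hB <;> linarith
    obtain ⟨s1, t1, h1, h2, h3, h4, h5, h6⟩ := exists_crossing hst hc a1 a2
    refine le_trans (ENNReal.ofReal_le_ofReal ?_) (fin s1 t1 h1 h2 h3 fun τ hτ =>
      hS _ (by linarith [(h6 τ hτ).1]) (by linarith [(h6 τ hτ).2]))
    rw [abs_of_neg (by linarith)]
    have := neg_le_abs (u (γ.toFun s1) - u (γ.toFun t1))
    linarith
  · show ENNReal.ofReal |A - B| ≤ _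
    simp [hAB]
  · have a1 : -u (γ.toFun s) ≤ -A := by
      simp only [Fine.trunc] at hA hB; simp only [max_def, min_def] at hA hB
      split_ifs at hA hB <;> linarith
    have a2 : -B ≤ -u (γ.toFun t) := by
      simp only [Fine.trunc] at hA hB; simp only [max_def, min_def] at hA hB
      split_ifs at hA hB <;> linarith
    have a3 : α ≤ B := le_max_left _ _
    have a4 : A ≤ β := by
      simp only [Fine.trunc] at hA hB; simp only [max_def, min_def] at hA hB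
      split_ifs at hA hB <;> linarith
    obtain ⟨s1, t1, h1, h2, h3, h4, h5, h6⟩ :=
      exists_crossing (h := fun τ => -u (γ.toFun τ)) hst hc.neg a1 a2
    refine le_trans (ENNReal.ofReal_le_ofReal ?_) (fin s1 t1 h1 h2 h3 fun τ hτ =>
      hS _ (by linarith [(h6 τ hτ).2]) (by linarith [(h6 τ hτ).1]))
    rw [abs_of_pos (by linarith)]
    have := le_abs_self (u (γ.toFun s1) - u (γ.toFun t1))
    linarith

lemma forall_of_ae_of_usc {a b : ℝ} (hab : a < b) {h : ℝ → ℝ} {W : ℝ → ℝ≥0∞}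
    (hc : ContinuousOn h (Icc a b)) (hW : UpperSemicontinuousOn W (Icc a b))
    (hae : ∀ᵐ t ∂(volume.restrict (Icc a b)), ENNReal.ofReal (h t) ≤ W t) :
    ∀ t ∈ Icc a b, ENNReal.ofReal (h t) ≤ W t := by
  intro t ht
  by_contra hh
  obtain ⟨c, hc1, hc2⟩ := exists_between (not_le.1 hh)
  have e1 := hW t ht c hc1
  have e2 : ∀ᶠ τ in 𝓝[Icc a b] t, c < ENNReal.ofReal (h τ) :=
    (ENNReal.continuous_ofReal.continuousAt.comp_continuousWithinAt (hc t ht)).eventually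
      (lt_mem_nhds hc2)
  obtain ⟨O, hO, htO, hsub⟩ := mem_nhdsWithin.1 (e1.and e2)
  rw [ae_restrict_iff' measurableSet_Icc] at hae
  have h0 : volume (O ∩ Ioo a b) = 0 := by
    refine measure_mono_null (fun τ hτ => ?_) hae
    intro h1
    have h2 := hsub ⟨hτ.1, Ioo_subset_Icc_self hτ.2⟩
    exact absurd (h1 (Ioo_subset_Icc_self hτ.2)) (not_le.2 (h2.1.trans h2.2))
  have h1 := (hO.inter isOpen_Ioo).eq_empty_of_measure_zero h0
  rw [← closure_Ioo hab.ne] at ht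
  exact (mem_closure_iff.1 ht O hO htO).ne_empty h1

variable [MeasurableSpace X]

omit [MetricSpace X] in
lemma lintegral_iSup_rpow_le {ι : Type*} [Countable ι] (μ : Measure X) {p : ℝ} (hp : 0 < p)
    (f : ι → X → ℝ≥0∞) (hf : ∀ i, Measurable (f i)) :
    ∫⁻ x, (⨆ i, f i x) ^ p ∂μ ≤ ∑' i, ∫⁻ x, f i x ^ p ∂μ := by
  rw [← lintegral_tsum fun i => ((hf i).pow_const p).aemeasurable]
  refine lintegral_mono fun x => ?_
  have e : (⨆ i, f i x) ^ p = ⨆ i, f i x ^ p := (ENNReal.orderIsoRpow p hp).map_iSup _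
  rw [e]
  exact iSup_le fun i => ENNReal.le_tsum i

lemma exists_small_const {p : ℝ} (hp : 0 < p) {A ε : ℝ≥0∞} (hA : A ≠ ∞) (hε : ε ≠ 0) :
    ∃ c : ℝ≥0∞, c ≠ 0 ∧ c ≠ ∞ ∧ c ^ p * A ≤ ε := by
  refine ⟨(min ε 1 / (A + 1)) ^ (1 / p), ?_, ?_, ?_⟩
  · refine (ENNReal.rpow_pos ?_ ?_).ne'
    · exact ENNReal.div_pos (lt_min (pos_iff_ne_zero.2 hε) one_pos).ne' (by finiteness)
    · exact ENNReal.div_ne_top (by simp) (by simp)
  · exact ENNReal.rpow_ne_top_of_nonneg (by positivity) (ENNReal.div_ne_top (by simp) (by simp))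
  · rw [← ENNReal.rpow_mul, one_div_mul_cancel hp.ne', ENNReal.rpow_one]
    calc min ε 1 / (A + 1) * A ≤ min ε 1 / (A + 1) * (A + 1) := by gcongr; exact le_self_add
      _ = min ε 1 := ENNReal.div_mul_cancel (by simp) (by finiteness)
      _ ≤ ε := min_le_left _ _

lemma tsum_half_ne_top : ∑' n : ℕ, (2⁻¹ : ℝ≥0∞) ^ n ≠ ∞ := by
  rw [ENNReal.tsum_geometric]; simp

/-- The filter of properties holding for `p`-almost every curve. -/
def aeC (μ : Measure X) (p : ℝ) [hp : Fact (1 < p)] : Filter (Curve X) :=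
  Filter.ofCountableInter
    {Γ | ∃ ρ : X → ℝ≥0∞, Measurable ρ ∧ ∫⁻ x, ρ x ^ p ∂μ ≠ ∞ ∧ ∀ γ : Curve X, γ.lint ρ ≠ ∞ → γ ∈ Γ}
    (by
      intro S hS hsub
      have hp0 : 0 < p := by linarith [hp.out]
      rcases S.eq_empty_or_nonempty with rfl | hne
      · exact ⟨0, measurable_zero, by simp [ENNReal.zero_rpow_of_pos hp0], by simp⟩
      obtain ⟨f, rfl⟩ := hS.exists_eq_range hne
      choose ρ hρ1 hρ2 hρ3 using fun n => hsub (mem_range_self n)
      choose c hc0 hct hc using fun n : ℕ => exists_small_const hp0 (hρ2 n)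
        (ε := (2⁻¹ : ℝ≥0∞) ^ n) (by simp)
      refine ⟨fun x => ⨆ n, c n * ρ n x, Measurable.iSup fun n => (hρ1 n).const_mul _, ?_, ?_⟩
      · refine ne_top_of_le_ne_top tsum_half_ne_top
          ((lintegral_iSup_rpow_le μ hp0 _ fun n => (hρ1 n).const_mul _).trans
            (ENNReal.tsum_le_tsum fun n => le_trans (le_of_eq ?_) (hc n)))
        simp only [ENNReal.mul_rpow_of_nonneg _ _ hp0.le]
        exact lintegral_const_mul _ ((hρ1 n).pow_const p)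
      · rintro γ hγ _ ⟨n, rfl⟩
        refine hρ3 n γ fun h => hγ ?_
        have := γ.lint_mono (g := fun x => c n * ρ n x) (g' := fun x => ⨆ n, c n * ρ n x)
          fun x => le_iSup (fun n => c n * ρ n x) n
        rw [γ.lint_const_mul (hct n), h, ENNReal.mul_top (hc0 n)] at this
        exact top_le_iff.1 this)
    (by
      rintro s t ⟨ρ, h1, h2, h3⟩ hst
      exact ⟨ρ, h1, h2, fun γ hγ => hst (h3 γ hγ)⟩)

variable {μ : Measure X} {p : ℝ} [hp : Fact (1 < p)]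

instance : CountableInterFilter (aeC μ p) := by unfold aeC; infer_instance

lemma eventually_aeC {P : Curve X → Prop} : (∀ᶠ γ in aeC μ p, P γ) ↔
    ∃ ρ : X → ℝ≥0∞, Measurable ρ ∧ ∫⁻ x, ρ x ^ p ∂μ ≠ ∞ ∧ ∀ γ : Curve X, γ.lint ρ ≠ ∞ → P γ :=
  Iff.rfl

lemma ae_lint_ne_top {g : X → ℝ≥0∞} (hg : Measurable g) (h : ∫⁻ x, g x ^ p ∂μ ≠ ∞) :
    ∀ᶠ γ in aeC μ p, γ.lint g ≠ ∞ := eventually_aeC.2 ⟨g, hg, h, fun _ h => h⟩

lemma fuglede {ι : Type*} (ρ : ι → X → ℝ≥0∞) (hρ : ∀ i, Measurable (ρ i))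
    (h : ∀ ε : ℝ≥0∞, ε ≠ 0 → ∃ i, ∫⁻ x, ρ i x ^ p ∂μ ≤ ε) :
    ∀ᶠ γ in aeC μ p, ∀ ε : ℝ≥0∞, ε ≠ 0 → ∃ i, γ.lint (ρ i) ≤ ε := by
  have hp0 : 0 < p := by linarith [hp.out]
  have hne : ∀ m : ℕ, ((m : ℝ≥0∞) + 1) ^ p ≠ ∞ := fun m =>
    ENNReal.rpow_ne_top_of_nonneg hp0.le (by finiteness)
  have hne0 : ∀ m : ℕ, ((m : ℝ≥0∞) + 1) ^ p ≠ 0 := fun m =>
    (ENNReal.rpow_pos (by simp) (by finiteness)).ne'
  choose n hn using fun m : ℕ => h ((2⁻¹ : ℝ≥0∞) ^ m / ((m : ℝ≥0∞) + 1) ^ p)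
    (ENNReal.div_pos (by simp) (hne m)).ne'
  refine eventually_aeC.2 ⟨fun x => ⨆ m : ℕ, ((m : ℝ≥0∞) + 1) * ρ (n m) x,
    Measurable.iSup fun m => (hρ _).const_mul _, ?_, ?_⟩
  · refine ne_top_of_le_ne_top tsum_half_ne_top
      ((lintegral_iSup_rpow_le μ hp0 _ fun m => (hρ _).const_mul _).trans
        (ENNReal.tsum_le_tsum fun m => ?_))
    simp only [ENNReal.mul_rpow_of_nonneg _ _ hp0.le]
    rw [lintegral_const_mul _ ((hρ _).pow_const p)]
    calc _ ≤ ((m : ℝ≥0∞) + 1) ^ p * ((2⁻¹ : ℝ≥0∞) ^ m / ((m : ℝ≥0∞) + 1) ^ p) := by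
          gcongr; exact hn m
      _ = _ := ENNReal.mul_div_cancel (hne0 m) (hne m)
  · intro γ hγ ε hε
    obtain ⟨m, hm⟩ := ENNReal.exists_nat_mul_gt hε hγ
    refine ⟨n m, ?_⟩
    have h1 := γ.lint_mono (g := fun x => ((m : ℝ≥0∞) + 1) * ρ (n m) x)
      (g' := fun x => ⨆ m : ℕ, ((m : ℝ≥0∞) + 1) * ρ (n m) x)
      fun x => le_iSup (fun m : ℕ => ((m : ℝ≥0∞) + 1) * ρ (n m) x) m
    rw [γ.lint_const_mul (by finiteness)] at h1
    have h2 : ((m : ℝ≥0∞) + 1) * γ.lint (ρ (n m)) ≤ ((m : ℝ≥0∞) + 1) * ε :=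
      h1.trans (hm.le.trans (by gcongr; exact le_self_add))
    exact (ENNReal.mul_le_mul_iff_right (by simp) (by finiteness)).1 h2

lemma modulus_eq_zero_iff {P : Curve X → Prop} :
    modulus μ p {γ | ¬ P γ} = 0 ↔ ∀ᶠ γ in aeC μ p, P γ := by
  have hp0 : 0 < p := by linarith [hp.out]
  constructor
  · intro h
    have := fuglede (μ := μ) (p := p)
      (ι := {ρ : X → ℝ≥0∞ // Measurable ρ ∧ ∀ γ ∈ {γ : Curve X | ¬ P γ}, 1 ≤ γ.lint ρ})
      (fun i => i.1) (fun i => i.2.1) (by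
        intro ε hε
        have h1 : modulus μ p {γ | ¬ P γ} < ε := by rw [h]; exact pos_iff_ne_zero.2 hε
        simp only [modulus, iInf_lt_iff] at h1
        obtain ⟨ρ, h2, h3, h4⟩ := h1
        exact ⟨⟨ρ, h2, h3⟩, h4.le⟩)
    filter_upwards [this] with γ hγ
    obtain ⟨i, hi⟩ := hγ 2⁻¹ (by simp)
    by_contra hP
    have := (i.2.2 γ hP).trans hi
    norm_num at this
  · intro h
    obtain ⟨ρ, h1, h2, h3⟩ := eventually_aeC.1 h
    refine le_antisymm (le_of_forall_gt_imp_ge_of_dense fun ε hε => ?_) zero_le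
    obtain ⟨c, hc0, hct, hc⟩ := exists_small_const hp0 h2 hε.ne'
    refine le_trans (iInf_le_of_le (fun x => c * ρ x) (iInf_le_of_le (h1.const_mul _)
      (iInf_le_of_le ?_ (le_of_eq ?_)))) hc
    · intro γ hγ
      have : γ.lint ρ = ∞ := by by_contra hh; exact hγ (h3 γ hh)
      rw [γ.lint_const_mul hct, this, ENNReal.mul_top hc0]; exact le_top
    · simp only [ENNReal.mul_rpow_of_nonneg _ _ hp0.le]
      exact lintegral_const_mul _ (h1.pow_const p)

lemma ae_UG_of_ineq {u : X → ℝ} {g : X → ℝ≥0∞} (h : ∀ᶠ γ in aeC μ p, γ.UGIneq u g) :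
    ∀ᶠ γ in aeC μ p, γ.UG u g := by
  obtain ⟨ρ, h1, h2, h3⟩ := eventually_aeC.1 h
  refine eventually_aeC.2 ⟨ρ, h1, h2, fun γ hγ s t hs hst ht => ?_⟩
  rcases hst.eq_or_lt with rfl | hlt
  · simp
  · exact h3 (γ.sub s t hs hlt ht) (ne_top_of_le_ne_top hγ (γ.setInt_le ρ hs ht))

variable [BorelSpace X]

lemma Curve.aemeas (γ : Curve X) {g : X → ℝ≥0∞} (hg : Measurable g) :
    AEMeasurable (fun t => g (γ.toFun t)) (volume.restrict (Icc γ.a γ.b)) :=
  hg.comp_aemeasurable (γ.cont.aemeasurable measurableSet_Icc)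

lemma ae_curve_of_ae {P : X → Prop} (h : ∀ᵐ x ∂μ, P x) :
    ∀ᶠ γ in aeC μ p, ∀ᵐ t ∂(volume.restrict (Icc γ.a γ.b)), P (γ.toFun t) := by
  have hp0 : 0 < p := by linarith [hp.out]
  set N := toMeasurable μ {x | ¬ P x}
  have hN : MeasurableSet N := measurableSet_toMeasurable _ _
  have hN0 : μ N = 0 := by rw [measure_toMeasurable]; exact h
  have hm : Measurable (N.indicator fun _ => (∞ : ℝ≥0∞)) := measurable_const.indicator hN
  refine eventually_aeC.2 ⟨N.indicator fun _ => ∞, hm, ?_, fun γ hγ => ?_⟩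
  · have : ∫⁻ x, N.indicator (fun _ => (∞ : ℝ≥0∞)) x ^ p ∂μ = 0 := by
      refine (lintegral_congr_ae ?_).trans lintegral_zero
      filter_upwards [measure_eq_zero_iff_ae_notMem.1 hN0] with x hx
      simp [hx, ENNReal.zero_rpow_of_pos hp0]
    rw [this]; simp
  · filter_upwards [ae_lt_top' (γ.aemeas hm) hγ] with t ht
    by_contra hP
    rw [indicator_of_mem (subset_toMeasurable μ _ hP)] at ht
    exact lt_irrefl _ ht

/-- The filter of properties holding almost everywhere and on almost every curve. -/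
def qe (μ : Measure X) (p : ℝ) [Fact (1 < p)] : Filter X :=
  ae μ ⊔ (aeC μ p).bind fun γ => 𝓟 (γ.toFun '' Icc γ.a γ.b)

omit [BorelSpace X] in
lemma eventually_qe {P : X → Prop} : (∀ᶠ x in qe μ p, P x) ↔
    (∀ᵐ x ∂μ, P x) ∧ ∀ᶠ γ in aeC μ p, ∀ t ∈ Icc γ.a γ.b, P (γ.toFun t) := by
  simp only [qe, eventually_sup, eventually_bind, eventually_principal, forall_mem_image]

instance : CountableInterFilter (qe μ p) := by
  constructor
  intro S hS h
  have : ∀ᶠ x in qe μ p, ∀ s ∈ S, x ∈ s := by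
    rw [eventually_qe]
    constructor
    · exact (eventually_countable_ball hS).2 fun s hs => (eventually_qe.1 (h s hs)).1
    · have := (eventually_countable_ball hS).2 fun s hs => (eventually_qe.1 (h s hs)).2
      filter_upwards [this] with γ hγ t ht s hs using hγ s hs t ht
  exact this

lemma qe_of_sobolevCap {E : Set X} (hE : sobolevCap μ p E = 0) : ∀ᶠ x in qe μ p, x ∉ E := by
  have hp0 : 0 < p := by linarith [hp.out]
  have hex : ∀ ε : ℝ≥0∞, ε ≠ 0 → ∃ (u : X → ℝ) (g : X → ℝ≥0∞), IsNewtonianPair μ p u g ∧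
      (∀ x ∈ E, 1 ≤ u x) ∧ ∫⁻ x, ‖u x‖ₑ ^ p ∂μ + ∫⁻ x, g x ^ p ∂μ ≤ ε := by
    intro ε hε
    have h1 : sobolevCap μ p E < ε := by rw [hE]; exact pos_iff_ne_zero.2 hε
    simp only [sobolevCap, iInf_lt_iff] at h1
    obtain ⟨u, g, h2, h3, h4⟩ := h1
    exact ⟨u, g, h2, h3, h4.le⟩
  rw [eventually_qe]
  constructor
  · rw [← measure_eq_zero_iff_ae_notMem]
    refine le_antisymm (le_of_forall_gt_imp_ge_of_dense fun ε hε => ?_) zero_le
    obtain ⟨u, g, h1, h2, h3⟩ := hex ε hε.ne'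
    have h4 := mul_meas_ge_le_lintegral₀ (μ := μ) (h1.1.enorm.pow_const p) 1
    rw [one_mul] at h4
    refine le_trans (measure_mono fun x hx => ?_) (h4.trans (le_self_add.trans h3))
    refine ENNReal.one_le_rpow ?_ hp0
    rw [Real.enorm_eq_ofReal_abs]
    exact ENNReal.one_le_ofReal.2 ((h2 x hx).trans (le_abs_self _))
  · choose u g h1 h2 h3 using fun n : ℕ => hex ((2⁻¹ : ℝ≥0∞) ^ n) (by simp)
    let ρ : ℕ → X → ℝ≥0∞ := fun n x => max ‖(h1 n).1.mk (u n) x‖ₑ (g n x)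
    have hρ : ∀ n, Measurable (ρ n) := fun n =>
      (h1 n).1.measurable_mk.enorm.max (h1 n).2.2.1.1
    have hF := fuglede (μ := μ) (p := p) ρ hρ (by
      intro ε hε
      obtain ⟨n, hn⟩ := ((ENNReal.tendsto_pow_atTop_nhds_zero_of_lt_one
        (r := 2⁻¹) (by norm_num)).eventually (ge_mem_nhds (pos_iff_ne_zero.2 hε))).exists
      refine ⟨n, le_trans ?_ ((h3 n).trans hn)⟩
      rw [← lintegral_add_right _ ((h1 n).2.2.1.1.pow_const p)]
      refine lintegral_mono_ae ?_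
      filter_upwards [(h1 n).1.ae_eq_mk] with x hx
      simp only [ρ, ← hx]
      rcases le_total ‖u n x‖ₑ (g n x) with h | h
      · rw [max_eq_right h]; exact le_add_self
      · rw [max_eq_left h]; exact le_self_add)
    have hU := eventually_countable_forall.2 fun n =>
      ae_UG_of_ineq (modulus_eq_zero_iff.1 (h1 n).2.2.1.2)
    have hA := eventually_countable_forall.2 fun n =>
      ae_curve_of_ae (p := p) (h1 n).1.ae_eq_mk
    filter_upwards [hF, hU, hA] with γ hγ1 hγ2 hγ3 t0 ht0 hE0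
    have hab : 0 < γ.b - γ.a := by linarith [γ.lt]
    obtain ⟨n, hn⟩ := hγ1 (ENNReal.ofReal (min (1 / 2) ((γ.b - γ.a) / 4)))
      (by simp; linarith)
    have h5 : ∀ t ∈ Icc γ.a γ.b, 1 / 2 ≤ u n (γ.toFun t) := by
      intro t ht
      have h6 := ((hγ2 n).le_lint ht0 ht).trans ((γ.lint_mono fun x => le_max_right _ _).trans hn)
      have h7 := (ENNReal.ofReal_le_ofReal_iff (by positivity)).1 h6
      have := h2 n _ hE0
      have := le_abs_self (u n (γ.toFun t0) - u n (γ.toFun t))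
      have := min_le_left (1 / 2 : ℝ) ((γ.b - γ.a) / 4)
      linarith
    have h6 : ENNReal.ofReal (1 / 2) * ENNReal.ofReal (γ.b - γ.a) ≤ γ.lint (ρ n) := by
      rw [← Real.volume_Icc, ← setLIntegral_const]
      refine lintegral_mono_ae ?_
      filter_upwards [hγ3 n, ae_restrict_mem measurableSet_Icc] with t h7 h8
      refine le_trans ?_ (le_max_left _ _)
      rw [← h7, Real.enorm_eq_ofReal_abs]
      exact ENNReal.ofReal_le_ofReal ((h5 t h8).trans (le_abs_self _))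
    rw [← ENNReal.ofReal_mul (by norm_num)] at h6
    have h7 := (ENNReal.ofReal_le_ofReal_iff (by positivity)).1 (h6.trans hn)
    have := min_le_right (1 / 2 : ℝ) ((γ.b - γ.a) / 4)
    linarith

end Pool.Agent.H20Z.Fine
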