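import Mathlib

set_option autoImplicit false

open Set Filter Topology
open scoped ENNReal NNReal

namespace Pool.Agent.H20Z.Fine

variable {I Y : Type*}

/-- weighted energy of a coefficient family -/
noncomputable def en (b : I → ℝ≥0∞) (p : ℝ) (l : I → ℝ≥0∞) : ℝ≥0∞ := ∑' i, b i * l i ^ p

/-- discrete potential of a coefficient family -/
noncomputable def pot (S : I → Set Y) (l : I → ℝ≥0∞) (y : Y) : ℝ≥0∞ :=
  ∑' i, (S i).indicator (fun _ => l i) y

lemma pot_add (S : I → Set Y) (l l' : I → ℝ≥0∞) (y : Y) :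
    pot S (fun i => l i + l' i) y = pot S l y + pot S l' y := by
  unfold pot
  rw [← ENNReal.tsum_add]
  congr 1; ext i
  by_cases h : y ∈ S i <;> simp [h]

lemma pot_const_mul (S : I → Set Y) (c : ℝ≥0∞) (l : I → ℝ≥0∞) (y : Y) :
    pot S (fun i => c * l i) y = c * pot S l y := by
  unfold pot
  rw [← ENNReal.tsum_mul_left]
  congr 1; ext i
  by_cases h : y ∈ S i <;> simp [h]

lemma pot_mono (S : I → Set Y) {l l' : I → ℝ≥0∞} (h : ∀ i, l i ≤ l' i) (y : Y) :
    pot S l y ≤ pot S l' y := by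
  unfold pot
  refine ENNReal.tsum_le_tsum fun i => ?_
  by_cases hy : y ∈ S i <;> simp [hy, h i]

lemma pot_single [DecidableEq I] (S : I → Set Y) (i : I) (t : ℝ≥0∞) (y : Y) :
    pot S (fun j => if j = i then t else 0) y = (S i).indicator (fun _ => t) y := by
  unfold pot
  rw [tsum_eq_single i]
  · simp
  · intro j hj; simp [hj]

lemma en_mono (b : I → ℝ≥0∞) {p : ℝ} (hp : 0 ≤ p) {l l' : I → ℝ≥0∞} (h : ∀ i, l i ≤ l' i) :
    en b p l ≤ en b p l' := by
  unfold en
  refine ENNReal.tsum_le_tsum fun i => ?_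
  gcongr
  exact h i

lemma ne_top_of_en {b : I → ℝ≥0∞} {p : ℝ} (hp : 0 < p) (hb : ∀ i, b i ≠ 0) {l : I → ℝ≥0∞}
    (h : en b p l ≠ ∞) (i : I) : l i ≠ ∞ := by
  intro hi
  apply h
  refine eq_top_iff.2 (le_trans ?_ (ENNReal.le_tsum i))
  rw [hi, ENNReal.top_rpow_of_pos hp, ENNReal.mul_top (hb i)]

lemma uc_real {p : ℝ} (hp : 1 < p) {ε : ℝ} (hε : 0 < ε) :
    ∃ K : ℝ, 0 ≤ K ∧ ∀ a b : ℝ, 0 ≤ a → 0 ≤ b →
      |a - b| ^ p + K * ((a + b) / 2) ^ p ≤ (ε + K / 2) * (a ^ p + b ^ p) := by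
  have hp0 : 0 < p := by linarith
  set η : ℝ := min (1 / 2) (ε ^ (1 / p)) with hη
  have hη0 : 0 < η := lt_min (by norm_num) (Real.rpow_pos_of_pos hε _)
  have hη1 : η ≤ 1 / 2 := min_le_left _ _
  have hηp : η ^ p ≤ ε := by
    calc η ^ p ≤ (ε ^ (1 / p)) ^ p := Real.rpow_le_rpow hη0.le (min_le_right _ _) hp0.le
      _ = ε := by rw [← Real.rpow_mul hε.le]; simp [hp0.ne']
  let gap : ℝ → ℝ := fun a => (a ^ p + 1) / 2 - ((a + 1) / 2) ^ p
  have hc : Continuous gap := by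
    have := Real.continuous_rpow_const hp0.le
    exact ((this.add continuous_const).div_const _).sub
      (this.comp ((continuous_id.add continuous_const).div_const _))
  have hpos : ∀ a ∈ Icc (0 : ℝ) (1 - η), 0 < gap a := by
    intro a ha
    have h := (strictConvexOn_rpow hp).2 (show a ∈ Ici (0 : ℝ) from ha.1)
      (show (1 : ℝ) ∈ Ici (0 : ℝ) by simp)
      (by have := ha.2; linarith) (show (0 : ℝ) < 1 / 2 by norm_num)
      (show (0 : ℝ) < 1 / 2 by norm_num) (by norm_num)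
    simp only [smul_eq_mul, Real.one_rpow] at h
    have e : 1 / 2 * a + 1 / 2 * 1 = (a + 1) / 2 := by ring
    rw [e] at h
    simp only [gap]; linarith
  obtain ⟨a0, ha0, hmin⟩ := (isCompact_Icc (a := (0 : ℝ)) (b := 1 - η)).exists_isMinOn
    ⟨0, by constructor <;> linarith⟩ hc.continuousOn
  have hm := hpos a0 ha0
  have hconv : ∀ a b : ℝ, 0 ≤ a → 0 ≤ b → ((a + b) / 2) ^ p ≤ (a ^ p + b ^ p) / 2 := by
    intro a b ha hb
    have h := (convexOn_rpow hp.le).2 (show a ∈ Ici (0 : ℝ) from ha) (show b ∈ Ici (0 : ℝ) from hb)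
      (show (0 : ℝ) ≤ 1 / 2 by norm_num) (show (0 : ℝ) ≤ 1 / 2 by norm_num) (by norm_num)
    simp only [smul_eq_mul] at h
    have e : 1 / 2 * a + 1 / 2 * b = (a + b) / 2 := by ring
    rw [e] at h
    linarith
  have key : ∀ a b : ℝ, 0 ≤ a → a ≤ b →
      |a - b| ^ p + (gap a0)⁻¹ * ((a + b) / 2) ^ p ≤ (ε + (gap a0)⁻¹ / 2) * (a ^ p + b ^ p) := by
    intro a b ha hab
    have hb : 0 ≤ b := ha.trans hab
    have hap : 0 ≤ a ^ p := Real.rpow_nonneg ha _
    have hbp : 0 ≤ b ^ p := Real.rpow_nonneg hb _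
    have hK : 0 < (gap a0)⁻¹ := inv_pos.2 hm
    have h1 := hconv a b ha hb
    by_cases hcase : (1 - η) * b ≤ a
    · have : |a - b| ^ p ≤ ε * b ^ p := by
        calc |a - b| ^ p ≤ (η * b) ^ p := by
              apply Real.rpow_le_rpow (abs_nonneg _) _ hp0.le
              rw [abs_of_nonpos (by linarith)]; linarith
          _ = η ^ p * b ^ p := Real.mul_rpow hη0.le hb
          _ ≤ ε * b ^ p := by gcongr
      nlinarith [mul_le_mul_of_nonneg_left h1 hK.le, mul_nonneg hε.le hap]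
    · push Not at hcase
      have hb0 : 0 < b := by
        by_contra h
        have : b = 0 := le_antisymm (not_lt.1 h) hb
        rw [this] at hcase; linarith
      have hmem : a / b ∈ Icc (0 : ℝ) (1 - η) :=
        ⟨div_nonneg ha hb, by rw [div_le_iff₀ hb0]; exact hcase.le⟩
      have h2 : gap a0 ≤ gap (a / b) := hmin hmem
      have hbp0 : 0 < b ^ p := Real.rpow_pos_of_pos hb0 _
      have h3 : gap (a / b) * b ^ p = (a ^ p + b ^ p) / 2 - ((a + b) / 2) ^ p := by
        simp only [gap]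
        have e1 : (a / b + 1) / 2 = ((a + b) / 2) / b := by field_simp
        rw [e1, Real.div_rpow ha hb, Real.div_rpow (by positivity) hb]
        field_simp
      have h4 : |a - b| ^ p ≤ b ^ p := by
        apply Real.rpow_le_rpow (abs_nonneg _) _ hp0.le
        rw [abs_of_nonpos (by linarith)]; linarith
      have h5 : b ^ p ≤ (gap a0)⁻¹ * ((a ^ p + b ^ p) / 2 - ((a + b) / 2) ^ p) := by
        rw [← h3, ← mul_assoc]
        have : 1 ≤ (gap a0)⁻¹ * gap (a / b) := by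
          rw [← div_eq_inv_mul, le_div_iff₀ hm]; linarith
        nlinarith
      nlinarith [mul_nonneg hε.le hap, mul_nonneg hε.le hbp]
  refine ⟨(gap a0)⁻¹, (inv_pos.2 hm).le, fun a b ha hb => ?_⟩
  rcases le_total a b with h | h
  · exact key a b ha h
  · have := key b a hb h
    rw [abs_sub_comm, add_comm b a, add_comm (b ^ p)] at this
    exact this

lemma uc_nn {p : ℝ} (hp : 1 < p) {ε : ℝ≥0} (hε : 0 < ε) :
    ∃ K : ℝ≥0, ∀ a b : ℝ≥0,
      ((nndist a b : ℝ≥0) : ℝ≥0∞) ^ p + K * (((a + b) / 2 : ℝ≥0) : ℝ≥0∞) ^ p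
        ≤ ((ε + K / 2 : ℝ≥0) : ℝ≥0∞) * ((a : ℝ≥0∞) ^ p + (b : ℝ≥0∞) ^ p) := by
  have hp0 : 0 ≤ p := by linarith
  obtain ⟨K, hK, h⟩ := uc_real hp (ε := ε) hε
  refine ⟨⟨K, hK⟩, fun a b => ?_⟩
  simp only [← ENNReal.coe_rpow_of_nonneg _ hp0]
  norm_cast
  rw [← NNReal.coe_le_coe]
  have := h a b a.2 b.2
  push_cast
  rw [NNReal.dist_eq]
  exact this

/-- Existence of a minimiser of the energy among admissible families. -/
lemma exists_minimiser {p : ℝ} (hp : 1 < p) (b : I → ℝ≥0∞) (hb : ∀ i, b i ≠ 0)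
    (hbt : ∀ i, b i ≠ ∞)
    (S : I → Set Y) (Fl : Filter Y) [CountableInterFilter Fl] (F : Set Y)
    (hfin : ∀ L : I → ℝ≥0∞, en b p L ≠ ∞ → ∀ᶠ y in Fl, pot S L y ≠ ∞)
    (l0 : I → ℝ≥0∞) (h0 : en b p l0 ≠ ∞) (hl0 : ∀ᶠ y in Fl, y ∈ F → 1 ≤ pot S l0 y) :
    ∃ l : I → ℝ≥0∞, en b p l ≠ ∞ ∧ (∀ᶠ y in Fl, y ∈ F → 1 ≤ pot S l y) ∧
      ∀ l' : I → ℝ≥0∞, (∀ᶠ y in Fl, y ∈ F → 1 ≤ pot S l' y) → en b p l ≤ en b p l' := by
  have hp0 : 0 < p := by linarith
  set κ : ℝ≥0∞ := ⨅ (l : I → ℝ≥0∞) (_ : ∀ᶠ y in Fl, y ∈ F → 1 ≤ pot S l y), en b p l with hκ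
  have hκle : ∀ l : I → ℝ≥0∞, (∀ᶠ y in Fl, y ∈ F → 1 ≤ pot S l y) → κ ≤ en b p l :=
    fun l hl => iInf₂_le l hl
  have hκt : κ ≠ ∞ := ne_top_of_le_ne_top h0 (hκle l0 hl0)
  -- near minimisers
  have hnear : ∀ δ : ℝ≥0, 0 < δ → ∃ l : I → ℝ≥0,
      (∀ᶠ y in Fl, y ∈ F → 1 ≤ pot S (fun i => l i) y) ∧ en b p (fun i => l i) ≤ κ + δ := by
    intro δ hδ
    have : κ < κ + δ := ENNReal.lt_add_right hκt (by simpa using hδ.ne')
    rw [hκ] at this
    simp only [iInf_lt_iff] at this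
    obtain ⟨l, hl, hlt⟩ := this
    have hlt' : en b p l ≠ ∞ := ne_top_of_lt hlt
    have e : (fun i => ((l i).toNNReal : ℝ≥0∞)) = l := by
      ext i; exact ENNReal.coe_toNNReal (ne_top_of_en hp0 hb hlt' i)
    exact ⟨fun i => (l i).toNNReal, by rw [e]; exact hl, by rw [e]; exact hlt.le⟩
  -- uniform convexity
  have hcauchy : ∀ η : ℝ≥0, 0 < η → ∃ δ : ℝ≥0, 0 < δ ∧ ∀ l l' : I → ℝ≥0,
      (∀ᶠ y in Fl, y ∈ F → 1 ≤ pot S (fun i => l i) y) → en b p (fun i => l i) ≤ κ + δ →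
      (∀ᶠ y in Fl, y ∈ F → 1 ≤ pot S (fun i => l' i) y) → en b p (fun i => l' i) ≤ κ + δ →
      en b p (fun i => (nndist (l i) (l' i) : ℝ≥0)) ≤ η := by
    intro η hη
    lift κ to ℝ≥0 using hκt with k hk
    obtain ⟨K, hK⟩ := uc_nn hp (ε := η / (4 * (k + 1))) (by positivity)
    refine ⟨min 1 (η / (2 * (K + 1))), by positivity, fun l l' hl hle hl' hle' => ?_⟩
    set δ : ℝ≥0 := min 1 (η / (2 * (K + 1))) with hδ
    have hmid : ∀ᶠ y in Fl, y ∈ F →
        1 ≤ pot S (fun i => (((l i + l' i) / 2 : ℝ≥0) : ℝ≥0∞)) y := by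
      filter_upwards [hl, hl'] with y h1 h2 hy
      have e : (fun i => (((l i + l' i) / 2 : ℝ≥0) : ℝ≥0∞))
          = fun i => 2⁻¹ * ((l i : ℝ≥0∞) + l' i) := by
        ext i; rw [ENNReal.coe_div (by norm_num)]; push_cast
        rw [ENNReal.div_eq_inv_mul]
      rw [e, pot_const_mul, pot_add]
      calc (1 : ℝ≥0∞) = 2⁻¹ * (1 + 1) := by
            rw [one_add_one_eq_two, ENNReal.inv_mul_cancel (by norm_num) (by norm_num)]
        _ ≤ _ := by gcongr; exacts [h1 hy, h2 hy]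
    have h1 := hκle _ hmid
    have h2 : en b p (fun i => (nndist (l i) (l' i) : ℝ≥0))
        + K * en b p (fun i => (((l i + l' i) / 2 : ℝ≥0) : ℝ≥0∞))
        ≤ ((η / (4 * (k + 1)) + K / 2 : ℝ≥0) : ℝ≥0∞)
          * (en b p (fun i => l i) + en b p (fun i => l' i)) := by
      unfold en
      rw [← ENNReal.tsum_mul_left, ← ENNReal.tsum_add, ← ENNReal.tsum_add,
        ← ENNReal.tsum_mul_left]
      refine ENNReal.tsum_le_tsum fun i => ?_
      have := mul_le_mul_right (hK (l i) (l' i)) (b i)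
      calc _ = b i * (((nndist (l i) (l' i) : ℝ≥0) : ℝ≥0∞) ^ p
            + K * (((l i + l' i) / 2 : ℝ≥0) : ℝ≥0∞) ^ p) := by ring
        _ ≤ _ := this
        _ = _ := by ring
    have h3 : en b p (fun i => (nndist (l i) (l' i) : ℝ≥0)) + K * k
        ≤ ((η / (4 * (k + 1)) + K / 2 : ℝ≥0) : ℝ≥0∞) * ((k + δ) + (k + δ)) := by
      calc _ ≤ _ := by gcongr
        _ ≤ _ := h2
        _ ≤ _ := by gcongr
    have h4 : ((η / (4 * (k + 1)) + K / 2 : ℝ≥0) : ℝ≥0∞) * ((k + δ) + (k + δ))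
        ≤ η + K * k := by
      norm_cast
      rw [← NNReal.coe_le_coe]
      have hδ1 : (δ : ℝ) ≤ 1 := by exact_mod_cast min_le_left _ _
      have hδ2 : (δ : ℝ) ≤ η / (2 * (K + 1)) := by exact_mod_cast min_le_right _ _
      have hk0 : (0 : ℝ) ≤ k := k.2
      have hK0 : (0 : ℝ) ≤ K := K.2
      have hη0 : (0 : ℝ) < η := hη
      have hδ0 : (0 : ℝ) ≤ δ := δ.2
      push_cast
      rw [le_div_iff₀ (by positivity)] at hδ2
      have e1 : (η : ℝ) / (4 * (k + 1)) * (k + δ + (k + δ)) ≤ η / 2 := by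
        rw [div_mul_eq_mul_div, div_le_div_iff₀ (by positivity) (by positivity)]
        nlinarith
      nlinarith
    exact (ENNReal.add_le_add_iff_right (by finiteness)).1 (h3.trans h4)
  -- the minimising sequence
  let η : ℕ → ℝ≥0 := fun n => (1 / 2) ^ n * ((1 / 2) ^ n) ^ p
  have hη : ∀ n, 0 < η n := fun n => by
    simp only [η]; exact mul_pos (by positivity) (NNReal.rpow_pos (by positivity))
  choose δ hδ hδ' using fun n => hcauchy (η n) (hη n)
  let δ2 : ℕ → ℝ≥0 := fun n => min (min (δ n) (δ (n - 1))) ((1 / 2) ^ n)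
  have hδ2 : ∀ n, 0 < δ2 n := fun n => lt_min (lt_min (hδ _) (hδ _)) (by positivity)
  choose l hl hle using fun n => hnear (δ2 n) (hδ2 n)
  have hstep : ∀ n, en b p (fun i => (nndist (l n i) (l (n + 1) i) : ℝ≥0)) ≤ η n := by
    intro n
    refine hδ' n _ _ (hl n) ((hle n).trans ?_) (hl (n + 1)) ((hle (n + 1)).trans ?_)
    · gcongr; exact (min_le_left _ _).trans (min_le_left _ _)
    · gcongr; exact (min_le_left _ _).trans (min_le_right _ _)
  let D : I → ℝ≥0∞ := fun i => ⨆ n, 2 ^ n * ((nndist (l n i) (l (n + 1) i) : ℝ≥0) : ℝ≥0∞)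
  have hD : en b p D ≠ ∞ := by
    have : en b p D ≤ ∑' n : ℕ, (2⁻¹ : ℝ≥0∞) ^ n := by
      calc en b p D ≤ ∑' i, ∑' n : ℕ, (2 ^ n : ℝ≥0∞) ^ p *
            (b i * ((nndist (l n i) (l (n + 1) i) : ℝ≥0) : ℝ≥0∞) ^ p) := by
            refine ENNReal.tsum_le_tsum fun i => ?_
            have e : D i ^ p = ⨆ n, (2 ^ n *
                ((nndist (l n i) (l (n + 1) i) : ℝ≥0) : ℝ≥0∞)) ^ p :=
              (ENNReal.orderIsoRpow p hp0).map_iSup _
            rw [e, ENNReal.mul_iSup]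
            refine iSup_le fun n => le_trans (le_of_eq ?_) (ENNReal.le_tsum n)
            rw [ENNReal.mul_rpow_of_nonneg _ _ hp0.le]; ring
        _ = ∑' n : ℕ, (2 ^ n : ℝ≥0∞) ^ p *
            en b p (fun i => (nndist (l n i) (l (n + 1) i) : ℝ≥0)) := by
            rw [ENNReal.tsum_comm]
            simp only [en, ENNReal.tsum_mul_left]
        _ ≤ _ := by
            refine ENNReal.tsum_le_tsum fun n => ?_
            calc _ ≤ (2 ^ n : ℝ≥0∞) ^ p * η n := by gcongr; exact hstep n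
              _ = (2⁻¹ : ℝ≥0∞) ^ n * ((2 ^ n : ℝ≥0∞) * (2⁻¹ : ℝ≥0∞) ^ n) ^ p := by
                simp only [η]
                rw [ENNReal.mul_rpow_of_nonneg _ _ hp0.le]
                push_cast [ENNReal.coe_rpow_of_nonneg _ hp0.le]
                simp only [one_div]
                ring
              _ = _ := by
                rw [← mul_pow, ENNReal.mul_inv_cancel (by norm_num) (by norm_num)]; simp
    refine ne_top_of_le_ne_top ?_ this
    rw [ENNReal.tsum_geometric]; simp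
  have hDi : ∀ i, D i ≠ ∞ := ne_top_of_en hp0 hb hD
  have hgeo : ∀ i n, dist (l n i) (l (n + 1) i) ≤ (2 * (D i).toReal) / 2 / 2 ^ n := by
    intro i n
    have h1 : 2 ^ n * ((nndist (l n i) (l (n + 1) i) : ℝ≥0) : ℝ≥0∞) ≤ D i :=
      le_iSup (fun n => 2 ^ n * ((nndist (l n i) (l (n + 1) i) : ℝ≥0) : ℝ≥0∞)) n
    have h2 := ENNReal.toReal_mono (hDi i) h1
    simp only [ENNReal.toReal_mul, ENNReal.toReal_pow, ENNReal.toReal_ofNat,
      ENNReal.coe_toReal, coe_nndist] at h2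
    rw [le_div_iff₀ (by positivity)]
    linarith
  have hlim : ∀ i, ∃ a : ℝ≥0, Tendsto (fun n => l n i) atTop (𝓝 a) := fun i =>
    cauchySeq_tendsto_of_complete (cauchySeq_of_le_geometric_two (hgeo i))
  choose m hm using hlim
  have hdist : ∀ i n, (l n i : ℝ≥0∞) ≤ m i + (2 * 2⁻¹ ^ n) * D i := by
    intro i n
    have h1 := dist_le_of_le_geometric_two_of_tendsto (hgeo i) (hm i) n
    rw [NNReal.dist_eq] at h1
    have h2 : (l n i : ℝ) ≤ m i + 2 * (D i).toReal / 2 ^ n := by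
      have := le_abs_self ((l n i : ℝ) - m i); linarith
    have h3 := ENNReal.ofReal_le_ofReal h2
    rw [ENNReal.ofReal_coe_nnreal, ENNReal.ofReal_add (m i).coe_nonneg (by positivity),
      ENNReal.ofReal_div_of_pos (by positivity), ENNReal.ofReal_mul (by norm_num),
      ENNReal.ofReal_toReal (hDi i), ENNReal.ofReal_pow (by norm_num)] at h3
    simp only [ENNReal.ofReal_coe_nnreal, ENNReal.ofReal_ofNat] at h3
    refine h3.trans (le_of_eq ?_)
    rw [ENNReal.div_eq_inv_mul, ENNReal.inv_pow]; ring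
  have hen : en b p (fun i => m i) ≤ κ := by
    unfold en
    rw [ENNReal.tsum_eq_iSup_sum]
    refine iSup_le fun s => ?_
    have t1 : Tendsto (fun n => ∑ i ∈ s, b i * (l n i : ℝ≥0∞) ^ p) atTop
        (𝓝 (∑ i ∈ s, b i * (m i : ℝ≥0∞) ^ p)) := by
      refine tendsto_finsetSum _ fun i _ => ENNReal.Tendsto.const_mul ?_ (Or.inr (hbt i))
      exact (ENNReal.continuous_rpow_const.tendsto _).comp (ENNReal.tendsto_coe.2 (hm i))
    have t2 : Tendsto (fun n : ℕ => κ + (2⁻¹ : ℝ≥0∞) ^ n) atTop (𝓝 (κ + 0)) :=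
      tendsto_const_nhds.add (ENNReal.tendsto_pow_atTop_nhds_zero_of_lt_one (by norm_num))
    rw [add_zero] at t2
    refine le_of_tendsto_of_tendsto' t1 t2 fun n => ?_
    refine (ENNReal.sum_le_tsum s).trans ((hle n).trans ?_)
    gcongr
    have : δ2 n ≤ (1 / 2) ^ n := min_le_right _ _
    calc (δ2 n : ℝ≥0∞) ≤ (((1 / 2) ^ n : ℝ≥0) : ℝ≥0∞) := by exact_mod_cast this
      _ = _ := by push_cast; simp
  refine ⟨fun i => m i, ne_top_of_le_ne_top hκt hen, ?_, fun l' hl' => hen.trans (hκle l' hl')⟩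
  filter_upwards [eventually_countable_forall.2 hl, hfin D hD] with y h1 h2 hy
  have h3 : ∀ n, 1 ≤ pot S (fun i => m i) y + (2 * 2⁻¹ ^ n) * pot S D y := by
    intro n
    rw [← pot_const_mul, ← pot_add]
    exact (h1 n hy).trans (pot_mono S (fun i => hdist i n) y)
  have t : Tendsto (fun n : ℕ => pot S (fun i => m i) y + (2 * 2⁻¹ ^ n) * pot S D y) atTop
      (𝓝 (pot S (fun i => m i) y + (2 * 0) * pot S D y)) := by
    refine tendsto_const_nhds.add (ENNReal.Tendsto.mul_const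
      (ENNReal.Tendsto.const_mul ?_ (Or.inr (by norm_num))) (Or.inr h2))
    exact ENNReal.tendsto_pow_atTop_nhds_zero_of_lt_one (by norm_num)
  simpa using ge_of_tendsto' t h3

/-- The capacitary potential in the discrete model. -/
theorem exists_potential {p : ℝ} (hp : 1 < p) (b : I → ℝ≥0∞) (hb : ∀ i, b i ≠ 0)
    (hbt : ∀ i, b i ≠ ∞)
    (S : I → Set Y) (Fl : Filter Y) [CountableInterFilter Fl] (F : Set Y)
    (hfin : ∀ L : I → ℝ≥0∞, en b p L ≠ ∞ → ∀ᶠ y in Fl, pot S L y ≠ ∞)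
    (l0 : I → ℝ≥0∞) (h0 : en b p l0 ≠ ∞) (hl0 : ∀ᶠ y in Fl, y ∈ F → 1 ≤ pot S l0 y) :
    ∃ l : I → ℝ≥0∞, en b p l ≠ ∞ ∧ (∀ᶠ y in Fl, y ∈ F → 1 ≤ pot S l y) ∧
      ∀ (i : I) (l' : I → ℝ≥0∞), (∀ᶠ y in Fl, y ∈ F → y ∈ S i → 1 ≤ pot S l' y) →
        b i * l i ^ (p - 1) ≤ 3 ^ p * en b p l' := by
  classical
  have hp0 : 0 < p := by linarith
  obtain ⟨l, hl, hadm, hmin⟩ := exists_minimiser hp b hb hbt S Fl F hfin l0 h0 hl0
  refine ⟨l, hl, hadm, fun i l' hl' => ?_⟩
  have hli := ne_top_of_en hp0 hb hl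
  by_cases h0 : l i = 0
  · rw [h0, ENNReal.zero_rpow_of_pos (by linarith)]; simp
  by_cases hE : en b p l' = ∞
  · rw [hE, ENNReal.mul_top (by simp)]; exact le_top
  have hl'i := ne_top_of_en hp0 hb hE
  set t : ℝ≥0∞ := min (l i) 1 with ht
  have ht0 : t ≠ 0 := by
    rw [ht]; exact (lt_min (pos_iff_ne_zero.2 h0) one_pos).ne'
  have ht1 : t ≤ 1 := min_le_right _ _
  have htl : t ≤ l i := min_le_left _ _
  have htt : t ≠ ∞ := ne_top_of_le_ne_top ENNReal.one_ne_top ht1
  let d : I → ℝ≥0∞ := fun j => 3 * l' j - l j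
  let m : I → ℝ≥0∞ := fun j => l j + t * d j
  let c : I → ℝ≥0∞ := fun j => m j - if j = i then t else 0
  have hcm : ∀ j, c j + (if j = i then t else 0) = m j := by
    intro j
    refine tsub_add_cancel_of_le ?_
    split_ifs with h
    · subst h; exact htl.trans le_self_add
    · exact zero_le
  have hcadm : ∀ᶠ y in Fl, y ∈ F → 1 ≤ pot S c y := by
    filter_upwards [hadm, hl'] with y h1 h2 hy
    have e1 : pot S c y + (S i).indicator (fun _ => t) y = pot S l y + t * pot S d y := by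
      rw [← pot_single, ← pot_add, ← pot_const_mul, ← pot_add]
      simp only [hcm]; rfl
    by_cases hyi : y ∈ S i
    · rw [indicator_of_mem hyi] at e1
      have h3 : 1 + t ≤ pot S l y + t * pot S d y := by
        by_cases h4 : 2 ≤ pot S l y
        · calc 1 + t ≤ 1 + 1 := by gcongr
            _ = 2 := one_add_one_eq_two
            _ ≤ _ := h4.trans le_self_add
        · push Not at h4
          have h5 : 3 ≤ pot S d y + pot S l y := by
            rw [← pot_add]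
            calc (3 : ℝ≥0∞) = 3 * 1 := by simp
              _ ≤ 3 * pot S l' y := by gcongr; exact h2 hy hyi
              _ = pot S (fun j => 3 * l' j) y := (pot_const_mul _ _ _ _).symm
              _ ≤ _ := pot_mono S (fun j => le_tsub_add) y
          have h6 : 1 ≤ pot S d y := by
            have : 1 + 2 ≤ pot S d y + 2 := by
              calc (1 + 2 : ℝ≥0∞) = 3 := by norm_num
                _ ≤ _ := h5
                _ ≤ _ := by gcongr
            exact (ENNReal.add_le_add_iff_right (by norm_num)).1 this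
          calc 1 + t = 1 + t * 1 := by simp
            _ ≤ _ := by gcongr; exact h1 hy
      rw [← e1] at h3
      exact (ENNReal.add_le_add_iff_right htt).1 h3
    · rw [indicator_of_notMem hyi, add_zero] at e1
      rw [e1]; exact (h1 hy).trans le_self_add
  have hmj : ∀ j, m j ^ p ≤ l j ^ p + t * (3 ^ p * l' j ^ p) := by
    intro j
    rw [← ENNReal.mul_rpow_of_nonneg _ _ hp0.le]
    rcases le_total (3 * l' j) (l j) with h | h
    · simp only [m, d, tsub_eq_zero_of_le h, mul_zero, add_zero]; exact le_self_add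
    · have e : m j = (1 - t) * l j + t * (3 * l' j) := by
        simp only [m, d]
        have e1 : 3 * l' j = l j + (3 * l' j - l j) := (add_tsub_cancel_of_le h).symm
        have e2 : (1 - t) + t = 1 := tsub_add_cancel_of_le ht1
        calc l j + t * (3 * l' j - l j) = ((1 - t) + t) * l j + t * (3 * l' j - l j) := by
              rw [e2, one_mul]
          _ = (1 - t) * l j + t * (l j + (3 * l' j - l j)) := by ring
          _ = _ := by rw [← e1]
      rw [e]
      refine (ENNReal.rpow_arith_mean_le_arith_mean2_rpow _ _ _ _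
        (tsub_add_cancel_of_le ht1) hp.le).trans ?_
      gcongr
      calc (1 - t) * l j ^ p ≤ 1 * l j ^ p := by gcongr; exact tsub_le_self
        _ = _ := one_mul _
  have hpow : ∀ x : ℝ≥0∞, x ^ p = x * x ^ (p - 1) := by
    intro x
    conv_lhs => rw [show p = 1 + (p - 1) by ring]
    rw [ENNReal.rpow_add_of_nonneg _ _ zero_le_one (by linarith), ENNReal.rpow_one]
  have hcj : ∀ j, b j * c j ^ p + (if j = i then t * (b i * l i ^ (p - 1)) else 0)
      ≤ b j * m j ^ p := by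
    intro j
    split_ifs with h
    · subst h
      have e := hcm j
      simp only [if_true] at e
      have hp1 : 0 ≤ p - 1 := by linarith
      calc b j * c j ^ p + t * (b j * l j ^ (p - 1))
          = b j * (c j * c j ^ (p - 1) + t * l j ^ (p - 1)) := by rw [hpow (c j)]; ring
        _ ≤ b j * (c j * m j ^ (p - 1) + t * m j ^ (p - 1)) := by
            gcongr
            · exact tsub_le_self
            · exact le_self_add
        _ = b j * ((c j + t) * m j ^ (p - 1)) := by ring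
        _ = _ := by rw [e, ← hpow]
    · simp [c, h]
  have h1 : en b p c + t * (b i * l i ^ (p - 1)) ≤ en b p l + t * (3 ^ p * en b p l') := by
    calc en b p c + t * (b i * l i ^ (p - 1))
        = ∑' j, (b j * c j ^ p + (if j = i then t * (b i * l i ^ (p - 1)) else 0)) := by
          rw [ENNReal.tsum_add, tsum_ite_eq]; rfl
      _ ≤ ∑' j, (b j * l j ^ p + t * (3 ^ p * (b j * l' j ^ p))) := by
          refine ENNReal.tsum_le_tsum fun j => (hcj j).trans ?_
          calc b j * m j ^ p ≤ b j * (l j ^ p + t * (3 ^ p * l' j ^ p)) := by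
                gcongr; exact hmj j
            _ = _ := by ring
      _ = _ := by rw [ENNReal.tsum_add, ENNReal.tsum_mul_left, ENNReal.tsum_mul_left]; rfl
  have h2 : en b p l + t * (b i * l i ^ (p - 1)) ≤ en b p l + t * (3 ^ p * en b p l') :=
    le_trans (by gcongr; exact hmin c hcadm) h1
  exact (ENNReal.mul_le_mul_iff_right ht0 htt).1 ((ENNReal.add_le_add_iff_left hl).1 h2)

end Pool.Agent.H20Z.Fine
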