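import Mathlib
import Pool.Agent.H20Z.FineCurve
import Pool.Agent.H20Z.FineP

set_option autoImplicit false

open MeasureTheory Set Metric Filter Topology
open scoped ENNReal NNReal

namespace Pool.Agent.H20Z.Fine

/-- dyadic scales -/
noncomputable def ell (k : ℕ) : ℝ := (2⁻¹ : ℝ) ^ k

lemma ell_pos (k : ℕ) : 0 < ell k := by unfold ell; positivity

lemma ell_succ (k : ℕ) : ell (k + 1) = ell k / 2 := by unfold ell; ring

lemma ell_add (k c : ℕ) : ell (k + c) * 2 ^ c = ell k := by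
  unfold ell; rw [pow_add, mul_assoc, ← mul_pow]; simp

lemma ell_anti {k k' : ℕ} (h : k ≤ k') : ell k' ≤ ell k :=
  pow_le_pow_of_le_one (by norm_num) (by norm_num) h

lemma ell_lt_half {k k' : ℕ} (h : k < k') : ell k' ≤ ell k / 2 := by
  rw [← ell_succ]; exact ell_anti h

lemma ell_le_one (k : ℕ) : ell k ≤ 1 := by simpa [ell] using ell_anti (Nat.zero_le k)

lemma tendsto_ell : Tendsto ell atTop (𝓝 0) :=
  tendsto_pow_atTop_nhds_zero_of_lt_one (by norm_num) (by norm_num)

lemma exists_ell_le {r : ℝ} (hr : 0 < r) : ∃ j, ell j ≤ r :=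
  (tendsto_ell.eventually (ge_mem_nhds hr)).exists

lemma ofReal_ell (k : ℕ) : ENNReal.ofReal (ell k) = (2⁻¹ : ℝ≥0∞) ^ k := by
  unfold ell
  rw [ENNReal.ofReal_pow (by norm_num), ENNReal.ofReal_inv_of_pos (by norm_num)]; simp

lemma ofReal_ell_ne_zero (k : ℕ) : ENNReal.ofReal (ell k) ≠ 0 := by simpa using ell_pos k

lemma tsum_ite_le (f : ℕ → ℝ≥0∞) (j : ℕ) :
    ∑' k, (if j ≤ k then f k else 0) = ∑' n, f (n + j) := by
  rw [← (add_left_injective j).tsum_eq (f := fun k => if j ≤ k then f k else 0)]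
  · simp
  · intro k hk
    have : j ≤ k := by by_contra h; simp [h] at hk
    exact ⟨k - j, by simp; omega⟩

variable {X : Type*} [MetricSpace X]

/-- A sequence of maximal separated nets. -/
structure Net (X : Type*) [MetricSpace X] where
  /-- the net points of level `k` -/
  Z : ℕ → Set X
  sep : ∀ k, ∀ z ∈ Z k, ∀ z' ∈ Z k, z ≠ z' → ell k ≤ dist z z'
  cov : ∀ k x, ∃ z ∈ Z k, dist x z < ell k

lemma exists_net (X : Type*) [MetricSpace X] : Nonempty (Net X) := by
  have : ∀ k : ℕ, ∃ Z : Set X, (∀ z ∈ Z, ∀ z' ∈ Z, z ≠ z' → ell k ≤ dist z z') ∧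
      ∀ x, ∃ z ∈ Z, dist x z < ell k := by
    intro k
    obtain ⟨Z, hZ⟩ := zorn_subset {Z : Set X | ∀ z ∈ Z, ∀ z' ∈ Z, z ≠ z' → ell k ≤ dist z z'} (by
      intro c hc hchain
      refine ⟨⋃₀ c, ?_, fun s hs => subset_sUnion_of_mem hs⟩
      rintro z ⟨s, hs, hz⟩ z' ⟨s', hs', hz'⟩ hne
      rcases hchain.total hs hs' with h | h
      · exact hc hs' z (h hz) z' hz' hne
      · exact hc hs z hz z' (h hz') hne)
    refine ⟨Z, hZ.prop, fun x => ?_⟩
    by_contra h
    push Not at h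
    have h1 : insert x Z ∈ {Z : Set X | ∀ z ∈ Z, ∀ z' ∈ Z, z ≠ z' → ell k ≤ dist z z'} := by
      rintro z (rfl | hz) z' (rfl | hz') hne
      · exact absurd rfl hne
      · exact h z' hz'
      · rw [dist_comm]; exact h z hz
      · exact hZ.prop z hz z' hz' hne
    have h2 := hZ.le_of_ge h1 (subset_insert x Z) (mem_insert x Z)
    have := h x h2
    rw [dist_self] at this
    linarith [ell_pos k]
  choose Z h1 h2 using this
  exact ⟨⟨Z, h1, h2⟩⟩

/-- index set of the net balls -/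
def Net.I (N : Net X) : Type _ := Σ k : ℕ, N.Z k

/-- level of a net ball -/
def Net.lev (N : Net X) (i : N.I) : ℕ := i.1

/-- centre of a net ball -/
def Net.ctr (N : Net X) (i : N.I) : X := i.2.1

/-- dilated net ball -/
def Net.S (N : Net X) (D : ℝ) (i : N.I) : Set X := closedBall (N.ctr i) (D * ell (N.lev i))

/-- coefficients of levels at least `j` -/
noncomputable def Net.cut (N : Net X) (j : ℕ) (l : N.I → ℝ≥0∞) (i : N.I) : ℝ≥0∞ :=
  if j ≤ N.lev i then l i else 0

/-- the discrete gradient -/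
noncomputable def Net.rho (N : Net X) (D : ℝ) (l : N.I → ℝ≥0∞) (y : X) : ℝ≥0∞ :=
  ⨆ i, (N.S (D + 1) i).indicator (fun _ => l i / ENNReal.ofReal (ell (N.lev i))) y

lemma Net.exists_idx (N : Net X) (k : ℕ) (x : X) :
    ∃ i : N.I, N.lev i = k ∧ dist x (N.ctr i) < ell k := by
  obtain ⟨z, hz, h⟩ := N.cov k x
  exact ⟨⟨k, z, hz⟩, rfl, h⟩

lemma Net.cut_le (N : Net X) (j : ℕ) (l : N.I → ℝ≥0∞) (i : N.I) : N.cut j l i ≤ l i := by
  unfold Net.cut; split_ifs <;> simp

lemma Net.cut_anti (N : Net X) {j j' : ℕ} (h : j ≤ j') (l : N.I → ℝ≥0∞) (i : N.I) :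
    N.cut j' l i ≤ N.cut j l i := by
  unfold Net.cut; split_ifs with h1 h2 <;> simp; omega

lemma Net.rho_mono (N : Net X) (D : ℝ) {l l' : N.I → ℝ≥0∞} (h : ∀ i, l i ≤ l' i) (y : X) :
    N.rho D l y ≤ N.rho D l' y := by
  refine iSup_mono fun i => indicator_le_indicator ?_
  gcongr; exact h i

lemma Net.le_rho (N : Net X) (D : ℝ) (l : N.I → ℝ≥0∞) (i : N.I) {y : X}
    (hy : y ∈ N.S (D + 1) i) : l i ≤ ENNReal.ofReal (ell (N.lev i)) * N.rho D l y := by
  have : l i / ENNReal.ofReal (ell (N.lev i)) ≤ N.rho D l y := by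
    refine le_trans (le_of_eq ?_) (le_iSup _ i)
    rw [indicator_of_mem hy]
  rwa [ENNReal.div_le_iff (ofReal_ell_ne_zero _) ENNReal.ofReal_ne_top, mul_comm] at this

variable [MeasurableSpace X] {μ : Measure X}

lemma IsDoubling.dbl (hd : IsDoubling μ) (K : ℝ) : ∃ C : ℝ≥0∞, C ≠ ∞ ∧ C ≠ 0 ∧
    ∀ (y : X) (r : ℝ), 0 < r → ∀ S : Set X, (∀ z ∈ S, dist z y ≤ K * r) →
      μ S ≤ C * μ (ball y r) := by
  obtain ⟨C, hC⟩ := hd.doubling
  obtain ⟨n, hn⟩ := pow_unbounded_of_one_lt K (show (1 : ℝ) < 2 by norm_num)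
  have key : ∀ (m : ℕ) (y : X) (r : ℝ), 0 < r → μ (ball y (2 ^ m * r)) ≤ C ^ m * μ (ball y r) := by
    intro m y r hr
    induction m with
    | zero => simp
    | succ m ih =>
      have e : (2 : ℝ) ^ (m + 1) * r = 2 * (2 ^ m * r) := by ring
      rw [e]
      calc _ ≤ C * μ (ball y (2 ^ m * r)) := hC y _ (by positivity)
        _ ≤ C * (C ^ m * μ (ball y r)) := by gcongr
        _ = _ := by ring
  refine ⟨C ^ n + 1, by finiteness, by simp, fun y r hr S hS => ?_⟩
  calc μ S ≤ μ (ball y (2 ^ n * r)) := measure_mono fun z hz =>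
        (hS z hz).trans_lt (mul_lt_mul_of_pos_right hn hr)
    _ ≤ C ^ n * μ (ball y r) := key n y r hr
    _ ≤ _ := by gcongr; exact le_self_add

lemma IsDoubling.fin_closedBall (hd : IsDoubling μ) (x : X) (r : ℝ) : μ (closedBall x r) ≠ ∞ :=
  ((measure_mono (closedBall_subset_ball (lt_add_one r))).trans_lt (hd.fin x _)).ne

lemma IsDoubling.pos_closedBall (hd : IsDoubling μ) (x : X) {r : ℝ} (hr : 0 < r) :
    μ (closedBall x r) ≠ 0 :=
  ((hd.pos x r hr).trans_le (measure_mono ball_subset_closedBall)).ne'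

/-- weights of the net balls -/
noncomputable def Net.wt (N : Net X) (μ : Measure X) (p : ℝ) (i : N.I) : ℝ≥0∞ :=
  μ (N.S 1 i) / ENNReal.ofReal (ell (N.lev i)) ^ p

lemma Net.wt_ne_zero (N : Net X) (hd : IsDoubling μ) {p : ℝ} (hp : 0 ≤ p) (i : N.I) :
    N.wt μ p i ≠ 0 :=
  (ENNReal.div_pos (hd.pos_closedBall _ (by simpa using ell_pos _))
    (ENNReal.rpow_ne_top_of_nonneg hp ENNReal.ofReal_ne_top)).ne'

lemma Net.wt_ne_top (N : Net X) (hd : IsDoubling μ) (p : ℝ) (i : N.I) :
    N.wt μ p i ≠ ∞ :=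
  ENNReal.div_ne_top (hd.fin_closedBall _ _)
    (ENNReal.rpow_pos (pos_iff_ne_zero.2 (ofReal_ell_ne_zero _)) ENNReal.ofReal_ne_top).ne'

variable [BorelSpace X]

lemma Net.count (N : Net X) (hd : IsDoubling μ) (K : ℝ) : ∃ M : ℝ≥0∞, M ≠ ∞ ∧ ∀ (k : ℕ) (y : X),
    ∑' z : N.Z k, (closedBall (z : X) (K * ell k)).indicator (fun _ => (1 : ℝ≥0∞)) y ≤ M := by
  classical
  wlog hK : 0 ≤ K generalizing K
  · obtain ⟨M, h1, h2⟩ := this 0 le_rfl
    refine ⟨M, h1, fun k y => le_trans (ENNReal.tsum_le_tsum fun z => ?_) (h2 k y)⟩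
    refine indicator_le_indicator_of_subset (closedBall_subset_closedBall ?_) (by simp) y
    have := ell_pos k
    nlinarith
  obtain ⟨C, hC, -, hC'⟩ := hd.dbl (4 * K + 2)
  refine ⟨C, hC, fun k y => ?_⟩
  have hl := ell_pos k
  set B := closedBall y ((K + 1) * ell k)
  have hB0 : μ B ≠ 0 := hd.pos_closedBall _ (by positivity)
  have hBt : μ B ≠ ∞ := hd.fin_closedBall _ _
  let A : N.Z k → Set X := fun z => if y ∈ closedBall (z : X) (K * ell k) then ball z (ell k / 2)
    else ∅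
  have h1 := tsum_meas_le_meas_iUnion_of_disjoint μ (As := A)
    (fun z => by simp only [A]; split_ifs; exacts [measurableSet_ball, MeasurableSet.empty])
    (by
      intro z z' hne
      simp only [Function.onFun, A]
      split_ifs
      · refine ball_disjoint_ball ?_
        have := N.sep k z z.2 z' z'.2 fun h => hne (Subtype.ext h)
        linarith
      all_goals simp)
  have h2 : μ (⋃ z, A z) ≤ μ B := by
    refine measure_mono (iUnion_subset fun z => ?_)
    simp only [A]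
    split_ifs with h
    · intro w hw
      rw [mem_closedBall] at h ⊢
      rw [mem_ball] at hw
      have := dist_triangle_right w y z
      linarith
    · simp
  refine (ENNReal.mul_le_mul_iff_left hB0 hBt).1 ?_
  rw [← ENNReal.tsum_mul_right]
  refine le_trans (ENNReal.tsum_le_tsum fun z => ?_)
    ((ENNReal.tsum_mul_left (a := C) (f := fun z => μ (A z))).le.trans
      (by gcongr; exact h1.trans h2))
  simp only [A]
  split_ifs with h
  · rw [indicator_of_mem h, one_mul]
    refine hC' z _ (by positivity) B fun w hw => ?_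
    rw [mem_closedBall] at h hw
    have := dist_triangle w y z
    linarith
  · simp [h]

lemma Net.finite_level (N : Net X) (hd : IsDoubling μ) (K : ℝ) (k : ℕ) (y : X) :
    {z : N.Z k | y ∈ closedBall (z : X) (K * ell k)}.Finite := by
  obtain ⟨M, hM, h⟩ := N.count hd K
  refine (ENNReal.finite_const_le_of_tsum_ne_top (ne_top_of_le_ne_top hM (h k y))
    one_ne_zero).subset fun z hz => ?_
  simp only [mem_ofPred_eq] at hz ⊢
  rw [indicator_of_mem hz]

lemma Net.finite_near (N : Net X) (hd : IsDoubling μ) (K : ℝ) (j : ℕ) (y : X) :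
    {i : N.I | N.lev i < j ∧ y ∈ N.S K i}.Finite := by
  refine ((finite_lt_nat j).biUnion fun k _ =>
    (N.finite_level hd K k y).image (fun z => (⟨k, z⟩ : N.I))).subset ?_
  rintro ⟨k, z⟩ ⟨h1, h2⟩
  simp only [mem_iUnion]
  exact ⟨k, h1, z, h2, rfl⟩

lemma Net.countable (N : Net X) (hd : IsDoubling μ) : Countable N.I := by
  have : ∀ k, Countable (N.Z k) := by
    intro k
    rcases isEmpty_or_nonempty X with h | ⟨⟨y⟩⟩
    · infer_instance
    rw [← countable_univ_iff]
    refine (countable_iUnion fun n : ℕ => (N.finite_level hd n k y).countable).mono fun z _ => ?_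
    obtain ⟨n, hn⟩ := exists_nat_ge (dist y z / ell k)
    rw [div_le_iff₀ (ell_pos k)] at hn
    exact mem_iUnion.2 ⟨n, hn⟩
  unfold Net.I; infer_instance

lemma IsDoubling.secondCountable (hd : IsDoubling μ) : SecondCountableTopology X := by
  obtain ⟨N⟩ := exists_net X
  have := N.countable hd
  have : TopologicalSpace.SeparableSpace X := by
    refine ⟨range N.ctr, countable_range _, Metric.dense_iff.2 fun x r hr => ?_⟩
    obtain ⟨j, hj⟩ := exists_ell_le hr
    obtain ⟨i, -, hi⟩ := N.exists_idx j x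
    exact ⟨N.ctr i, by rw [mem_ball, dist_comm]; linarith, mem_range_self i⟩
  infer_instance

lemma Net.pot_le (N : Net X) (hd : IsDoubling μ) (D : ℝ) : ∃ M : ℝ≥0∞, M ≠ ∞ ∧
    ∀ (l : N.I → ℝ≥0∞) (y : X) (s : ℕ → ℝ≥0∞), (∀ i, y ∈ N.S D i → l i ≤ s (N.lev i)) →
      pot (N.S D) l y ≤ M * ∑' k, s k := by
  obtain ⟨M, hM, h⟩ := N.count hd D
  refine ⟨M, hM, fun l y s hs => ?_⟩
  unfold pot
  rw [← ENNReal.tsum_mul_left]
  refine (ENNReal.tsum_sigma' (β := fun k => N.Z k) _).le.trans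
    (ENNReal.tsum_le_tsum fun k => ?_)
  calc _ ≤ ∑' z : N.Z k,
        (closedBall (z : X) (D * ell k)).indicator (fun _ => (1 : ℝ≥0∞)) y * s k := by
        refine ENNReal.tsum_le_tsum fun z => ?_
        by_cases hy : y ∈ N.S D ⟨k, z⟩
        · rw [indicator_of_mem hy, indicator_of_mem (show y ∈ closedBall (z : X) (D * ell k)
            from hy), one_mul]
          exact hs _ hy
        · rw [indicator_of_notMem hy]; exact zero_le
    _ ≤ M * s k := by rw [ENNReal.tsum_mul_right]; gcongr; exact h k y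

lemma Net.measurable_rho (N : Net X) (hd : IsDoubling μ) (D : ℝ) (l : N.I → ℝ≥0∞) :
    Measurable (N.rho D l) := by
  have := N.countable hd
  exact Measurable.iSup fun i => measurable_const.indicator measurableSet_closedBall

lemma Net.measurable_pot (N : Net X) (hd : IsDoubling μ) (D : ℝ) (l : N.I → ℝ≥0∞) :
    Measurable (pot (N.S D) l) := by
  have := N.countable hd
  exact Measurable.tsum fun i => measurable_const.indicator measurableSet_closedBall

lemma Net.rho_int (N : Net X) (hd : IsDoubling μ) {p : ℝ} (hp : 0 < p) (D : ℝ) :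
    ∃ C : ℝ≥0∞, C ≠ ∞ ∧ ∀ l : N.I → ℝ≥0∞, ∫⁻ y, N.rho D l y ^ p ∂μ ≤ C * en (N.wt μ p) p l := by
  have := N.countable hd
  obtain ⟨C, hC, -, hC'⟩ := hd.dbl (D + 1)
  refine ⟨C, hC, fun l => ?_⟩
  refine (lintegral_iSup_rpow_le μ hp (fun i => (N.S (D + 1) i).indicator
    (fun _ => l i / ENNReal.ofReal (ell (N.lev i)))) fun i =>
    measurable_const.indicator measurableSet_closedBall).trans ?_
  unfold en
  rw [← ENNReal.tsum_mul_left]
  refine ENNReal.tsum_le_tsum fun i => ?_
  have e : (fun y => (N.S (D + 1) i).indicator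
      (fun _ => l i / ENNReal.ofReal (ell (N.lev i))) y ^ p) = (N.S (D + 1) i).indicator
      (fun _ => (l i / ENNReal.ofReal (ell (N.lev i))) ^ p) := by
    ext y; by_cases hy : y ∈ N.S (D + 1) i <;> simp [hy, hp]
  rw [e, lintegral_indicator_const (s := N.S (D + 1) i) measurableSet_closedBall, ENNReal.div_rpow_of_nonneg _ _ hp.le]
  have h1 : μ (N.S (D + 1) i) ≤ C * μ (N.S 1 i) :=
    (hC' (N.ctr i) _ (ell_pos _) _ fun z hz => hz).trans
      (by gcongr; simpa [Net.S] using ball_subset_closedBall)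
  calc _ ≤ l i ^ p / ENNReal.ofReal (ell (N.lev i)) ^ p * (C * μ (N.S 1 i)) := by gcongr
    _ = _ := by simp only [Net.wt, ENNReal.div_eq_inv_mul]; ring

lemma Net.pot_le_rho (N : Net X) (hd : IsDoubling μ) (D : ℝ) : ∃ M : ℝ≥0∞, M ≠ ∞ ∧
    ∀ (l : N.I → ℝ≥0∞) (j : ℕ) (y : X),
      pot (N.S D) (N.cut j l) y ≤ M * ENNReal.ofReal (ell j) * N.rho D l y := by
  obtain ⟨M, hM, h⟩ := N.pot_le hd D
  refine ⟨M * 2, by finiteness, fun l j y => ?_⟩
  refine (h _ y (fun k => if j ≤ k then ENNReal.ofReal (ell k) * N.rho D l y else 0)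
    fun i hi => ?_).trans (le_of_eq ?_)
  · unfold Net.cut
    split_ifs
    · refine N.le_rho D l i (closedBall_subset_closedBall ?_ hi)
      have := ell_pos (N.lev i); linarith
    · exact le_rfl
  · rw [tsum_ite_le (fun k => ENNReal.ofReal (ell k) * N.rho D l y), ENNReal.tsum_mul_right]
    simp only [ofReal_ell, pow_add, ENNReal.tsum_mul_right, ENNReal.tsum_geometric]
    norm_num; ring

lemma Net.pot_le_lint (N : Net X) (hd : IsDoubling μ) (D : ℝ) : ∃ M : ℝ≥0∞, M ≠ ∞ ∧
    ∀ (l : N.I → ℝ≥0∞) (j : ℕ) (γ : Curve X), ell j ≤ (γ.b - γ.a) / 2 → ∀ t ∈ Icc γ.a γ.b,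
      pot (N.S D) (N.cut j l) (γ.toFun t) ≤ M * γ.lint (N.rho D (N.cut j l)) := by
  obtain ⟨M, hM, h⟩ := N.pot_le hd D
  refine ⟨M * 2, by finiteness, fun l j γ hj t ht => ?_⟩
  let T : ℕ → Set ℝ := fun k => Icc γ.a γ.b ∩ {τ | ell k / 2 < |τ - t| ∧ |τ - t| ≤ ell k}
  have hT : ∀ k, MeasurableSet (T k) := fun k => measurableSet_Icc.inter
    ((measurableSet_lt (f := fun _ => ell k / 2) (g := fun τ => |τ - t|) measurable_const
      (by fun_prop)).inter
      (measurableSet_le (f := fun τ => |τ - t|) (g := fun _ => ell k) (by fun_prop)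
        measurable_const))
  refine (h _ _ (fun k => 2 * ∫⁻ τ in T k, N.rho D (N.cut j l) (γ.toFun τ))
    fun i hi => ?_).trans ?_
  · by_cases hji : j ≤ N.lev i
    swap
    · simp [Net.cut, hji]
    have hl := ell_pos (N.lev i)
    have hl' := (ell_anti hji).trans hj
    have h1 : ENNReal.ofReal (ell (N.lev i) / 2) ≤ volume (T (N.lev i)) := by
      rcases le_total t ((γ.a + γ.b) / 2) with h2 | h2
      · refine le_trans (le_of_eq ?_) (measure_mono
          (show Ioc (t + ell (N.lev i) / 2) (t + ell (N.lev i)) ⊆ _ from fun τ hτ => ?_))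
        · rw [Real.volume_Ioc]; congr 1; ring
        · have := hτ.1; have := hτ.2; have := ht.1
          refine ⟨⟨by linarith, by linarith⟩, ?_⟩
          simp only [mem_ofPred_eq]
          rw [abs_of_pos (by linarith)]; constructor <;> linarith
      · refine le_trans (le_of_eq ?_) (measure_mono
          (show Ico (t - ell (N.lev i)) (t - ell (N.lev i) / 2) ⊆ _ from fun τ hτ => ?_))
        · rw [Real.volume_Ico]; congr 1; ring
        · have := hτ.1; have := hτ.2; have := ht.2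
          refine ⟨⟨by linarith, by linarith⟩, ?_⟩
          simp only [mem_ofPred_eq]
          rw [abs_of_neg (by linarith)]; constructor <;> linarith
    have h2 : N.cut j l i / ENNReal.ofReal (ell (N.lev i)) * volume (T (N.lev i))
        ≤ ∫⁻ τ in T (N.lev i), N.rho D (N.cut j l) (γ.toFun τ) := by
      rw [← setLIntegral_const]
      refine setLIntegral_mono' (hT _) fun τ hτ => ?_
      rw [ENNReal.div_le_iff (ofReal_ell_ne_zero _) ENNReal.ofReal_ne_top, mul_comm]
      refine N.le_rho D _ i ?_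
      have h3 := γ.lip hτ.1 ht
      have h4 := hτ.2.2
      have h5 : dist (γ.toFun t) (N.ctr i) ≤ D * ell (N.lev i) := hi
      have := dist_triangle (γ.toFun τ) (γ.toFun t) (N.ctr i)
      show dist _ _ ≤ _
      linarith
    calc N.cut j l i = 2 * (N.cut j l i / ENNReal.ofReal (ell (N.lev i))
          * ENNReal.ofReal (ell (N.lev i) / 2)) := by
          rw [ENNReal.ofReal_div_of_pos (by norm_num), ENNReal.ofReal_ofNat, ← mul_div_assoc,
            ENNReal.div_mul_cancel (ofReal_ell_ne_zero _) ENNReal.ofReal_ne_top,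
            ENNReal.mul_div_cancel (by norm_num) (by norm_num)]
      _ ≤ _ := by gcongr; exact le_trans (by gcongr) h2
  · rw [ENNReal.tsum_mul_left, ← lintegral_iUnion hT, mul_assoc]
    · gcongr
      exact lintegral_mono_set (iUnion_subset fun k => inter_subset_left)
    · rw [pairwise_disjoint_on]
      intro k k' hk
      rw [Set.disjoint_left]
      intro τ h1 h2
      have := ell_lt_half hk
      linarith [h1.2.1, h2.2.2]

omit [MeasurableSpace X] [BorelSpace X] in
lemma Net.pot_split (N : Net X) (D : ℝ) (l : N.I → ℝ≥0∞) (j : ℕ) (y : X) :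
    pot (N.S D) l y = pot (N.S D) (fun i => if N.lev i < j then l i else 0) y
      + pot (N.S D) (N.cut j l) y := by
  rw [← pot_add]
  congr 1; ext i
  unfold Net.cut
  by_cases h : N.lev i < j
  · simp [h, not_le.2 h]
  · simp [h, not_lt.1 h]

variable {p : ℝ} [hp : Fact (1 < p)]

lemma Net.pot_qe_ne_top (N : Net X) (hd : IsDoubling μ) (D : ℝ) (l : N.I → ℝ≥0∞)
    (hl : en (N.wt μ p) p l ≠ ∞) : ∀ᶠ y in qe μ p, pot (N.S D) l y ≠ ∞ := by
  classical
  have hp0 : 0 < p := by linarith [hp.out]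
  obtain ⟨C, hC, h1⟩ := N.rho_int hd hp0 D
  have h2 : ∫⁻ y, N.rho D l y ^ p ∂μ ≠ ∞ := ne_top_of_le_ne_top (by finiteness) (h1 l)
  rw [eventually_qe]
  constructor
  · obtain ⟨M, hM, h3⟩ := N.pot_le_rho hd D
    filter_upwards [ae_lt_top ((N.measurable_rho hd D l).pow_const p) h2] with y hy
    have h4 := h3 l 0 y
    have e : N.cut 0 l = l := by ext i; simp [Net.cut]
    rw [e] at h4
    have h5 : N.rho D l y ≠ ∞ := fun h => by
      rw [h, ENNReal.top_rpow_of_pos hp0] at hy; exact lt_irrefl _ hy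
    exact ne_top_of_le_ne_top (by finiteness) h4
  · obtain ⟨M, hM, h3⟩ := N.pot_le_lint hd D
    filter_upwards [ae_lint_ne_top (N.measurable_rho hd D l) h2] with γ hγ t ht
    obtain ⟨j, hj⟩ := exists_ell_le (r := (γ.b - γ.a) / 2) (by linarith [γ.lt])
    rw [N.pot_split D l j]
    refine ENNReal.add_ne_top.2 ⟨?_, ne_top_of_le_ne_top ?_ (h3 l j γ hj t ht)⟩
    · unfold pot
      rw [tsum_eq_sum (s := (N.finite_near hd D j (γ.toFun t)).toFinset)]
      · refine (ENNReal.sum_lt_top.2 fun i _ => ?_).ne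
        refine lt_of_le_of_lt (indicator_le_self' (by simp) _) ?_
        beta_reduce
        split_ifs
        · exact (ne_top_of_en hp0 (N.wt_ne_zero hd hp0.le) hl i).lt_top
        · simp
      · intro i hi
        simp only [Finite.mem_toFinset, mem_ofPred_eq, not_and] at hi
        by_cases h : N.lev i < j
        · exact indicator_of_notMem (hi h) _
        · simp [h]
    · exact ENNReal.mul_ne_top hM (ne_top_of_le_ne_top hγ
        (γ.lint_mono (N.rho_mono D (N.cut_le j l))))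

lemma Net.pot_usc (N : Net X) (hd : IsDoubling μ) (D : ℝ) (l : N.I → ℝ≥0∞)
    (hl : en (N.wt μ p) p l ≠ ∞) : ∀ᶠ γ in aeC μ p,
      UpperSemicontinuousOn (fun t => pot (N.S D) l (γ.toFun t)) (Icc γ.a γ.b) := by
  have hp0 : 0 < p := by linarith [hp.out]
  obtain ⟨C, hC, h1⟩ := N.rho_int hd hp0 D
  obtain ⟨M, hM, h3⟩ := N.pot_le_lint hd D
  have hF := fuglede (μ := μ) (p := p) (fun j => N.rho D (N.cut j l))
    (fun j => N.measurable_rho hd D _) (by
      intro ε hε
      let E : ℕ → ℝ≥0∞ := fun k => ∑' z : N.Z k, N.wt μ p ⟨k, z⟩ * l ⟨k, z⟩ ^ p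
      have e1 : ∑' k, E k ≠ ∞ := by
        rw [← ENNReal.tsum_sigma' (β := fun k => N.Z k) (fun i => N.wt μ p i * l i ^ p)]
        exact hl
      have e2 : ∀ j, en (N.wt μ p) p (N.cut j l) = ∑' n, E (n + j) := by
        intro j
        rw [← tsum_ite_le]
        refine (ENNReal.tsum_sigma' (β := fun k => N.Z k) _).trans (tsum_congr fun k => ?_)
        by_cases h : j ≤ k <;> simp [Net.cut, Net.lev, h, E, hp0]
      have t1 := ENNReal.Tendsto.const_mul (a := C) (ENNReal.tendsto_sum_nat_add E e1) (Or.inr hC)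
      rw [mul_zero] at t1
      obtain ⟨j, hj⟩ := (t1.eventually (ge_mem_nhds (pos_iff_ne_zero.2 hε))).exists
      exact ⟨j, (h1 _).trans (by rw [e2]; exact hj)⟩)
  filter_upwards [hF] with γ hγ t ht c hc
  obtain ⟨ε, hε0, hε⟩ := ENNReal.lt_iff_exists_add_pos_lt.1 hc
  obtain ⟨j0, hj0⟩ := exists_ell_le (r := (γ.b - γ.a) / 2) (by linarith [γ.lt])
  obtain ⟨j1, hj1⟩ := hγ (ε / (M + 1)) (ENNReal.div_pos (by simpa using hε0.ne') (by finiteness)).ne'
  set j := max j0 j1
  have htail : ∀ τ ∈ Icc γ.a γ.b, pot (N.S D) (N.cut j l) (γ.toFun τ) ≤ ε := by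
    intro τ hτ
    refine (h3 l j γ ((ell_anti (le_max_left _ _)).trans hj0) τ hτ).trans ?_
    calc _ ≤ (M + 1) * (ε / (M + 1)) := by
          gcongr
          · exact le_self_add
          · exact (γ.lint_mono (N.rho_mono D (N.cut_anti (le_max_right _ _) l))).trans hj1
      _ = ε := ENNReal.mul_div_cancel (by simp) (by finiteness)
  have hloc : ∀ᶠ y in 𝓝 (γ.toFun t), ∀ i, N.lev i < j → y ∈ N.S D i → γ.toFun t ∈ N.S D i := by
    have a1 : ∀ᶠ y in 𝓝 (γ.toFun t), ∀ i ∈ {i : N.I | N.lev i < j ∧ γ.toFun t ∈ N.S (D + 1) i},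
        y ∈ N.S D i → γ.toFun t ∈ N.S D i := by
      refine (N.finite_near hd (D + 1) j _).eventually_all.2 fun i _ => ?_
      by_cases h : γ.toFun t ∈ N.S D i
      · exact Eventually.of_forall fun _ _ => h
      · filter_upwards [isClosed_closedBall.isOpen_compl.mem_nhds h] with y hy hy'
        exact absurd hy' hy
    filter_upwards [a1, ball_mem_nhds _ (ell_pos j)] with y h1 h2 i hi hy
    refine h1 i ⟨hi, ?_⟩ hy
    have h4 : dist y (N.ctr i) ≤ D * ell (N.lev i) := hy
    have := dist_triangle_left (γ.toFun t) (N.ctr i) y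
    have := ell_anti hi.le
    rw [mem_ball] at h2
    show dist _ _ ≤ _
    linarith
  filter_upwards [(γ.cont t ht).eventually hloc, self_mem_nhdsWithin] with τ h4 hτ
  refine lt_of_le_of_lt ?_ hε
  rw [N.pot_split D l j]
  gcongr
  · refine ENNReal.tsum_le_tsum fun i => ?_
    by_cases h : N.lev i < j
    · by_cases hy : γ.toFun τ ∈ N.S D i
      · simp [h, hy, h4 i h hy]
      · simp [hy]
    · simp [h]
  · exact htail τ hτ

end Pool.Agent.H20Z.Fine
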