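import Mathlib
import Pool.Agent.H20Z.FineNet

set_option autoImplicit false

open MeasureTheory Set Metric Filter Topology
open scoped ENNReal NNReal

namespace Pool.Agent.H20Z.Fine

variable {X : Type*} [MetricSpace X] [MeasurableSpace X] {μ : Measure X} {p : ℝ}
  [hp : Fact (1 < p)]

/-- A function with a weak upper gradient, constant outside a ball. -/
structure Good (μ : Measure X) (p : ℝ) [Fact (1 < p)] (u : X → ℝ) (g : X → ℝ≥0∞) : Prop where
  aem : AEMeasurable u μ
  mg : Measurable g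
  ok : ∀ᶠ γ in aeC μ p, γ.UG u g ∧ γ.lint g ≠ ∞
  cst : ∃ (x : X) (R c : ℝ), ∀ y ∉ ball x R, u y = c

/-- The Poincare inequality with given constants. -/
def PIc (μ : Measure X) (p C lam : ℝ) : Prop :=
  ∀ (x : X) (r : ℝ), 0 < r →
    ∀ (f : X → ℝ) (g : X → ℝ≥0∞), Integrable f μ → IsUpperGradient f g →
      ENNReal.ofReal (⨍ y in ball x r, |f y - ⨍ z in ball x r, f z ∂μ| ∂μ)
        ≤ ENNReal.ofReal (C * r) * (⨍⁻ y in ball x (lam * r), g y ^ p ∂μ) ^ (1 / p)

variable {C lam : ℝ}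

lemma weakPI (hd : IsDoubling μ) (hPI : PIc μ p C lam) (hlam : 1 ≤ lam) {f : X → ℝ}
    {g : X → ℝ≥0∞} (hf : Integrable f μ) (hg : Measurable g) (h : ∀ᶠ γ in aeC μ p, γ.UG f g)
    (x : X) {r : ℝ} (hr : 0 < r) :
    ENNReal.ofReal (⨍ y in ball x r, |f y - ⨍ z in ball x r, f z ∂μ| ∂μ) ^ p
        * μ (ball x (lam * r))
      ≤ ENNReal.ofReal (C * r) ^ p * ∫⁻ y in ball x (lam * r), g y ^ p ∂μ := by
  have hp0 : 0 < p := by linarith [hp.out]
  obtain ⟨ρ, h1, h2, h3⟩ := eventually_aeC.1 h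
  refine ENNReal.le_of_forall_pos_le_add fun ε hε _ => ?_
  obtain ⟨c, hc0, hct, hc⟩ := exists_small_const hp0
    (A := ENNReal.ofReal (C * r) ^ p * ∫⁻ x, ρ x ^ p ∂μ) (ε := ε)
    (ENNReal.mul_ne_top (ENNReal.rpow_ne_top_of_nonneg hp0.le ENNReal.ofReal_ne_top) h2)
    (by simpa using hε.ne')
  have hug : IsUpperGradient f (fun y => max (g y) (c * ρ y)) := by
    refine ⟨hg.max (h1.const_mul c), fun γ => ?_⟩
    by_cases hγ : γ.lint ρ = ∞
    · refine le_trans ?_ (γ.lint_mono fun y => le_max_right _ _)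
      rw [γ.lint_const_mul hct, hγ, ENNReal.mul_top hc0]; exact le_top
    · exact ((h3 γ hγ).mono fun y => le_max_left _ _).ineq
  have h4 := ENNReal.rpow_le_rpow (hPI x r hr f _ hf hug) hp0.le
  rw [ENNReal.mul_rpow_of_nonneg _ _ hp0.le, ← ENNReal.rpow_mul, one_div_mul_cancel hp0.ne',
    ENNReal.rpow_one, setLAverage_eq] at h4
  have hB0 : μ (ball x (lam * r)) ≠ 0 := (hd.pos x _ (by positivity)).ne'
  have hBt : μ (ball x (lam * r)) ≠ ∞ := (hd.fin x _).ne
  calc _ ≤ ENNReal.ofReal (C * r) ^ p * ((∫⁻ y in ball x (lam * r), max (g y) (c * ρ y) ^ p ∂μ)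
        / μ (ball x (lam * r))) * μ (ball x (lam * r)) := by gcongr
    _ = ENNReal.ofReal (C * r) ^ p * ∫⁻ y in ball x (lam * r), max (g y) (c * ρ y) ^ p ∂μ := by
        rw [mul_assoc, ENNReal.div_mul_cancel hB0 hBt]
    _ ≤ ENNReal.ofReal (C * r) ^ p * (∫⁻ y in ball x (lam * r), g y ^ p ∂μ
          + c ^ p * ∫⁻ y, ρ y ^ p ∂μ) := by
        gcongr
        calc _ ≤ ∫⁻ y in ball x (lam * r), (g y ^ p + c ^ p * ρ y ^ p) ∂μ := by
              refine lintegral_mono fun y => ?_
              rcases le_total (g y) (c * ρ y) with h | h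
              · rw [max_eq_right h, ENNReal.mul_rpow_of_nonneg _ _ hp0.le]; exact le_add_self
              · rw [max_eq_left h]; exact le_self_add
          _ ≤ _ := by
              rw [lintegral_add_left (hg.pow_const p), lintegral_const_mul _ (h1.pow_const p)]
              gcongr
              exact Measure.restrict_le_self
    _ ≤ _ := by
        rw [mul_add]
        gcongr
        calc _ = c ^ p * (ENNReal.ofReal (C * r) ^ p * ∫⁻ x, ρ x ^ p ∂μ) := by ring
          _ ≤ _ := hc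

variable [BorelSpace X]

omit hp [BorelSpace X] [MetricSpace X] in
lemma exists_meas_superset {P : X → Prop} {S : Set X} (hS : MeasurableSet S)
    (h : ∀ᵐ x ∂μ, P x → x ∈ S) :
    ∃ S', MeasurableSet S' ∧ (∀ x, P x → x ∈ S') ∧ S' =ᵐ[μ] S := by
  refine ⟨S ∪ toMeasurable μ {x | ¬ (P x → x ∈ S)}, hS.union (measurableSet_toMeasurable _ _),
    fun x hx => ?_, ?_⟩
  · by_cases h' : x ∈ S
    · exact Or.inl h'
    · exact Or.inr (subset_toMeasurable _ _ fun h => h' (h hx))
  · refine union_ae_eq_left_of_ae_eq_empty (ae_eq_empty.2 ?_)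
    rw [measure_toMeasurable]; exact h

omit [BorelSpace X] in
lemma Good.trunc {u : X → ℝ} {g : X → ℝ≥0∞} (h : Good μ p u g) {α β : ℝ} {S : Set X}
    (hS : MeasurableSet S) (hS' : ∀ x, α < u x → u x < β → x ∈ S) :
    Good μ p (fun x => trunc α β (u x)) (S.indicator g) where
  aem := aemeasurable_const.max (aemeasurable_const.min h.aem)
  mg := h.mg.indicator hS
  ok := by
    filter_upwards [h.ok] with γ hγ
    exact ⟨hγ.1.trunc hγ.2 hS', ne_top_of_le_ne_top hγ.2
      (γ.lint_mono fun x => indicator_le_self _ _ x)⟩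
  cst := by
    obtain ⟨x, R, c, hc⟩ := h.cst
    exact ⟨x, R, Fine.trunc α β c, fun y hy => by rw [hc y hy]⟩

/-- two-set Poincare inequality with truncation -/
lemma lemmaT (hd : IsDoubling μ) (hPI : PIc μ p C lam) (hC : 0 < C) (hlam : 1 ≤ lam)
    {u : X → ℝ} {g : X → ℝ≥0∞} (h : Good μ p u g) {α β : ℝ} (hαβ : α < β) {S : Set X}
    (hS : MeasurableSet S) (hS' : ∀ᵐ x ∂μ, α < u x ∧ u x < β → x ∈ S) (z : X) {r : ℝ}
    (hr : 0 < r) {τ : ℝ≥0∞} (h0 : τ * μ (ball z r) ≤ μ (ball z r ∩ {x | u x ≤ α}))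
    (h1 : τ * μ (ball z r) ≤ μ (ball z r ∩ {x | β ≤ u x})) :
    (ENNReal.ofReal (β - α) * τ) ^ p * μ (ball z r)
      ≤ ENNReal.ofReal (2 * C * r) ^ p * ∫⁻ y in ball z (lam * r) ∩ S, g y ^ p ∂μ := by
  have hp0 : 0 < p := by linarith [hp.out]
  obtain ⟨S', hm, hsub, hae⟩ := exists_meas_superset hS hS'
  have hT := h.trunc (α := α) (β := β) hm fun x a b => hsub x ⟨a, b⟩
  obtain ⟨x0, R, c0, hc0⟩ := hT.cst
  set f : X → ℝ := fun x => 1 * trunc α β (u x) + (-c0) with hf
  have hfm : AEMeasurable f μ := (hT.aem.const_mul 1).add_const _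
  have hfi : Integrable f μ := by
    rw [← integrableOn_iff_integrable_of_support_subset (s := ball x0 R) (by
      intro y hy
      by_contra hh
      apply hy
      simp only [hf, hc0 y hh]; ring)]
    refine Measure.integrableOn_of_bounded (M := |α| + |β| + |c0|) (hd.fin _ _).ne
      hfm.aestronglyMeasurable (Eventually.of_forall fun y => ?_)
    simp only [hf, trunc, Real.norm_eq_abs, max_def, min_def]
    have := le_abs_self α; have := neg_abs_le α; have := le_abs_self β; have := neg_abs_le β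
    have := le_abs_self c0; have := neg_abs_le c0
    rw [abs_le]
    split_ifs <;> constructor <;> linarith
  have hW := weakPI hd hPI hlam hfi hT.mg (by
    filter_upwards [hT.ok] with γ hγ
    exact (hγ.1.affine 1 (-c0)).mono fun x => by simp) z hr
  set c := ⨍ y in ball z r, f y ∂μ
  have hB0 : μ (ball z r) ≠ 0 := (hd.pos z _ hr).ne'
  have hBt : μ (ball z r) ≠ ∞ := (hd.fin z _).ne
  have hint : IntegrableOn (fun y => |f y - c|) (ball z r) μ :=
    (hfi.integrableOn.sub (integrableOn_const hBt)).abs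
  have hosc : ENNReal.ofReal ((β - α) / 2) * τ
      ≤ ENNReal.ofReal (⨍ y in ball z r, |f y - c| ∂μ) := by
    rw [ofReal_setAverage hint (Eventually.of_forall fun y => abs_nonneg _),
      ENNReal.le_div_iff_mul_le (Or.inl hB0) (Or.inl hBt)]
    refine le_trans ?_ (mul_meas_ge_le_lintegral₀ (μ := μ.restrict (ball z r))
      (hint.aemeasurable.ennreal_ofReal) (ENNReal.ofReal ((β - α) / 2)))
    rw [mul_assoc, Measure.restrict_apply' measurableSet_ball]
    gcongr
    rcases le_total c ((α + β) / 2 - c0) with hc | hc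
    · refine h1.trans (measure_mono fun y hy => ⟨?_, hy.1⟩)
      refine ENNReal.ofReal_le_ofReal (le_trans ?_ (le_abs_self _))
      have : β ≤ u y := hy.2
      simp only [hf, trunc, min_eq_left this, max_eq_right hαβ.le]
      linarith
    · refine h0.trans (measure_mono fun y hy => ⟨?_, hy.1⟩)
      refine ENNReal.ofReal_le_ofReal (le_trans ?_ (neg_le_abs _))
      have : u y ≤ α := hy.2
      simp only [hf, trunc, min_eq_right (this.trans hαβ.le), max_eq_left this]
      linarith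
  have e1 : ∫⁻ y in ball z (lam * r), S'.indicator g y ^ p ∂μ
      = ∫⁻ y in ball z (lam * r) ∩ S, g y ^ p ∂μ := by
    have : (fun y => S'.indicator g y ^ p) = S'.indicator fun y => g y ^ p := by
      ext y; by_cases hy : y ∈ S' <;> simp [hy, hp0]
    rw [this, lintegral_indicator hm, Measure.restrict_restrict hm, inter_comm]
    exact setLIntegral_congr ((ae_eq_refl _).inter hae)
  rw [e1] at hW
  have e2 : ENNReal.ofReal (β - α) = 2 * ENNReal.ofReal ((β - α) / 2) := by
    rw [ENNReal.ofReal_div_of_pos (by norm_num), ENNReal.ofReal_ofNat,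
      ENNReal.mul_div_cancel (by norm_num) (by norm_num)]
  have e3 : ENNReal.ofReal (2 * C * r) = 2 * ENNReal.ofReal (C * r) := by
    rw [mul_assoc, ENNReal.ofReal_mul (by norm_num), ENNReal.ofReal_ofNat]
  rw [e2, e3, mul_assoc 2, ENNReal.mul_rpow_of_nonneg _ _ hp0.le,
    ENNReal.mul_rpow_of_nonneg 2 _ hp0.le, mul_assoc, mul_assoc]
  refine mul_le_mul_right ?_ _
  refine le_trans ?_ hW
  gcongr
  nlinarith

lemma exists_annulus (hd : IsDoubling μ) (hPI : PIc μ p C lam) (hC : 0 < C) (hlam : 1 ≤ lam)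
    (x1 x2 y : X) {s s' : ℝ} (hs : 0 < s) (hss : s < s') (hs' : s' ≤ dist x1 x2 / 2) :
    ∃ z, s ≤ dist z y ∧ dist z y ≤ s' := by
  have hp0 : 0 < p := by linarith [hp.out]
  by_contra hne
  push Not at hne
  obtain ⟨w, hw⟩ : ∃ w, s' ≤ dist w y := by
    by_contra hh
    push Not at hh
    have := dist_triangle_right x1 x2 y
    linarith [hh x1, hh x2]
  have hw' := hne w (by linarith)
  have hG : Good μ p ((ball y s).indicator fun _ => 1) 0 := by
    refine ⟨(measurable_const.indicator measurableSet_ball).aemeasurable, measurable_zero,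
      Eventually.of_forall fun γ => ⟨?_, by simp [Curve.lint]⟩, y, s, 0,
      fun v hv => indicator_of_notMem hv _⟩
    intro a b ha hab hb
    have hc : ContinuousOn (fun t => dist (γ.toFun t) y) (Icc a b) :=
      (continuous_id.dist continuous_const).comp_continuousOn
        (γ.cont.mono (Icc_subset_Icc ha hb))
    by_cases h1 : γ.toFun a ∈ ball y s <;> by_cases h2 : γ.toFun b ∈ ball y s
    · simp [h1, h2]
    · exfalso
      rw [mem_ball] at h1 h2
      obtain ⟨t, -, ht⟩ := intermediate_value_Icc hab hc ⟨h1.le, not_lt.1 h2⟩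
      have := hne (γ.toFun t) ht.ge
      simp only at ht
      linarith
    · exfalso
      rw [mem_ball] at h1 h2
      obtain ⟨t, -, ht⟩ := intermediate_value_Icc' hab hc ⟨h2.le, not_lt.1 h1⟩
      have := hne (γ.toFun t) ht.ge
      simp only at ht
      linarith
    · simp [h1, h2]
  have hR : 0 < dist w y + s' := by linarith
  have hB0 : μ (ball y (dist w y + s')) ≠ 0 := (hd.pos y _ hR).ne'
  have hBt : μ (ball y (dist w y + s')) ≠ ∞ := (hd.fin y _).ne
  set τ := min (μ (ball y s)) (μ (ball w (s' - s))) / μ (ball y (dist w y + s'))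
  have hτ : τ ≠ 0 := (ENNReal.div_pos
    (lt_min (hd.pos _ _ hs) (hd.pos _ _ (by linarith))).ne' hBt).ne'
  have hT := lemmaT hd hPI hC hlam hG (α := 0) (β := 1) one_pos MeasurableSet.univ
    (by simp) y hR (τ := τ)
    (by
      rw [ENNReal.div_mul_cancel hB0 hBt]
      refine (min_le_right _ _).trans (measure_mono fun v hv => ?_)
      rw [mem_ball] at hv
      have h1 := dist_triangle v w y
      have h2 := dist_triangle_left w y v
      refine ⟨by rw [mem_ball]; linarith, ?_⟩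
      have : v ∉ ball y s := by rw [mem_ball]; linarith
      simp [this])
    (by
      rw [ENNReal.div_mul_cancel hB0 hBt]
      refine (min_le_left _ _).trans (measure_mono fun v hv => ?_)
      exact ⟨ball_subset_ball (by linarith) hv, by simp [hv]⟩)
  simp [hp0, hτ, hB0, not_lt.2 hp0.le] at hT

lemma exists_theta (hd : IsDoubling μ) (hPI : PIc μ p C lam) (hC : 0 < C) (hlam : 1 ≤ lam)
    (x1 x2 : X) : ∃ θ : ℝ≥0∞, θ ≠ 0 ∧ θ ≤ 2⁻¹ ∧ ∀ (z : X) (l : ℝ), 0 < l → l ≤ dist x1 x2 / 2 →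
      ∀ (x : X) (ρ : ℝ), ρ ≤ l / 8 → θ * μ (closedBall z l) ≤ μ (closedBall z l \ ball x ρ) := by
  obtain ⟨K, hK, hK0, h⟩ := hd.dbl 16
  refine ⟨min K⁻¹ 2⁻¹, (lt_min (ENNReal.inv_pos.2 hK) (by simp)).ne', min_le_right _ _,
    fun z l hl hl' x ρ hρ => ?_⟩
  have key : ∀ w, dist w z ≤ 3 * l / 4 → Disjoint (ball w (l / 8)) (ball x ρ) →
      min K⁻¹ 2⁻¹ * μ (closedBall z l) ≤ μ (closedBall z l \ ball x ρ) := by
    intro w hw hdis
    calc _ ≤ K⁻¹ * (K * μ (ball w (l / 8))) := by
          gcongr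
          · exact min_le_left _ _
          · refine h w _ (by positivity) _ fun v hv => ?_
            have := dist_triangle_right v w z
            rw [mem_closedBall] at hv
            linarith
      _ = μ (ball w (l / 8)) := by rw [← mul_assoc, ENNReal.inv_mul_cancel hK0 hK, one_mul]
      _ ≤ _ := by
          refine measure_mono fun v hv => ⟨?_, Set.disjoint_left.1 hdis hv⟩
          have := dist_triangle v w z
          rw [mem_ball] at hv
          rw [mem_closedBall]; linarith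
  obtain ⟨w, hw1, hw2⟩ := exists_annulus hd hPI hC hlam x1 x2 z (s := l / 2) (s' := 3 * l / 4)
    (by positivity) (by linarith) (by linarith)
  rcases le_total (l / 4) (dist z x) with h1 | h1
  · exact key z (by simp; positivity) (ball_disjoint_ball (by linarith))
  · refine key w hw2 (ball_disjoint_ball ?_)
    have := dist_triangle_right w z x
    linarith

/-- the quantile of `u` on a net ball -/
noncomputable def Net.quant (N : Net X) (μ : Measure X) (θ : ℝ≥0∞) (u : X → ℝ) (i : N.I) : ℝ≥0∞ :=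
  ⨆ (t : ℝ) (_ : μ (N.S 1 i ∩ {x | u x ≤ t}) < θ * μ (N.S 1 i)), ENNReal.ofReal t

/-- the largest quantile on coarser nearby net balls -/
noncomputable def Net.anc (N : Net X) (μ : Measure X) (θ : ℝ≥0∞) (u : X → ℝ) (c : ℝ) (j0 : ℕ)
    (i : N.I) : ℝ≥0∞ :=
  ⨆ (i' : N.I) (_ : j0 ≤ N.lev i' ∧ N.lev i' < N.lev i ∧
    dist (N.ctr i') (N.ctr i) ≤ c * ell (N.lev i') + c * ell (N.lev i)), N.quant μ θ u i'

omit hp [BorelSpace X] in
lemma Net.quant_le (N : Net X) {θ : ℝ≥0∞} {u : X → ℝ} {i : N.I} {s : ℝ}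
    (h : θ * μ (N.S 1 i) ≤ μ (N.S 1 i ∩ {x | u x ≤ s})) : N.quant μ θ u i ≤ ENNReal.ofReal s := by
  refine iSup₂_le fun t ht => ENNReal.ofReal_le_ofReal ?_
  by_contra hh
  refine absurd ht (not_lt.2 (h.trans (measure_mono fun x hx => ⟨hx.1, ?_⟩)))
  exact le_trans hx.2 (not_le.1 hh).le

lemma Net.quant_energy (N : Net X) (hd : IsDoubling μ) (hPI : PIc μ p C lam) (hC : 0 < C)
    (hlam : 1 ≤ lam) {θ : ℝ≥0∞} (hθ0 : θ ≠ 0) (hθ : θ ≤ 2⁻¹) :
    ∃ K : ℝ≥0∞, K ≠ ∞ ∧ ∀ (u : X → ℝ) (g : X → ℝ≥0∞) (h : Good μ p u g), (∀ x, u x ≤ 1) →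
      ∀ (j0 : ℕ) (i : N.I), j0 < N.lev i →
        N.wt μ p i * (N.quant μ θ u i - N.anc μ θ u (5 * lam) j0 i) ^ p ≤
          K * ∫⁻ y in ball (N.ctr i) (5 * lam * ell (N.lev i)) ∩
            {y | N.anc μ θ u (5 * lam) j0 i < ENNReal.ofReal (h.aem.mk u y) ∧
              ENNReal.ofReal (h.aem.mk u y) < N.quant μ θ u i}, g y ^ p ∂μ := by
  have hp0 : 0 < p := by linarith [hp.out]
  obtain ⟨K, hK, hK0, hKd⟩ := hd.dbl 5
  set τ := θ / K with hτ
  have hθt : θ ≠ ∞ := ne_top_of_le_ne_top (by simp) hθ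
  have hτ0 : τ ≠ 0 := (ENNReal.div_pos hθ0 hK).ne'
  have hτt : τ ≠ ∞ := ENNReal.div_ne_top hθt hK0
  refine ⟨(2 * τ⁻¹ * ENNReal.ofReal (10 * C)) ^ p,
    ENNReal.rpow_ne_top_of_nonneg hp0.le (by finiteness), fun u g h hu j0 i hi => ?_⟩
  set A := N.anc μ θ u (5 * lam) j0 i with hA
  set m := N.quant μ θ u i with hm
  have hl := ell_pos (N.lev i)
  rcases le_or_gt m A with hmA | hmA
  · rw [tsub_eq_zero_of_le hmA, ENNReal.zero_rpow_of_pos hp0]; simp
  have hm1 : m ≤ ENNReal.ofReal 1 := by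
    refine N.quant_le ?_
    have : N.S 1 i ∩ {x | u x ≤ 1} = N.S 1 i := inter_eq_left.2 fun x _ => hu x
    rw [this]
    calc _ ≤ 1 * μ (N.S 1 i) := by gcongr; exact hθ.trans (by norm_num)
      _ = _ := one_mul _
  have hmt : m ≠ ∞ := ne_top_of_le_ne_top ENNReal.ofReal_ne_top hm1
  have hAt : A ≠ ∞ := (hmA.trans hmt.lt_top).ne
  have hlt : A.toReal < m.toReal := ENNReal.toReal_strict_mono hmt hmA
  have hA0 : 0 ≤ A.toReal := ENNReal.toReal_nonneg
  set α := A.toReal + (m.toReal - A.toReal) / 4 with hα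
  set β := m.toReal - (m.toReal - A.toReal) / 4 with hβ
  have hAα : A < ENNReal.ofReal α := by
    rw [ENNReal.lt_ofReal_iff_toReal_lt hAt]; linarith
  have hβm : ENNReal.ofReal β < m := by
    rw [ENNReal.ofReal_lt_iff_lt_toReal (by linarith) hmt]; linarith
  obtain ⟨k, hk⟩ : ∃ k, N.lev i = k + 1 := ⟨N.lev i - 1, by omega⟩
  obtain ⟨P, hP1, hP2⟩ := N.exists_idx k (N.ctr i)
  have hlk : ell k = 2 * ell (N.lev i) := by rw [hk, ell_succ]; ring
  have hPA : N.quant μ θ u P ≤ A := by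
    refine le_iSup₂_of_le P ⟨by omega, by omega, ?_⟩ le_rfl
    rw [dist_comm, hP1]; nlinarith
  have hT := lemmaT hd hPI hC hlam h (α := α) (β := β) (by linarith)
    (S := {y | A < ENNReal.ofReal (h.aem.mk u y) ∧ ENNReal.ofReal (h.aem.mk u y) < m})
    ((measurableSet_lt measurable_const h.aem.measurable_mk.ennreal_ofReal).inter
      (measurableSet_lt h.aem.measurable_mk.ennreal_ofReal measurable_const))
    (by
      filter_upwards [h.aem.ae_eq_mk] with y hy hy'
      rw [← hy]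
      exact ⟨hAα.trans_le (ENNReal.ofReal_le_ofReal hy'.1.le),
        (ENNReal.ofReal_le_ofReal hy'.2.le).trans_lt hβm⟩)
    (N.ctr i) (r := 5 * ell (N.lev i)) (by positivity) (τ := τ)
    (by
      have h1 : θ * μ (N.S 1 P) ≤ μ (N.S 1 P ∩ {x | u x ≤ α}) := by
        by_contra hh
        exact absurd (le_iSup₂_of_le (f := fun (t : ℝ)
          (_ : μ (N.S 1 P ∩ {x | u x ≤ t}) < θ * μ (N.S 1 P)) => ENNReal.ofReal t) α
          (not_le.1 hh) le_rfl) (not_le.2 (hPA.trans_lt hAα))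
      calc _ ≤ τ * (K * μ (N.S 1 P)) := by
            gcongr
            refine (hKd (N.ctr P) (ell k) (ell_pos k) _ fun v hv => ?_).trans ?_
            · have := dist_triangle v (N.ctr i) (N.ctr P)
              rw [mem_ball] at hv
              linarith
            · gcongr; simpa [Net.S, hP1] using ball_subset_closedBall
        _ = θ * μ (N.S 1 P) := by rw [← mul_assoc, ENNReal.div_mul_cancel hK0 hK]
        _ ≤ _ := by
            refine h1.trans (measure_mono (inter_subset_inter_left _ fun v hv => ?_))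
            have h2 : dist v (N.ctr P) ≤ 1 * ell (N.lev P) := hv
            have := dist_triangle_right v (N.ctr i) (N.ctr P)
            rw [hP1] at h2
            rw [mem_ball]; linarith)
    (by
      have h1 : θ * μ (N.S 1 i) ≤ μ (N.S 1 i ∩ {x | β ≤ u x}) := by
        by_contra hh
        have h2 : μ (N.S 1 i ∩ {x | u x ≤ β}) < θ * μ (N.S 1 i) := by
          by_contra h3
          exact absurd (N.quant_le (not_lt.1 h3)) (not_le.2 hβm)
        have h3 : μ (N.S 1 i) ≤ μ (N.S 1 i ∩ {x | u x ≤ β}) + μ (N.S 1 i ∩ {x | β ≤ u x}) := by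
          refine le_trans (measure_mono fun v hv => ?_) (measure_union_le _ _)
          rcases le_total (u v) β with h | h
          exacts [Or.inl ⟨hv, h⟩, Or.inr ⟨hv, h⟩]
        have h4 := h3.trans_lt (ENNReal.add_lt_add h2 (not_le.1 hh))
        refine absurd h4 (not_lt.2 ?_)
        calc _ ≤ 2⁻¹ * μ (N.S 1 i) + 2⁻¹ * μ (N.S 1 i) := by gcongr
          _ = _ := by rw [← add_mul, ENNReal.inv_two_add_inv_two, one_mul]
      calc _ ≤ τ * (K * μ (N.S 1 i)) := by
            gcongr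
            refine (hKd (N.ctr i) _ hl _ fun v hv => (mem_ball.1 hv).le).trans ?_
            gcongr; simpa [Net.S] using ball_subset_closedBall
        _ = θ * μ (N.S 1 i) := by rw [← mul_assoc, ENNReal.div_mul_cancel hK0 hK]
        _ ≤ _ := by
            refine h1.trans (measure_mono (inter_subset_inter_left _ fun v hv => ?_))
            have h2 : dist v (N.ctr i) ≤ 1 * ell (N.lev i) := hv
            rw [mem_ball]; linarith)
  have e1 : m - A = 2 * τ⁻¹ * (ENNReal.ofReal (β - α) * τ) := by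
    rw [mul_comm _ τ, ← mul_assoc, mul_assoc 2, ENNReal.inv_mul_cancel hτ0 hτt, mul_one,
      ← ENNReal.ofReal_ofNat, ← ENNReal.ofReal_mul (by norm_num)]
    have : 2 * (β - α) = m.toReal - A.toReal := by rw [hα, hβ]; ring
    rw [this, ENNReal.ofReal_sub _ hA0, ENNReal.ofReal_toReal hmt, ENNReal.ofReal_toReal hAt]
  have e2 : ENNReal.ofReal (2 * C * (5 * ell (N.lev i)))
      = ENNReal.ofReal (10 * C) * ENNReal.ofReal (ell (N.lev i)) := by
    rw [← ENNReal.ofReal_mul (by positivity)]; congr 1; ring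
  have e3 : lam * (5 * ell (N.lev i)) = 5 * lam * ell (N.lev i) := by ring
  rw [e2, e3] at hT
  rw [Net.wt, mul_comm, ← mul_div_assoc]
  refine ENNReal.div_le_of_le_mul ?_
  rw [e1, ENNReal.mul_rpow_of_nonneg _ _ hp0.le, ENNReal.mul_rpow_of_nonneg (2 * τ⁻¹) _ hp0.le]
  rw [ENNReal.mul_rpow_of_nonneg (ENNReal.ofReal (10 * C)) _ hp0.le] at hT
  calc _ ≤ (2 * τ⁻¹) ^ p * ((ENNReal.ofReal (β - α) * τ) ^ p
        * μ (ball (N.ctr i) (5 * ell (N.lev i)))) := by
        rw [mul_assoc]
        gcongr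
        exact closedBall_subset_ball (by linarith)
    _ ≤ _ := by
        refine (mul_le_mul_right hT _).trans (le_of_eq ?_)
        ring

omit hp in
lemma Net.le_quant_ae (N : Net X) (hd : IsDoubling μ) {θ : ℝ≥0∞} (hθ0 : θ ≠ 0) (hθ : θ ≤ 2⁻¹)
    {u : X → ℝ} (hu : AEMeasurable u μ) :
    ∀ᵐ y ∂μ, ∀ (j : ℕ) (q : ℚ), (q : ℝ) < u y → ∃ i, j ≤ N.lev i ∧ y ∈ N.S 1 i ∧
      ENNReal.ofReal q ≤ N.quant μ θ u i := by
  have := hd.secondCountable
  have : IsLocallyFiniteMeasure μ :=
    ⟨fun x => ⟨ball x 1, ball_mem_nhds x one_pos, hd.fin x 1⟩⟩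
  have : IsUnifLocDoublingMeasure μ := by
    obtain ⟨K, hK, -, h⟩ := hd.dbl 2
    refine ⟨K.toNNReal, ?_⟩
    filter_upwards [self_mem_nhdsWithin] with r hr x
    rw [ENNReal.coe_toNNReal hK]
    exact (h x r hr _ fun z hz => hz).trans (by gcongr; exact ball_subset_closedBall)
  have hq : ∀ q : ℚ, NullMeasurableSet {y | (q : ℝ) < u y} μ := fun q =>
    nullMeasurableSet_lt aemeasurable_const hu
  have h1 := eventually_countable_forall.2 fun q : ℚ => (ae_restrict_iff'₀ (hq q)).1
    (IsUnifLocDoublingMeasure.ae_tendsto_measure_inter_div μ {y | (q : ℝ) < u y} 1)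
  filter_upwards [h1] with y hy j q hqy
  choose i hi1 hi2 using fun k => N.exists_idx k y
  have h2 := hy q hqy (l := atTop) (fun k => N.ctr (i k)) ell
    (tendsto_nhdsWithin_iff.2 ⟨tendsto_ell, Eventually.of_forall ell_pos⟩)
    (Eventually.of_forall fun k => by simpa using (hi2 k).le)
  have h3 : 1 - θ < 1 := ENNReal.sub_lt_self (by simp) (by simp) hθ0
  obtain ⟨k, hk1, hk2⟩ := ((h2.eventually (lt_mem_nhds h3)).and (eventually_ge_atTop j)).exists
  have e : N.S 1 (i k) = closedBall (N.ctr (i k)) (ell k) := by simp [Net.S, hi1]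
  refine ⟨i k, by rw [hi1]; exact hk2, by rw [e]; exact (hi2 k).le, ?_⟩
  refine le_iSup₂_of_le (f := fun (t : ℝ) (_ : μ (N.S 1 (i k) ∩ {x | u x ≤ t})
    < θ * μ (N.S 1 (i k))) => ENNReal.ofReal t) q ?_ le_rfl
  rw [e]
  set B := closedBall (N.ctr (i k)) (ell k)
  have hB0 : μ B ≠ 0 := hd.pos_closedBall _ (ell_pos k)
  have hBt : μ B ≠ ∞ := hd.fin_closedBall _ _
  by_contra hh
  have h4 := measure_inter_add_sdiff₀ (μ := μ) B (hq q)
  have e2 : B \ {y | (q : ℝ) < u y} = B ∩ {x | u x ≤ q} := by ext x; simp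
  rw [e2, inter_comm] at h4
  rw [ENNReal.lt_div_iff_mul_lt (Or.inl hB0) (Or.inl hBt)] at hk1
  have h5 : (1 - θ) * μ B + θ * μ B < μ B := by
    rw [← h4]
    conv_lhs => rw [h4]
    exact ENNReal.add_lt_add_of_lt_of_le (by
      have : θ ≠ ∞ := ne_top_of_le_ne_top (by simp) hθ
      finiteness) hk1 (not_lt.1 hh)
  rw [← add_mul, tsub_add_cancel_of_le (hθ.trans (by norm_num)), one_mul] at h5
  exact lt_irrefl _ h5

/-- Discretisation of a function by a discrete potential of controlled energy. -/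
lemma Net.lemmaD (N : Net X) (hd : IsDoubling μ) (hPI : PIc μ p C lam) (hC : 0 < C)
    (hlam : 1 ≤ lam) {θ : ℝ≥0∞} (hθ0 : θ ≠ 0) (hθ : θ ≤ 2⁻¹) :
    ∃ K : ℝ≥0∞, K ≠ ∞ ∧ ∀ (u : X → ℝ) (g : X → ℝ≥0∞), Good μ p u g → (∀ x, u x ≤ 1) →
      ∀ (j0 : ℕ) (s0 : ℝ) (Ω T : Set X), MeasurableSet T →
        (∀ y ∈ Ω, ball y (20 * lam * ell j0) ⊆ T) →
        (∀ i, N.lev i = j0 → (N.S (15 * lam) i ∩ Ω).Nonempty →
          θ * μ (N.S 1 i) ≤ μ (N.S 1 i ∩ {x | u x ≤ s0})) →
        ∃ l : N.I → ℝ≥0∞, N.cut (j0 + 1) l = l ∧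
          en (N.wt μ p) p l ≤ K * ∫⁻ y in T, g y ^ p ∂μ ∧
          ∀ᵐ y ∂μ, y ∈ Ω → ENNReal.ofReal (u y) ≤ ENNReal.ofReal s0 + pot (N.S (15 * lam)) l y := by
  classical
  have hp0 : 0 < p := by linarith [hp.out]
  have := N.countable hd
  obtain ⟨K, hK, hKe⟩ := N.quant_energy hd hPI hC hlam hθ0 hθ
  obtain ⟨M, hM, hMe⟩ := N.pot_le hd (5 * lam)
  refine ⟨K * M, by finiteness, fun u g h hu j0 s0 Ω T hT hΩ htop => ?_⟩
  let m := N.quant μ θ u
  let A := N.anc μ θ u (5 * lam) j0
  let P : N.I → Prop := fun i => j0 < N.lev i ∧ (N.S (15 * lam) i ∩ Ω).Nonempty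
  let l : N.I → ℝ≥0∞ := fun i => if P i then m i - A i else 0
  refine ⟨l, ?_, ?_, ?_⟩
  · ext i
    simp only [Net.cut, l, P]
    split_ifs with h1 h2 h3
    · rfl
    · rfl
    · exact absurd h3.1 h1
    · rfl
  · let E : N.I → Set X := fun i => if P i then ball (N.ctr i) (5 * lam * ell (N.lev i)) ∩
      {y | A i < ENNReal.ofReal (h.aem.mk u y) ∧ ENNReal.ofReal (h.aem.mk u y) < m i} else ∅
    have hE : ∀ i, MeasurableSet (E i) := by
      intro i
      simp only [E]
      split_ifs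
      · exact measurableSet_ball.inter
          ((measurableSet_lt measurable_const h.aem.measurable_mk.ennreal_ofReal).inter
          (measurableSet_lt h.aem.measurable_mk.ennreal_ofReal measurable_const))
      · exact MeasurableSet.empty
    have hEP : ∀ i y, y ∈ E i → P i ∧ dist y (N.ctr i) < 5 * lam * ell (N.lev i) ∧
        A i < ENNReal.ofReal (h.aem.mk u y) ∧ ENNReal.ofReal (h.aem.mk u y) < m i := by
      intro i y hy
      simp only [E] at hy
      split_ifs at hy with h1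
      · exact ⟨h1, hy.1, hy.2⟩
      · exact absurd hy (notMem_empty y)
    have hdis : ∀ i i' y, y ∈ E i → y ∈ E i' → ¬ N.lev i < N.lev i' := by
      intro i i' y h1 h2 hlt
      obtain ⟨a1, a2, -, a4⟩ := hEP i y h1
      obtain ⟨-, b2, b3, -⟩ := hEP i' y h2
      have : m i ≤ A i' := by
        refine le_iSup₂_of_le i ⟨a1.1.le, hlt, ?_⟩ le_rfl
        have := dist_triangle_left (N.ctr i) (N.ctr i') y
        linarith
      exact lt_irrefl _ ((a4.trans_le this).trans b3)
    have hsum : ∀ y, ∑' i, (E i).indicator (fun y => g y ^ p) y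
        ≤ M * T.indicator (fun y => g y ^ p) y := by
      intro y
      by_cases hy : ∃ i, y ∈ E i
      · obtain ⟨i0, hi0⟩ := hy
        have hyT : y ∈ T := by
          obtain ⟨⟨a0, w, hw1, hw2⟩, a2, -⟩ := hEP i0 y hi0
          refine hΩ w hw2 ?_
          have h1 : dist w (N.ctr i0) ≤ 15 * lam * ell (N.lev i0) := hw1
          have := dist_triangle_right y w (N.ctr i0)
          have := ell_anti a0.le
          rw [mem_ball]; nlinarith
        rw [indicator_of_mem hyT]
        have h1 := hMe (fun i => (E i).indicator (fun y => g y ^ p) y) y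
          (fun k => if k = N.lev i0 then g y ^ p else 0) (by
            intro i _
            by_cases hi : y ∈ E i
            · have : N.lev i = N.lev i0 :=
                le_antisymm (not_lt.1 (hdis i0 i y hi0 hi)) (not_lt.1 (hdis i i0 y hi hi0))
              simp [hi, this]
            · simp [hi])
        rw [tsum_ite_eq] at h1
        refine le_trans (ENNReal.tsum_le_tsum fun i => ?_) h1
        by_cases hi : y ∈ E i
        · rw [indicator_of_mem (show y ∈ N.S (5 * lam) i from (hEP i y hi).2.1.le)]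
        · simp [hi]
      · push Not at hy
        simp [hy]
    calc en (N.wt μ p) p l ≤ ∑' i, K * ∫⁻ y, (E i).indicator (fun y => g y ^ p) y ∂μ := by
          refine ENNReal.tsum_le_tsum fun i => ?_
          rw [lintegral_indicator (hE i)]
          simp only [l, E]
          split_ifs with h1
          · exact hKe u g h hu j0 i h1.1
          · simp [hp0]
      _ = K * ∫⁻ y, ∑' i, (E i).indicator (fun y => g y ^ p) y ∂μ := by
          rw [ENNReal.tsum_mul_left, lintegral_tsum fun i =>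
            ((h.mg.pow_const p).indicator (hE i)).aemeasurable]
      _ ≤ K * ∫⁻ y, M * T.indicator (fun y => g y ^ p) y ∂μ := by
          gcongr with y; exact hsum y
      _ = _ := by rw [lintegral_const_mul' _ _ hM, lintegral_indicator hT, mul_assoc]
  · filter_upwards [N.le_quant_ae hd hθ0 hθ h.aem] with y hy hyΩ
    have key : ∀ k i, N.lev i = k → j0 ≤ k → y ∈ N.S (15 * lam) i →
        m i ≤ ENNReal.ofReal s0
          + pot (N.S (15 * lam)) (fun i => if N.lev i < k + 1 then l i else 0) y := by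
      intro k
      induction k using Nat.strong_induction_on with
      | _ k ih =>
        intro i hik hj hyi
        rcases hj.eq_or_lt with rfl | hj
        · exact (N.quant_le (htop i hik ⟨y, hyi, hyΩ⟩)).trans le_self_add
        have h1 : A i ≤ ENNReal.ofReal s0
            + pot (N.S (15 * lam)) (fun i => if N.lev i < k then l i else 0) y := by
          refine iSup₂_le fun i' ⟨a1, a2, a3⟩ => ?_
          refine (ih (N.lev i') (by omega) i' rfl a1 ?_).trans ?_
          · have h2 : dist y (N.ctr i) ≤ 15 * lam * ell (N.lev i) := hyi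
            have := dist_triangle_right y (N.ctr i') (N.ctr i)
            have := ell_lt_half a2
            show dist _ _ ≤ _
            nlinarith
          · gcongr
            refine pot_mono _ (fun i'' => ?_) y
            split_ifs with b1 b2
            · exact le_rfl
            · omega
            · exact zero_le
            · exact le_rfl
        have h2 : l i = m i - A i := if_pos ⟨by omega, y, hyi, hyΩ⟩
        calc m i ≤ A i + l i := by rw [h2]; exact le_add_tsub
          _ ≤ ENNReal.ofReal s0 + (pot (N.S (15 * lam))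
              (fun i => if N.lev i < k then l i else 0) y
              + pot (N.S (15 * lam)) (fun j => if j = i then l i else 0) y) := by
            rw [pot_single, indicator_of_mem hyi, ← add_assoc]; gcongr
          _ ≤ _ := by
            rw [← pot_add]
            gcongr
            refine pot_mono _ (fun i'' => ?_) y
            by_cases b : i'' = i
            · subst b; simp [hik]
            · simp only [b, if_false, add_zero]
              split_ifs with b1 b2
              · exact le_rfl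
              · omega
              · exact zero_le
              · exact le_rfl
    refine le_of_forall_lt_imp_le_of_dense fun c hc => ?_
    have hct : c ≠ ∞ := ne_top_of_lt hc
    obtain ⟨q, hq1, hq2⟩ := exists_rat_btwn ((ENNReal.lt_ofReal_iff_toReal_lt hct).1 hc)
    obtain ⟨i, a1, a2, a3⟩ := hy j0 q hq2
    have h3 := key _ i rfl a1 (closedBall_subset_closedBall (by
      have := ell_pos (N.lev i); nlinarith) a2)
    calc c = ENNReal.ofReal c.toReal := (ENNReal.ofReal_toReal hct).symm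
      _ ≤ ENNReal.ofReal q := ENNReal.ofReal_le_ofReal hq1.le
      _ ≤ _ := a3.trans (h3.trans ?_)
    gcongr
    refine pot_mono _ (fun i'' => ?_) y
    split_ifs
    · exact le_rfl
    · exact zero_le

/-- Measure estimate for level sets. -/
lemma Net.lemmaM (N : Net X) (hd : IsDoubling μ) (hPI : PIc μ p C lam) (hC : 0 < C)
    (hlam : 1 ≤ lam) {θ : ℝ≥0∞} (hθ0 : θ ≠ 0) (hθ : θ ≤ 2⁻¹) :
    ∃ K : ℝ≥0∞, K ≠ ∞ ∧ ∀ (u : X → ℝ) (g : X → ℝ≥0∞), Good μ p u g → (∀ x, u x ≤ 1) →
      ∀ (j0 : ℕ) (s0 : ℝ) (Ω T : Set X), 0 ≤ s0 → MeasurableSet T →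
        (∀ y ∈ Ω, ball y (20 * lam * ell j0) ⊆ T) →
        (∀ i, N.lev i = j0 → (N.S (15 * lam) i ∩ Ω).Nonempty →
          θ * μ (N.S 1 i) ≤ μ (N.S 1 i ∩ {x | u x ≤ s0})) →
        μ (Ω ∩ {y | s0 + 1 / 4 ≤ u y})
          ≤ K * ENNReal.ofReal (ell j0) ^ p * ∫⁻ y in T, g y ^ p ∂μ := by
  have hp0 : 0 < p := by linarith [hp.out]
  obtain ⟨K, hK, hKe⟩ := N.lemmaD hd hPI hC hlam hθ0 hθ
  obtain ⟨K1, hK1, hK1e⟩ := N.rho_int hd hp0 (15 * lam)
  obtain ⟨M, hM, hMe⟩ := N.pot_le_rho hd (15 * lam)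
  refine ⟨(4 * M) ^ p * K1 * K, ENNReal.mul_ne_top (ENNReal.mul_ne_top
    (ENNReal.rpow_ne_top_of_nonneg hp0.le (by finiteness)) hK1) hK,
    fun u g h hu j0 s0 Ω T hs0 hT hΩ htop => ?_⟩
  obtain ⟨l, h1, h2, h3⟩ := hKe u g h hu j0 s0 Ω T hT hΩ htop
  have hm : Measurable fun y => (4 * M * ENNReal.ofReal (ell j0)) ^ p * N.rho (15 * lam) l y ^ p :=
    ((N.measurable_rho hd _ l).pow_const p).const_mul _
  have h4 := mul_meas_ge_le_lintegral₀ (μ := μ) hm.aemeasurable 1
  rw [one_mul, lintegral_const_mul _ ((N.measurable_rho hd _ l).pow_const p)] at h4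
  refine le_trans (measure_mono_ae ?_) (h4.trans ?_)
  · filter_upwards [h3] with y hy hy'
    have h5 := (ENNReal.ofReal_le_ofReal hy'.2).trans (hy hy'.1)
    rw [ENNReal.ofReal_add hs0 (by norm_num),
      ENNReal.add_le_add_iff_left ENNReal.ofReal_ne_top] at h5
    have h6 := hMe l (j0 + 1) y
    rw [h1] at h6
    show 1 ≤ _
    rw [← ENNReal.mul_rpow_of_nonneg _ _ hp0.le]
    refine ENNReal.one_le_rpow ?_ hp0
    calc (1 : ℝ≥0∞) = 4 * ENNReal.ofReal (1 / 4) := by
          rw [← ENNReal.ofReal_ofNat, ← ENNReal.ofReal_mul (by norm_num)]; norm_num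
      _ ≤ 4 * (M * ENNReal.ofReal (ell j0) * N.rho (15 * lam) l y) := by
          gcongr
          refine h5.trans (h6.trans ?_)
          gcongr
          exact ell_anti (Nat.le_succ _)
      _ = _ := by ring
  · rw [ENNReal.mul_rpow_of_nonneg (4 * M) _ hp0.le]
    calc _ ≤ (4 * M) ^ p * ENNReal.ofReal (ell j0) ^ p * (K1 * (K * ∫⁻ y in T, g y ^ p ∂μ)) := by
          gcongr
          exact (hK1e l).trans (by gcongr)
      _ = _ := by ring

/-- Global versions for functions supported in a small ball. -/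
lemma Net.global (N : Net X) (hd : IsDoubling μ) (hPI : PIc μ p C lam) (hC : 0 < C)
    (hlam : 1 ≤ lam) (x1 x2 : X) :
    ∃ K : ℝ≥0∞, K ≠ ∞ ∧ ∀ (u : X → ℝ) (g : X → ℝ≥0∞), Good μ p u g → (∀ x, u x ≤ 1) →
      ∀ (j0 : ℕ) (x : X), ell j0 ≤ dist x1 x2 / 2 → (∀ y ∉ ball x (ell j0 / 8), u y = 0) →
        μ {y | 1 / 4 ≤ u y} ≤ K * ENNReal.ofReal (ell j0) ^ p * ∫⁻ y, g y ^ p ∂μ ∧
        (∫⁻ y, g y ^ p ∂μ ≠ ∞ → ∃ l : N.I → ℝ≥0∞, N.cut (j0 + 1) l = l ∧
          en (N.wt μ p) p l ≤ K * ∫⁻ y, g y ^ p ∂μ ∧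
          ∀ᶠ y in qe μ p, ENNReal.ofReal (u y) ≤ pot (N.S (15 * lam)) l y) := by
  obtain ⟨θ, hθ0, hθ, hθe⟩ := exists_theta hd hPI hC hlam x1 x2
  obtain ⟨K1, hK1, h1⟩ := N.lemmaD hd hPI hC hlam hθ0 hθ
  obtain ⟨K2, hK2, h2⟩ := N.lemmaM hd hPI hC hlam hθ0 hθ
  refine ⟨max K1 K2, by simp [hK1, hK2], fun u g h hu j0 x hj hx => ?_⟩
  have htop : ∀ i, N.lev i = j0 → (N.S (15 * lam) i ∩ univ).Nonempty →
      θ * μ (N.S 1 i) ≤ μ (N.S 1 i ∩ {x | u x ≤ 0}) := by
    intro i hi _
    have e : N.S 1 i = closedBall (N.ctr i) (ell j0) := by simp [Net.S, hi]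
    rw [e]
    exact (hθe _ _ (ell_pos j0) hj x _ le_rfl).trans
      (measure_mono fun y hy => ⟨hy.1, (hx y hy.2).le⟩)
  constructor
  · have := h2 u g h hu j0 0 univ univ le_rfl MeasurableSet.univ (by simp) htop
    simp only [univ_inter, zero_add, Measure.restrict_univ] at this
    exact this.trans (by gcongr; exact le_max_right _ _)
  · intro hg
    obtain ⟨l, a1, a2, a3⟩ := h1 u g h hu j0 0 univ univ MeasurableSet.univ (by simp) htop
    simp only [Measure.restrict_univ, mem_univ, forall_const, ENNReal.ofReal_zero,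
      zero_add] at a2 a3
    refine ⟨l, a1, a2.trans (by gcongr; exact le_max_left _ _), eventually_qe.2 ⟨a3, ?_⟩⟩
    filter_upwards [h.ok, ae_curve_of_ae a3,
      N.pot_usc hd (15 * lam) l (ne_top_of_le_ne_top (by finiteness) a2)] with γ b1 b2 b3
    exact forall_of_ae_of_usc γ.lt (b1.1.cont b1.2) b3 b2

end Pool.Agent.H20Z.Fine
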