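import Mathlib
import Pool.Agent.H20Z.FineD

set_option autoImplicit false

open MeasureTheory Set Metric Filter Topology
open scoped ENNReal NNReal

namespace Pool.Agent.H20Z.Fine

variable {X : Type*} [MetricSpace X] [MeasurableSpace X] [BorelSpace X] {μ : Measure X} {p : ℝ}
  [hp : Fact (1 < p)]

omit [MeasurableSpace X] [BorelSpace X] in
lemma cst_two {u v : X → ℝ} (f : ℝ → ℝ → ℝ) (h1 : ∃ (x : X) (R c : ℝ), ∀ y ∉ ball x R, u y = c)
    (h2 : ∃ (x : X) (R c : ℝ), ∀ y ∉ ball x R, v y = c) :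
    ∃ (x : X) (R c : ℝ), ∀ y ∉ ball x R, f (u y) (v y) = c := by
  obtain ⟨x, R, c, h⟩ := h1
  obtain ⟨x', R', c', h'⟩ := h2
  refine ⟨x, max R (R' + dist x' x), f c c', fun y hy => ?_⟩
  rw [h y fun hh => hy (ball_subset_ball (le_max_left _ _) hh),
    h' y fun hh => hy (ball_subset_ball' (le_max_right _ _) hh)]

lemma Curve.lint_max_ne_top (γ : Curve X) {g g' : X → ℝ≥0∞} (hg : Measurable g)
    (h : γ.lint g ≠ ∞) (h' : γ.lint g' ≠ ∞) : γ.lint (fun x => max (g x) (g' x)) ≠ ∞ := by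
  refine ne_top_of_le_ne_top (ENNReal.add_ne_top.2 ⟨h, h'⟩) ?_
  unfold Curve.lint
  rw [← lintegral_add_left' (γ.aemeas hg)]
  exact lintegral_mono fun t => max_le le_self_add le_add_self

lemma Good.max {u v : X → ℝ} {g g' : X → ℝ≥0∞} (h : Good μ p u g) (h' : Good μ p v g') :
    Good μ p (fun x => max (u x) (v x)) (fun x => max (g x) (g' x)) where
  aem := h.aem.max h'.aem
  mg := h.mg.max h'.mg
  ok := by
    filter_upwards [h.ok, h'.ok] with γ a b
    exact ⟨(a.1.mono fun x => le_max_left _ _).max (b.1.mono fun x => le_max_right _ _),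
      γ.lint_max_ne_top h.mg a.2 b.2⟩
  cst := cst_two Max.max h.cst h'.cst

lemma Good.min {u v : X → ℝ} {g g' : X → ℝ≥0∞} (h : Good μ p u g) (h' : Good μ p v g') :
    Good μ p (fun x => min (u x) (v x)) (fun x => Max.max (g x) (g' x)) where
  aem := h.aem.min h'.aem
  mg := h.mg.max h'.mg
  ok := by
    filter_upwards [h.ok, h'.ok] with γ a b
    exact ⟨(a.1.mono fun x => le_max_left _ _).min (b.1.mono fun x => le_max_right _ _),
      γ.lint_max_ne_top h.mg a.2 b.2⟩
  cst := cst_two Min.min h.cst h'.cst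

omit [BorelSpace X] in
lemma Good.affine {u : X → ℝ} {g : X → ℝ≥0∞} (h : Good μ p u g) (c d : ℝ) :
    Good μ p (fun x => c * u x + d) (fun x => ENNReal.ofReal |c| * g x) where
  aem := (h.aem.const_mul c).add_const d
  mg := h.mg.const_mul _
  ok := by
    filter_upwards [h.ok] with γ a
    refine ⟨a.1.affine c d, ?_⟩
    rw [γ.lint_const_mul ENNReal.ofReal_ne_top]
    exact ENNReal.mul_ne_top ENNReal.ofReal_ne_top a.2
  cst := cst_two (fun a _ => c * a + d) h.cst h.cst

/-- Lipschitz cutoff function -/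
noncomputable def cutoff (x : X) (r : ℝ) (y : X) : ℝ := trunc 0 1 (2 - dist y x / r)

omit [MeasurableSpace X] [BorelSpace X] in
lemma cutoff_one {x y : X} {r : ℝ} (hr : 0 < r) (h : dist y x ≤ r) : cutoff x r y = 1 := by
  have : dist y x / r ≤ 1 := (div_le_one hr).2 h
  simp only [cutoff, trunc]
  rw [min_eq_left (by linarith), max_eq_right zero_le_one]

omit [MeasurableSpace X] [BorelSpace X] in
lemma cutoff_zero {x y : X} {r : ℝ} (hr : 0 < r) (h : 2 * r ≤ dist y x) : cutoff x r y = 0 := by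
  have : 2 ≤ dist y x / r := (le_div_iff₀ hr).2 h
  simp only [cutoff, trunc]
  exact max_eq_left ((min_le_right _ _).trans (by linarith))

lemma trunc_nonneg (t : ℝ) : 0 ≤ trunc 0 1 t := le_max_left _ _

lemma trunc_le_one (t : ℝ) : trunc 0 1 t ≤ 1 := max_le zero_le_one (min_le_left _ _)

lemma trunc_one {t : ℝ} (h : 1 ≤ t) : trunc 0 1 t = 1 := by
  simp only [trunc]; rw [min_eq_left h, max_eq_right zero_le_one]

lemma trunc_zero {t : ℝ} (h : t ≤ 0) : trunc 0 1 t = 0 :=
  max_eq_left ((min_le_right _ _).trans h)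

lemma good_cutoff (x : X) {r : ℝ} (hr : 0 < r) :
    Good μ p (cutoff x r) ((ball x r)ᶜ.indicator fun _ => ENNReal.ofReal (1 / r)) where
  aem := by
    refine Continuous.aemeasurable ?_
    unfold cutoff trunc
    fun_prop
  mg := measurable_const.indicator measurableSet_ball.compl
  ok := by
    refine Eventually.of_forall fun γ => ⟨?_, ne_top_of_le_ne_top
      (γ.lint_const_ne_top ENNReal.ofReal_ne_top) (γ.lint_mono fun y => indicator_le_self _ _ y)⟩
    refine (γ.UG_lip (u := fun y => 2 - dist y x / r) (L := 1 / r) (by positivity)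
      fun y y' => ?_).trunc (γ.lint_const_ne_top ENNReal.ofReal_ne_top) fun y _ h2 => ?_
    · have e : 2 - dist y x / r - (2 - dist y' x / r) = 1 / r * (dist y' x - dist y x) := by ring
      rw [e, abs_mul, abs_of_pos (by positivity), dist_comm y y']
      gcongr
      exact abs_dist_sub_le _ _ _
    · intro h
      have : dist y x / r < 1 := (div_lt_one hr).2 h
      linarith
  cst := ⟨x, 2 * r, 0, fun y hy => cutoff_zero hr (not_lt.1 hy)⟩

/-- admissible test pair for the variational capacity -/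
structure Adm (μ : Measure X) (p : ℝ) [Fact (1 < p)] (A B : Set X) (u : X → ℝ) (g : X → ℝ≥0∞) :
    Prop where
  good : Good μ p u g
  nonneg : ∀ x, 0 ≤ u x
  le_one : ∀ x, u x ≤ 1
  one : ∀ x ∈ A, u x = 1
  zero : ∀ x ∉ B, u x = 0

lemma Adm.varCap_le (hd : IsDoubling μ) {A : Set X} {x : X} {R : ℝ} {u : X → ℝ} {g : X → ℝ≥0∞}
    (h : Adm μ p A (ball x R) u g) : varCap μ p A (ball x R) ≤ ∫⁻ y, g y ^ p ∂μ := by
  have hp0 : 0 < p := by linarith [hp.out]
  by_cases hg : ∫⁻ y, g y ^ p ∂μ = ∞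
  · rw [hg]; exact le_top
  refine iInf_le_of_le u (iInf_le_of_le g (iInf_le_of_le ⟨h.good.aem, ?_, ⟨h.good.mg, ?_⟩,
    lt_top_iff_ne_top.2 hg⟩ (iInf_le_of_le (fun y hy => (h.one y hy).ge)
      (iInf_le_of_le h.zero (setLIntegral_le_lintegral _ _)))))
  · refine lt_of_le_of_lt ?_ (hd.fin x R)
    rw [← lintegral_indicator_one measurableSet_ball]
    refine lintegral_mono fun y => ?_
    by_cases hy : y ∈ ball x R
    · rw [indicator_of_mem hy]
      refine ENNReal.rpow_le_one ?_ hp0.le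
      rw [Real.enorm_eq_ofReal (h.nonneg y)]
      exact ENNReal.ofReal_le_one.2 (h.le_one y)
    · simp [h.zero y hy, hp0]
  · exact modulus_eq_zero_iff.2 (h.good.ok.mono fun γ hγ => hγ.1.ineq)

lemma exists_adm {A : Set X} {x : X} {R : ℝ} {c : ℝ≥0∞} (h : varCap μ p A (ball x R) < c) :
    ∃ u g, Adm μ p A (ball x R) u g ∧ ∫⁻ y, g y ^ p ∂μ < c := by
  have hp0 : 0 < p := by linarith [hp.out]
  simp only [varCap, iInf_lt_iff] at h
  obtain ⟨u, g, ⟨h1, -, ⟨h2, h3⟩, h4⟩, h5, h6, h7⟩ := h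
  have hG : Good μ p u g := ⟨h1, h2, (ae_UG_of_ineq (modulus_eq_zero_iff.1 h3)).and
    (ae_lint_ne_top h2 h4.ne), x, R, 0, h6⟩
  refine ⟨_, _, ⟨hG.trunc (α := 0) (β := 1) (S := ball x R) measurableSet_ball fun y hy _ => ?_,
    fun y => trunc_nonneg _, fun y => trunc_le_one _, fun y hy => trunc_one (h5 y hy),
    fun y hy => trunc_zero (h6 y hy).le⟩, ?_⟩
  · by_contra hh; rw [h6 y hh] at hy; exact lt_irrefl _ hy
  · have : (fun y => (ball x R).indicator g y ^ p) = (ball x R).indicator fun y => g y ^ p := by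
      ext y; by_cases hy : y ∈ ball x R <;> simp [hy, hp0]
    rw [this, lintegral_indicator measurableSet_ball]
    exact h7

lemma le_mul_varCap {A : Set X} {x : X} {R : ℝ} {K Y δ : ℝ≥0∞} (hK : K ≠ ∞)
    (hδ : varCap μ p A (ball x R) < δ)
    (h : ∀ u g, Adm μ p A (ball x R) u g → ∫⁻ y, g y ^ p ∂μ < δ → Y ≤ K * ∫⁻ y, g y ^ p ∂μ) :
    Y ≤ K * varCap μ p A (ball x R) := by
  set v := varCap μ p A (ball x R)
  have := nhdsGT_neBot_of_exists_gt ⟨δ, hδ⟩
  have t : Tendsto (fun c => K * c) (𝓝[>] v) (𝓝 (K * v)) :=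
    ENNReal.Tendsto.const_mul (tendsto_id.mono_left nhdsWithin_le_nhds) (Or.inr hK)
  refine ge_of_tendsto t ?_
  filter_upwards [self_mem_nhdsWithin] with c hc
  obtain ⟨u, g, h1, h2⟩ := exists_adm (lt_min hc hδ)
  exact (h u g h1 (h2.trans_le (min_le_right _ _))).trans
    (by gcongr; exact h2.le.trans (min_le_left _ _))

lemma varCap_mono (hd : IsDoubling μ) {A A' : Set X} {x x' : X} {R R' : ℝ} (hA : A ⊆ A')
    (hB : ball x' R' ⊆ ball x R) : varCap μ p A (ball x R) ≤ varCap μ p A' (ball x' R') := by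
  refine le_of_forall_gt_imp_ge_of_dense fun c hc => ?_
  obtain ⟨u, g, h1, h2⟩ := exists_adm hc
  exact (Adm.varCap_le hd ⟨h1.good, h1.nonneg, h1.le_one, fun y hy => h1.one y (hA hy),
    fun y hy => h1.zero y fun hh => hy (hB hh)⟩).trans h2.le

omit [BorelSpace X] [MetricSpace X] hp in
lemma lintegral_max_rpow_le (ν : Measure X) {g g' : X → ℝ≥0∞} (hg : Measurable g) :
    ∫⁻ y, max (g y) (g' y) ^ p ∂ν ≤ ∫⁻ y, g y ^ p ∂ν + ∫⁻ y, g' y ^ p ∂ν := by
  rw [← lintegral_add_left (hg.pow_const p)]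
  refine lintegral_mono fun y => ?_
  rcases le_total (g y) (g' y) with h | h
  · rw [max_eq_right h]; exact le_add_self
  · rw [max_eq_left h]; exact le_self_add

lemma varCap_union_le (hd : IsDoubling μ) (A A' : Set X) (x : X) (R : ℝ) :
    varCap μ p (A ∪ A') (ball x R) ≤ varCap μ p A (ball x R) + varCap μ p A' (ball x R) := by
  refine ENNReal.le_of_forall_pos_le_add fun ε hε hfin => ?_
  have hε' : (ε : ℝ≥0∞) / 2 ≠ 0 := (ENNReal.half_pos (by simpa using hε.ne')).ne'
  obtain ⟨u, g, h1, h2⟩ := exists_adm (ENNReal.lt_add_right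
    (ENNReal.add_lt_top.1 hfin).1.ne hε')
  obtain ⟨u', g', h1', h2'⟩ := exists_adm (ENNReal.lt_add_right
    (ENNReal.add_lt_top.1 hfin).2.ne hε')
  refine (Adm.varCap_le hd ⟨h1.good.max h1'.good, fun y => le_max_of_le_left (h1.nonneg y),
    fun y => max_le (h1.le_one y) (h1'.le_one y), ?_, fun y hy => ?_⟩).trans ?_
  · rintro y (hy | hy)
    · rw [h1.one y hy]; exact max_eq_left (h1'.le_one y)
    · rw [h1'.one y hy]; exact max_eq_right (h1.le_one y)
  · rw [h1.zero y hy, h1'.zero y hy, max_self]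
  · refine (lintegral_max_rpow_le μ h1.good.mg).trans ((add_le_add h2.le h2'.le).trans
      (le_of_eq ?_))
    rw [add_add_add_comm, ENNReal.add_halves]

lemma varCap_polar (hd : IsDoubling μ) {E : Set X} (hE : ∀ᶠ y in qe μ p, y ∉ E) {x : X} {R : ℝ}
    (hEB : E ⊆ ball x R) : varCap μ p E (ball x R) = 0 := by
  have hp0 : 0 < p := by linarith [hp.out]
  rw [eventually_qe] at hE
  have : Adm μ p E (ball x R) (E.indicator fun _ => 1) 0 := by
    refine ⟨⟨(aemeasurable_const (b := (0 : ℝ))).congr ?_, measurable_zero, ?_, x, R, 0,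
      fun y hy => indicator_of_notMem (fun h => hy (hEB h)) _⟩,
      fun y => indicator_nonneg (by simp) y, fun y => indicator_le_self' (by simp) y,
      fun y hy => indicator_of_mem hy _, fun y hy => indicator_of_notMem (fun h => hy (hEB h)) _⟩
    · filter_upwards [hE.1] with y hy
      simp [hy]
    · filter_upwards [hE.2] with γ hγ
      refine ⟨fun s t hs hst ht => ?_, by simp [Curve.lint]⟩
      simp [hγ s ⟨hs, hst.trans ht⟩, hγ t ⟨hs.trans hst, ht⟩]
  simpa [hp0] using this.varCap_le hd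

/-- capacity estimate for level sets -/
lemma lemmaC (hd : IsDoubling μ) {w : X → ℝ} {g : X → ℝ≥0∞} (h : Good μ p w g) {A : Set X}
    {x : X} {r R : ℝ} (hr : 0 < r) (hR : 2 * r ≤ R) (hA : A ⊆ ball x r) (hA' : ∀ y ∈ A, 1 ≤ w y) :
    varCap μ p A (ball x R) ≤ 2 ^ p * ∫⁻ y in ball x (2 * r), g y ^ p ∂μ
      + μ (ball x (2 * r) ∩ {y | 1 / 2 ≤ w y}) / ENNReal.ofReal r ^ p := by
  have hp0 : 0 < p := by linarith [hp.out]
  set S := ball x (2 * r) ∩ toMeasurable μ (ball x (2 * r) ∩ {y | 1 / 2 ≤ w y})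
  have hS : MeasurableSet S := measurableSet_ball.inter (measurableSet_toMeasurable _ _)
  have hG := ((h.affine 2 (-1)).min (good_cutoff x hr)).trunc (α := 0) (β := 1) hS (by
    intro y h1 _
    rw [lt_min_iff] at h1
    have h2 : y ∈ ball x (2 * r) := by
      by_contra hh
      rw [cutoff_zero hr (not_lt.1 hh)] at h1
      exact lt_irrefl _ h1.2
    exact ⟨h2, subset_toMeasurable _ _ ⟨h2, by have := h1.1; show 1 / 2 ≤ w y; linarith⟩⟩)
  refine (Adm.varCap_le hd ⟨hG, fun y => trunc_nonneg _, fun y => trunc_le_one _,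
    fun y hy => trunc_one (le_min (by linarith [hA' y hy]) (cutoff_one hr (hA hy).le).ge),
    fun y hy => trunc_zero ((min_le_right _ _).trans
      (cutoff_zero hr (hR.trans (not_lt.1 hy))).le)⟩).trans ?_
  have e : ∀ G : X → ℝ≥0∞, (fun y => S.indicator G y ^ p) = S.indicator fun y => G y ^ p := by
    intro G; ext y; by_cases hy : y ∈ S <;> simp [hy, hp0]
  rw [e, lintegral_indicator hS]
  refine (lintegral_max_rpow_le _ (h.mg.const_mul _)).trans (add_le_add ?_ ?_)
  · simp only [ENNReal.mul_rpow_of_nonneg _ _ hp0.le]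
    rw [lintegral_const_mul _ (h.mg.pow_const p)]
    gcongr
    · simp
    · exact inter_subset_left
  · calc _ ≤ ∫⁻ _ in S, ENNReal.ofReal (1 / r) ^ p ∂μ := by
          gcongr with y; exact indicator_le_self _ _ y
      _ ≤ _ := by
          rw [setLIntegral_const, one_div, ENNReal.ofReal_inv_of_pos hr, ENNReal.inv_rpow,
            ENNReal.div_eq_inv_mul]
          exact mul_le_mul_right
            ((measure_mono inter_subset_right).trans (measure_toMeasurable _).le) _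

lemma varCap_le_ball (hd : IsDoubling μ) {A : Set X} {x : X} {r R : ℝ} (hr : 0 < r)
    (hR : 2 * r ≤ R) (hA : A ⊆ ball x r) :
    varCap μ p A (ball x R) ≤ μ (ball x (2 * r)) / ENNReal.ofReal r ^ p := by
  have hp0 : 0 < p := by linarith [hp.out]
  have hG : Good μ p (fun _ => 1) 0 := ⟨aemeasurable_const, measurable_zero,
    Eventually.of_forall fun γ => ⟨fun s t _ _ _ => by simp, by simp [Curve.lint]⟩,
    x, 0, 1, fun _ _ => rfl⟩
  refine (lemmaC hd hG hr hR hA (by simp)).trans ?_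
  simp only [Pi.zero_apply, ENNReal.zero_rpow_of_pos hp0, lintegral_zero, mul_zero, zero_add]
  gcongr
  exact inter_subset_left

lemma varCap_lt_top (hd : IsDoubling μ) {A : Set X} {x : X} {r R : ℝ} (hr : 0 < r)
    (hR : 2 * r ≤ R) (hA : A ⊆ ball x r) : varCap μ p A (ball x R) < ∞ :=
  (varCap_le_ball hd hr hR hA).trans_lt (ENNReal.div_lt_top (hd.fin _ _).ne
    (ENNReal.rpow_pos (by simpa using hr) ENNReal.ofReal_ne_top).ne')

/-- normalising factor -/
noncomputable def beta (μ : Measure X) (p : ℝ) (x : X) (k : ℕ) : ℝ≥0∞ :=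
  μ (ball x (ell k)) / ENNReal.ofReal (ell k) ^ p

/-- dyadic capacity -/
noncomputable def dcap (μ : Measure X) (p : ℝ) (A : Set X) (x : X) (k : ℕ) : ℝ≥0∞ :=
  varCap μ p (A ∩ ball x (ell k)) (ball x (4 * ell k))

/-- normalised dyadic capacity -/
noncomputable def alpha (μ : Measure X) (p : ℝ) (A : Set X) (x : X) (k : ℕ) : ℝ≥0∞ :=
  dcap μ p A x k / beta μ p x k

lemma ellp_ne_zero (k : ℕ) (p : ℝ) : ENNReal.ofReal (ell k) ^ p ≠ 0 :=
  (ENNReal.rpow_pos (pos_iff_ne_zero.2 (ofReal_ell_ne_zero _)) ENNReal.ofReal_ne_top).ne'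

lemma ellp_ne_top (k : ℕ) : ENNReal.ofReal (ell k) ^ p ≠ ∞ :=
  ENNReal.rpow_ne_top_of_nonneg (by linarith [hp.out]) ENNReal.ofReal_ne_top

omit [BorelSpace X] in
lemma beta_ne_zero (hd : IsDoubling μ) (x : X) (k : ℕ) : beta μ p x k ≠ 0 :=
  (ENNReal.div_pos (hd.pos _ _ (ell_pos k)).ne' (ellp_ne_top k)).ne'

omit [BorelSpace X] hp in
lemma beta_ne_top (hd : IsDoubling μ) (x : X) (k : ℕ) : beta μ p x k ≠ ∞ :=
  ENNReal.div_ne_top (hd.fin _ _).ne (ellp_ne_zero k p)

lemma dcap_lt_top (hd : IsDoubling μ) (A : Set X) (x : X) (k : ℕ) : dcap μ p A x k < ∞ :=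
  varCap_lt_top hd (ell_pos k) (by linarith [ell_pos k]) inter_subset_right

lemma alpha_ne_top (hd : IsDoubling μ) (A : Set X) (x : X) (k : ℕ) : alpha μ p A x k ≠ ∞ :=
  ENNReal.div_ne_top (dcap_lt_top hd A x k).ne (beta_ne_zero hd x k)

lemma tsum_ne_top_of_tail (f : ℕ → ℝ≥0∞) (k : ℕ) (hf : ∀ n, f n ≠ ∞)
    (h : ∑' n, f (n + k) ≠ ∞) : ∑' n, f n ≠ ∞ := by
  rw [← (ENNReal.summable (f := fun n => f (n + k))).sum_add_tsum_nat_add']
  exact ENNReal.add_ne_top.2 ⟨(ENNReal.sum_lt_top.2 fun i _ => (hf i).lt_top).ne, h⟩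

lemma tsum_tail_le (f : ℕ → ℝ≥0∞) (k : ℕ) : ∑' n, f (n + k) ≤ ∑' n, f n :=
  ENNReal.tsum_comp_le_tsum_of_injective (add_left_injective k) f

lemma q_pos : 0 < 1 / (p - 1) := by have := hp.out; apply one_div_pos.2; linarith

/-- dyadic form of thinness -/
def DThin (μ : Measure X) (p : ℝ) (A : Set X) (x : X) : Prop :=
  ∑' k, alpha μ p A x k ^ (1 / (p - 1)) ≠ ∞

lemma IsThin.dthin (hd : IsDoubling μ) {A : Set X} {x : X} (h : IsThin μ p A x) :
    DThin μ p A x := by
  have hp0 : 0 < p := by linarith [hp.out]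
  have hq := q_pos (p := p)
  obtain ⟨K, hK, hK0, hKd⟩ := hd.dbl 4
  refine tsum_ne_top_of_tail _ 1
    (fun n => ENNReal.rpow_ne_top_of_nonneg hq.le (alpha_ne_top hd A x n)) ?_
  refine ne_top_of_le_ne_top (ENNReal.mul_ne_top (a := 2 * K ^ (1 / (p - 1)))
    (ENNReal.mul_ne_top (by simp) (ENNReal.rpow_ne_top_of_nonneg hq.le hK)) h.ne) ?_
  have hsub : (⋃ k : ℕ, Ico (ell (k + 1)) (ell k)) ⊆ Ioo (0 : ℝ) 1 :=
    iUnion_subset fun k r hr => ⟨(ell_pos _).trans_le hr.1, hr.2.trans_le (ell_le_one k)⟩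
  refine le_trans ?_ (mul_le_mul_right (lintegral_mono_set hsub) _)
  rw [lintegral_iUnion (fun _ => measurableSet_Ico), ← ENNReal.tsum_mul_left]
  swap
  · rw [pairwise_disjoint_on]
    intro k k' hk
    rw [Set.disjoint_left]
    intro r h1 h2
    have := ell_anti (show k + 1 ≤ k' from hk)
    linarith [h1.1, h2.2]
  refine ENNReal.tsum_le_tsum fun k => ?_
  have hl := ell_pos (k + 1)
  have hlk : ell k = 2 * ell (k + 1) := by rw [ell_succ]; ring
  have h1 : ∀ r ∈ Ico (ell (k + 1)) (ell k),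
      (alpha μ p A x (k + 1) / K) ^ (1 / (p - 1)) / ENNReal.ofReal (ell k) ≤
      (varCap μ p (A ∩ ball x r) (ball x (2 * r)) / varCap μ p (ball x r) (ball x (2 * r)))
        ^ (1 / (p - 1)) / ENNReal.ofReal r := by
    intro r hr
    have hr0 : 0 < r := hl.trans_le hr.1
    have hr2 := hr.2
    have a1 : varCap μ p (ball x r) (ball x (2 * r)) ≤ K * beta μ p x (k + 1) := by
      refine (varCap_le_ball hd hr0 le_rfl subset_rfl).trans ?_
      rw [beta, ← mul_div_assoc]
      gcongr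
      · exact hKd x _ hl _ fun z hz => by rw [mem_ball] at hz; linarith
      · exact hr.1
    have a2 : dcap μ p A x (k + 1) ≤ varCap μ p (A ∩ ball x r) (ball x (2 * r)) :=
      varCap_mono hd (inter_subset_inter_right _ (ball_subset_ball hr.1))
        (ball_subset_ball (by linarith))
    have a3 : alpha μ p A x (k + 1) / K = dcap μ p A x (k + 1) / (K * beta μ p x (k + 1)) := by
      rw [alpha, ENNReal.div_eq_inv_mul, ENNReal.div_eq_inv_mul, ENNReal.div_eq_inv_mul,
        ENNReal.mul_inv (Or.inl hK0) (Or.inl hK), mul_assoc]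
    rw [a3]
    gcongr
  calc alpha μ p A x (k + 1) ^ (1 / (p - 1))
      = 2 * K ^ (1 / (p - 1)) * ((alpha μ p A x (k + 1) / K) ^ (1 / (p - 1))
        / ENNReal.ofReal (ell k) * volume (Ico (ell (k + 1)) (ell k))) := by
        have e : ell k - ell (k + 1) = ell k / 2 := by rw [ell_succ]; ring
        rw [Real.volume_Ico, e, ENNReal.ofReal_div_of_pos (by norm_num), ENNReal.ofReal_ofNat,
          ← mul_div_assoc, ENNReal.div_mul_cancel (ofReal_ell_ne_zero _) ENNReal.ofReal_ne_top,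
          mul_comm 2, mul_assoc, ENNReal.mul_div_cancel (by norm_num) (by norm_num),
          ← ENNReal.mul_rpow_of_nonneg _ _ hq.le, ENNReal.mul_div_cancel hK0 hK]
    _ ≤ _ := by
        gcongr
        rw [← setLIntegral_const]
        exact setLIntegral_mono' measurableSet_Ico h1

/-- The standing assumptions, with chosen constants, a net and two distinct points. -/
structure Ctx (μ : Measure X) (p : ℝ) where
  /-- the net -/
  N : Net X
  /-- Poincare constant -/
  C : ℝ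
  /-- dilation constant -/
  lam : ℝ
  /-- first point -/
  x1 : X
  /-- second point -/
  x2 : X
  hd : IsDoubling μ
  hPI : PIc μ p C lam
  hC : 0 < C
  hlam : 1 ≤ lam
  hne : x1 ≠ x2

lemma Ctx.global (c : Ctx μ p) :
    ∃ (K : ℝ≥0∞) (j1 : ℕ), K ≠ ∞ ∧ K ≠ 0 ∧ ∀ (u : X → ℝ) (g : X → ℝ≥0∞) (A : Set X) (x : X) (j : ℕ),
      j1 ≤ j → Adm μ p A (ball x (4 * ell (j + 5))) u g →
        μ {y | 1 / 4 ≤ u y} ≤ K * ENNReal.ofReal (ell (j + 5)) ^ p * ∫⁻ y, g y ^ p ∂μ ∧
        (∫⁻ y, g y ^ p ∂μ ≠ ∞ → ∃ l : c.N.I → ℝ≥0∞, c.N.cut (j + 1) l = l ∧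
          en (c.N.wt μ p) p l ≤ K * ∫⁻ y, g y ^ p ∂μ ∧
          ∀ᶠ y in qe μ p, y ∈ A → 1 ≤ pot (c.N.S (15 * c.lam)) l y) := by
  have hp0 : 0 < p := by linarith [hp.out]
  obtain ⟨K, hK, h⟩ := c.N.global c.hd c.hPI c.hC c.hlam c.x1 c.x2
  obtain ⟨j1, hj1⟩ := exists_ell_le (r := dist c.x1 c.x2 / 2) (by simpa using c.hne)
  have h32 : (32 : ℝ≥0∞) ^ p ≠ ∞ := ENNReal.rpow_ne_top_of_nonneg hp0.le (by simp)
  have h32' : 1 ≤ (32 : ℝ≥0∞) ^ p := ENNReal.one_le_rpow (by norm_num) hp0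
  refine ⟨K * 32 ^ p + 1, j1, by finiteness, by simp, fun u g A x j hj hA => ?_⟩
  have e : ell j = 32 * ell (j + 5) := by rw [← ell_add j 5]; ring
  obtain ⟨h1, h2⟩ := h u g hA.good hA.le_one j x ((ell_anti hj).trans hj1)
    (fun y hy => hA.zero y (by rwa [e, show 32 * ell (j + 5) / 8 = 4 * ell (j + 5) by ring] at hy))
  constructor
  · refine h1.trans ?_
    rw [e, ENNReal.ofReal_mul (by norm_num), ENNReal.mul_rpow_of_nonneg _ _ hp0.le, ← mul_assoc,
      ENNReal.ofReal_ofNat]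
    gcongr
    exact le_self_add
  · intro hg
    obtain ⟨l, a1, a2, a3⟩ := h2 hg
    refine ⟨l, a1, a2.trans ?_, a3.mono fun y hy hyA => by simpa [hA.one y hyA] using hy⟩
    gcongr
    exact le_trans (le_mul_of_one_le_right' h32') le_self_add

lemma DThin.isThin (c : Ctx μ p) {A : Set X} {x : X} (h : DThin μ p A x) : IsThin μ p A x := by
  have hp0 : 0 < p := by linarith [hp.out]
  have hq := q_pos (p := p)
  have hd := c.hd
  obtain ⟨K, j1, hK, hK0, hKe⟩ := c.global
  obtain ⟨K2, hK2, hK20, hKd⟩ := hd.dbl 2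
  have h2p : (2 : ℝ≥0∞) ^ p ≠ ∞ := ENNReal.rpow_ne_top_of_nonneg hp0.le (by simp)
  let f : ℝ → ℝ≥0∞ := fun r =>
    varCap μ p (A ∩ ball x r) (ball x (2 * r)) / varCap μ p (ball x r) (ball x (2 * r))
  have hf1 : ∀ r, f r ≤ 1 := fun r => ENNReal.div_le_of_le_mul (by
    rw [one_mul]; exact varCap_mono hd inter_subset_right subset_rfl)
  have hf2 : ∀ j, j1 ≤ j → ∀ r ∈ Ico (ell (j + 5 + 1)) (ell (j + 5)),
      f r ≤ (2 ^ p + K * 2 ^ p) * (K2 * K) * alpha μ p A x (j + 5) := by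
    intro j hj r hr
    have hl := ell_pos (j + 5)
    have hr1 : ell (j + 5) ≤ 2 * r := by have := hr.1; rw [ell_succ] at this; linarith
    have hr0 : 0 < r := by linarith
    have hr2 := hr.2
    have a1 : varCap μ p (A ∩ ball x r) (ball x (2 * r))
        ≤ (2 ^ p + K * 2 ^ p) * dcap μ p A x (j + 5) := by
      refine le_mul_varCap (by finiteness) (dcap_lt_top hd A x _) fun u g hu _ => ?_
      refine (lemmaC hd hu.good hr0 le_rfl inter_subset_right fun y hy =>
        (hu.one y ⟨hy.1, ball_subset_ball hr2.le hy.2⟩).ge).trans ?_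
      rw [add_mul]
      gcongr
      · exact Measure.restrict_le_self
      · refine ENNReal.div_le_of_le_mul ?_
        refine le_trans (measure_mono fun y hy => ?_) ((hKe u g _ x j hj hu).1.trans ?_)
        · have : 1 / 2 ≤ u y := hy.2
          show 1 / 4 ≤ u y
          linarith
        · calc _ ≤ K * ENNReal.ofReal (2 * r) ^ p * ∫⁻ y, g y ^ p ∂μ := by gcongr
            _ = _ := by
              rw [ENNReal.ofReal_mul (by norm_num), ENNReal.mul_rpow_of_nonneg _ _ hp0.le,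
                ENNReal.ofReal_ofNat]; ring
    have a2 : beta μ p x (j + 5) ≤ (K2 * K) * varCap μ p (ball x r) (ball x (2 * r)) := by
      refine le_mul_varCap (by finiteness) (varCap_lt_top hd hr0 le_rfl subset_rfl)
        fun u g hu _ => ?_
      have hu' : Adm μ p (ball x r) (ball x (4 * ell (j + 5))) u g :=
        ⟨hu.good, hu.nonneg, hu.le_one, hu.one,
          fun y hy => hu.zero y fun hh => hy (ball_subset_ball (by linarith) hh)⟩
      refine ENNReal.div_le_of_le_mul ?_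
      calc _ ≤ K2 * μ (ball x r) := hKd x r hr0 _ fun z hz => by rw [mem_ball] at hz; linarith
        _ ≤ K2 * (K * ENNReal.ofReal (ell (j + 5)) ^ p * ∫⁻ y, g y ^ p ∂μ) := by
            gcongr
            refine le_trans (measure_mono fun y hy => ?_) (hKe u g _ x j hj hu').1
            show 1 / 4 ≤ u y
            rw [hu.one y hy]; norm_num
        _ = _ := by ring
    refine ENNReal.div_le_of_le_mul (a1.trans ?_)
    have e : dcap μ p A x (j + 5) = alpha μ p A x (j + 5) * beta μ p x (j + 5) :=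
      (ENNReal.div_mul_cancel (beta_ne_zero hd x _) (beta_ne_top hd x _)).symm
    rw [e]
    calc _ ≤ (2 ^ p + K * 2 ^ p) * (alpha μ p A x (j + 5)
          * ((K2 * K) * varCap μ p (ball x r) (ball x (2 * r)))) := by gcongr
      _ = _ := by ring
  have hsub : Ioo (0 : ℝ) 1 ⊆ ⋃ k : ℕ, Ico (ell (k + 1)) (ell k) := by
    intro r hr
    obtain ⟨n, h1, h2⟩ := exists_nat_pow_near_of_lt_one hr.1 hr.2.le
      (show (0 : ℝ) < 2⁻¹ by norm_num) (by norm_num)
    rcases h2.eq_or_lt with h3 | h3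
    · cases n with
      | zero => simp at h3; exact absurd h3 hr.2.ne
      | succ n =>
        refine mem_iUnion.2 ⟨n, h3.ge, ?_⟩
        rw [h3]; exact pow_lt_pow_right_of_lt_one₀ (by norm_num) (by norm_num) (Nat.lt_succ_self n)
    · exact mem_iUnion.2 ⟨n, h1.le, h3⟩
  have hint : ∀ (k : ℕ) (b : ℝ≥0∞), (∀ r ∈ Ico (ell (k + 1)) (ell k), f r ≤ b) →
      ∫⁻ r in Ico (ell (k + 1)) (ell k), f r ^ (1 / (p - 1)) / ENNReal.ofReal r
        ≤ b ^ (1 / (p - 1)) := by
    intro k b hb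
    calc _ ≤ ∫⁻ _ in Ico (ell (k + 1)) (ell k),
          b ^ (1 / (p - 1)) / ENNReal.ofReal (ell (k + 1)) := by
          refine setLIntegral_mono' measurableSet_Ico fun r hr => ?_
          gcongr
          · exact hb r hr
          · exact hr.1
      _ = _ := by
          have e : ell k - ell (k + 1) = ell (k + 1) := by rw [ell_succ]; ring
          rw [setLIntegral_const, Real.volume_Ico, e,
            ENNReal.div_mul_cancel (ofReal_ell_ne_zero _) ENNReal.ofReal_ne_top]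
  refine lt_of_le_of_lt ((lintegral_mono_set hsub).trans (lintegral_iUnion_le _ _)) ?_
  refine lt_top_iff_ne_top.2 (tsum_ne_top_of_tail _ (j1 + 5) (fun n => ?_) ?_)
  · exact ne_top_of_le_ne_top (by simp) (hint n 1 fun r _ => hf1 r)
  · refine ne_top_of_le_ne_top (ENNReal.mul_ne_top
      (a := ((2 ^ p + K * 2 ^ p) * (K2 * K)) ^ (1 / (p - 1)))
      (ENNReal.rpow_ne_top_of_nonneg hq.le (by finiteness)) h) ?_
    refine le_trans ?_ (mul_le_mul_right (tsum_tail_le _ (j1 + 5)) _)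
    rw [← ENNReal.tsum_mul_left]
    refine ENNReal.tsum_le_tsum fun n => ?_
    rw [← ENNReal.mul_rpow_of_nonneg _ _ hq.le, ← add_assoc]
    exact hint _ _ (hf2 (n + j1) (by omega))

lemma alpha_mono (hd : IsDoubling μ) {A A' : Set X} (h : A ⊆ A') (x : X) (k : ℕ) :
    alpha μ p A x k ≤ alpha μ p A' x k := by
  unfold alpha
  gcongr
  exact varCap_mono hd (inter_subset_inter_left _ h) subset_rfl

lemma DThin.mono (hd : IsDoubling μ) {A A' : Set X} {x : X} (h : DThin μ p A' x) (hA : A ⊆ A') :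
    DThin μ p A x :=
  ne_top_of_le_ne_top h (ENNReal.tsum_le_tsum fun k =>
    ENNReal.rpow_le_rpow (alpha_mono hd hA x k) q_pos.le)

lemma DThin.union (hd : IsDoubling μ) {A A' : Set X} {x : X} (h : DThin μ p A x)
    (h' : DThin μ p A' x) : DThin μ p (A ∪ A') x := by
  have hq := q_pos (p := p)
  refine ne_top_of_le_ne_top (ENNReal.mul_ne_top (a := 2 ^ (1 / (p - 1)))
    (ENNReal.rpow_ne_top_of_nonneg hq.le (by simp)) (ENNReal.add_ne_top.2 ⟨h, h'⟩)) ?_
  rw [← ENNReal.tsum_add, ← ENNReal.tsum_mul_left]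
  refine ENNReal.tsum_le_tsum fun k => ?_
  have h1 : alpha μ p (A ∪ A') x k ≤ alpha μ p A x k + alpha μ p A' x k := by
    unfold alpha dcap
    rw [← ENNReal.add_div, union_inter_distrib_right]
    gcongr
    exact varCap_union_le hd _ _ _ _
  rcases le_total (alpha μ p A x k) (alpha μ p A' x k) with h2 | h2
  · calc _ ≤ (2 * alpha μ p A' x k) ^ (1 / (p - 1)) := by
          gcongr; rw [two_mul]; exact h1.trans (by gcongr)
      _ ≤ _ := by rw [ENNReal.mul_rpow_of_nonneg _ _ hq.le]; gcongr; exact le_add_self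
  · calc _ ≤ (2 * alpha μ p A x k) ^ (1 / (p - 1)) := by
          gcongr; rw [two_mul]; exact h1.trans (by gcongr)
      _ ≤ _ := by rw [ENNReal.mul_rpow_of_nonneg _ _ hq.le]; gcongr; exact le_self_add

lemma dthin_polar (hd : IsDoubling μ) {E : Set X} (hE : ∀ᶠ y in qe μ p, y ∉ E) (x : X) :
    DThin μ p E x := by
  have : ∀ k, alpha μ p E x k = 0 := by
    intro k
    rw [alpha, dcap, varCap_polar hd (hE.mono fun y hy h => hy h.1)
      (inter_subset_right.trans (ball_subset_ball (by linarith [ell_pos k])))]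
    simp
  simp only [DThin, this, ENNReal.zero_rpow_of_pos (q_pos (p := p))]
  simp

lemma Ctx.finelyOpen_iff (c : Ctx μ p) {V : Set X} :
    IsFinelyOpen μ p V ↔ ∀ x ∈ V, DThin μ p Vᶜ x :=
  ⟨fun h x hx => (h x hx).dthin c.hd, fun h x hx => (h x hx).isThin c⟩

lemma Ctx.finelyOpen_of_isOpen (c : Ctx μ p) {V : Set X} (h : IsOpen[fineTopology μ p] V) :
    IsFinelyOpen μ p V := by
  rw [c.finelyOpen_iff]
  induction h with
  | basic V hV => exact c.finelyOpen_iff.1 hV
  | univ => exact fun x _ => dthin_polar c.hd (by simp) x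
  | inter V W _ _ h1 h2 =>
    intro x hx
    rw [compl_inter]
    exact (h1 x hx.1).union c.hd (h2 x hx.2)
  | sUnion S _ h1 =>
    rintro x ⟨V, hV, hx⟩
    exact (h1 V hV x hx).mono c.hd (compl_subset_compl.2 (subset_sUnion_of_mem hV))

end Pool.Agent.H20Z.Fine
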