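import Mathlib
import Pool.Agent.H20Z.FineThin

set_option autoImplicit false

open MeasureTheory Set Metric Filter Topology
open scoped ENNReal NNReal

namespace Pool.Agent.H20Z.Fine

variable {X : Type*} [MetricSpace X] [MeasurableSpace X] [BorelSpace X] {μ : Measure X} {p : ℝ}
  [hp : Fact (1 < p)]

omit [MeasurableSpace X] [BorelSpace X] in
lemma Net.pot_cut (N : Net X) (D : ℝ) (j : ℕ) (l : N.I → ℝ≥0∞) (y : X) :
    pot (fun i => if j ≤ N.lev i then N.S D i else ∅) l y = pot (N.S D) (N.cut j l) y := by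
  unfold pot Net.cut
  congr 1; ext i
  by_cases h : j ≤ N.lev i <;> simp [h]

lemma tsum_max_le (f : ℕ → ℝ≥0∞) (c j : ℕ) :
    ∑' n, f (max (n + (j + 1) - c) (j + 5)) ≤ (c + 5) * ∑' n, f (n + (j + 5)) := by
  rw [← (ENNReal.summable (f := fun n => f (max (n + (c + 4) + (j + 1) - c) (j + 5)))
    ).sum_add_tsum_nat_add' (f := fun n => f (max (n + (j + 1) - c) (j + 5)))]
  have e : ∀ n, max (n + (c + 4) + (j + 1) - c) (j + 5) = n + (j + 5) := fun n => by omega
  simp only [e]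
  have h : ∑ n ∈ Finset.range (c + 4), f (max (n + (j + 1) - c) (j + 5))
      ≤ (c + 4 : ℕ) * ∑' n, f (n + (j + 5)) := by
    refine (Finset.sum_le_card_nsmul _ _ (∑' n, f (n + (j + 5))) fun n hn => ?_).trans
      (by simp)
    rw [Finset.mem_range] at hn
    have : max (n + (j + 1) - c) (j + 5) = 0 + (j + 5) := by omega
    rw [this]
    exact ENNReal.le_tsum (f := fun n => f (n + (j + 5))) 0
  calc _ ≤ (c + 4 : ℕ) * ∑' n, f (n + (j + 5)) + ∑' n, f (n + (j + 5)) := by gcongr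
    _ = _ := by push_cast; ring

/-- A weak Cartan property in the discrete model. -/
lemma Ctx.cartan (c : Ctx μ p) : ∃ (K : ℝ≥0∞) (j1 : ℕ), K ≠ ∞ ∧ ∀ (A : Set X) (j0 : ℕ)
    (Q : c.N.I), c.N.lev Q = j0 + 7 → ∃ l : c.N.I → ℝ≥0∞, en (c.N.wt μ p) p l ≠ ∞ ∧
      (∀ᶠ y in qe μ p, y ∈ A ∩ ball (c.N.ctr Q) (2 * ell (j0 + 7)) →
        1 ≤ pot (c.N.S (15 * c.lam)) l y) ∧
      ∀ x, dist x (c.N.ctr Q) < ell (j0 + 7) → j1 ≤ j0 → pot (c.N.S (15 * c.lam)) l x
        ≤ K * ∑' n, alpha μ p A x (n + (j0 + 5)) ^ (1 / (p - 1)) := by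
  classical
  have hp0 : 0 < p := by linarith [hp.out]
  have hp1 : 0 < p - 1 := by linarith [hp.out]
  have hq := q_pos (p := p)
  have hd := c.hd
  have hlam := c.hlam
  set N := c.N
  set D := 15 * c.lam with hD
  obtain ⟨K, j1, hK, -, hKe⟩ := c.global
  obtain ⟨M, hM, hMe⟩ := N.pot_le hd D
  obtain ⟨c1, hc1⟩ := pow_unbounded_of_one_lt (2 * D) (show (1 : ℝ) < 2 by norm_num)
  obtain ⟨K2, hK2, -, hK2e⟩ := hd.dbl (2 ^ c1 + D)
  have h3p : (3 : ℝ≥0∞) ^ p ≠ ∞ := ENNReal.rpow_ne_top_of_nonneg hp0.le (by simp)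
  have h16p : (16 : ℝ≥0∞) ^ p ≠ ∞ := ENNReal.rpow_ne_top_of_nonneg hp0.le (by simp)
  set K3 := 3 ^ p * K * (K2 * 16 ^ p) with hK3
  have hK3t : K3 ^ (1 / (p - 1)) ≠ ∞ := ENNReal.rpow_ne_top_of_nonneg hq.le (by finiteness)
  refine ⟨M * ((c1 + 5) * K3 ^ (1 / (p - 1))), j1, by finiteness, fun A j0 Q hQ => ?_⟩
  obtain ⟨l, h1, h2, h3⟩ := exists_potential hp.out (N.wt μ p) (N.wt_ne_zero hd hp0.le)
    (N.wt_ne_top hd p) (fun i => if j0 + 1 ≤ N.lev i then N.S D i else ∅) (qe μ p)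
    (A ∩ ball (N.ctr Q) (2 * ell (j0 + 7)))
    (fun L hL => by
      simp only [N.pot_cut]
      exact N.pot_qe_ne_top hd D _ (ne_top_of_le_ne_top hL (en_mono _ hp0.le (N.cut_le _ L))))
    (fun i => if i = Q then 1 else 0)
    (by
      unfold en
      rw [tsum_eq_single Q fun i hi => by simp [hi, hp0]]
      simpa using N.wt_ne_top hd p Q)
    (Eventually.of_forall fun y hy => by
      rw [pot_single, if_pos (by omega), indicator_of_mem]
      have h : dist y (N.ctr Q) < 2 * ell (j0 + 7) := hy.2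
      have := ell_pos (j0 + 7)
      show dist _ _ ≤ _
      rw [hQ]; nlinarith)
  simp only [N.pot_cut] at h2 h3
  refine ⟨N.cut (j0 + 1) l, ne_top_of_le_ne_top h1 (en_mono _ hp0.le (N.cut_le _ l)), h2,
    fun x hx hj => ?_⟩
  refine (hMe _ x (fun k => if j0 + 1 ≤ k then
    (K3 * alpha μ p A x (max (k - c1) (j0 + 5))) ^ (1 / (p - 1)) else 0) fun i hi => ?_).trans ?_
  · unfold Net.cut
    split_ifs with hji
    swap
    · exact le_rfl
    obtain ⟨j, hjk⟩ : ∃ j, max (N.lev i - c1) (j0 + 5) = j + 5 :=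
      ⟨max (N.lev i - c1) (j0 + 5) - 5, by omega⟩
    have hxi : dist x (N.ctr i) ≤ D * ell (N.lev i) := hi
    have hl := ell_pos (N.lev i)
    have a1 : N.wt μ p i * l i ^ (p - 1) ≤ 3 ^ p * K * dcap μ p A x (j + 5) := by
      refine le_mul_varCap (by finiteness) (dcap_lt_top hd A x _) fun u g hu hg => ?_
      obtain ⟨l', b1, b2, b3⟩ := (hKe u g _ x j (by omega) hu).2 hg.ne
      have b4 : N.cut (j0 + 1) l' = l' := by
        ext i'
        refine le_antisymm (N.cut_le _ _ _) ?_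
        conv_lhs => rw [← b1]
        exact N.cut_anti (by omega) l' i'
      refine (h3 i l' ?_).trans (by rw [mul_assoc]; gcongr)
      rw [b4]
      filter_upwards [b3] with y hy hyF hyi
      refine hy ⟨hyF.1, ?_⟩
      rw [if_pos hji] at hyi
      have hyi' : dist y (N.ctr i) ≤ D * ell (N.lev i) := hyi
      have hyQ : dist y (N.ctr Q) < 2 * ell (j0 + 7) := hyF.2
      rw [mem_ball]
      rcases le_total (N.lev i - c1) (j0 + 5) with hc | hc
      · have e : j + 5 = j0 + 5 := by omega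
        have := ell_add (j0 + 5) 2
        have := dist_triangle_right y x (N.ctr Q)
        have := ell_pos (j0 + 7)
        rw [e]; norm_num at *; linarith
      · have e : N.lev i = j + 5 + c1 := by omega
        have h4 := ell_add (j + 5) c1
        rw [← e] at h4
        have := dist_triangle_right y x (N.ctr i)
        nlinarith
    have a2 : beta μ p x (j + 5) ≤ K2 * 16 ^ p * N.wt μ p i := by
      have b1 : ell (j + 5) ≤ 2 ^ c1 * ell (N.lev i) := by
        rw [← ell_add (j + 5) c1, mul_comm]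
        gcongr
        exact ell_anti (by omega)
      have b2 : ell (N.lev i) ≤ 16 * ell (j + 5) := by
        have h4 := ell_add (N.lev i) 4
        have := ell_anti (show j + 5 ≤ N.lev i + 4 by omega)
        norm_num at h4; linarith
      have b3 : μ (ball x (ell (j + 5))) ≤ K2 * μ (N.S 1 i) := by
        refine (hK2e (N.ctr i) _ hl _ fun z hz => ?_).trans
          (by gcongr; simpa [Net.S] using ball_subset_closedBall)
        have := dist_triangle z x (N.ctr i)
        rw [mem_ball] at hz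
        linarith
      have b4 : ENNReal.ofReal (ell (N.lev i)) ^ p
          ≤ 16 ^ p * ENNReal.ofReal (ell (j + 5)) ^ p := by
        rw [← ENNReal.mul_rpow_of_nonneg _ _ hp0.le, ← ENNReal.ofReal_ofNat,
          ← ENNReal.ofReal_mul (by norm_num)]
        gcongr
      refine ENNReal.div_le_of_le_mul (b3.trans ?_)
      calc K2 * μ (N.S 1 i) = K2 * (N.wt μ p i * ENNReal.ofReal (ell (N.lev i)) ^ p) := by
            rw [Net.wt, ENNReal.div_mul_cancel (ellp_ne_zero _ _) (ellp_ne_top _)]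
        _ ≤ K2 * (N.wt μ p i * (16 ^ p * ENNReal.ofReal (ell (j + 5)) ^ p)) := by gcongr
        _ = _ := by ring
    have a3 : N.wt μ p i * l i ^ (p - 1) ≤ N.wt μ p i * (K3 * alpha μ p A x (j + 5)) := by
      refine a1.trans ?_
      have e : dcap μ p A x (j + 5) = alpha μ p A x (j + 5) * beta μ p x (j + 5) :=
        (ENNReal.div_mul_cancel (beta_ne_zero hd x _) (beta_ne_top hd x _)).symm
      rw [e]
      calc _ ≤ 3 ^ p * K * (alpha μ p A x (j + 5) * (K2 * 16 ^ p * N.wt μ p i)) := by gcongr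
        _ = _ := by rw [hK3]; ring
    have a4 := (ENNReal.mul_le_mul_iff_right (N.wt_ne_zero hd hp0.le i) (N.wt_ne_top hd p i)).1 a3
    rw [hjk]
    calc l i = (l i ^ (p - 1)) ^ (1 / (p - 1)) := by
          rw [← ENNReal.rpow_mul, mul_one_div_cancel hp1.ne', ENNReal.rpow_one]
      _ ≤ _ := by gcongr
  · rw [mul_assoc]
    gcongr
    rw [tsum_ite_le (fun k => (K3 * alpha μ p A x (max (k - c1) (j0 + 5))) ^ (1 / (p - 1)))]
    refine (tsum_max_le (fun k => (K3 * alpha μ p A x k) ^ (1 / (p - 1))) c1 j0).trans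
      (le_of_eq ?_)
    simp only [ENNReal.mul_rpow_of_nonneg _ _ hq.le, ENNReal.tsum_mul_left, mul_assoc]

/-- Finely open sets are measurable and open along almost every curve. -/
theorem Ctx.pathOpen (c : Ctx μ p) {V : Set X} (hV : IsFinelyOpen μ p V) :
    NullMeasurableSet V μ ∧ ∀ᶠ γ in aeC μ p, ∀ t ∈ Icc γ.a γ.b, γ.toFun t ∈ V →
      ∀ᶠ τ in 𝓝[Icc γ.a γ.b] t, γ.toFun τ ∈ V := by
  have hd := c.hd
  have := c.N.countable hd
  obtain ⟨K, j1, hK, h⟩ := c.cartan
  choose l h1 h2 h3 using fun q : {q : ℕ × c.N.I // c.N.lev q.2 = q.1 + 7} =>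
    h Vᶜ q.1.1 q.1.2 q.2
  have key : ∀ x ∈ V, ∃ q : {q : ℕ × c.N.I // c.N.lev q.2 = q.1 + 7},
      dist x (c.N.ctr q.1.2) < ell (q.1.1 + 7) ∧ pot (c.N.S (15 * c.lam)) (l q) x < 1 := by
    intro x hx
    have t1 := ENNReal.Tendsto.const_mul (a := K)
      ((ENNReal.tendsto_sum_nat_add _ (c.finelyOpen_iff.1 hV x hx)).comp
        (tendsto_add_atTop_nat 5)) (Or.inr hK)
    rw [mul_zero] at t1
    obtain ⟨j, hj1, hj2⟩ := ((t1.eventually (gt_mem_nhds one_pos)).and
      (eventually_ge_atTop j1)).exists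
    obtain ⟨Q, hQ1, hQ2⟩ := c.N.exists_idx (j + 7) x
    exact ⟨⟨(j, Q), hQ1⟩, hQ2, (h3 ⟨(j, Q), hQ1⟩ x hQ2 hj2).trans_lt hj1⟩
  have h4 := eventually_qe.1 (eventually_countable_forall.2 h2)
  constructor
  · have hG : MeasurableSet (⋃ q : {q : ℕ × c.N.I // c.N.lev q.2 = q.1 + 7},
        ball (c.N.ctr q.1.2) (2 * ell (q.1.1 + 7)) ∩
          {y | pot (c.N.S (15 * c.lam)) (l q) y < 1}) :=
      MeasurableSet.iUnion fun q => measurableSet_ball.inter
        (measurableSet_lt (c.N.measurable_pot hd _ _) measurable_const)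
    refine hG.nullMeasurableSet.congr ?_
    filter_upwards [h4.1] with y hy
    refine propext ⟨fun h => ?_, fun h => ?_⟩
    · obtain ⟨q, a1, a2⟩ := mem_iUnion.1 h
      by_contra hh
      exact absurd (hy q ⟨hh, a1⟩) (not_le.2 a2)
    · obtain ⟨q, a1, a2⟩ := key y h
      exact mem_iUnion.2 ⟨q, by rw [mem_ball]; linarith [ell_pos (q.1.1 + 7)], a2⟩
  · filter_upwards [h4.2, eventually_countable_forall.2 fun q =>
      c.N.pot_usc hd (15 * c.lam) (l q) (h1 q)] with γ a1 a2 t ht htV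
    obtain ⟨q, b1, b2⟩ := key _ htV
    filter_upwards [a2 q t ht 1 b2, self_mem_nhdsWithin, (γ.cont t ht).eventually
      (isOpen_ball.mem_nhds (show γ.toFun t ∈ ball (c.N.ctr q.1.2) (2 * ell (q.1.1 + 7)) by
        rw [mem_ball]; linarith [ell_pos (q.1.1 + 7)]))] with τ d1 d2 d3
    by_contra hh
    exact absurd (a1 τ d2 q ⟨hh, d3⟩) (not_le.2 d1)

end Pool.Agent.H20Z.Fine
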