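import Mathlib
import Pool.Agent.H20Z.FineOpen

set_option autoImplicit false

open MeasureTheory Set Metric Filter Topology
open scoped ENNReal NNReal

namespace Pool.Agent.H20Z.Fine

variable {X : Type*} [MetricSpace X] [MeasurableSpace X] [BorelSpace X] {μ : Measure X} {p : ℝ}
  [hp : Fact (1 < p)]

/-- A splitting of the complement of `A ∪ E` into two finely open sets. -/
structure Split (μ : Measure X) (p : ℝ) [Fact (1 < p)] (A E V1 V2 : Set X) : Prop where
  polar : ∀ᶠ y in qe μ p, y ∉ E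
  open1 : IsFinelyOpen μ p V1
  open2 : IsFinelyOpen μ p V2
  disj : Disjoint V1 V2
  cover : ∀ y, y ∈ A ∨ y ∈ E ∨ y ∈ V1 ∨ y ∈ V2

omit [BorelSpace X] in
lemma Split.symm {A E V1 V2 : Set X} (h : Split μ p A E V1 V2) : Split μ p A E V2 V1 :=
  ⟨h.polar, h.open2, h.open1, h.disj.symm, fun y => by have := h.cover y; tauto⟩

lemma Split.good (c : Ctx μ p) {A E V1 V2 : Set X} (h : Split μ p A E V1 V2) {u : X → ℝ}
    {g : X → ℝ≥0∞} (hu : Good μ p u g) (h0 : ∀ y, 0 ≤ u y) (h1 : ∀ y, u y ≤ 1)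
    (hA : ∀ y ∈ A, u y = 1) {x : X} {R : ℝ} (hR : ∀ y ∉ ball x R, u y = 1) :
    Good μ p (fun y => max (V1.indicator (fun _ => 1) y) (u y)) g := by
  classical
  obtain ⟨m1, o1⟩ := c.pathOpen h.open1
  obtain ⟨-, o2⟩ := c.pathOpen h.open2
  refine ⟨(aemeasurable_const.indicator₀ m1).max hu.aem, hu.mg, ?_, x, R, 1, fun y hy => ?_⟩
  swap
  · rw [hR y hy]; exact max_eq_right (indicator_le_self' (by simp) y)
  filter_upwards [hu.ok, o1, o2, (eventually_qe.1 h.polar).2] with γ hγ a1 a2 a3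
  refine ⟨fun s t hs hst ht => ?_, hγ.2⟩
  have hsub : Icc s t ⊆ Icc γ.a γ.b := Icc_subset_Icc hs ht
  have mixed : ¬ (γ.toFun s ∈ V1 ↔ γ.toFun t ∈ V1) → ∃ τ ∈ Icc s t, u (γ.toFun τ) = 1 := by
    intro hne
    by_contra hh
    push Not at hh
    apply hne
    have hc : ContinuousOn (fun τ => decide (γ.toFun τ ∈ V1)) (Icc s t) := by
      intro τ hτ
      refine tendsto_nhds_of_eventually_eq ?_
      rcases h.cover (γ.toFun τ) with b | b | b | b
      · exact absurd (hA _ b) (hh τ hτ)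
      · exact absurd b (a3 τ (hsub hτ))
      · filter_upwards [nhdsWithin_mono τ hsub (a1 τ (hsub hτ) b)] with τ' h'
        simp [b, show γ.toFun τ' ∈ V1 from h']
      · filter_upwards [nhdsWithin_mono τ hsub (a2 τ (hsub hτ) b)] with τ' h'
        simp [Set.disjoint_right.1 h.disj b, Set.disjoint_right.1 h.disj h']
    simpa using isPreconnected_Icc.constant hc (left_mem_Icc.2 hst) (right_mem_Icc.2 hst)
  by_cases b1 : γ.toFun s ∈ V1 <;> by_cases b2 : γ.toFun t ∈ V1
  · simp [b1, b2, h1]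
  · obtain ⟨τ, hτ, e⟩ := mixed (by simp [b1, b2])
    simp only [indicator_of_mem b1, indicator_of_notMem b2, max_eq_left (h1 _),
      max_eq_right (h0 _)]
    rw [← e]
    exact (hγ.1 τ t (hs.trans hτ.1) hτ.2 ht).trans
      (lintegral_mono_set (Icc_subset_Icc hτ.1 le_rfl))
  · obtain ⟨τ, hτ, e⟩ := mixed (by simp [b1, b2])
    simp only [indicator_of_mem b2, indicator_of_notMem b1, max_eq_left (h1 _),
      max_eq_right (h0 _)]
    rw [← e]
    exact (hγ.1 s τ hs hτ.1 (hτ.2.trans ht)).trans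
      (lintegral_mono_set (Icc_subset_Icc le_rfl hτ.2))
  · simp only [indicator_of_notMem b1, indicator_of_notMem b2, max_eq_right (h0 _)]
    exact hγ.1 s t hs hst ht

lemma Split.exists_w (c : Ctx μ p) {A E V1 V2 : Set X} (h : Split μ p A E V1 V2) {u : X → ℝ}
    {g : X → ℝ≥0∞} {x : X} {r : ℝ} (hr : 0 < r) {B : Set X} (hu : Adm μ p (A ∩ ball x r) B u g) :
    ∃ w g', Good μ p w g' ∧ (∀ y, w y ≤ 1) ∧ (∀ y ∈ V1, w y = 1) ∧
      (∀ y ∈ ball x (r / 2), y ∉ V1 → w y = u y) ∧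
      ∀ T, MeasurableSet T → T ⊆ ball x (r / 2) → ∫⁻ y in T, g' y ^ p ∂μ ≤ ∫⁻ y, g y ^ p ∂μ := by
  have hr2 : 0 < r / 2 := by positivity
  have hG := hu.good.max ((good_cutoff x hr2).affine (-1) 1)
  have hout : ∀ y ∉ ball x r, max (u y) (-1 * cutoff x (r / 2) y + 1) = 1 := by
    intro y hy
    rw [cutoff_zero hr2 (by have : r ≤ dist y x := not_lt.1 hy; linarith)]
    simp [hu.le_one y]
  have hle : ∀ y, max (u y) (-1 * cutoff x (r / 2) y + 1) ≤ 1 := fun y =>
    max_le (hu.le_one y) (by have : 0 ≤ cutoff x (r / 2) y := trunc_nonneg _; linarith)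
  refine ⟨_, _, h.good c hG (fun y => le_max_of_le_left (hu.nonneg y)) hle (fun y hy => ?_) hout,
    fun y => max_le (indicator_le_self' (by simp) y) (hle y), fun y hy => ?_, fun y hy hy' => ?_,
    fun T hT hsub => ?_⟩
  · by_cases hh : y ∈ ball x r
    · exact le_antisymm (hle y) (le_max_of_le_left (hu.one y ⟨hy, hh⟩).ge)
    · exact hout y hh
  · rw [indicator_of_mem hy]; exact max_eq_left (hle y)
  · rw [indicator_of_notMem hy', cutoff_one hr2 (mem_ball.1 hy).le]
    simp [hu.nonneg y]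
  · refine le_trans (le_of_eq (setLIntegral_congr_fun hT fun y hy => ?_))
      (setLIntegral_le_lintegral T _)
    simp [hsub hy]

omit [BorelSpace X] hp in
lemma IsDoubling.dyadic (hd : IsDoubling μ) (c : ℕ) : ∃ K : ℝ≥0∞, K ≠ ∞ ∧ K ≠ 0 ∧
    ∀ (x : X) (k : ℕ), μ (ball x (ell k)) ≤ K * μ (ball x (ell (k + c))) := by
  obtain ⟨K, h1, h2, h⟩ := hd.dbl (2 ^ c)
  refine ⟨K, h1, h2, fun x k => h x _ (ell_pos _) _ fun z hz => ?_⟩
  rw [mul_comm, ell_add]; exact (mem_ball.1 hz).le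

omit [BorelSpace X] in
lemma ellp_mul_beta (x : X) (k : ℕ) :
    ENNReal.ofReal (ell k) ^ p * beta μ p x k = μ (ball x (ell k)) :=
  ENNReal.mul_div_cancel (ellp_ne_zero _ _) (ellp_ne_top _)

lemma Ctx.small (c : Ctx μ p) (c2 : ℕ) {σ : ℝ≥0∞} (hσ : σ ≠ 0) :
    ∃ (δ : ℝ≥0∞) (k1 : ℕ), δ ≠ 0 ∧ ∀ (A : Set X) (x : X) (k : ℕ), k1 ≤ k → ∀ u g,
      Adm μ p A (ball x (4 * ell k)) u g → ∫⁻ y, g y ^ p ∂μ ≤ δ * beta μ p x k →
        μ {y | 1 / 4 ≤ u y} ≤ σ * μ (ball x (ell (k + c2))) := by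
  obtain ⟨K, j1, hK, -, hKe⟩ := c.global
  obtain ⟨K4, hK4, -, h4⟩ := c.hd.dyadic c2
  obtain ⟨δ, hδ, hδ'⟩ := ENNReal.exists_pos_mul_lt (a := K * K4) (by finiteness) hσ
  refine ⟨δ, j1 + 5, hδ.ne', fun A x k hk u g hu hg => ?_⟩
  obtain ⟨j, rfl⟩ : ∃ j, k = j + 5 := ⟨k - 5, by omega⟩
  calc _ ≤ K * ENNReal.ofReal (ell (j + 5)) ^ p * (δ * beta μ p x (j + 5)) :=
        (hKe u g A x j (by omega) hu).1.trans (by gcongr)
    _ = δ * K * μ (ball x (ell (j + 5))) := by rw [← ellp_mul_beta (p := p)]; ring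
    _ ≤ δ * K * (K4 * μ (ball x (ell (j + 5 + c2)))) := by gcongr; exact h4 x _
    _ = δ * (K * K4) * μ (ball x (ell (j + 5 + c2))) := by ring
    _ ≤ _ := by gcongr

omit [BorelSpace X] in
lemma DThin.eventually_lt (hd : IsDoubling μ) {A : Set X} {x : X} (h : DThin μ p A x) {δ : ℝ≥0∞}
    (hδ : δ ≠ 0) : ∀ᶠ k in atTop, dcap μ p A x k < δ * beta μ p x k := by
  have hq := q_pos (p := p)
  have h1 : 0 < δ ^ (1 / (p - 1)) := ENNReal.rpow_pos_of_nonneg (pos_iff_ne_zero.2 hδ) hq.le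
  filter_upwards [(ENNReal.tendsto_atTop_zero_of_tsum_ne_top h).eventually (gt_mem_nhds h1)]
    with k hk
  rw [ENNReal.rpow_lt_rpow_iff hq, alpha,
    ENNReal.div_lt_iff (Or.inl (beta_ne_zero hd x k)) (Or.inl (beta_ne_top hd x k))] at hk
  exact hk

lemma Ctx.sparse (c : Ctx μ p) (c2 : ℕ) {σ : ℝ≥0∞} (hσ : σ ≠ 0) {A : Set X} {x : X}
    (h : DThin μ p A x) :
    ∀ᶠ k in atTop, μ (A ∩ ball x (ell (k + c2))) ≤ σ * μ (ball x (ell (k + c2))) := by
  obtain ⟨δ, k1, hδ, h1⟩ := c.small c2 hσ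
  filter_upwards [h.eventually_lt c.hd hδ, eventually_ge_atTop k1] with k h2 h3
  obtain ⟨u, g, hu, hg⟩ := exists_adm h2
  refine le_trans (measure_mono fun y hy => ?_) (h1 _ x k h3 u g hu hg.le)
  show 1 / 4 ≤ u y
  rw [hu.one y ⟨hy.1, ball_subset_ball (ell_anti (Nat.le_add_right _ _)) hy.2⟩]; norm_num

lemma half_le_of_le_add {a b : ℝ≥0∞} (ha : a ≠ ∞) (h : a ≤ b + 2⁻¹ * a) : 2⁻¹ * a ≤ b := by
  have : 2⁻¹ * a + 2⁻¹ * a ≤ b + 2⁻¹ * a := by
    rwa [← add_mul, ENNReal.inv_two_add_inv_two, one_mul]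
  exact (ENNReal.add_le_add_iff_right (by finiteness)).1 this

lemma Split.one_sparse (c : Ctx μ p) {A E V1 V2 : Set X} (h : Split μ p A E V1 V2) {c2 : ℕ}
    (hc2 : 2 * c.lam ≤ 2 ^ c2) {σ : ℝ≥0∞} (hσ : σ ≠ 0) (hσt : σ ≠ ∞) {x : X}
    (hx : DThin μ p A x) :
    ∀ᶠ k in atTop, μ (V1 ∩ ball x (ell (k + c2))) ≤ σ * μ (ball x (ell (k + c2))) ∨
      μ (V2 ∩ ball x (ell (k + c2))) ≤ σ * μ (ball x (ell (k + c2))) := by
  have hp0 : 0 < p := by linarith [hp.out]
  have hd := c.hd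
  have hlam := c.hlam
  have hC := c.hC
  have hσ2 : 2⁻¹ * σ ≠ 0 := mul_ne_zero (by simp) hσ
  obtain ⟨δ1, k1, hδ1, h1⟩ := c.small c2 hσ2
  obtain ⟨K4, hK4, -, h4⟩ := hd.dyadic c2
  obtain ⟨δ2, hδ2, hδ2'⟩ := ENNReal.exists_pos_mul_lt (a := ENNReal.ofReal (2 * c.C) ^ p * K4)
    (ENNReal.mul_ne_top (ENNReal.rpow_ne_top_of_nonneg hp0.le ENNReal.ofReal_ne_top) hK4)
    (b := (ENNReal.ofReal (1 - 1 / 4) * (2⁻¹ * σ)) ^ p)
    (ENNReal.rpow_pos_of_nonneg (pos_iff_ne_zero.2 (mul_ne_zero (by norm_num) hσ2)) hp0.le).ne'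
  filter_upwards [hx.eventually_lt hd (δ := min δ1 δ2) (lt_min (pos_iff_ne_zero.2 hδ1) hδ2).ne',
    eventually_ge_atTop k1] with k h2 h3
  obtain ⟨u, g, hu, hg⟩ := exists_adm h2
  obtain ⟨w, g', w1, w2, w3, w4, w5⟩ := h.exists_w c (ell_pos k) hu
  have h5 := h1 _ x k h3 u g hu (hg.le.trans (by gcongr; exact min_le_left _ _))
  have hl := ell_pos (k + c2)
  have hl' : c.lam * ell (k + c2) ≤ ell k / 2 := by
    rw [← ell_add k c2]; nlinarith
  have hsub : ball x (ell (k + c2)) ⊆ ball x (ell k / 2) := ball_subset_ball (by nlinarith)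
  have hB0 := (hd.pos x _ hl).ne'
  have hBt := (hd.fin x (ell (k + c2))).ne
  by_contra hh
  push Not at hh
  have hT := lemmaT hd c.hPI c.hC c.hlam w1 (α := 1 / 4) (β := 1) (by norm_num) MeasurableSet.univ
    (by simp) x hl (τ := 2⁻¹ * σ)
    (by
      rw [mul_assoc]
      refine half_le_of_le_add (by finiteness) (hh.2.le.trans ?_)
      rw [← mul_assoc]
      refine le_trans (measure_mono fun y hy => ?_) ((measure_union_le _ _).trans
        (add_le_add le_rfl h5))
      by_cases a : 1 / 4 ≤ u y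
      · exact Or.inr a
      · refine Or.inl ⟨hy.2, ?_⟩
        show w y ≤ 1 / 4
        rw [w4 y (hsub hy.2) (Set.disjoint_right.1 h.disj hy.1)]
        exact (not_le.1 a).le)
    (by
      calc _ ≤ 1 * σ * μ (ball x (ell (k + c2))) := by gcongr; norm_num
        _ ≤ _ := by
          rw [one_mul]
          exact hh.1.le.trans (measure_mono fun y hy => ⟨hy.2, (w3 y hy.1).ge⟩))
  rw [inter_univ] at hT
  have h6 : ENNReal.ofReal (2 * c.C * ell (k + c2)) ^ p
      * ∫⁻ y in ball x (c.lam * ell (k + c2)), g' y ^ p ∂μ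
      ≤ δ2 * (ENNReal.ofReal (2 * c.C) ^ p * K4) * μ (ball x (ell (k + c2))) := by
    calc _ ≤ (ENNReal.ofReal (2 * c.C) * ENNReal.ofReal (ell k)) ^ p * (δ2 * beta μ p x k) := by
          gcongr
          · rw [← ENNReal.ofReal_mul (by positivity)]
            gcongr
            exact ell_anti (Nat.le_add_right _ _)
          · exact (w5 _ measurableSet_ball (ball_subset_ball hl')).trans
              (hg.le.trans (by gcongr; exact min_le_right _ _))
      _ = δ2 * ENNReal.ofReal (2 * c.C) ^ p * μ (ball x (ell k)) := by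
          rw [← ellp_mul_beta (p := p), ENNReal.mul_rpow_of_nonneg _ _ hp0.le]; ring
      _ ≤ δ2 * ENNReal.ofReal (2 * c.C) ^ p * (K4 * μ (ball x (ell (k + c2)))) := by
          gcongr; exact h4 x k
      _ = _ := by ring
  exact absurd ((ENNReal.mul_le_mul_iff_left hB0 hBt).1 (hT.trans h6)) (not_le.2 hδ2')

lemma Ctx.cap_bound (c : Ctx μ p) {c2 : ℕ} (hc2 : 2 * c.lam ≤ 2 ^ c2) :
    ∃ σ : ℝ≥0∞, σ ≠ 0 ∧ ∀ (A E V1 V2 : Set X), Split μ p A E V1 V2 → ∀ x, DThin μ p A x →
      (∀ᶠ k in atTop, μ (V1 ∩ ball x (ell (k + c2))) ≤ σ * μ (ball x (ell (k + c2)))) →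
      DThin μ p V1 x := by
  have hp0 : 0 < p := by linarith [hp.out]
  have hq := q_pos (p := p)
  have hd := c.hd
  have hlam := c.hlam
  obtain ⟨c3, hc3⟩ := pow_unbounded_of_one_lt (20 * c.lam + 3) (show (1 : ℝ) < 2 by norm_num)
  obtain ⟨K6, hK6, -, h6⟩ := hd.dbl (2 * 2 ^ c3)
  obtain ⟨σ, hσ, hσ'⟩ := ENNReal.exists_pos_mul_lt (a := 2 * K6) (by finiteness) (b := 2⁻¹)
    (by simp)
  obtain ⟨KM, hKM, hM⟩ := c.N.lemmaM hd c.hPI c.hC c.hlam (θ := 2⁻¹) (by simp) le_rfl
  obtain ⟨δ, k1, hδ, h1⟩ := c.small c2 hσ.ne'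
  obtain ⟨K7, hK7, -, h7⟩ := hd.dyadic (c2 + c3)
  have h2p : (2 : ℝ≥0∞) ^ p ≠ ∞ := ENNReal.rpow_ne_top_of_nonneg hp0.le (by simp)
  refine ⟨σ, hσ.ne', fun A E V1 V2 h x hx hs => ?_⟩
  have key : ∀ᶠ k in atTop, alpha μ p V1 x (k + (c2 + c3))
      ≤ (2 ^ p + KM) * K7 * alpha μ p A x k := by
    filter_upwards [hx.eventually_lt hd hδ, eventually_ge_atTop k1, hs] with k h2 h3 h4
    have a1 : dcap μ p V1 x (k + (c2 + c3)) ≤ (2 ^ p + KM) * dcap μ p A x k := by
      refine le_mul_varCap (by finiteness) h2 fun u g hu hg => ?_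
      obtain ⟨w, g', w1, w2, w3, w4, w5⟩ := h.exists_w c (ell_pos k) hu
      have h5 := h1 _ x k h3 u g hu hg.le
      set r := ell (k + (c2 + c3)) with hr
      have hr0 : 0 < r := ell_pos _
      have e1 : r * 2 ^ c3 = ell (k + c2) := by rw [hr, ← add_assoc, ell_add]
      have e2 : ell (k + c2) ≤ ell k / 2 := by
        have := ell_pos (k + c2)
        rw [← ell_add k c2]; nlinarith
      have e3 : (20 * c.lam + 3) * r ≤ ell (k + c2) := by rw [← e1]; nlinarith
      have hlr : r ≤ c.lam * r := by nlinarith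
      have b1 := hM w g' w1 w2 (k + (c2 + c3)) (1 / 4) (ball x (2 * r)) (ball x (ell k / 2))
        (by norm_num) measurableSet_ball
        (fun y hy => ball_subset_ball' (by rw [mem_ball] at hy; linarith))
        (by
          rintro i hi ⟨z, hz1, hz2⟩
          have hz1' : dist z (c.N.ctr i) ≤ 15 * c.lam * r := by
            simpa [Net.S, hi] using hz1
          rw [mem_ball] at hz2
          have hxi := dist_triangle_left x (c.N.ctr i) z
          have e : c.N.S 1 i = closedBall (c.N.ctr i) r := by simp [Net.S, hi, hr]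
          rw [e]
          have hsub : closedBall (c.N.ctr i) r ⊆ ball x (ell (k + c2)) := by
            intro y hy
            have := dist_triangle_right y x (c.N.ctr i)
            rw [mem_closedBall] at hy
            rw [mem_ball]; linarith
          refine half_le_of_le_add (hd.fin_closedBall _ _) ?_
          calc μ (closedBall (c.N.ctr i) r)
              ≤ μ ((closedBall (c.N.ctr i) r ∩ {y | w y ≤ 1 / 4}) ∪
                (V1 ∩ ball x (ell (k + c2)) ∪ {y | 1 / 4 ≤ u y})) := by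
                refine measure_mono fun y hy => ?_
                by_cases a : y ∈ V1
                · exact Or.inr (Or.inl ⟨a, hsub hy⟩)
                by_cases a' : 1 / 4 ≤ u y
                · exact Or.inr (Or.inr a')
                refine Or.inl ⟨hy, ?_⟩
                show w y ≤ 1 / 4
                rw [w4 y (ball_subset_ball e2 (hsub hy)) a]
                exact (not_le.1 a').le
            _ ≤ _ := by
                refine (measure_union_le _ _).trans (add_le_add le_rfl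
                  ((measure_union_le _ _).trans ((add_le_add h4 h5).trans ?_)))
                calc _ ≤ σ * (K6 * μ (closedBall (c.N.ctr i) r))
                      + σ * (K6 * μ (closedBall (c.N.ctr i) r)) := by
                      have : μ (ball x (ell (k + c2))) ≤ K6 * μ (closedBall (c.N.ctr i) r) := by
                        refine (h6 (c.N.ctr i) r hr0 _ fun y hy => ?_).trans
                          (by gcongr; exact ball_subset_closedBall)
                        have := dist_triangle y x (c.N.ctr i)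
                        rw [mem_ball] at hy
                        linarith
                      gcongr
                  _ = σ * (2 * K6) * μ (closedBall (c.N.ctr i) r) := by ring
                  _ ≤ _ := by gcongr)
      refine (lemmaC hd w1 hr0 (by linarith) inter_subset_right
        fun y hy => (w3 y hy.1).ge).trans ?_
      rw [add_mul]
      refine add_le_add (mul_le_mul_right
        (w5 _ measurableSet_ball (ball_subset_ball (by linarith))) _) ?_
      · refine ENNReal.div_le_of_le_mul ?_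
        rw [show (1 / 4 + 1 / 4 : ℝ) = 1 / 2 by norm_num] at b1
        calc _ ≤ KM * ENNReal.ofReal r ^ p * ∫⁻ y, g y ^ p ∂μ :=
              b1.trans (mul_le_mul_right (w5 _ measurableSet_ball subset_rfl) _)
          _ = _ := by ring
    have a2 : beta μ p x k ≤ K7 * beta μ p x (k + (c2 + c3)) := by
      rw [beta, beta, ← mul_div_assoc]
      gcongr
      · exact h7 x k
      · exact ell_anti (Nat.le_add_right _ _)
    refine ENNReal.div_le_of_le_mul (a1.trans ?_)
    have e : dcap μ p A x k = alpha μ p A x k * beta μ p x k :=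
      (ENNReal.div_mul_cancel (beta_ne_zero hd x _) (beta_ne_top hd x _)).symm
    rw [e]
    calc _ ≤ (2 ^ p + KM) * (alpha μ p A x k * (K7 * beta μ p x (k + (c2 + c3)))) := by gcongr
      _ = _ := by ring
  obtain ⟨k2, hk2⟩ := eventually_atTop.1 key
  refine tsum_ne_top_of_tail _ (k2 + (c2 + c3))
    (fun n => ENNReal.rpow_ne_top_of_nonneg hq.le (alpha_ne_top hd V1 x n)) ?_
  refine ne_top_of_le_ne_top (ENNReal.mul_ne_top (a := ((2 ^ p + KM) * K7) ^ (1 / (p - 1)))
    (ENNReal.rpow_ne_top_of_nonneg hq.le (by finiteness)) hx) ?_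
  refine le_trans ?_ (mul_le_mul_right (tsum_tail_le _ k2) _)
  rw [← ENNReal.tsum_mul_left]
  refine ENNReal.tsum_le_tsum fun n => ?_
  rw [← ENNReal.mul_rpow_of_nonneg _ _ hq.le, ← add_assoc]
  gcongr
  exact hk2 _ (by omega)

lemma Split.thin (c : Ctx μ p) {A E V1 V2 : Set X} (h : Split μ p A E V1 V2) {x : X}
    (hx : DThin μ p A x) : DThin μ p V1 x ∨ DThin μ p V2 x := by
  have hd := c.hd
  obtain ⟨c2, hc2⟩ := pow_unbounded_of_one_lt (2 * c.lam) (show (1 : ℝ) < 2 by norm_num)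
  obtain ⟨σ0, hσ0, h0⟩ := c.cap_bound hc2.le
  obtain ⟨K8, hK8, -, h8⟩ := hd.dyadic 1
  obtain ⟨σ1, hσ1, hσ1'⟩ := ENNReal.exists_pos_mul_lt (a := K8 + 2) (by finiteness) one_ne_zero
  set σ := min (min σ0 σ1) 1
  have hσ : σ ≠ 0 := (lt_min (lt_min (pos_iff_ne_zero.2 hσ0) hσ1) one_pos).ne'
  have hσt : σ ≠ ∞ := ne_top_of_le_ne_top ENNReal.one_ne_top (min_le_right _ _)
  have hσa : σ ≤ σ0 := (min_le_left _ _).trans (min_le_left _ _)
  have hσb : σ ≤ σ1 := (min_le_left _ _).trans (min_le_right _ _)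
  have hE : μ E = 0 := measure_eq_zero_iff_ae_notMem.2 (eventually_qe.1 h.polar).1
  obtain ⟨k1, hk1⟩ := eventually_atTop.1
    ((h.one_sparse c hc2.le hσ hσt hx).and (c.sparse c2 hσ hx))
  have step : ∀ (W1 W2 : Set X), (∀ y, y ∈ A ∨ y ∈ E ∨ y ∈ W1 ∨ y ∈ W2) → ∀ k, k1 ≤ k →
      μ (W1 ∩ ball x (ell (k + c2))) ≤ σ * μ (ball x (ell (k + c2))) →
      ¬ μ (W2 ∩ ball x (ell (k + 1 + c2))) ≤ σ * μ (ball x (ell (k + 1 + c2))) := by
    intro W1 W2 hcov k hk a1 a2
    have a3 := (hk1 (k + 1) (by omega)).2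
    have hB0 := (hd.pos x _ (ell_pos (k + 1 + c2))).ne'
    have hBt := (hd.fin x (ell (k + 1 + c2))).ne
    have a4 : 1 * μ (ball x (ell (k + 1 + c2))) ≤ σ1 * (K8 + 2) * μ (ball x (ell (k + 1 + c2))) := by
      calc _ ≤ μ (((W1 ∩ ball x (ell (k + c2))) ∪ (W2 ∩ ball x (ell (k + 1 + c2)))) ∪
            (A ∩ ball x (ell (k + 1 + c2))) ∪ E) := by
            rw [one_mul]
            refine measure_mono fun y hy => ?_
            rcases hcov y with b | b | b | b
            · exact Or.inl (Or.inr ⟨b, hy⟩)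
            · exact Or.inr b
            · exact Or.inl (Or.inl (Or.inl ⟨b, ball_subset_ball (ell_anti (by omega)) hy⟩))
            · exact Or.inl (Or.inl (Or.inr ⟨b, hy⟩))
        _ ≤ σ * (K8 * μ (ball x (ell (k + 1 + c2)))) + σ * μ (ball x (ell (k + 1 + c2)))
            + σ * μ (ball x (ell (k + 1 + c2))) + 0 := by
            refine (measure_union_le _ _).trans (add_le_add ((measure_union_le _ _).trans
              (add_le_add ((measure_union_le _ _).trans (add_le_add (a1.trans ?_) a2)) a3)) hE.le)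
            gcongr
            rw [add_right_comm]
            exact h8 x _
        _ = σ * (K8 + 2) * μ (ball x (ell (k + 1 + c2))) := by ring
        _ ≤ _ := by gcongr
    exact absurd ((ENNReal.mul_le_mul_iff_left hB0 hBt).1 a4) (not_le.2 hσ1')
  rcases (hk1 k1 le_rfl).1 with b | b
  · refine Or.inl (h0 A E V1 V2 h x hx (eventually_atTop.2 ⟨k1, fun k hk => ?_⟩))
    refine le_trans ?_ (mul_le_mul_left hσa _)
    induction k, hk using Nat.le_induction with
    | base => exact b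
    | succ k hk ih => exact (hk1 (k + 1) (by omega)).1.resolve_right (step V1 V2 h.cover k hk ih)
  · refine Or.inr (h0 A E V2 V1 h.symm x hx (eventually_atTop.2 ⟨k1, fun k hk => ?_⟩))
    refine le_trans ?_ (mul_le_mul_left hσa _)
    induction k, hk using Nat.le_induction with
    | base => exact b
    | succ k hk ih =>
      exact (hk1 (k + 1) (by omega)).1.resolve_left (step V2 V1 h.symm.cover k hk ih)

theorem Ctx.main (c : Ctx μ p) {U E : Set X} (hU : IsFineDomain μ p U)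
    (hE : ∀ᶠ y in qe μ p, y ∉ E) : IsFineDomain μ p (U \ E) := by
  have hd := c.hd
  have hUo := c.finelyOpen_iff.1 hU.1
  have hopen : IsFinelyOpen μ p (U \ E) := by
    refine c.finelyOpen_iff.2 fun x hx => ((hUo x hx.1).union hd (dthin_polar hd hE x)).mono hd ?_
    intro y hy
    by_cases h : y ∈ E
    · exact Or.inr h
    · exact Or.inl fun h' => hy ⟨h', h⟩
  have basic : ∀ V, IsFinelyOpen μ p V → IsOpen[fineTopology μ p] V := fun V hV =>
    TopologicalSpace.isOpen_generateFrom_of_mem hV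
  refine ⟨hopen, ?_, ?_⟩
  · obtain ⟨x, hx⟩ := hU.2.1
    by_contra hne
    obtain ⟨k, hk⟩ := (c.sparse 0 (σ := 2⁻¹) (by simp) (hUo x hx)).exists
    have hE0 : μ E = 0 := measure_eq_zero_iff_ae_notMem.2 (eventually_qe.1 hE).1
    have hB0 := (hd.pos x _ (ell_pos (k + 0))).ne'
    have hBt := (hd.fin x (ell (k + 0))).ne
    have h1 : 1 * μ (ball x (ell (k + 0))) ≤ 2⁻¹ * μ (ball x (ell (k + 0))) := by
      calc _ ≤ μ ((Uᶜ ∩ ball x (ell (k + 0))) ∪ E) := by
            rw [one_mul]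
            refine measure_mono fun y hy => ?_
            by_cases h : y ∈ E
            · exact Or.inr h
            · exact Or.inl ⟨fun h' => hne ⟨y, h', h⟩, hy⟩
        _ ≤ _ := (measure_union_le _ _).trans (by rw [hE0, add_zero]; exact hk)
    have := (ENNReal.mul_le_mul_iff_left hB0 hBt).1 h1
    norm_num at this
  · intro u v hu hv hcov ⟨x1, hx1⟩ ⟨x2, hx2⟩
    by_contra hne
    have hS : Split μ p Uᶜ E ((U \ E) ∩ u) ((U \ E) ∩ v) := by
      refine ⟨hE, c.finelyOpen_of_isOpen (@IsOpen.inter X (fineTopology μ p) _ _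
        (basic _ hopen) hu), c.finelyOpen_of_isOpen (@IsOpen.inter X (fineTopology μ p) _ _
        (basic _ hopen) hv), Set.disjoint_left.2 fun y a b => hne ⟨y, a.1, a.2, b.2⟩, fun y => ?_⟩
      by_cases a : y ∈ U
      · by_cases b : y ∈ E
        · exact Or.inr (Or.inl b)
        · rcases hcov ⟨a, b⟩ with d | d
          · exact Or.inr (Or.inr (Or.inl ⟨⟨a, b⟩, d⟩))
          · exact Or.inr (Or.inr (Or.inr ⟨⟨a, b⟩, d⟩))
      · exact Or.inl a
    set V1 := (U \ E) ∩ u
    set V2 := (U \ E) ∩ v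
    have ext : ∀ (W1 W2 : Set X) (P : X → Prop), Split μ p Uᶜ E W1 W2 →
        (∀ x ∈ U, P x → DThin μ p W2 x) → IsFinelyOpen μ p (W1 ∪ {x | x ∈ U ∧ x ∈ E ∧ P x}) := by
      intro W1 W2 P hW hP
      refine c.finelyOpen_iff.2 ?_
      rintro x (hx | hx)
      · exact (c.finelyOpen_iff.1 hW.open1 x hx).mono hd (compl_subset_compl.2 subset_union_left)
      · refine (((hUo x hx.1).union hd (dthin_polar hd hE x)).union hd (hP x hx.1 hx.2.2)).mono hd
          fun y hy => ?_
        rcases hW.cover y with b | b | b | b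
        · exact Or.inl (Or.inl b)
        · exact Or.inl (Or.inr b)
        · exact absurd (Or.inl b) hy
        · exact Or.inr b
    obtain ⟨y, -, hy1, hy2⟩ := hU.2.2 _ _
      (basic _ (ext V1 V2 (fun x => DThin μ p V2 x) hS fun _ _ h => h))
      (basic _ (ext V2 V1 (fun x => ¬ DThin μ p V2 x) hS.symm fun x hx h =>
        (hS.thin c (hUo x hx)).resolve_right h))
      (by
        intro y hy
        rcases hS.cover y with b | b | b | b
        · exact absurd hy b
        · by_cases a : DThin μ p V2 y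
          · exact Or.inl (Or.inr ⟨hy, b, a⟩)
          · exact Or.inr (Or.inr ⟨hy, b, a⟩)
        · exact Or.inl (Or.inl b)
        · exact Or.inr (Or.inl b))
      ⟨x1, hx1.1.1, Or.inl hx1⟩ ⟨x2, hx2.1.1, Or.inl hx2⟩
    rcases hy1 with a | a <;> rcases hy2 with b | b
    · exact Set.disjoint_left.1 hS.disj a b
    · exact a.1.2 b.2.1
    · exact b.1.2 a.2.1
    · exact b.2.2 a.2.2

omit hp in
theorem fineDomain_diff (hp : 1 < p) (hd : IsDoubling μ) (hPI : SupportsPoincare μ p)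
    {U E : Set X} (hU : IsFineDomain μ p U) (hE : sobolevCap μ p E = 0) :
    IsFineDomain μ p (U \ E) := by
  have : Fact (1 < p) := ⟨hp⟩
  have hE' := qe_of_sobolevCap hE
  rcases subsingleton_or_nontrivial X with hX | ⟨x1, x2, hne⟩
  · have : E = ∅ := by
      by_contra hh
      obtain ⟨x, hx⟩ := nonempty_iff_ne_empty.2 hh
      have h0 : μ E = 0 := measure_eq_zero_iff_ae_notMem.2 (eventually_qe.1 hE').1
      refine (hd.pos x 1 one_pos).ne' (measure_mono_null (fun y _ => ?_) h0)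
      rwa [Subsingleton.elim y x]
    rwa [this, sdiff_empty]
  · obtain ⟨C, lam, hC, hlam, h⟩ := hPI
    obtain ⟨N⟩ := exists_net X
    exact Ctx.main ⟨N, C, lam, x1, x2, hd, h, hC, hlam, hne⟩ hU hE'

end Pool.Agent.H20Z.Fine
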