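import Pool.Agent.H953Z.St

/- The model zigzag for MP_1672e2_an (help 471). -/

set_option autoImplicit false
open Filter Topology

namespace Pool.Agent.H20Z.Zig
open Pool.Agent.H953Z

/- ## The ramp -/

noncomputable def sq0 (t : ℝ) : ℝ := (max t 0) ^ 2

theorem hasDerivAt_sq0 (t : ℝ) : HasDerivAt sq0 (2 * max t 0) t := by
  rcases lt_trichotomy t 0 with h | h | h
  · have : sq0 =ᶠ[𝓝 t] fun _ => (0 : ℝ) := by
      filter_upwards [Iio_mem_nhds h] with s hs
      simp [sq0, max_eq_right (le_of_lt (Set.mem_Iio.1 hs))]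
    rw [max_eq_right h.le, mul_zero]
    exact (hasDerivAt_const t (0 : ℝ)).congr_of_eventuallyEq this
  · subst h
    rw [hasDerivAt_iff_tendsto_slope_zero]
    have h1 : Tendsto (fun s : ℝ => max s 0) (𝓝[≠] 0) (𝓝 (2 * max (0 : ℝ) 0)) := by
      have : Continuous (fun s : ℝ => max s 0) := by fun_prop
      have h2 := this.tendsto 0
      simp only [max_self, mul_zero] at h2 ⊢
      exact h2.mono_left nhdsWithin_le_nhds
    refine h1.congr' ?_
    filter_upwards [self_mem_nhdsWithin] with s hs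
    have hs' : s ≠ 0 := hs
    simp only [sq0, zero_add, max_self, smul_eq_mul]
    rcases le_total s 0 with h | h
    · simp [max_eq_right h]
    · rw [max_eq_left h]; field_simp; ring
  · have : sq0 =ᶠ[𝓝 t] fun s => s ^ 2 := by
      filter_upwards [Ioi_mem_nhds h] with s hs
      simp [sq0, max_eq_left (le_of_lt (Set.mem_Ioi.1 hs))]
    rw [max_eq_left h.le]
    have h2 : HasDerivAt (fun s : ℝ => s ^ 2) (2 * t) t := by
      simpa using hasDerivAt_pow 2 t
    exact h2.congr_of_eventuallyEq this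

noncomputable def ramp (t : ℝ) : ℝ := 2 * (sq0 t - 2 * sq0 (t - 1 / 2) + sq0 (t - 1))

noncomputable def dramp (t : ℝ) : ℝ :=
  2 * (2 * max t 0 - 2 * (2 * max (t - 1 / 2) 0) + 2 * max (t - 1) 0)

theorem hasDerivAt_ramp (t : ℝ) : HasDerivAt ramp (dramp t) t := by
  have h1 := hasDerivAt_sq0 t
  have h2 := (hasDerivAt_sq0 (t - 1 / 2)).comp_sub_const t (1 / 2)
  have h3 := (hasDerivAt_sq0 (t - 1)).comp_sub_const t 1
  exact ((h1.sub (h2.const_mul 2)).add h3).const_mul 2

theorem continuous_dramp : Continuous dramp := by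
  unfold dramp; fun_prop

theorem deriv_ramp : deriv ramp = dramp := funext fun t => (hasDerivAt_ramp t).deriv

theorem contDiff_ramp : ContDiff ℝ 1 ramp := by
  rw [contDiff_one_iff_deriv, deriv_ramp]
  exact ⟨fun t => (hasDerivAt_ramp t).differentiableAt, continuous_dramp⟩

theorem dramp_mem (t : ℝ) : 0 ≤ dramp t ∧ dramp t ≤ 2 := by
  unfold dramp
  rcases le_total t 0 with h0 | h0
  · rw [max_eq_right h0, max_eq_right (by linarith), max_eq_right (by linarith)]; norm_num
  · rw [max_eq_left h0]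
    rcases le_total t (1 / 2) with h1 | h1
    · rw [max_eq_right (by linarith), max_eq_right (by linarith)]; constructor <;> linarith
    · rw [max_eq_left (by linarith)]
      rcases le_total t 1 with h2 | h2
      · rw [max_eq_right (by linarith)]; constructor <;> linarith
      · rw [max_eq_left (by linarith)]; constructor <;> linarith

theorem ramp_zero {t : ℝ} (h : t ≤ 0) : ramp t = 0 := by
  unfold ramp sq0
  rw [max_eq_right h, max_eq_right (by linarith), max_eq_right (by linarith)]; norm_num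

theorem ramp_one {t : ℝ} (h : 1 ≤ t) : ramp t = 1 := by
  unfold ramp sq0
  rw [max_eq_left (by linarith), max_eq_left (by linarith), max_eq_left (by linarith)]; ring

theorem ramp_low {t : ℝ} (h0 : 0 ≤ t) (h1 : t ≤ 1 / 2) : ramp t = 2 * t ^ 2 := by
  unfold ramp sq0
  rw [max_eq_left h0, max_eq_right (by linarith), max_eq_right (by linarith)]; ring

theorem ramp_high {t : ℝ} (h0 : 1 / 2 ≤ t) (h1 : t ≤ 1) : ramp t = 1 - 2 * (1 - t) ^ 2 := by
  unfold ramp sq0
  rw [max_eq_left (by linarith), max_eq_left (by linarith), max_eq_right (by linarith)]; ring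

theorem ramp_nonneg (t : ℝ) : 0 ≤ ramp t := by
  rcases le_total t 0 with h0 | h0
  · rw [ramp_zero h0]
  · rcases le_total t (1 / 2) with h1 | h1
    · rw [ramp_low h0 h1]; positivity
    · rcases le_total t 1 with h2 | h2
      · rw [ramp_high h1 h2]; nlinarith
      · rw [ramp_one h2]; norm_num

theorem ramp_lt_one {t : ℝ} (h : t < 1) : ramp t < 1 := by
  rcases le_total t 0 with h0 | h0
  · rw [ramp_zero h0]; norm_num
  · rcases le_total t (1 / 2) with h1 | h1
    · rw [ramp_low h0 h1]; nlinarith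
    · rw [ramp_high h1 h.le]
      have : 0 < (1 - t) ^ 2 := by have : 0 < 1 - t := by linarith
                                   positivity
      linarith

theorem ramp_le_one (t : ℝ) : ramp t ≤ 1 := by
  rcases lt_or_ge t 1 with h | h
  · exact (ramp_lt_one h).le
  · rw [ramp_one h]

theorem ramp_pos {t : ℝ} (h : 0 < t) : 0 < ramp t := by
  rcases le_total t (1 / 2) with h1 | h1
  · rw [ramp_low h.le h1]; positivity
  · rcases le_total t 1 with h2 | h2
    · rw [ramp_high h1 h2]; nlinarith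
    · rw [ramp_one h2]; norm_num

theorem ramp_mono : Monotone ramp :=
  monotone_of_deriv_nonneg (fun t => (hasDerivAt_ramp t).differentiableAt)
    fun t => by rw [deriv_ramp]; exact (dramp_mem t).1

/-- ramp from `a` to `b` -/
noncomputable def R (a b x : ℝ) : ℝ := ramp ((x - a) / (b - a))

theorem R_zero {a b x : ℝ} (hab : a < b) (h : x ≤ a) : R a b x = 0 :=
  ramp_zero (div_nonpos_of_nonpos_of_nonneg (by linarith) (by linarith))

theorem R_one {a b x : ℝ} (hab : a < b) (h : b ≤ x) : R a b x = 1 :=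
  ramp_one ((one_le_div (by linarith)).2 (by linarith))

theorem R_nonneg (a b x : ℝ) : 0 ≤ R a b x := ramp_nonneg _
theorem R_le_one (a b x : ℝ) : R a b x ≤ 1 := ramp_le_one _

theorem contDiff_R (a b : ℝ) : ContDiff ℝ 1 (R a b) :=
  contDiff_ramp.comp ((contDiff_id.sub contDiff_const).div_const _)

/- ## The cut-off -/

noncomputable def chi (s : ℝ) : ℝ := ramp ((138 - s) / 72) + ramp ((138 + s) / 72) - 1

theorem hasDerivAt_chi (s : ℝ) :
    HasDerivAt chi (dramp ((138 - s) / 72) * (-1 / 72) + dramp ((138 + s) / 72) * (1 / 72)) s := by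
  have h1 : HasDerivAt (fun s : ℝ => (138 - s) / 72) (-1 / 72) s :=
    ((hasDerivAt_id s).const_sub 138).div_const 72
  have h2 : HasDerivAt (fun s : ℝ => (138 + s) / 72) (1 / 72) s :=
    ((hasDerivAt_id s).const_add 138).div_const 72
  exact (((hasDerivAt_ramp _).comp s h1).add ((hasDerivAt_ramp _).comp s h2)).sub_const 1

theorem abs_deriv_chi (s : ℝ) : |deriv chi s| ≤ 1 / 36 := by
  rw [(hasDerivAt_chi s).deriv, abs_le]
  have h1 := dramp_mem ((138 - s) / 72)
  have h2 := dramp_mem ((138 + s) / 72)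
  constructor <;> linarith [h1.1, h1.2, h2.1, h2.2]

theorem contDiff_chi : ContDiff ℝ 1 chi :=
  ((contDiff_ramp.comp ((contDiff_const.sub contDiff_id).div_const _)).add
    (contDiff_ramp.comp ((contDiff_const.add contDiff_id).div_const _))).sub contDiff_const

theorem chi_one {s : ℝ} (h : |s| ≤ 66) : chi s = 1 := by
  rw [abs_le] at h
  unfold chi
  rw [ramp_one (by linarith [h.2]), ramp_one (by linarith [h.1])]; ring

theorem chi_zero {s : ℝ} (h : 138 ≤ |s|) : chi s = 0 := by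
  unfold chi
  rcases le_abs.1 h with h | h
  · rw [ramp_zero (by linarith), ramp_one (by linarith)]; ring
  · rw [ramp_one (by linarith), ramp_zero (by linarith)]; ring

theorem abs_chi_le (s : ℝ) : |chi s| ≤ 1 := by
  unfold chi
  have h1 := ramp_nonneg ((138 - s) / 72)
  have h2 := ramp_nonneg ((138 + s) / 72)
  have h3 := ramp_le_one ((138 - s) / 72)
  have h4 := ramp_le_one ((138 + s) / 72)
  rw [abs_le]; constructor <;> linarith

/- ## Odd profiles -/

noncomputable def prof (c a b H d e x : ℝ) : ℝ :=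
  c * x * (1 - R a b x - R a b (-x)) + H * (R a b x - R d e x - R a b (-x) + R d e (-x))

theorem prof_neg (c a b H d e x : ℝ) : prof c a b H d e (-x) = -prof c a b H d e x := by
  unfold prof; rw [neg_neg]; ring

theorem contDiff_prof (c a b H d e : ℝ) : ContDiff ℝ 1 (prof c a b H d e) := by
  have h1 := contDiff_R a b
  have h2 := contDiff_R d e
  have h3 : ContDiff ℝ 1 fun x => R a b (-x) := h1.comp contDiff_neg
  have h4 : ContDiff ℝ 1 fun x => R d e (-x) := h2.comp contDiff_neg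
  exact ((contDiff_const.mul contDiff_id).mul ((contDiff_const.sub h1).sub h3)).add
    (contDiff_const.mul (((h1.sub h2).sub h3).add h4))

structure Ok (a b d e : ℝ) : Prop where
  ha : 0 ≤ a
  hab : a < b
  hbd : b ≤ d
  hde : d < e

section
variable {c a b H d e x : ℝ}

theorem prof_pos (o : Ok a b d e) (hx : 0 ≤ x) :
    prof c a b H d e x = c * x * (1 - R a b x) + H * (R a b x - R d e x) := by
  unfold prof
  rw [R_zero (x := -x) o.hab (by linarith [o.ha]),
    R_zero (x := -x) o.hde (by linarith [o.ha, o.hab, o.hbd])]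
  ring

theorem prof_lin (o : Ok a b d e) (hx : |x| ≤ a) : prof c a b H d e x = c * x := by
  rw [abs_le] at hx
  unfold prof
  rw [R_zero (x := -x) o.hab (by linarith [hx.1]),
    R_zero (x := -x) o.hde (by linarith [hx.1, o.hab, o.hbd]), R_zero o.hab hx.2,
    R_zero o.hde (by linarith [hx.2, o.hab, o.hbd])]
  ring

theorem prof_mid (o : Ok a b d e) (hx : 0 ≤ x) (hx' : x ≤ d) :
    prof c a b H d e x = c * x * (1 - R a b x) + H * R a b x := by
  rw [prof_pos o hx, R_zero o.hde hx', sub_zero]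

theorem prof_top (o : Ok a b d e) (hx : b ≤ x) (hx' : x ≤ d) : prof c a b H d e x = H := by
  rw [prof_mid o (by linarith [o.ha, o.hab]) hx', R_one o.hab hx]; ring

theorem prof_after (o : Ok a b d e) (hx : b ≤ x) : prof c a b H d e x = H * (1 - R d e x) := by
  rw [prof_pos o (by linarith [o.ha, o.hab]), R_one o.hab hx]; ring

theorem prof_far (o : Ok a b d e) (hx : e ≤ |x|) : prof c a b H d e x = 0 := by
  have key : ∀ y, e ≤ y → prof c a b H d e y = 0 := fun y hy => by
    rw [prof_after o (by linarith [o.hbd, o.hde]), R_one o.hde hy]; ring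
  rcases le_abs.1 hx with h | h
  · exact key x h
  · have := key (-x) h
    rw [prof_neg] at this; linarith

theorem prof_mem (o : Ok a b d e) {K : ℝ} (hc : 0 ≤ c) (hH : 0 ≤ H) (h1 : c * b ≤ K) (h2 : H ≤ K)
    (hx : 0 ≤ x) : 0 ≤ prof c a b H d e x ∧ prof c a b H d e x ≤ K := by
  rcases le_total x b with h | h
  · rw [prof_mid o hx (h.trans o.hbd)]
    have h3 := R_nonneg a b x
    have h4 := R_le_one a b x
    have h5 : 0 ≤ c * x := mul_nonneg hc hx
    have h6 : c * x ≤ K := (mul_le_mul_of_nonneg_left h hc).trans h1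
    constructor <;> nlinarith
  · rw [prof_after o h]
    have h3 := R_nonneg d e x
    have h4 := R_le_one d e x
    constructor <;> nlinarith

theorem abs_prof_le (o : Ok a b d e) {K : ℝ} (hc : 0 ≤ c) (hH : 0 ≤ H) (h1 : c * b ≤ K)
    (h2 : H ≤ K) (x : ℝ) : |prof c a b H d e x| ≤ K := by
  rcases le_total 0 x with h | h
  · have := prof_mem o hc hH h1 h2 h
    rw [abs_of_nonneg this.1]; exact this.2
  · have := prof_mem (x := -x) o hc hH h1 h2 (by linarith)
    rw [prof_neg] at this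
    rw [abs_le]; constructor <;> linarith [this.1, this.2]

end

noncomputable def phi1 : ℝ → ℝ := prof 2 6 8 18 34 36
noncomputable def psi1 : ℝ → ℝ := prof 1 13 14 0 14 15
noncomputable def phi2 : ℝ → ℝ := prof 2 2 3 0 3 4
noncomputable def psi2 : ℝ → ℝ := prof 1 1 5 18 30 32

theorem ok1 : Ok 6 8 34 36 := ⟨by norm_num, by norm_num, by norm_num, by norm_num⟩
theorem ok2 : Ok 13 14 14 15 := ⟨by norm_num, by norm_num, by norm_num, by norm_num⟩
theorem ok3 : Ok 2 3 3 4 := ⟨by norm_num, by norm_num, by norm_num, by norm_num⟩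
theorem ok4 : Ok 1 5 30 32 := ⟨by norm_num, by norm_num, by norm_num, by norm_num⟩

theorem abs_phi1 (x : ℝ) : |phi1 x| ≤ 18 :=
  abs_prof_le ok1 (by norm_num) (by norm_num) (by norm_num) (by norm_num) x
theorem abs_psi1 (x : ℝ) : |psi1 x| ≤ 14 :=
  abs_prof_le ok2 (by norm_num) (by norm_num) (by norm_num) (by norm_num) x
theorem abs_phi2 (x : ℝ) : |phi2 x| ≤ 6 :=
  abs_prof_le ok3 (by norm_num) (by norm_num) (by norm_num) (by norm_num) x
theorem abs_psi2 (x : ℝ) : |psi2 x| ≤ 18 :=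
  abs_prof_le ok4 (by norm_num) (by norm_num) (by norm_num) (by norm_num) x

/- ## Iterating a step -/

noncomputable def s1 (c : ℝ) (L : ℕ) (y : ℝ) : ℝ := y + c * chi y / L

theorem s1_iter_le (c : ℝ) (L k : ℕ) (y : ℝ) : |(s1 c L)^[k] y - y| ≤ k * (|c| / L) := by
  induction k with
  | zero => simp
  | succ k ih =>
    rw [Function.iterate_succ_apply']
    set u := (s1 c L)^[k] y
    have h1 : |c * chi u / L| ≤ |c| / L := by
      rw [abs_div, abs_mul, Nat.abs_cast]
      apply div_le_div_of_nonneg_right _ (Nat.cast_nonneg L)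
      exact mul_le_of_le_one_right (abs_nonneg c) (abs_chi_le u)
    have h2 : s1 c L u - y = (u - y) + c * chi u / L := by unfold s1; ring
    rw [h2]
    refine (abs_add_le _ _).trans ?_
    push_cast; linarith

theorem s1_full_le (c : ℝ) {L : ℕ} (hL : 1 ≤ L) (y : ℝ) : |(s1 c L)^[L] y - y| ≤ |c| := by
  have := s1_iter_le c L L y
  have hL' : (L : ℝ) ≠ 0 := by positivity
  rwa [mul_div_cancel₀ _ hL'] at this

theorem s1_iter_eq (c : ℝ) {L : ℕ} (hL : 1 ≤ L) (y : ℝ) (h : |y| + |c| ≤ 66) (k : ℕ) (hk : k ≤ L) :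
    (s1 c L)^[k] y = y + k * (c / L) := by
  have hL' : (0 : ℝ) < L := by positivity
  induction k with
  | zero => simp
  | succ k ih =>
    rw [Function.iterate_succ_apply']
    have h1 := s1_iter_le c L k y
    have h2 : (k : ℝ) * (|c| / L) ≤ |c| := by
      have : (k : ℝ) ≤ L := by exact_mod_cast (by omega : k ≤ L)
      calc (k : ℝ) * (|c| / L) ≤ L * (|c| / L) := by gcongr
        _ = |c| := mul_div_cancel₀ _ hL'.ne'
    have h3 : |(s1 c L)^[k] y| ≤ 66 := by
      have := abs_add_le ((s1 c L)^[k] y - y) y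
      rw [sub_add_cancel] at this; linarith
    have h4 : s1 c L ((s1 c L)^[k] y) = (s1 c L)^[k] y + c / L := by
      conv_lhs => unfold s1
      rw [show (fun y => y + c * chi y / (L : ℝ)) = s1 c L from rfl, chi_one h3, mul_one]
    rw [h4, ih (by omega)]; push_cast; ring

theorem s1_full_eq (c : ℝ) {L : ℕ} (hL : 1 ≤ L) (y : ℝ) (h : |y| + |c| ≤ 66) :
    (s1 c L)^[L] y = y + c := by
  have hL' : (L : ℝ) ≠ 0 := by positivity
  rw [s1_iter_eq c hL y h L le_rfl, mul_div_cancel₀ _ hL']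

noncomputable def gm : Fin 4 → ℝ × ℝ → ℝ :=
  ![fun z => phi1 z.1 * chi z.2, fun z => -psi1 z.2 * chi z.1, fun z => phi2 z.1 * chi z.2,
    fun z => -psi2 z.2 * chi z.1]

theorem iter_v (F : ℝ × ℝ → ℝ × ℝ) (f : ℝ → ℝ) (L : ℕ)
    (hF : ∀ x y, F (x, y) = (x, s1 (f x) L y)) (k : ℕ) (x y : ℝ) :
    F^[k] (x, y) = (x, (s1 (f x) L)^[k] y) := by
  induction k with
  | zero => rfl
  | succ k ih => rw [Function.iterate_succ_apply', Function.iterate_succ_apply', ih, hF]

theorem iter_h (F : ℝ × ℝ → ℝ × ℝ) (f : ℝ → ℝ) (L : ℕ)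
    (hF : ∀ x y, F (x, y) = (s1 (f y) L x, y)) (k : ℕ) (x y : ℝ) :
    F^[k] (x, y) = ((s1 (f y) L)^[k] x, y) := by
  induction k with
  | zero => rfl
  | succ k ih => rw [Function.iterate_succ_apply', Function.iterate_succ_apply', ih, hF]

theorem stp0 (L : ℕ) (x y : ℝ) : stp gm L 0 (x, y) = (x, s1 (phi1 x) L y) := by
  simp [stp, gm, dir, s1]
theorem stp1 (L : ℕ) (x y : ℝ) : stp gm L 1 (x, y) = (s1 (-psi1 y) L x, y) := by
  simp [stp, gm, dir, s1]
theorem stp2 (L : ℕ) (x y : ℝ) : stp gm L 2 (x, y) = (x, s1 (phi2 x) L y) := by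
  simp [stp, gm, dir, s1]
theorem stp3 (L : ℕ) (x y : ℝ) : stp gm L 3 (x, y) = (s1 (-psi2 y) L x, y) := by
  simp [stp, gm, dir, s1]

theorem zig_eq {L : ℕ} (hL : 1 ≤ L) (x y : ℝ) (hy : |y| ≤ 1) :
    ∃ x1 x2 : ℝ, |x1 - x| ≤ 14 ∧ |x2 - x1| ≤ 18 ∧
      (|x| ≤ 34 → x1 = x - psi1 (y + phi1 x) ∧ x2 = x1 - psi2 (y + phi1 x + phi2 x1)) ∧
      zig gm L (x, y) = (x2, y + phi1 x + phi2 x1) := by
  have a1 := abs_phi1 x
  have e1 : (s1 (phi1 x) L)^[L] y = y + phi1 x := s1_full_eq _ hL _ (by linarith)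
  have b1 : |y + phi1 x| ≤ 19 := (abs_add_le _ _).trans (by linarith)
  set y1 := y + phi1 x with hy1
  set x1 := (s1 (-psi1 y1) L)^[L] x with hx1
  have a2 := abs_psi1 y1
  have a3 := abs_phi2 x1
  have e2 : (s1 (phi2 x1) L)^[L] y1 = y1 + phi2 x1 := s1_full_eq _ hL _ (by linarith)
  set y2 := y1 + phi2 x1 with hy2
  have a4 := abs_psi2 y2
  have c1 : |x1 - x| ≤ 14 := (s1_full_le _ hL _).trans (by rwa [abs_neg])
  refine ⟨x1, (s1 (-psi2 y2) L)^[L] x1, c1, (s1_full_le _ hL _).trans (by rwa [abs_neg]), ?_, ?_⟩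
  · intro hx
    have b2 : |x1| ≤ 48 := by
      have := abs_add_le (x1 - x) x
      rw [sub_add_cancel] at this; linarith
    constructor
    · rw [hx1, s1_full_eq _ hL _ (by rw [abs_neg]; linarith)]; ring
    · rw [s1_full_eq _ hL _ (by rw [abs_neg]; linarith)]; ring
  · unfold zig
    rw [iter_v _ phi1 L (stp0 L), e1, iter_h _ (fun y => -psi1 y) L (stp1 L),
      iter_v _ phi2 L (stp2 L), e2, iter_h _ (fun y => -psi2 y) L (stp3 L)]

/-- the explicit values -/
noncomputable def X1 (x y : ℝ) : ℝ := x - psi1 (y + phi1 x)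
noncomputable def Y2 (x y : ℝ) : ℝ := y + phi1 x + phi2 (X1 x y)
noncomputable def X2 (x y : ℝ) : ℝ := X1 x y - psi2 (Y2 x y)

theorem zig_near {L : ℕ} (hL : 1 ≤ L) (x y : ℝ) (hy : |y| ≤ 1) (hx : |x| ≤ 34) :
    zig gm L (x, y) = (X2 x y, Y2 x y) := by
  obtain ⟨x1, x2, -, -, h, e⟩ := zig_eq hL x y hy
  obtain ⟨h1, h2⟩ := h hx
  rw [e, h2, h1]; rfl

theorem X1_neg (x y : ℝ) : X1 (-x) (-y) = -X1 x y := by
  unfold X1
  have h1 : phi1 (-x) = -phi1 x := prof_neg ..
  have h2 : psi1 (-(y + phi1 x)) = -psi1 (y + phi1 x) := prof_neg ..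
  rw [h1, show -y + -phi1 x = -(y + phi1 x) by ring, h2]; ring

theorem Y2_neg (x y : ℝ) : Y2 (-x) (-y) = -Y2 x y := by
  unfold Y2
  have h1 : phi1 (-x) = -phi1 x := prof_neg ..
  have h2 : phi2 (-X1 x y) = -phi2 (X1 x y) := prof_neg ..
  rw [X1_neg, h1, h2]; ring

theorem X2_neg (x y : ℝ) : X2 (-x) (-y) = -X2 x y := by
  unfold X2
  have h2 : psi2 (-Y2 x y) = -psi2 (Y2 x y) := prof_neg ..
  rw [X1_neg, Y2_neg, h2]; ring

theorem val_mid {x y : ℝ} (hx : |x| ≤ 1) (hy : |y| ≤ 1) : X2 x y = -x ∧ Y2 x y = -y := by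
  have hx' := abs_le.1 hx
  have hy' := abs_le.1 hy
  have h1 : phi1 x = 2 * x := prof_lin ok1 (by linarith)
  have h2 : X1 x y = -x - y := by
    have : psi1 (y + 2 * x) = 1 * (y + 2 * x) :=
      prof_lin ok2 (abs_le.2 ⟨by linarith, by linarith⟩)
    unfold X1; rw [h1, this]; ring
  have h3 : Y2 x y = -y := by
    have : phi2 (-x - y) = 2 * (-x - y) := prof_lin ok3 (abs_le.2 ⟨by linarith, by linarith⟩)
    unfold Y2; rw [h1, h2, this]; ring
  refine ⟨?_, h3⟩
  have : psi2 (-y) = 1 * (-y) := prof_lin ok4 (by rwa [abs_neg])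
  unfold X2; rw [h2, h3, this]; ring

theorem psi1_far {t : ℝ} (h : 14 ≤ t) : psi1 t = 0 := by
  have : psi1 t = 0 * (1 - R 14 15 t) := prof_after ok2 h
  rw [this, zero_mul]

theorem phi2_far {t : ℝ} (h : 3 ≤ t) : phi2 t = 0 := by
  have : phi2 t = 0 * (1 - R 3 4 t) := prof_after ok3 h
  rw [this, zero_mul]

theorem val_right {x y : ℝ} (hx : 8 ≤ x) (hx' : x ≤ 34) (hy : |y| ≤ 1) :
    X2 x y = x - 18 ∧ Y2 x y = y + 18 := by
  have hy' := abs_le.1 hy
  have h1 : phi1 x = 18 := prof_top ok1 hx hx'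
  have h2 : X1 x y = x := by
    unfold X1; rw [h1, psi1_far (by linarith)]; ring
  have h3 : Y2 x y = y + 18 := by
    unfold Y2; rw [h1, h2, phi2_far (by linarith)]; ring
  refine ⟨?_, h3⟩
  have : psi2 (y + 18) = 18 := prof_top ok4 (by linarith) (by linarith)
  unfold X2; rw [h2, h3, this]

theorem phi2_le {t : ℝ} (h : 0 ≤ t) : 0 ≤ phi2 t ∧ phi2 t ≤ 2 * t := by
  have h1 : phi2 t = 2 * t * (1 - R 2 3 t) + 0 * (R 2 3 t - R 3 4 t) := prof_pos ok3 h
  have h3 := R_nonneg 2 3 t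
  have h4 := R_le_one 2 3 t
  rw [h1]; constructor <;> nlinarith

theorem psi2_ge {t : ℝ} (h : 1 ≤ t) (h' : t ≤ 30) : 1 ≤ psi2 t := by
  have h1 : psi2 t = 1 * t * (1 - R 1 5 t) + 18 * R 1 5 t := prof_mid ok4 (by linarith) h'
  have h3 := R_nonneg 1 5 t
  have h4 := R_le_one 1 5 t
  rw [h1]; nlinarith

theorem val_a {x y : ℝ} (hx : 1 < x) (hx' : x ≤ 6) (hy : |y| ≤ 1) : X2 x y < -1 := by
  have hy' := abs_le.1 hy
  have h1 : phi1 x = 2 * x := prof_lin ok1 (abs_le.2 ⟨by linarith, hx'⟩)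
  have h2 : X1 x y = -(x + y) := by
    have : psi1 (y + 2 * x) = 1 * (y + 2 * x) :=
      prof_lin ok2 (abs_le.2 ⟨by linarith, by linarith⟩)
    unfold X1; rw [h1, this]; ring
  have h3 : phi2 (-(x + y)) = -phi2 (x + y) := prof_neg ..
  have h4 := phi2_le (t := x + y) (by linarith)
  have h5 : Y2 x y = y + 2 * x - phi2 (x + y) := by unfold Y2; rw [h1, h2, h3]; ring
  have h6 : -y ≤ Y2 x y := by rw [h5]; linarith [h4.2]
  have h7 : Y2 x y ≤ 13 := by rw [h5]; linarith [h4.1]
  have h8 : -y ≤ psi2 (Y2 x y) := by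
    rcases le_total (Y2 x y) 1 with h | h
    · have : psi2 (Y2 x y) = 1 * Y2 x y := prof_lin ok4 (abs_le.2 ⟨by linarith, h⟩)
      rw [this]; linarith
    · have := psi2_ge h (by linarith)
      linarith
  unfold X2; rw [h2]; linarith

theorem val_b {x y : ℝ} (hx : 6 ≤ x) (hx' : x < 17) (hy : |y| ≤ 1) : X2 x y < -1 := by
  have hy' := abs_le.1 hy
  have h0 := abs_le.1 (abs_phi1 x)
  have h1 : 12 ≤ phi1 x := by
    have h1 : phi1 x = 2 * x * (1 - R 6 8 x) + 18 * R 6 8 x :=
      prof_mid ok1 (by linarith) (by linarith)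
    have h3 := R_nonneg 6 8 x
    have h4 := R_le_one 6 8 x
    rw [h1]; nlinarith
  have h2 : X1 x y ≤ x := by
    have : 0 ≤ psi1 (y + phi1 x) :=
      (prof_mem (K := 14) ok2 (by norm_num) (by norm_num) (by norm_num) (by norm_num)
        (by linarith)).1
    unfold X1; linarith
  have h3 := abs_le.1 (abs_phi2 (X1 x y))
  have h4 : psi2 (Y2 x y) = 18 :=
    prof_top ok4 (by unfold Y2; linarith) (by unfold Y2; linarith)
  unfold X2; rw [h4]; linarith

theorem cross_pos {x y : ℝ} (hx : 0 ≤ x) (hx' : x ≤ 34) (hy : |y| ≤ 1) (h : |X2 x y| ≤ 1) :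
    |x| ≤ 1 ∨ |x - 18| ≤ 1 := by
  have h' := abs_le.1 h
  rcases le_or_gt x 1 with h1 | h1
  · exact Or.inl (abs_le.2 ⟨by linarith, h1⟩)
  rcases le_or_gt x 6 with h2 | h2
  · linarith [val_a h1 h2 hy, h'.1]
  rcases lt_or_ge x 17 with h3 | h3
  · linarith [val_b h2.le h3 hy, h'.1]
  · right
    rwa [(val_right (by linarith) hx' hy).1] at h

/- ## Smoothness -/

theorem fderiv_v {f k : ℝ → ℝ} (hf : ContDiff ℝ 1 f) (hk : ContDiff ℝ 1 k) (z : ℝ × ℝ) :
    fderiv ℝ (fun z : ℝ × ℝ => f z.1 * k z.2) z (0, 1) = f z.1 * deriv k z.2 := by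
  have h1 : HasDerivAt f (deriv f z.1) z.1 := (hf.differentiable (by norm_num) z.1).hasDerivAt
  have h2 : HasDerivAt k (deriv k z.2) z.2 := (hk.differentiable (by norm_num) z.2).hasDerivAt
  have h3 := (h1.hasFDerivAt.comp z hasFDerivAt_fst).mul (h2.hasFDerivAt.comp z hasFDerivAt_snd)
  have h4 : fderiv ℝ (fun z : ℝ × ℝ => f z.1 * k z.2) z = _ := h3.fderiv
  rw [h4]; simp

theorem fderiv_h {f k : ℝ → ℝ} (hf : ContDiff ℝ 1 f) (hk : ContDiff ℝ 1 k) (z : ℝ × ℝ) :
    fderiv ℝ (fun z : ℝ × ℝ => f z.2 * k z.1) z (1, 0) = f z.2 * deriv k z.1 := by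
  have h1 : HasDerivAt f (deriv f z.2) z.2 := (hf.differentiable (by norm_num) z.2).hasDerivAt
  have h2 : HasDerivAt k (deriv k z.1) z.1 := (hk.differentiable (by norm_num) z.1).hasDerivAt
  have h3 := (h1.hasFDerivAt.comp z hasFDerivAt_snd).mul (h2.hasFDerivAt.comp z hasFDerivAt_fst)
  have h4 : fderiv ℝ (fun z : ℝ × ℝ => f z.2 * k z.1) z = _ := h3.fderiv
  rw [h4]; simp

theorem half_bd {a s : ℝ} (ha : |a| ≤ 18) : |a * deriv chi s| ≤ 1 / 2 := by
  rw [abs_mul]
  have := abs_deriv_chi s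
  nlinarith [abs_nonneg a, abs_nonneg (deriv chi s)]

theorem c1 : ContDiff ℝ 1 phi1 := contDiff_prof ..
theorem c2 : ContDiff ℝ 1 psi1 := contDiff_prof ..
theorem c3 : ContDiff ℝ 1 phi2 := contDiff_prof ..
theorem c4 : ContDiff ℝ 1 psi2 := contDiff_prof ..

theorem gm_smooth (p : Fin 4) : ContDiff ℝ 1 (gm p) := by
  fin_cases p
  · exact (c1.comp contDiff_fst).mul (contDiff_chi.comp contDiff_snd)
  · exact (c2.comp contDiff_snd).neg.mul (contDiff_chi.comp contDiff_fst)
  · exact (c3.comp contDiff_fst).mul (contDiff_chi.comp contDiff_snd)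
  · exact (c4.comp contDiff_snd).neg.mul (contDiff_chi.comp contDiff_fst)

theorem gm_supp (p : Fin 4) (z : ℝ × ℝ) (h : 139 ≤ ‖z‖) : gm p z = 0 := by
  rw [Prod.norm_def, le_max_iff, Real.norm_eq_abs, Real.norm_eq_abs] at h
  fin_cases p
  · show phi1 z.1 * chi z.2 = 0
    rcases h with h | h
    · rw [show phi1 z.1 = 0 from prof_far ok1 (by linarith), zero_mul]
    · rw [chi_zero (by linarith), mul_zero]
  · show -psi1 z.2 * chi z.1 = 0
    rcases h with h | h
    · rw [chi_zero (by linarith), mul_zero]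
    · rw [show psi1 z.2 = 0 from prof_far ok2 (by linarith), neg_zero, zero_mul]
  · show phi2 z.1 * chi z.2 = 0
    rcases h with h | h
    · rw [show phi2 z.1 = 0 from prof_far ok3 (by linarith), zero_mul]
    · rw [chi_zero (by linarith), mul_zero]
  · show -psi2 z.2 * chi z.1 = 0
    rcases h with h | h
    · rw [chi_zero (by linarith), mul_zero]
    · rw [show psi2 z.2 = 0 from prof_far ok4 (by linarith), neg_zero, zero_mul]

theorem gm_half (p : Fin 4) (z : ℝ × ℝ) : |fderiv ℝ (gm p) z (dir p)| ≤ 1 / 2 := by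
  fin_cases p
  · show |fderiv ℝ (fun z : ℝ × ℝ => phi1 z.1 * chi z.2) z (0, 1)| ≤ 1 / 2
    rw [fderiv_v c1 contDiff_chi]; exact half_bd (abs_phi1 _)
  · show |fderiv ℝ (fun z : ℝ × ℝ => (fun t => -psi1 t) z.2 * chi z.1) z (1, 0)| ≤ 1 / 2
    rw [fderiv_h c2.neg contDiff_chi]
    exact half_bd (by rw [abs_neg]; linarith [abs_psi1 z.2])
  · show |fderiv ℝ (fun z : ℝ × ℝ => phi2 z.1 * chi z.2) z (0, 1)| ≤ 1 / 2
    rw [fderiv_v c3 contDiff_chi]; exact half_bd (by linarith [abs_phi2 z.1])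
  · show |fderiv ℝ (fun z : ℝ × ℝ => (fun t => -psi2 t) z.2 * chi z.1) z (1, 0)| ≤ 1 / 2
    rw [fderiv_h c4.neg contDiff_chi]
    exact half_bd (by rw [abs_neg]; exact abs_psi2 _)

theorem gm_bound : ∃ C : ℝ, ∀ p z, ‖fderiv ℝ (gm p) z‖ ≤ C := by
  have h : ∀ p, ∃ C : ℝ, ∀ z, ‖fderiv ℝ (gm p) z‖ ≤ C := fun p => by
    have hc : HasCompactSupport (gm p) := by
      refine HasCompactSupport.intro (isCompact_closedBall (0 : ℝ × ℝ) 139) fun z hz => ?_
      rw [Metric.mem_closedBall, dist_zero_right, not_le] at hz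
      exact gm_supp p z hz.le
    exact ((gm_smooth p).continuous_fderiv (by norm_num)).bounded_above_of_compact_support
      (hc.fderiv ℝ)
  choose C hC using h
  exact ⟨∑ p, |C p|, fun p z => (hC p z).trans ((le_abs_self _).trans
    (Finset.single_le_sum (f := fun p => |C p|) (fun _ _ => abs_nonneg _) (Finset.mem_univ p)))⟩

theorem thm_model : S_model := by
  obtain ⟨C, hC⟩ := gm_bound
  refine ⟨gm, C, gm_smooth, hC, gm_supp, gm_half, ?_, ?_, ?_, ?_⟩
  · rintro L hL ⟨x, y⟩ hy h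
    simp only at hy ⊢
    rcases le_or_gt |x| 34 with hx | hx
    · rw [zig_near hL x y hy hx] at h
      simp only at h
      have hx' := abs_le.1 hx
      rcases le_total 0 x with h0 | h0
      · exact Or.inr (cross_pos h0 hx'.2 hy h)
      · have h1 : |X2 (-x) (-y)| ≤ 1 := by rwa [X2_neg, abs_neg]
        rcases cross_pos (x := -x) (by linarith) (by linarith) (by rwa [abs_neg]) h1 with h2 | h2
        · exact Or.inr (Or.inl (by rwa [abs_neg] at h2))
        · left
          rwa [show -x - 18 = -(x + 18) by ring, abs_neg] at h2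
    · exfalso
      obtain ⟨x1, x2, h1, h2, -, e⟩ := zig_eq hL x y hy
      rw [e] at h
      simp only at h
      have h3 := abs_le.1 h
      have h4 := abs_le.1 h1
      have h5 := abs_le.1 h2
      rcases lt_abs.1 hx with h6 | h6 <;> linarith [h3.1, h3.2, h4.1, h4.2, h5.1, h5.2]
  · rintro L hL ⟨x, y⟩ hx hy
    simp only at hx hy ⊢
    have hx' := abs_le.1 hx
    rw [zig_near hL x y hy (abs_le.2 ⟨by linarith, by linarith⟩)]
    have h := val_right (x := -x) (y := -y) (by linarith) (by linarith) (by rwa [abs_neg])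
    rw [X2_neg, Y2_neg] at h
    exact Prod.ext (by simp only; linarith [h.1]) (by simp only; linarith [h.2])
  · rintro L hL ⟨x, y⟩ hx hy
    simp only at hx hy ⊢
    rw [zig_near hL x y hy (by linarith)]
    have h := val_mid hx hy
    rw [h.1, h.2]
  · rintro L hL ⟨x, y⟩ hx hy
    simp only at hx hy ⊢
    have hx' := abs_le.1 hx
    rw [zig_near hL x y hy (abs_le.2 ⟨by linarith, by linarith⟩)]
    have h := val_right (x := x) (y := y) (by linarith) (by linarith) hy
    rw [h.1, h.2]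

end Pool.Agent.H20Z.Zig
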